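import Mathlib

/-!
# Enumeration of integral vectors satisfying linear conditions
-/

set_option autoImplicit false

namespace Pool.Agent.K9

/-- the scalar product -/
def dot : List ℤ → List ℤ → ℤ
  | a :: l, b :: m => a * b + dot l m
  | _, _ => 0

/-- a sum of vectors -/
def ladd : List ℤ → List ℤ → List ℤ
  | a :: l, b :: m => (a + b) :: ladd l m
  | [], m => m
  | l, [] => l

/-- a linear combination of vectors -/
def lcomb : List ℤ → List (List ℤ) → List ℤ
  | c :: cs, r :: rs => ladd (r.map (fun x => c * x)) (lcomb cs rs)
  | _, _ => []

lemma dot_ladd (l m v : List ℤ) : dot (ladd l m) v = dot l v + dot m v := by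
  induction l generalizing m v with
  | nil => cases m <;> simp [ladd, dot]
  | cons a l ih =>
    cases m with
    | nil => simp [ladd, dot]
    | cons b m =>
      cases v with
      | nil => simp [ladd, dot]
      | cons x v =>
        show (a + b) * x + dot (ladd l m) v = a * x + dot l v + (b * x + dot m v)
        rw [ih]; ring

lemma dot_smul (c : ℤ) (l v : List ℤ) : dot (l.map (fun x => c * x)) v = c * dot l v := by
  induction l generalizing v with
  | nil => simp [dot]
  | cons a l ih =>
    cases v with
    | nil => simp [dot]
    | cons x v =>
      show c * a * x + dot (l.map (fun x => c * x)) v = c * (a * x + dot l v)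
      rw [ih]; ring

lemma dot_lcomb (cs : List ℤ) (rs : List (List ℤ)) (v : List ℤ) (h : ∀ r ∈ rs, dot r v = 0) :
    dot (lcomb cs rs) v = 0 := by
  induction cs generalizing rs with
  | nil => simp [lcomb, dot]
  | cons c cs ih =>
    cases rs with
    | nil => simp [lcomb, dot]
    | cons r rs =>
      show dot (ladd (r.map (fun x => c * x)) (lcomb cs rs)) v = 0
      rw [dot_ladd, dot_smul, h r (by simp), ih rs (fun r hr => h r (by simp [hr]))]
      ring

lemma dot_drop (r : List ℤ) (t : ℕ) (v : List ℤ) :
    dot r (v.drop t) = dot (List.replicate t 0 ++ r) v := by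
  induction t generalizing v with
  | zero => simp
  | succ t ih =>
    cases v with
    | nil => simp [dot]
    | cons x v =>
      rw [List.drop_succ_cons, ih, List.replicate_succ, List.cons_append]
      show _ = 0 * x + dot (List.replicate t 0 ++ r) v
      ring

/-- the conditions at one level -/
def okl (rs : List (List ℤ)) (l : List ℤ) : Bool := rs.all (fun r => dot r l == 0)

/-- vectors with given positive and negative part -/
def en (chk : List ℤ → Bool) : List (Bool × List (List ℤ)) → ℕ → ℕ → List ℤ → Bool
  | [], p, q, l => !(p == 0 && q == 0) || chk l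
  | (true, rs) :: ms, p, q, l => !(okl rs (0 :: l)) || en chk ms p q (0 :: l)
  | (false, rs) :: ms, p, q, l =>
    (List.range (p + 1)).all (fun v => !(okl rs (Int.ofNat v :: l)) ||
      en chk ms (p - v) q (Int.ofNat v :: l)) &&
    (List.range q).all (fun v => !(okl rs (Int.negSucc v :: l)) ||
      en chk ms p (q - (v + 1)) (Int.negSucc v :: l))

/-- the positive part -/
def pos (l : List ℤ) : ℕ := (l.map Int.toNat).sum

/-- the negative part -/
def neg (l : List ℤ) : ℕ := (l.map (fun x => (-x).toNat)).sum

/-- a vector satisfying the conditions of the levels -/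
def Good : List (Bool × List (List ℤ)) → List ℤ → List ℤ → Prop
  | [], [], _ => True
  | (b, rs) :: ms, x :: v, l => (b = true → x = 0) ∧ okl rs (x :: l) = true ∧ Good ms v (x :: l)
  | _, _, _ => False

theorem en_spec (chk : List ℤ → Bool) (ms : List (Bool × List (List ℤ))) :
    ∀ (p q : ℕ) (l : List ℤ), en chk ms p q l = true → ∀ v : List ℤ,
      Good ms v l → pos v = p → neg v = q → chk (v.reverse ++ l) = true := by
  induction ms with
  | nil =>
    intro p q l h v hv hp hq
    cases v with
    | cons x v => exact absurd hv (by simp [Good])
    | nil =>
      unfold en at h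
      have h1 : p = 0 := hp.symm
      have h2 : q = 0 := hq.symm
      rw [h1, h2] at h
      simpa using h
  | cons b ms ih =>
    obtain ⟨b, rs⟩ := b
    intro p q l h v hv hp hq
    cases v with
    | nil => exact absurd hv (by simp [Good])
    | cons x v =>
      obtain ⟨hb, hr, hv⟩ := hv
      rw [List.reverse_cons, List.append_assoc, List.singleton_append]
      cases b with
      | true =>
        have hx := hb rfl
        subst hx
        unfold en at h
        rw [hr] at h
        simp only [Bool.not_true, Bool.false_or] at h
        refine ih p q _ h v hv ?_ ?_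
        · rw [← hp]; simp [pos]
        · rw [← hq]; simp [neg]
      | false =>
        unfold en at h
        rw [Bool.and_eq_true] at h
        obtain ⟨h1, h2⟩ := h
        rw [List.all_eq_true] at h1 h2
        rcases x with m | m
        · have hp' : m + pos v = p := by rw [← hp]; simp [pos]
          have hq' : neg v = q := by rw [← hq]; simp [neg]
          have h3 := h1 m (List.mem_range.mpr (by omega))
          rw [hr] at h3
          simp only [Bool.not_true, Bool.false_or] at h3
          exact ih (p - m) q _ h3 v hv (by omega) hq'
        · have hp' : pos v = p := by rw [← hp]; simp [pos]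
          have hq' : m + 1 + neg v = q := by
            rw [← hq]
            have : (-(Int.negSucc m)).toNat = m + 1 := by rw [Int.neg_negSucc]; rfl
            simp only [neg, List.map_cons, List.sum_cons, this]
          have h3 := h2 m (List.mem_range.mpr (by omega))
          rw [hr] at h3
          simp only [Bool.not_true, Bool.false_or] at h3
          exact ih p (q - (m + 1)) _ h3 v hv hp' (by omega)

/-- the mask and the pruning rows hold for the vector `w` -/
def Lev (w : List ℤ) : List (Bool × List (List ℤ)) → Prop
  | [] => True
  | (b, rs) :: ms => (b = true → w.getD ms.length 0 = 0) ∧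
      (∀ r ∈ rs, dot (List.replicate ms.length 0 ++ r) w = 0) ∧ Lev w ms

lemma good_of_lev (w : List ℤ) (ms : List (Bool × List (List ℤ))) (hl : ms.length ≤ w.length)
    (h : Lev w ms) : Good ms (w.take ms.length).reverse (w.drop ms.length) := by
  induction ms with
  | nil => simp [Good]
  | cons b ms ih =>
    obtain ⟨b, rs⟩ := b
    obtain ⟨h1, h2, h3⟩ := h
    rw [List.length_cons] at hl ⊢
    have hlt : ms.length < w.length := by omega
    have e1 : (w.take (ms.length + 1)).reverse = w[ms.length] :: (w.take ms.length).reverse := by
      rw [List.take_add_one, List.getElem?_eq_getElem hlt]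
      simp
    have e2 : w.drop ms.length = w[ms.length] :: w.drop (ms.length + 1) :=
      List.drop_eq_getElem_cons hlt
    rw [e1]
    refine ⟨fun hb => ?_, ?_, ?_⟩
    · rw [← h1 hb, List.getD_eq_getElem _ _ hlt]
    · rw [← e2]
      unfold okl
      rw [List.all_eq_true]
      intro r hr
      rw [beq_iff_eq, dot_drop]
      exact h2 r hr
    · rw [← e2]
      exact ih (by omega) h3

/-- **enumeration** -/
theorem en_all {chk : List ℤ → Bool} {ms : List (Bool × List (List ℤ))} {n : ℕ} {w : List ℤ}
    (h : en chk ms n n [] = true) (hl : ms.length = w.length) (hw : Lev w ms)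
    (hp : pos w = n) (hn : neg w = n) : chk w = true := by
  have h1 := good_of_lev w ms hl.le hw
  rw [hl, List.take_length, List.drop_length] at h1
  have p1 : pos w.reverse = n := by
    rw [← hp]; unfold pos; rw [List.map_reverse, List.sum_reverse]
  have p2 : neg w.reverse = n := by
    rw [← hn]; unfold neg; rw [List.map_reverse, List.sum_reverse]
  have h2 := en_spec chk ms n n [] h w.reverse h1 p1 p2
  simpa using h2

end Pool.Agent.K9
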