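import Pool.Agent.Lib_helper60.K9.Tb
import Pool.Agent.Lib_helper60.K9.L

/-!
# A point of order nine, `d = 2`: the checks
-/

set_option autoImplicit false

namespace Pool.Agent.K9

open Pool.Agent.KC72

/-- the orders of the units -/
def orow : List (List ℤ) := [
    [.negSucc 1, .negSucc 1, .negSucc 1, .negSucc 1, .negSucc 2, .negSucc 2, .negSucc 2, .negSucc 2],
    [.ofNat 1, .ofNat 0, .ofNat 0, .ofNat 0, .ofNat 0, .ofNat 0, .ofNat 0, .ofNat 0],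
    [.ofNat 0, .ofNat 1, .ofNat 0, .ofNat 0, .ofNat 1, .ofNat 0, .ofNat 0, .ofNat 0],
    [.ofNat 0, .ofNat 0, .ofNat 1, .ofNat 0, .ofNat 0, .ofNat 1, .ofNat 0, .ofNat 0],
    [.ofNat 0, .ofNat 0, .ofNat 0, .ofNat 1, .ofNat 0, .ofNat 0, .ofNat 1, .ofNat 0],
    [.ofNat 0, .ofNat 0, .ofNat 0, .ofNat 1, .ofNat 0, .ofNat 0, .ofNat 0, .ofNat 2],
    [.ofNat 0, .ofNat 0, .ofNat 1, .ofNat 0, .ofNat 0, .ofNat 0, .ofNat 1, .ofNat 0],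
    [.ofNat 0, .ofNat 1, .ofNat 0, .ofNat 0, .ofNat 0, .ofNat 1, .ofNat 0, .ofNat 0],
    [.ofNat 1, .ofNat 0, .ofNat 0, .ofNat 0, .ofNat 2, .ofNat 1, .ofNat 1, .ofNat 1]]

/-- the divisor of a monomial -/
def divl (ex : List ℤ) : List ℤ := orow.map (fun r => dot r ex)

/-- the divisors of the classes -/
def dcl : List (List ℤ × List ℤ) := [
    ([.ofNat 0, .negSucc 1, .ofNat 0, .ofNat 0, .ofNat 0, .ofNat 1, .ofNat 1, .ofNat 0, .ofNat 0],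
      [.ofNat 0, .negSucc 1, .ofNat 0, .ofNat 0, .ofNat 1, .ofNat 0, .ofNat 0, .ofNat 1, .ofNat 0]),
    ([.ofNat 0, .negSucc 1, .ofNat 0, .ofNat 0, .ofNat 0, .ofNat 1, .ofNat 1, .ofNat 0, .ofNat 0],
      [.ofNat 0, .negSucc 1, .ofNat 0, .ofNat 1, .ofNat 0, .ofNat 0, .ofNat 0, .ofNat 0, .ofNat 1]),
    ([.ofNat 0, .negSucc 1, .ofNat 0, .ofNat 0, .ofNat 0, .ofNat 1, .ofNat 1, .ofNat 0, .ofNat 0],
      [.ofNat 1, .negSucc 1, .ofNat 1, .ofNat 0, .ofNat 0, .ofNat 0, .ofNat 0, .ofNat 0, .ofNat 0]),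
    ([.ofNat 0, .negSucc 1, .ofNat 0, .ofNat 0, .ofNat 1, .ofNat 0, .ofNat 0, .ofNat 1, .ofNat 0],
      [.ofNat 0, .negSucc 1, .ofNat 0, .ofNat 1, .ofNat 0, .ofNat 0, .ofNat 0, .ofNat 0, .ofNat 1]),
    ([.ofNat 0, .negSucc 1, .ofNat 0, .ofNat 0, .ofNat 1, .ofNat 0, .ofNat 0, .ofNat 1, .ofNat 0],
      [.ofNat 1, .negSucc 1, .ofNat 1, .ofNat 0, .ofNat 0, .ofNat 0, .ofNat 0, .ofNat 0, .ofNat 0]),
    ([.ofNat 0, .negSucc 1, .ofNat 0, .ofNat 1, .ofNat 0, .ofNat 0, .ofNat 0, .ofNat 0, .ofNat 1],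
      [.ofNat 1, .negSucc 1, .ofNat 1, .ofNat 0, .ofNat 0, .ofNat 0, .ofNat 0, .ofNat 0, .ofNat 0]),
    ([.ofNat 0, .ofNat 0, .ofNat 0, .ofNat 0, .ofNat 1, .negSucc 0, .negSucc 0, .ofNat 1, .ofNat 0],
      [.ofNat 0, .ofNat 0, .ofNat 0, .ofNat 1, .ofNat 0, .negSucc 0, .negSucc 0, .ofNat 0, .ofNat 1]),
    ([.ofNat 0, .ofNat 0, .ofNat 0, .ofNat 0, .ofNat 1, .negSucc 0, .negSucc 0, .ofNat 1, .ofNat 0],
      [.ofNat 1, .ofNat 0, .ofNat 1, .ofNat 0, .ofNat 0, .negSucc 0, .negSucc 0, .ofNat 0, .ofNat 0]),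
    ([.ofNat 0, .ofNat 0, .ofNat 0, .ofNat 1, .ofNat 0, .negSucc 0, .negSucc 0, .ofNat 0, .ofNat 1],
      [.ofNat 1, .ofNat 0, .ofNat 1, .ofNat 0, .ofNat 0, .negSucc 0, .negSucc 0, .ofNat 0, .ofNat 0]),
    ([.ofNat 0, .ofNat 0, .ofNat 0, .ofNat 1, .negSucc 0, .ofNat 0, .ofNat 0, .negSucc 0, .ofNat 1],
      [.ofNat 1, .ofNat 0, .ofNat 1, .ofNat 0, .negSucc 0, .ofNat 0, .ofNat 0, .negSucc 0, .ofNat 0]),
    ([.ofNat 0, .negSucc 0, .negSucc 0, .ofNat 0, .ofNat 0, .ofNat 0, .ofNat 2, .ofNat 0, .ofNat 0],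
      [.ofNat 0, .negSucc 0, .negSucc 0, .ofNat 0, .ofNat 0, .ofNat 1, .ofNat 0, .ofNat 1, .ofNat 0]),
    ([.ofNat 0, .negSucc 0, .negSucc 0, .ofNat 0, .ofNat 0, .ofNat 0, .ofNat 2, .ofNat 0, .ofNat 0],
      [.ofNat 0, .negSucc 0, .negSucc 0, .ofNat 0, .ofNat 1, .ofNat 0, .ofNat 0, .ofNat 0, .ofNat 1]),
    ([.ofNat 0, .negSucc 0, .negSucc 0, .ofNat 0, .ofNat 0, .ofNat 0, .ofNat 2, .ofNat 0, .ofNat 0],
      [.ofNat 1, .negSucc 0, .negSucc 0, .ofNat 1, .ofNat 0, .ofNat 0, .ofNat 0, .ofNat 0, .ofNat 0]),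
    ([.ofNat 0, .negSucc 0, .negSucc 0, .ofNat 0, .ofNat 0, .ofNat 1, .ofNat 0, .ofNat 1, .ofNat 0],
      [.ofNat 0, .negSucc 0, .negSucc 0, .ofNat 0, .ofNat 1, .ofNat 0, .ofNat 0, .ofNat 0, .ofNat 1]),
    ([.ofNat 0, .negSucc 0, .negSucc 0, .ofNat 0, .ofNat 0, .ofNat 1, .ofNat 0, .ofNat 1, .ofNat 0],
      [.ofNat 1, .negSucc 0, .negSucc 0, .ofNat 1, .ofNat 0, .ofNat 0, .ofNat 0, .ofNat 0, .ofNat 0]),
    ([.ofNat 0, .negSucc 0, .negSucc 0, .ofNat 0, .ofNat 1, .ofNat 0, .ofNat 0, .ofNat 0, .ofNat 1],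
      [.ofNat 1, .negSucc 0, .negSucc 0, .ofNat 1, .ofNat 0, .ofNat 0, .ofNat 0, .ofNat 0, .ofNat 0]),
    ([.ofNat 0, .ofNat 0, .ofNat 0, .ofNat 0, .ofNat 0, .ofNat 1, .negSucc 1, .ofNat 1, .ofNat 0],
      [.ofNat 0, .ofNat 0, .ofNat 0, .ofNat 0, .ofNat 1, .ofNat 0, .negSucc 1, .ofNat 0, .ofNat 1]),
    ([.ofNat 0, .ofNat 0, .ofNat 0, .ofNat 0, .ofNat 0, .ofNat 1, .negSucc 1, .ofNat 1, .ofNat 0],
      [.ofNat 1, .ofNat 0, .ofNat 0, .ofNat 1, .ofNat 0, .ofNat 0, .negSucc 1, .ofNat 0, .ofNat 0]),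
    ([.ofNat 0, .ofNat 0, .ofNat 0, .ofNat 0, .ofNat 1, .ofNat 0, .negSucc 1, .ofNat 0, .ofNat 1],
      [.ofNat 1, .ofNat 0, .ofNat 0, .ofNat 1, .ofNat 0, .ofNat 0, .negSucc 1, .ofNat 0, .ofNat 0]),
    ([.ofNat 0, .ofNat 0, .ofNat 0, .ofNat 0, .ofNat 1, .negSucc 0, .ofNat 0, .negSucc 0, .ofNat 1],
      [.ofNat 1, .ofNat 0, .ofNat 0, .ofNat 1, .ofNat 0, .negSucc 0, .ofNat 0, .negSucc 0, .ofNat 0]),
    ([.ofNat 0, .ofNat 1, .negSucc 1, .ofNat 1, .ofNat 0, .ofNat 0, .ofNat 0, .ofNat 0, .ofNat 0],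
      [.ofNat 0, .ofNat 0, .negSucc 1, .ofNat 0, .ofNat 0, .ofNat 0, .ofNat 1, .ofNat 1, .ofNat 0]),
    ([.ofNat 0, .ofNat 1, .negSucc 1, .ofNat 1, .ofNat 0, .ofNat 0, .ofNat 0, .ofNat 0, .ofNat 0],
      [.ofNat 0, .ofNat 0, .negSucc 1, .ofNat 0, .ofNat 0, .ofNat 1, .ofNat 0, .ofNat 0, .ofNat 1]),
    ([.ofNat 0, .ofNat 1, .negSucc 1, .ofNat 1, .ofNat 0, .ofNat 0, .ofNat 0, .ofNat 0, .ofNat 0],
      [.ofNat 1, .ofNat 0, .negSucc 1, .ofNat 0, .ofNat 1, .ofNat 0, .ofNat 0, .ofNat 0, .ofNat 0]),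
    ([.ofNat 0, .ofNat 0, .negSucc 1, .ofNat 0, .ofNat 0, .ofNat 0, .ofNat 1, .ofNat 1, .ofNat 0],
      [.ofNat 0, .ofNat 0, .negSucc 1, .ofNat 0, .ofNat 0, .ofNat 1, .ofNat 0, .ofNat 0, .ofNat 1]),
    ([.ofNat 0, .ofNat 0, .negSucc 1, .ofNat 0, .ofNat 0, .ofNat 0, .ofNat 1, .ofNat 1, .ofNat 0],
      [.ofNat 1, .ofNat 0, .negSucc 1, .ofNat 0, .ofNat 1, .ofNat 0, .ofNat 0, .ofNat 0, .ofNat 0]),
    ([.ofNat 0, .ofNat 0, .negSucc 1, .ofNat 0, .ofNat 0, .ofNat 1, .ofNat 0, .ofNat 0, .ofNat 1],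
      [.ofNat 1, .ofNat 0, .negSucc 1, .ofNat 0, .ofNat 1, .ofNat 0, .ofNat 0, .ofNat 0, .ofNat 0]),
    ([.ofNat 0, .negSucc 0, .ofNat 0, .negSucc 0, .ofNat 0, .ofNat 0, .ofNat 1, .ofNat 1, .ofNat 0],
      [.ofNat 0, .negSucc 0, .ofNat 0, .negSucc 0, .ofNat 0, .ofNat 1, .ofNat 0, .ofNat 0, .ofNat 1]),
    ([.ofNat 0, .negSucc 0, .ofNat 0, .negSucc 0, .ofNat 0, .ofNat 0, .ofNat 1, .ofNat 1, .ofNat 0],
      [.ofNat 1, .negSucc 0, .ofNat 0, .negSucc 0, .ofNat 1, .ofNat 0, .ofNat 0, .ofNat 0, .ofNat 0]),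
    ([.ofNat 0, .negSucc 0, .ofNat 0, .negSucc 0, .ofNat 0, .ofNat 1, .ofNat 0, .ofNat 0, .ofNat 1],
      [.ofNat 1, .negSucc 0, .ofNat 0, .negSucc 0, .ofNat 1, .ofNat 0, .ofNat 0, .ofNat 0, .ofNat 0]),
    ([.ofNat 0, .ofNat 0, .ofNat 0, .ofNat 0, .ofNat 0, .ofNat 1, .negSucc 0, .negSucc 0, .ofNat 1],
      [.ofNat 1, .ofNat 0, .ofNat 0, .ofNat 0, .ofNat 1, .ofNat 0, .negSucc 0, .negSucc 0, .ofNat 0]),
    ([.ofNat 0, .ofNat 1, .negSucc 0, .negSucc 0, .ofNat 1, .ofNat 0, .ofNat 0, .ofNat 0, .ofNat 0],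
      [.ofNat 0, .ofNat 0, .negSucc 0, .negSucc 0, .ofNat 0, .ofNat 0, .ofNat 0, .ofNat 2, .ofNat 0]),
    ([.ofNat 0, .ofNat 1, .negSucc 0, .negSucc 0, .ofNat 1, .ofNat 0, .ofNat 0, .ofNat 0, .ofNat 0],
      [.ofNat 0, .ofNat 0, .negSucc 0, .negSucc 0, .ofNat 0, .ofNat 0, .ofNat 1, .ofNat 0, .ofNat 1]),
    ([.ofNat 0, .ofNat 1, .negSucc 0, .negSucc 0, .ofNat 1, .ofNat 0, .ofNat 0, .ofNat 0, .ofNat 0],
      [.ofNat 1, .ofNat 0, .negSucc 0, .negSucc 0, .ofNat 0, .ofNat 1, .ofNat 0, .ofNat 0, .ofNat 0]),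
    ([.ofNat 0, .ofNat 0, .negSucc 0, .negSucc 0, .ofNat 0, .ofNat 0, .ofNat 0, .ofNat 2, .ofNat 0],
      [.ofNat 0, .ofNat 0, .negSucc 0, .negSucc 0, .ofNat 0, .ofNat 0, .ofNat 1, .ofNat 0, .ofNat 1]),
    ([.ofNat 0, .ofNat 0, .negSucc 0, .negSucc 0, .ofNat 0, .ofNat 0, .ofNat 0, .ofNat 2, .ofNat 0],
      [.ofNat 1, .ofNat 0, .negSucc 0, .negSucc 0, .ofNat 0, .ofNat 1, .ofNat 0, .ofNat 0, .ofNat 0]),
    ([.ofNat 0, .ofNat 0, .negSucc 0, .negSucc 0, .ofNat 0, .ofNat 0, .ofNat 1, .ofNat 0, .ofNat 1],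
      [.ofNat 1, .ofNat 0, .negSucc 0, .negSucc 0, .ofNat 0, .ofNat 1, .ofNat 0, .ofNat 0, .ofNat 0]),
    ([.ofNat 0, .negSucc 0, .ofNat 0, .ofNat 0, .negSucc 0, .ofNat 0, .ofNat 0, .ofNat 2, .ofNat 0],
      [.ofNat 0, .negSucc 0, .ofNat 0, .ofNat 0, .negSucc 0, .ofNat 0, .ofNat 1, .ofNat 0, .ofNat 1]),
    ([.ofNat 0, .negSucc 0, .ofNat 0, .ofNat 0, .negSucc 0, .ofNat 0, .ofNat 0, .ofNat 2, .ofNat 0],
      [.ofNat 1, .negSucc 0, .ofNat 0, .ofNat 0, .negSucc 0, .ofNat 1, .ofNat 0, .ofNat 0, .ofNat 0]),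
    ([.ofNat 0, .negSucc 0, .ofNat 0, .ofNat 0, .negSucc 0, .ofNat 0, .ofNat 1, .ofNat 0, .ofNat 1],
      [.ofNat 1, .negSucc 0, .ofNat 0, .ofNat 0, .negSucc 0, .ofNat 1, .ofNat 0, .ofNat 0, .ofNat 0]),
    ([.ofNat 0, .ofNat 0, .ofNat 0, .ofNat 0, .ofNat 0, .ofNat 0, .ofNat 1, .negSucc 1, .ofNat 1],
      [.ofNat 1, .ofNat 0, .ofNat 0, .ofNat 0, .ofNat 0, .ofNat 1, .ofNat 0, .negSucc 1, .ofNat 0]),
    ([.ofNat 0, .ofNat 0, .ofNat 1, .negSucc 1, .ofNat 1, .ofNat 0, .ofNat 0, .ofNat 0, .ofNat 0],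
      [.ofNat 0, .ofNat 1, .ofNat 0, .negSucc 1, .ofNat 0, .ofNat 1, .ofNat 0, .ofNat 0, .ofNat 0]),
    ([.ofNat 0, .ofNat 0, .ofNat 1, .negSucc 1, .ofNat 1, .ofNat 0, .ofNat 0, .ofNat 0, .ofNat 0],
      [.ofNat 0, .ofNat 0, .ofNat 0, .negSucc 1, .ofNat 0, .ofNat 0, .ofNat 0, .ofNat 1, .ofNat 1]),
    ([.ofNat 0, .ofNat 0, .ofNat 1, .negSucc 1, .ofNat 1, .ofNat 0, .ofNat 0, .ofNat 0, .ofNat 0],
      [.ofNat 1, .ofNat 0, .ofNat 0, .negSucc 1, .ofNat 0, .ofNat 0, .ofNat 1, .ofNat 0, .ofNat 0]),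
    ([.ofNat 0, .ofNat 1, .ofNat 0, .negSucc 1, .ofNat 0, .ofNat 1, .ofNat 0, .ofNat 0, .ofNat 0],
      [.ofNat 0, .ofNat 0, .ofNat 0, .negSucc 1, .ofNat 0, .ofNat 0, .ofNat 0, .ofNat 1, .ofNat 1]),
    ([.ofNat 0, .ofNat 1, .ofNat 0, .negSucc 1, .ofNat 0, .ofNat 1, .ofNat 0, .ofNat 0, .ofNat 0],
      [.ofNat 1, .ofNat 0, .ofNat 0, .negSucc 1, .ofNat 0, .ofNat 0, .ofNat 1, .ofNat 0, .ofNat 0]),
    ([.ofNat 0, .ofNat 0, .ofNat 0, .negSucc 1, .ofNat 0, .ofNat 0, .ofNat 0, .ofNat 1, .ofNat 1],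
      [.ofNat 1, .ofNat 0, .ofNat 0, .negSucc 1, .ofNat 0, .ofNat 0, .ofNat 1, .ofNat 0, .ofNat 0]),
    ([.ofNat 0, .ofNat 1, .negSucc 0, .ofNat 0, .negSucc 0, .ofNat 1, .ofNat 0, .ofNat 0, .ofNat 0],
      [.ofNat 0, .ofNat 0, .negSucc 0, .ofNat 0, .negSucc 0, .ofNat 0, .ofNat 0, .ofNat 1, .ofNat 1]),
    ([.ofNat 0, .ofNat 1, .negSucc 0, .ofNat 0, .negSucc 0, .ofNat 1, .ofNat 0, .ofNat 0, .ofNat 0],
      [.ofNat 1, .ofNat 0, .negSucc 0, .ofNat 0, .negSucc 0, .ofNat 0, .ofNat 1, .ofNat 0, .ofNat 0]),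
    ([.ofNat 0, .ofNat 0, .negSucc 0, .ofNat 0, .negSucc 0, .ofNat 0, .ofNat 0, .ofNat 1, .ofNat 1],
      [.ofNat 1, .ofNat 0, .negSucc 0, .ofNat 0, .negSucc 0, .ofNat 0, .ofNat 1, .ofNat 0, .ofNat 0]),
    ([.ofNat 0, .negSucc 0, .ofNat 0, .ofNat 0, .ofNat 0, .negSucc 0, .ofNat 0, .ofNat 1, .ofNat 1],
      [.ofNat 1, .negSucc 0, .ofNat 0, .ofNat 0, .ofNat 0, .negSucc 0, .ofNat 1, .ofNat 0, .ofNat 0]),
    ([.ofNat 0, .ofNat 0, .ofNat 1, .negSucc 0, .negSucc 0, .ofNat 1, .ofNat 0, .ofNat 0, .ofNat 0],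
      [.ofNat 0, .ofNat 1, .ofNat 0, .negSucc 0, .negSucc 0, .ofNat 0, .ofNat 1, .ofNat 0, .ofNat 0]),
    ([.ofNat 0, .ofNat 0, .ofNat 1, .negSucc 0, .negSucc 0, .ofNat 1, .ofNat 0, .ofNat 0, .ofNat 0],
      [.ofNat 0, .ofNat 0, .ofNat 0, .negSucc 0, .negSucc 0, .ofNat 0, .ofNat 0, .ofNat 0, .ofNat 2]),
    ([.ofNat 0, .ofNat 0, .ofNat 1, .negSucc 0, .negSucc 0, .ofNat 1, .ofNat 0, .ofNat 0, .ofNat 0],
      [.ofNat 1, .ofNat 0, .ofNat 0, .negSucc 0, .negSucc 0, .ofNat 0, .ofNat 0, .ofNat 1, .ofNat 0]),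
    ([.ofNat 0, .ofNat 1, .ofNat 0, .negSucc 0, .negSucc 0, .ofNat 0, .ofNat 1, .ofNat 0, .ofNat 0],
      [.ofNat 0, .ofNat 0, .ofNat 0, .negSucc 0, .negSucc 0, .ofNat 0, .ofNat 0, .ofNat 0, .ofNat 2]),
    ([.ofNat 0, .ofNat 1, .ofNat 0, .negSucc 0, .negSucc 0, .ofNat 0, .ofNat 1, .ofNat 0, .ofNat 0],
      [.ofNat 1, .ofNat 0, .ofNat 0, .negSucc 0, .negSucc 0, .ofNat 0, .ofNat 0, .ofNat 1, .ofNat 0]),
    ([.ofNat 0, .ofNat 0, .ofNat 0, .negSucc 0, .negSucc 0, .ofNat 0, .ofNat 0, .ofNat 0, .ofNat 2],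
      [.ofNat 1, .ofNat 0, .ofNat 0, .negSucc 0, .negSucc 0, .ofNat 0, .ofNat 0, .ofNat 1, .ofNat 0]),
    ([.ofNat 0, .ofNat 1, .negSucc 0, .ofNat 0, .ofNat 0, .negSucc 0, .ofNat 1, .ofNat 0, .ofNat 0],
      [.ofNat 0, .ofNat 0, .negSucc 0, .ofNat 0, .ofNat 0, .negSucc 0, .ofNat 0, .ofNat 0, .ofNat 2]),
    ([.ofNat 0, .ofNat 1, .negSucc 0, .ofNat 0, .ofNat 0, .negSucc 0, .ofNat 1, .ofNat 0, .ofNat 0],
      [.ofNat 1, .ofNat 0, .negSucc 0, .ofNat 0, .ofNat 0, .negSucc 0, .ofNat 0, .ofNat 1, .ofNat 0]),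
    ([.ofNat 0, .ofNat 0, .negSucc 0, .ofNat 0, .ofNat 0, .negSucc 0, .ofNat 0, .ofNat 0, .ofNat 2],
      [.ofNat 1, .ofNat 0, .negSucc 0, .ofNat 0, .ofNat 0, .negSucc 0, .ofNat 0, .ofNat 1, .ofNat 0]),
    ([.ofNat 0, .negSucc 0, .ofNat 0, .ofNat 0, .ofNat 0, .ofNat 0, .negSucc 0, .ofNat 0, .ofNat 2],
      [.ofNat 1, .negSucc 0, .ofNat 0, .ofNat 0, .ofNat 0, .ofNat 0, .negSucc 0, .ofNat 1, .ofNat 0]),
    ([.ofNat 0, .ofNat 0, .ofNat 0, .ofNat 1, .negSucc 1, .ofNat 1, .ofNat 0, .ofNat 0, .ofNat 0],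
      [.ofNat 0, .ofNat 0, .ofNat 1, .ofNat 0, .negSucc 1, .ofNat 0, .ofNat 1, .ofNat 0, .ofNat 0]),
    ([.ofNat 0, .ofNat 0, .ofNat 0, .ofNat 1, .negSucc 1, .ofNat 1, .ofNat 0, .ofNat 0, .ofNat 0],
      [.ofNat 0, .ofNat 1, .ofNat 0, .ofNat 0, .negSucc 1, .ofNat 0, .ofNat 0, .ofNat 1, .ofNat 0]),
    ([.ofNat 0, .ofNat 0, .ofNat 0, .ofNat 1, .negSucc 1, .ofNat 1, .ofNat 0, .ofNat 0, .ofNat 0],
      [.ofNat 1, .ofNat 0, .ofNat 0, .ofNat 0, .negSucc 1, .ofNat 0, .ofNat 0, .ofNat 0, .ofNat 1]),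
    ([.ofNat 0, .ofNat 0, .ofNat 1, .ofNat 0, .negSucc 1, .ofNat 0, .ofNat 1, .ofNat 0, .ofNat 0],
      [.ofNat 0, .ofNat 1, .ofNat 0, .ofNat 0, .negSucc 1, .ofNat 0, .ofNat 0, .ofNat 1, .ofNat 0]),
    ([.ofNat 0, .ofNat 0, .ofNat 1, .ofNat 0, .negSucc 1, .ofNat 0, .ofNat 1, .ofNat 0, .ofNat 0],
      [.ofNat 1, .ofNat 0, .ofNat 0, .ofNat 0, .negSucc 1, .ofNat 0, .ofNat 0, .ofNat 0, .ofNat 1]),
    ([.ofNat 0, .ofNat 1, .ofNat 0, .ofNat 0, .negSucc 1, .ofNat 0, .ofNat 0, .ofNat 1, .ofNat 0],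
      [.ofNat 1, .ofNat 0, .ofNat 0, .ofNat 0, .negSucc 1, .ofNat 0, .ofNat 0, .ofNat 0, .ofNat 1]),
    ([.ofNat 0, .ofNat 0, .ofNat 1, .negSucc 0, .ofNat 0, .negSucc 0, .ofNat 1, .ofNat 0, .ofNat 0],
      [.ofNat 0, .ofNat 1, .ofNat 0, .negSucc 0, .ofNat 0, .negSucc 0, .ofNat 0, .ofNat 1, .ofNat 0]),
    ([.ofNat 0, .ofNat 0, .ofNat 1, .negSucc 0, .ofNat 0, .negSucc 0, .ofNat 1, .ofNat 0, .ofNat 0],
      [.ofNat 1, .ofNat 0, .ofNat 0, .negSucc 0, .ofNat 0, .negSucc 0, .ofNat 0, .ofNat 0, .ofNat 1]),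
    ([.ofNat 0, .ofNat 1, .ofNat 0, .negSucc 0, .ofNat 0, .negSucc 0, .ofNat 0, .ofNat 1, .ofNat 0],
      [.ofNat 1, .ofNat 0, .ofNat 0, .negSucc 0, .ofNat 0, .negSucc 0, .ofNat 0, .ofNat 0, .ofNat 1]),
    ([.ofNat 0, .ofNat 1, .negSucc 0, .ofNat 0, .ofNat 0, .ofNat 0, .negSucc 0, .ofNat 1, .ofNat 0],
      [.ofNat 1, .ofNat 0, .negSucc 0, .ofNat 0, .ofNat 0, .ofNat 0, .negSucc 0, .ofNat 0, .ofNat 1]),
    ([.ofNat 0, .ofNat 0, .ofNat 0, .ofNat 1, .negSucc 0, .negSucc 0, .ofNat 1, .ofNat 0, .ofNat 0],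
      [.ofNat 0, .ofNat 0, .ofNat 1, .ofNat 0, .negSucc 0, .negSucc 0, .ofNat 0, .ofNat 1, .ofNat 0]),
    ([.ofNat 0, .ofNat 0, .ofNat 0, .ofNat 1, .negSucc 0, .negSucc 0, .ofNat 1, .ofNat 0, .ofNat 0],
      [.ofNat 0, .ofNat 1, .ofNat 0, .ofNat 0, .negSucc 0, .negSucc 0, .ofNat 0, .ofNat 0, .ofNat 1]),
    ([.ofNat 0, .ofNat 0, .ofNat 0, .ofNat 1, .negSucc 0, .negSucc 0, .ofNat 1, .ofNat 0, .ofNat 0],
      [.ofNat 2, .ofNat 0, .ofNat 0, .ofNat 0, .negSucc 0, .negSucc 0, .ofNat 0, .ofNat 0, .ofNat 0]),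
    ([.ofNat 0, .ofNat 0, .ofNat 1, .ofNat 0, .negSucc 0, .negSucc 0, .ofNat 0, .ofNat 1, .ofNat 0],
      [.ofNat 0, .ofNat 1, .ofNat 0, .ofNat 0, .negSucc 0, .negSucc 0, .ofNat 0, .ofNat 0, .ofNat 1]),
    ([.ofNat 0, .ofNat 0, .ofNat 1, .ofNat 0, .negSucc 0, .negSucc 0, .ofNat 0, .ofNat 1, .ofNat 0],
      [.ofNat 2, .ofNat 0, .ofNat 0, .ofNat 0, .negSucc 0, .negSucc 0, .ofNat 0, .ofNat 0, .ofNat 0]),
    ([.ofNat 0, .ofNat 1, .ofNat 0, .ofNat 0, .negSucc 0, .negSucc 0, .ofNat 0, .ofNat 0, .ofNat 1],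
      [.ofNat 2, .ofNat 0, .ofNat 0, .ofNat 0, .negSucc 0, .negSucc 0, .ofNat 0, .ofNat 0, .ofNat 0]),
    ([.ofNat 0, .ofNat 0, .ofNat 1, .negSucc 0, .ofNat 0, .ofNat 0, .negSucc 0, .ofNat 1, .ofNat 0],
      [.ofNat 0, .ofNat 1, .ofNat 0, .negSucc 0, .ofNat 0, .ofNat 0, .negSucc 0, .ofNat 0, .ofNat 1]),
    ([.ofNat 0, .ofNat 0, .ofNat 1, .negSucc 0, .ofNat 0, .ofNat 0, .negSucc 0, .ofNat 1, .ofNat 0],
      [.ofNat 2, .ofNat 0, .ofNat 0, .negSucc 0, .ofNat 0, .ofNat 0, .negSucc 0, .ofNat 0, .ofNat 0]),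
    ([.ofNat 0, .ofNat 1, .ofNat 0, .negSucc 0, .ofNat 0, .ofNat 0, .negSucc 0, .ofNat 0, .ofNat 1],
      [.ofNat 2, .ofNat 0, .ofNat 0, .negSucc 0, .ofNat 0, .ofNat 0, .negSucc 0, .ofNat 0, .ofNat 0]),
    ([.ofNat 0, .ofNat 1, .negSucc 0, .ofNat 0, .ofNat 0, .ofNat 0, .ofNat 0, .negSucc 0, .ofNat 1],
      [.ofNat 2, .ofNat 0, .negSucc 0, .ofNat 0, .ofNat 0, .ofNat 0, .ofNat 0, .negSucc 0, .ofNat 0]),
    ([.ofNat 0, .ofNat 0, .ofNat 0, .ofNat 0, .ofNat 1, .negSucc 1, .ofNat 1, .ofNat 0, .ofNat 0],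
      [.ofNat 0, .ofNat 0, .ofNat 0, .ofNat 1, .ofNat 0, .negSucc 1, .ofNat 0, .ofNat 1, .ofNat 0]),
    ([.ofNat 0, .ofNat 0, .ofNat 0, .ofNat 0, .ofNat 1, .negSucc 1, .ofNat 1, .ofNat 0, .ofNat 0],
      [.ofNat 0, .ofNat 0, .ofNat 1, .ofNat 0, .ofNat 0, .negSucc 1, .ofNat 0, .ofNat 0, .ofNat 1]),
    ([.ofNat 0, .ofNat 0, .ofNat 0, .ofNat 0, .ofNat 1, .negSucc 1, .ofNat 1, .ofNat 0, .ofNat 0],
      [.ofNat 1, .ofNat 1, .ofNat 0, .ofNat 0, .ofNat 0, .negSucc 1, .ofNat 0, .ofNat 0, .ofNat 0]),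
    ([.ofNat 0, .ofNat 0, .ofNat 0, .ofNat 1, .ofNat 0, .negSucc 1, .ofNat 0, .ofNat 1, .ofNat 0],
      [.ofNat 0, .ofNat 0, .ofNat 1, .ofNat 0, .ofNat 0, .negSucc 1, .ofNat 0, .ofNat 0, .ofNat 1]),
    ([.ofNat 0, .ofNat 0, .ofNat 0, .ofNat 1, .ofNat 0, .negSucc 1, .ofNat 0, .ofNat 1, .ofNat 0],
      [.ofNat 1, .ofNat 1, .ofNat 0, .ofNat 0, .ofNat 0, .negSucc 1, .ofNat 0, .ofNat 0, .ofNat 0]),
    ([.ofNat 0, .ofNat 0, .ofNat 1, .ofNat 0, .ofNat 0, .negSucc 1, .ofNat 0, .ofNat 0, .ofNat 1],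
      [.ofNat 1, .ofNat 1, .ofNat 0, .ofNat 0, .ofNat 0, .negSucc 1, .ofNat 0, .ofNat 0, .ofNat 0]),
    ([.ofNat 0, .ofNat 0, .ofNat 0, .ofNat 1, .negSucc 0, .ofNat 0, .negSucc 0, .ofNat 1, .ofNat 0],
      [.ofNat 0, .ofNat 0, .ofNat 1, .ofNat 0, .negSucc 0, .ofNat 0, .negSucc 0, .ofNat 0, .ofNat 1]),
    ([.ofNat 0, .ofNat 0, .ofNat 0, .ofNat 1, .negSucc 0, .ofNat 0, .negSucc 0, .ofNat 1, .ofNat 0],
      [.ofNat 1, .ofNat 1, .ofNat 0, .ofNat 0, .negSucc 0, .ofNat 0, .negSucc 0, .ofNat 0, .ofNat 0]),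
    ([.ofNat 0, .ofNat 0, .ofNat 1, .ofNat 0, .negSucc 0, .ofNat 0, .negSucc 0, .ofNat 0, .ofNat 1],
      [.ofNat 1, .ofNat 1, .ofNat 0, .ofNat 0, .negSucc 0, .ofNat 0, .negSucc 0, .ofNat 0, .ofNat 0]),
    ([.ofNat 0, .ofNat 0, .ofNat 1, .negSucc 0, .ofNat 0, .ofNat 0, .ofNat 0, .negSucc 0, .ofNat 1],
      [.ofNat 1, .ofNat 1, .ofNat 0, .negSucc 0, .ofNat 0, .ofNat 0, .ofNat 0, .negSucc 0, .ofNat 0]),
    ([.ofNat 0, .negSucc 2, .ofNat 0, .ofNat 0, .ofNat 3, .ofNat 0, .ofNat 0, .ofNat 0, .ofNat 0],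
      [.ofNat 0, .negSucc 2, .ofNat 1, .ofNat 0, .ofNat 0, .ofNat 2, .ofNat 0, .ofNat 0, .ofNat 0]),
    ([.ofNat 0, .negSucc 2, .ofNat 0, .ofNat 0, .ofNat 3, .ofNat 0, .ofNat 0, .ofNat 0, .ofNat 0],
      [.ofNat 2, .negSucc 2, .ofNat 0, .ofNat 1, .ofNat 0, .ofNat 0, .ofNat 0, .ofNat 0, .ofNat 0]),
    ([.ofNat 0, .negSucc 2, .ofNat 1, .ofNat 0, .ofNat 0, .ofNat 2, .ofNat 0, .ofNat 0, .ofNat 0],
      [.ofNat 2, .negSucc 2, .ofNat 0, .ofNat 1, .ofNat 0, .ofNat 0, .ofNat 0, .ofNat 0, .ofNat 0]),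
    ([.ofNat 0, .negSucc 2, .ofNat 0, .ofNat 0, .ofNat 0, .ofNat 0, .ofNat 0, .ofNat 3, .ofNat 0],
      [.ofNat 0, .negSucc 2, .ofNat 2, .ofNat 0, .ofNat 0, .ofNat 0, .ofNat 0, .ofNat 0, .ofNat 1]),
    ([.ofNat 0, .negSucc 2, .ofNat 0, .ofNat 0, .ofNat 0, .ofNat 0, .ofNat 0, .ofNat 3, .ofNat 0],
      [.ofNat 1, .negSucc 2, .ofNat 0, .ofNat 0, .ofNat 0, .ofNat 0, .ofNat 2, .ofNat 0, .ofNat 0]),
    ([.ofNat 0, .negSucc 2, .ofNat 2, .ofNat 0, .ofNat 0, .ofNat 0, .ofNat 0, .ofNat 0, .ofNat 1],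
      [.ofNat 1, .negSucc 2, .ofNat 0, .ofNat 0, .ofNat 0, .ofNat 0, .ofNat 2, .ofNat 0, .ofNat 0]),
    ([.ofNat 0, .ofNat 0, .ofNat 1, .ofNat 0, .negSucc 2, .ofNat 2, .ofNat 0, .ofNat 0, .ofNat 0],
      [.ofNat 2, .ofNat 0, .ofNat 0, .ofNat 1, .negSucc 2, .ofNat 0, .ofNat 0, .ofNat 0, .ofNat 0]),
    ([.ofNat 0, .ofNat 0, .ofNat 0, .ofNat 2, .negSucc 2, .ofNat 0, .ofNat 1, .ofNat 0, .ofNat 0],
      [.ofNat 0, .ofNat 0, .ofNat 0, .ofNat 0, .negSucc 2, .ofNat 0, .ofNat 0, .ofNat 3, .ofNat 0]),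
    ([.ofNat 0, .ofNat 0, .ofNat 0, .ofNat 2, .negSucc 2, .ofNat 0, .ofNat 1, .ofNat 0, .ofNat 0],
      [.ofNat 0, .ofNat 0, .ofNat 0, .ofNat 0, .negSucc 2, .ofNat 1, .ofNat 0, .ofNat 0, .ofNat 2]),
    ([.ofNat 0, .ofNat 0, .ofNat 0, .ofNat 0, .negSucc 2, .ofNat 0, .ofNat 0, .ofNat 3, .ofNat 0],
      [.ofNat 0, .ofNat 0, .ofNat 0, .ofNat 0, .negSucc 2, .ofNat 1, .ofNat 0, .ofNat 0, .ofNat 2]),
    ([.ofNat 0, .ofNat 1, .negSucc 0, .ofNat 0, .ofNat 1, .negSucc 1, .ofNat 0, .ofNat 1, .ofNat 0],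
      [.ofNat 1, .ofNat 0, .negSucc 0, .ofNat 0, .ofNat 0, .negSucc 1, .ofNat 2, .ofNat 0, .ofNat 0]),
    ([.ofNat 0, .ofNat 0, .ofNat 0, .negSucc 1, .ofNat 0, .ofNat 0, .negSucc 0, .ofNat 3, .ofNat 0],
      [.ofNat 0, .ofNat 0, .ofNat 0, .negSucc 1, .ofNat 0, .ofNat 1, .negSucc 0, .ofNat 0, .ofNat 2]),
    ([.ofNat 0, .ofNat 1, .ofNat 0, .negSucc 1, .ofNat 1, .ofNat 0, .negSucc 0, .ofNat 1, .ofNat 0],
      [.ofNat 0, .ofNat 0, .ofNat 2, .negSucc 1, .ofNat 0, .ofNat 0, .negSucc 0, .ofNat 0, .ofNat 1]),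
    ([.ofNat 0, .ofNat 1, .negSucc 0, .ofNat 1, .negSucc 0, .ofNat 0, .negSucc 0, .ofNat 0, .ofNat 1],
      [.ofNat 1, .ofNat 0, .negSucc 0, .ofNat 0, .negSucc 0, .ofNat 1, .negSucc 0, .ofNat 1, .ofNat 0]),
    ([.ofNat 0, .negSucc 0, .ofNat 0, .ofNat 0, .negSucc 0, .ofNat 1, .ofNat 0, .negSucc 0, .ofNat 2],
      [.ofNat 2, .negSucc 0, .ofNat 0, .ofNat 1, .negSucc 0, .ofNat 0, .ofNat 0, .negSucc 0, .ofNat 0]),
    ([.ofNat 0, .ofNat 0, .ofNat 2, .ofNat 0, .ofNat 0, .ofNat 0, .ofNat 0, .negSucc 2, .ofNat 1],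
      [.ofNat 1, .ofNat 0, .ofNat 0, .ofNat 0, .ofNat 0, .ofNat 0, .ofNat 2, .negSucc 2, .ofNat 0]),
    ([.ofNat 0, .ofNat 1, .ofNat 0, .negSucc 0, .ofNat 0, .negSucc 1, .ofNat 2, .ofNat 0, .ofNat 0],
      [.ofNat 2, .ofNat 0, .ofNat 0, .negSucc 0, .ofNat 1, .negSucc 1, .ofNat 0, .ofNat 0, .ofNat 0]),
    ([.ofNat 0, .ofNat 0, .ofNat 1, .negSucc 0, .ofNat 1, .negSucc 1, .ofNat 0, .ofNat 1, .ofNat 0],
      [.ofNat 0, .ofNat 0, .ofNat 0, .negSucc 0, .ofNat 0, .negSucc 1, .ofNat 1, .ofNat 0, .ofNat 2]),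
    ([.ofNat 0, .ofNat 1, .ofNat 0, .negSucc 0, .ofNat 1, .negSucc 1, .ofNat 0, .ofNat 0, .ofNat 1],
      [.ofNat 1, .ofNat 0, .ofNat 2, .negSucc 0, .ofNat 0, .negSucc 1, .ofNat 0, .ofNat 0, .ofNat 0]),
    ([.ofNat 0, .negSucc 0, .ofNat 0, .ofNat 2, .ofNat 0, .ofNat 0, .negSucc 1, .ofNat 1, .ofNat 0],
      [.ofNat 1, .negSucc 0, .ofNat 2, .ofNat 0, .ofNat 0, .ofNat 0, .negSucc 1, .ofNat 0, .ofNat 0]),
    ([.ofNat 0, .ofNat 0, .ofNat 0, .negSucc 1, .ofNat 0, .ofNat 0, .ofNat 1, .negSucc 0, .ofNat 2],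
      [.ofNat 2, .ofNat 0, .ofNat 0, .negSucc 1, .ofNat 1, .ofNat 0, .ofNat 0, .negSucc 0, .ofNat 0]),
    ([.ofNat 0, .negSucc 0, .ofNat 0, .ofNat 0, .ofNat 0, .negSucc 0, .ofNat 1, .negSucc 0, .ofNat 2],
      [.ofNat 1, .negSucc 0, .ofNat 2, .ofNat 0, .ofNat 0, .negSucc 0, .ofNat 0, .negSucc 0, .ofNat 0]),
    ([.ofNat 0, .negSucc 1, .ofNat 0, .negSucc 0, .ofNat 2, .ofNat 0, .ofNat 1, .ofNat 0, .ofNat 0],
      [.ofNat 0, .negSucc 1, .ofNat 1, .negSucc 0, .ofNat 0, .ofNat 1, .ofNat 0, .ofNat 1, .ofNat 0]),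
    ([.ofNat 0, .negSucc 1, .ofNat 1, .negSucc 0, .ofNat 0, .ofNat 0, .ofNat 2, .ofNat 0, .ofNat 0],
      [.ofNat 2, .negSucc 1, .ofNat 0, .negSucc 0, .ofNat 0, .ofNat 1, .ofNat 0, .ofNat 0, .ofNat 0]),
    ([.ofNat 0, .negSucc 1, .ofNat 1, .negSucc 0, .ofNat 1, .ofNat 0, .ofNat 0, .ofNat 0, .ofNat 1],
      [.ofNat 1, .negSucc 1, .ofNat 0, .negSucc 0, .ofNat 0, .ofNat 0, .ofNat 0, .ofNat 2, .ofNat 0]),
    ([.ofNat 0, .ofNat 0, .ofNat 0, .ofNat 2, .negSucc 1, .ofNat 0, .negSucc 0, .ofNat 0, .ofNat 1],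
      [.ofNat 2, .ofNat 0, .ofNat 0, .ofNat 0, .negSucc 1, .ofNat 1, .negSucc 0, .ofNat 0, .ofNat 0]),
    ([.ofNat 0, .ofNat 1, .ofNat 0, .ofNat 0, .negSucc 1, .ofNat 1, .negSucc 0, .ofNat 0, .ofNat 1],
      [.ofNat 1, .ofNat 0, .ofNat 0, .ofNat 0, .negSucc 1, .ofNat 0, .negSucc 0, .ofNat 2, .ofNat 0]),
    ([.ofNat 0, .ofNat 0, .negSucc 0, .ofNat 2, .ofNat 0, .ofNat 0, .negSucc 1, .ofNat 0, .ofNat 1],
      [.ofNat 1, .ofNat 0, .negSucc 0, .ofNat 0, .ofNat 0, .ofNat 0, .negSucc 1, .ofNat 2, .ofNat 0]),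
    ([.ofNat 0, .ofNat 2, .negSucc 2, .ofNat 0, .ofNat 1, .ofNat 0, .ofNat 0, .ofNat 0, .ofNat 0],
      [.ofNat 0, .ofNat 0, .negSucc 2, .ofNat 0, .ofNat 0, .ofNat 3, .ofNat 0, .ofNat 0, .ofNat 0]),
    ([.ofNat 0, .ofNat 2, .negSucc 2, .ofNat 0, .ofNat 1, .ofNat 0, .ofNat 0, .ofNat 0, .ofNat 0],
      [.ofNat 0, .ofNat 0, .negSucc 2, .ofNat 1, .ofNat 0, .ofNat 0, .ofNat 2, .ofNat 0, .ofNat 0]),
    ([.ofNat 0, .ofNat 0, .negSucc 2, .ofNat 0, .ofNat 0, .ofNat 3, .ofNat 0, .ofNat 0, .ofNat 0],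
      [.ofNat 0, .ofNat 0, .negSucc 2, .ofNat 1, .ofNat 0, .ofNat 0, .ofNat 2, .ofNat 0, .ofNat 0]),
    ([.ofNat 0, .ofNat 1, .negSucc 2, .ofNat 0, .ofNat 0, .ofNat 0, .ofNat 0, .ofNat 2, .ofNat 0],
      [.ofNat 0, .ofNat 0, .negSucc 2, .ofNat 0, .ofNat 0, .ofNat 0, .ofNat 0, .ofNat 0, .ofNat 3]),
    ([.ofNat 0, .ofNat 1, .negSucc 2, .ofNat 0, .ofNat 0, .ofNat 0, .ofNat 0, .ofNat 2, .ofNat 0],
      [.ofNat 1, .ofNat 0, .negSucc 2, .ofNat 2, .ofNat 0, .ofNat 0, .ofNat 0, .ofNat 0, .ofNat 0]),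
    ([.ofNat 0, .ofNat 0, .negSucc 2, .ofNat 0, .ofNat 0, .ofNat 0, .ofNat 0, .ofNat 0, .ofNat 3],
      [.ofNat 1, .ofNat 0, .negSucc 2, .ofNat 2, .ofNat 0, .ofNat 0, .ofNat 0, .ofNat 0, .ofNat 0]),
    ([.ofNat 0, .negSucc 1, .ofNat 0, .ofNat 0, .negSucc 0, .ofNat 3, .ofNat 0, .ofNat 0, .ofNat 0],
      [.ofNat 0, .negSucc 1, .ofNat 0, .ofNat 1, .negSucc 0, .ofNat 0, .ofNat 2, .ofNat 0, .ofNat 0]),
    ([.ofNat 0, .negSucc 1, .ofNat 1, .ofNat 0, .negSucc 0, .ofNat 1, .ofNat 0, .ofNat 0, .ofNat 1],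
      [.ofNat 2, .negSucc 1, .ofNat 0, .ofNat 0, .negSucc 0, .ofNat 0, .ofNat 1, .ofNat 0, .ofNat 0]),
    ([.ofNat 0, .ofNat 0, .ofNat 0, .ofNat 0, .ofNat 2, .negSucc 2, .ofNat 0, .ofNat 1, .ofNat 0],
      [.ofNat 0, .ofNat 0, .ofNat 0, .ofNat 0, .ofNat 0, .negSucc 2, .ofNat 0, .ofNat 0, .ofNat 3]),
    ([.ofNat 0, .ofNat 0, .ofNat 0, .ofNat 0, .ofNat 2, .negSucc 2, .ofNat 0, .ofNat 1, .ofNat 0],
      [.ofNat 2, .ofNat 0, .ofNat 0, .ofNat 0, .ofNat 0, .negSucc 2, .ofNat 1, .ofNat 0, .ofNat 0]),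
    ([.ofNat 0, .ofNat 0, .ofNat 0, .ofNat 0, .ofNat 0, .negSucc 2, .ofNat 0, .ofNat 0, .ofNat 3],
      [.ofNat 2, .ofNat 0, .ofNat 0, .ofNat 0, .ofNat 0, .negSucc 2, .ofNat 1, .ofNat 0, .ofNat 0]),
    ([.ofNat 0, .ofNat 1, .ofNat 0, .negSucc 0, .ofNat 0, .ofNat 0, .negSucc 1, .ofNat 2, .ofNat 0],
      [.ofNat 0, .ofNat 0, .ofNat 1, .negSucc 0, .ofNat 0, .ofNat 1, .negSucc 1, .ofNat 0, .ofNat 1]),
    ([.ofNat 0, .ofNat 0, .ofNat 0, .ofNat 0, .negSucc 1, .ofNat 0, .ofNat 0, .negSucc 0, .ofNat 3],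
      [.ofNat 2, .ofNat 0, .ofNat 0, .ofNat 0, .negSucc 1, .ofNat 0, .ofNat 1, .negSucc 0, .ofNat 0]),
    ([.ofNat 0, .ofNat 0, .ofNat 1, .ofNat 0, .negSucc 1, .ofNat 1, .ofNat 0, .negSucc 0, .ofNat 1],
      [.ofNat 1, .ofNat 0, .ofNat 0, .ofNat 2, .negSucc 1, .ofNat 0, .ofNat 0, .negSucc 0, .ofNat 0]),
    ([.ofNat 0, .ofNat 1, .ofNat 0, .negSucc 0, .ofNat 0, .negSucc 0, .ofNat 1, .negSucc 0, .ofNat 1],
      [.ofNat 1, .ofNat 0, .ofNat 1, .negSucc 0, .ofNat 1, .negSucc 0, .ofNat 0, .negSucc 0, .ofNat 0]),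
    ([.ofNat 0, .negSucc 0, .ofNat 0, .ofNat 0, .ofNat 0, .ofNat 0, .ofNat 0, .negSucc 1, .ofNat 3],
      [.ofNat 1, .negSucc 0, .ofNat 0, .ofNat 2, .ofNat 0, .ofNat 0, .ofNat 0, .negSucc 1, .ofNat 0]),
    ([.ofNat 0, .negSucc 0, .ofNat 0, .negSucc 1, .ofNat 1, .ofNat 0, .ofNat 2, .ofNat 0, .ofNat 0],
      [.ofNat 1, .negSucc 0, .ofNat 1, .negSucc 1, .ofNat 0, .ofNat 1, .ofNat 0, .ofNat 0, .ofNat 0]),
    ([.ofNat 0, .negSucc 0, .ofNat 1, .negSucc 1, .ofNat 0, .ofNat 0, .ofNat 0, .ofNat 2, .ofNat 0],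
      [.ofNat 0, .negSucc 0, .ofNat 0, .negSucc 1, .ofNat 2, .ofNat 0, .ofNat 0, .ofNat 0, .ofNat 1]),
    ([.ofNat 0, .negSucc 0, .ofNat 1, .negSucc 1, .ofNat 0, .ofNat 0, .ofNat 1, .ofNat 0, .ofNat 1],
      [.ofNat 2, .negSucc 0, .ofNat 0, .negSucc 1, .ofNat 0, .ofNat 0, .ofNat 0, .ofNat 1, .ofNat 0]),
    ([.ofNat 0, .negSucc 1, .ofNat 0, .ofNat 0, .ofNat 1, .negSucc 0, .ofNat 2, .ofNat 0, .ofNat 0],
      [.ofNat 0, .negSucc 1, .ofNat 1, .ofNat 0, .ofNat 0, .negSucc 0, .ofNat 0, .ofNat 2, .ofNat 0]),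
    ([.ofNat 0, .negSucc 1, .ofNat 0, .ofNat 0, .ofNat 2, .negSucc 0, .ofNat 0, .ofNat 0, .ofNat 1],
      [.ofNat 2, .negSucc 1, .ofNat 0, .ofNat 0, .ofNat 0, .negSucc 0, .ofNat 0, .ofNat 1, .ofNat 0]),
    ([.ofNat 0, .ofNat 0, .ofNat 0, .ofNat 1, .negSucc 0, .ofNat 1, .negSucc 1, .ofNat 0, .ofNat 1],
      [.ofNat 2, .ofNat 0, .ofNat 0, .ofNat 0, .negSucc 0, .ofNat 0, .negSucc 1, .ofNat 1, .ofNat 0]),
    ([.ofNat 0, .ofNat 2, .negSucc 1, .ofNat 0, .negSucc 0, .ofNat 0, .ofNat 1, .ofNat 0, .ofNat 0],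
      [.ofNat 0, .ofNat 0, .negSucc 1, .ofNat 1, .negSucc 0, .ofNat 0, .ofNat 0, .ofNat 2, .ofNat 0]),
    ([.ofNat 0, .ofNat 0, .negSucc 1, .ofNat 0, .negSucc 0, .ofNat 2, .ofNat 0, .ofNat 1, .ofNat 0],
      [.ofNat 0, .ofNat 0, .negSucc 1, .ofNat 1, .negSucc 0, .ofNat 0, .ofNat 1, .ofNat 0, .ofNat 1]),
    ([.ofNat 0, .ofNat 1, .negSucc 1, .ofNat 0, .negSucc 0, .ofNat 0, .ofNat 0, .ofNat 0, .ofNat 2],
      [.ofNat 1, .ofNat 0, .negSucc 1, .ofNat 1, .negSucc 0, .ofNat 1, .ofNat 0, .ofNat 0, .ofNat 0]),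
    ([.ofNat 0, .negSucc 1, .ofNat 0, .ofNat 0, .ofNat 0, .ofNat 2, .negSucc 0, .ofNat 1, .ofNat 0],
      [.ofNat 1, .negSucc 1, .ofNat 0, .ofNat 0, .ofNat 2, .ofNat 0, .negSucc 0, .ofNat 0, .ofNat 0]),
    ([.ofNat 0, .ofNat 1, .ofNat 0, .ofNat 0, .ofNat 0, .negSucc 1, .ofNat 0, .negSucc 0, .ofNat 2],
      [.ofNat 1, .ofNat 0, .ofNat 1, .ofNat 0, .ofNat 0, .negSucc 1, .ofNat 1, .negSucc 0, .ofNat 0]),
    ([.ofNat 0, .ofNat 1, .ofNat 0, .negSucc 0, .ofNat 0, .ofNat 0, .ofNat 0, .negSucc 1, .ofNat 2],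
      [.ofNat 1, .ofNat 0, .ofNat 0, .negSucc 0, .ofNat 2, .ofNat 0, .ofNat 0, .negSucc 1, .ofNat 0]),
    ([.ofNat 0, .ofNat 1, .ofNat 0, .negSucc 2, .ofNat 2, .ofNat 0, .ofNat 0, .ofNat 0, .ofNat 0],
      [.ofNat 0, .ofNat 0, .ofNat 1, .negSucc 2, .ofNat 0, .ofNat 0, .ofNat 0, .ofNat 0, .ofNat 2]),
    ([.ofNat 0, .ofNat 1, .ofNat 0, .negSucc 2, .ofNat 2, .ofNat 0, .ofNat 0, .ofNat 0, .ofNat 0],
      [.ofNat 3, .ofNat 0, .ofNat 0, .negSucc 2, .ofNat 0, .ofNat 0, .ofNat 0, .ofNat 0, .ofNat 0]),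
    ([.ofNat 0, .ofNat 0, .ofNat 1, .negSucc 2, .ofNat 0, .ofNat 0, .ofNat 0, .ofNat 0, .ofNat 2],
      [.ofNat 3, .ofNat 0, .ofNat 0, .negSucc 2, .ofNat 0, .ofNat 0, .ofNat 0, .ofNat 0, .ofNat 0]),
    ([.ofNat 0, .ofNat 0, .ofNat 2, .negSucc 2, .ofNat 0, .ofNat 1, .ofNat 0, .ofNat 0, .ofNat 0],
      [.ofNat 0, .ofNat 0, .ofNat 0, .negSucc 2, .ofNat 0, .ofNat 0, .ofNat 3, .ofNat 0, .ofNat 0]),
    ([.ofNat 0, .ofNat 0, .ofNat 2, .negSucc 2, .ofNat 0, .ofNat 1, .ofNat 0, .ofNat 0, .ofNat 0],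
      [.ofNat 0, .ofNat 0, .ofNat 0, .negSucc 2, .ofNat 1, .ofNat 0, .ofNat 0, .ofNat 2, .ofNat 0]),
    ([.ofNat 0, .ofNat 0, .ofNat 0, .negSucc 2, .ofNat 0, .ofNat 0, .ofNat 3, .ofNat 0, .ofNat 0],
      [.ofNat 0, .ofNat 0, .ofNat 0, .negSucc 2, .ofNat 1, .ofNat 0, .ofNat 0, .ofNat 2, .ofNat 0]),
    ([.ofNat 0, .negSucc 0, .ofNat 1, .ofNat 0, .negSucc 1, .ofNat 0, .ofNat 0, .ofNat 0, .ofNat 2],
      [.ofNat 3, .negSucc 0, .ofNat 0, .ofNat 0, .negSucc 1, .ofNat 0, .ofNat 0, .ofNat 0, .ofNat 0]),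
    ([.ofNat 0, .negSucc 0, .ofNat 0, .ofNat 0, .negSucc 1, .ofNat 2, .ofNat 0, .ofNat 0, .ofNat 1],
      [.ofNat 1, .negSucc 0, .ofNat 0, .ofNat 1, .negSucc 1, .ofNat 0, .ofNat 1, .ofNat 0, .ofNat 0]),
    ([.ofNat 0, .ofNat 0, .negSucc 1, .ofNat 0, .ofNat 0, .negSucc 0, .ofNat 3, .ofNat 0, .ofNat 0],
      [.ofNat 0, .ofNat 0, .negSucc 1, .ofNat 0, .ofNat 1, .negSucc 0, .ofNat 0, .ofNat 2, .ofNat 0]),
    ([.ofNat 0, .ofNat 2, .negSucc 1, .ofNat 0, .ofNat 0, .negSucc 0, .ofNat 0, .ofNat 1, .ofNat 0],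
      [.ofNat 1, .ofNat 0, .negSucc 1, .ofNat 1, .ofNat 0, .negSucc 0, .ofNat 1, .ofNat 0, .ofNat 0]),
    ([.ofNat 0, .negSucc 0, .ofNat 0, .negSucc 0, .ofNat 1, .negSucc 0, .ofNat 1, .ofNat 0, .ofNat 1],
      [.ofNat 1, .negSucc 0, .ofNat 1, .negSucc 0, .ofNat 0, .negSucc 0, .ofNat 0, .ofNat 1, .ofNat 0]),
    ([.ofNat 0, .ofNat 2, .ofNat 0, .ofNat 0, .ofNat 0, .ofNat 0, .negSucc 2, .ofNat 1, .ofNat 0],
      [.ofNat 0, .ofNat 0, .ofNat 0, .ofNat 0, .ofNat 0, .ofNat 2, .negSucc 2, .ofNat 0, .ofNat 1]),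
    ([.ofNat 0, .ofNat 2, .ofNat 0, .ofNat 0, .ofNat 0, .ofNat 0, .negSucc 2, .ofNat 1, .ofNat 0],
      [.ofNat 3, .ofNat 0, .ofNat 0, .ofNat 0, .ofNat 0, .ofNat 0, .negSucc 2, .ofNat 0, .ofNat 0]),
    ([.ofNat 0, .ofNat 0, .ofNat 0, .ofNat 0, .ofNat 0, .ofNat 2, .negSucc 2, .ofNat 0, .ofNat 1],
      [.ofNat 3, .ofNat 0, .ofNat 0, .ofNat 0, .ofNat 0, .ofNat 0, .negSucc 2, .ofNat 0, .ofNat 0]),
    ([.ofNat 0, .negSucc 1, .ofNat 0, .ofNat 0, .ofNat 0, .ofNat 2, .ofNat 0, .negSucc 0, .ofNat 1],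
      [.ofNat 3, .negSucc 1, .ofNat 0, .ofNat 0, .ofNat 0, .ofNat 0, .ofNat 0, .negSucc 0, .ofNat 0]),
    ([.ofNat 0, .ofNat 0, .ofNat 1, .ofNat 0, .negSucc 0, .ofNat 0, .ofNat 0, .negSucc 1, .ofNat 2],
      [.ofNat 1, .ofNat 0, .ofNat 0, .ofNat 1, .negSucc 0, .ofNat 0, .ofNat 1, .negSucc 1, .ofNat 0]),
    ([.ofNat 0, .ofNat 1, .negSucc 0, .ofNat 1, .negSucc 1, .ofNat 0, .ofNat 1, .ofNat 0, .ofNat 0],
      [.ofNat 0, .ofNat 0, .negSucc 0, .ofNat 0, .negSucc 1, .ofNat 1, .ofNat 0, .ofNat 2, .ofNat 0]),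
    ([.ofNat 0, .ofNat 2, .negSucc 0, .ofNat 0, .negSucc 1, .ofNat 0, .ofNat 0, .ofNat 0, .ofNat 1],
      [.ofNat 1, .ofNat 0, .negSucc 0, .ofNat 1, .negSucc 1, .ofNat 0, .ofNat 0, .ofNat 1, .ofNat 0]),
    ([.ofNat 0, .ofNat 0, .negSucc 0, .ofNat 1, .negSucc 1, .ofNat 0, .ofNat 0, .ofNat 0, .ofNat 2],
      [.ofNat 1, .ofNat 0, .negSucc 0, .ofNat 0, .negSucc 1, .ofNat 2, .ofNat 0, .ofNat 0, .ofNat 0]),
    ([.ofNat 0, .ofNat 0, .negSucc 1, .ofNat 0, .ofNat 0, .ofNat 1, .negSucc 0, .ofNat 2, .ofNat 0],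
      [.ofNat 0, .ofNat 0, .negSucc 1, .ofNat 1, .ofNat 0, .ofNat 0, .negSucc 0, .ofNat 0, .ofNat 2]),
    ([.ofNat 0, .ofNat 2, .negSucc 1, .ofNat 0, .ofNat 0, .ofNat 0, .negSucc 0, .ofNat 0, .ofNat 1],
      [.ofNat 1, .ofNat 0, .negSucc 1, .ofNat 0, .ofNat 0, .ofNat 2, .negSucc 0, .ofNat 0, .ofNat 0]),
    ([.ofNat 0, .ofNat 2, .ofNat 0, .ofNat 0, .ofNat 0, .negSucc 0, .ofNat 0, .negSucc 1, .ofNat 1],
      [.ofNat 1, .ofNat 0, .ofNat 0, .ofNat 0, .ofNat 1, .negSucc 0, .ofNat 1, .negSucc 1, .ofNat 0]),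
    ([.ofNat 0, .ofNat 1, .ofNat 0, .negSucc 1, .ofNat 1, .negSucc 0, .ofNat 1, .ofNat 0, .ofNat 0],
      [.ofNat 2, .ofNat 0, .ofNat 1, .negSucc 1, .ofNat 0, .negSucc 0, .ofNat 0, .ofNat 0, .ofNat 0]),
    ([.ofNat 0, .ofNat 0, .ofNat 2, .negSucc 1, .ofNat 0, .negSucc 0, .ofNat 0, .ofNat 1, .ofNat 0],
      [.ofNat 0, .ofNat 0, .ofNat 0, .negSucc 1, .ofNat 1, .negSucc 0, .ofNat 0, .ofNat 0, .ofNat 2]),
    ([.ofNat 0, .ofNat 0, .ofNat 0, .negSucc 1, .ofNat 0, .negSucc 0, .ofNat 2, .ofNat 0, .ofNat 1],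
      [.ofNat 1, .ofNat 0, .ofNat 0, .negSucc 1, .ofNat 1, .negSucc 0, .ofNat 0, .ofNat 1, .ofNat 0]),
    ([.ofNat 0, .negSucc 0, .ofNat 2, .ofNat 0, .ofNat 0, .negSucc 1, .ofNat 0, .ofNat 1, .ofNat 0],
      [.ofNat 0, .negSucc 0, .ofNat 0, .ofNat 0, .ofNat 0, .negSucc 1, .ofNat 2, .ofNat 0, .ofNat 1]),
    ([.ofNat 0, .negSucc 0, .ofNat 0, .ofNat 0, .ofNat 1, .negSucc 1, .ofNat 0, .ofNat 0, .ofNat 2],
      [.ofNat 2, .negSucc 0, .ofNat 1, .ofNat 0, .ofNat 0, .negSucc 1, .ofNat 0, .ofNat 0, .ofNat 0]),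
    ([.ofNat 0, .negSucc 0, .ofNat 0, .negSucc 0, .ofNat 0, .ofNat 0, .ofNat 2, .negSucc 0, .ofNat 1],
      [.ofNat 2, .negSucc 0, .ofNat 1, .negSucc 0, .ofNat 0, .ofNat 0, .ofNat 0, .negSucc 0, .ofNat 0]),
    ([.ofNat 0, .negSucc 3, .ofNat 0, .ofNat 0, .ofNat 0, .ofNat 2, .ofNat 2, .ofNat 0, .ofNat 0],
      [.ofNat 1, .negSucc 3, .ofNat 1, .ofNat 1, .ofNat 0, .ofNat 0, .ofNat 0, .ofNat 0, .ofNat 1]),
    ([.ofNat 0, .negSucc 1, .ofNat 0, .ofNat 2, .ofNat 0, .negSucc 0, .negSucc 0, .ofNat 0, .ofNat 2],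
      [.ofNat 2, .negSucc 1, .ofNat 2, .ofNat 0, .ofNat 0, .negSucc 0, .negSucc 0, .ofNat 0, .ofNat 0]),
    ([.ofNat 0, .ofNat 0, .ofNat 0, .ofNat 1, .ofNat 1, .negSucc 1, .negSucc 1, .ofNat 1, .ofNat 1],
      [.ofNat 2, .ofNat 0, .ofNat 2, .ofNat 0, .ofNat 0, .negSucc 1, .negSucc 1, .ofNat 0, .ofNat 0]),
    ([.ofNat 0, .negSucc 1, .ofNat 0, .ofNat 1, .negSucc 0, .ofNat 1, .ofNat 1, .negSucc 0, .ofNat 1],
      [.ofNat 2, .negSucc 1, .ofNat 2, .ofNat 0, .negSucc 0, .ofNat 0, .ofNat 0, .negSucc 0, .ofNat 0]),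
    ([.ofNat 0, .ofNat 0, .ofNat 0, .ofNat 2, .negSucc 1, .ofNat 0, .ofNat 0, .negSucc 1, .ofNat 2],
      [.ofNat 1, .ofNat 0, .ofNat 1, .ofNat 0, .negSucc 1, .ofNat 1, .ofNat 1, .negSucc 1, .ofNat 0]),
    ([.ofNat 0, .ofNat 1, .ofNat 1, .negSucc 1, .negSucc 1, .ofNat 1, .ofNat 1, .ofNat 0, .ofNat 0],
      [.ofNat 2, .ofNat 0, .ofNat 0, .negSucc 1, .negSucc 1, .ofNat 0, .ofNat 0, .ofNat 2, .ofNat 0]),
    ([.ofNat 0, .ofNat 0, .ofNat 0, .negSucc 1, .negSucc 1, .ofNat 0, .ofNat 0, .ofNat 0, .ofNat 4],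
      [.ofNat 1, .ofNat 1, .ofNat 0, .negSucc 1, .negSucc 1, .ofNat 0, .ofNat 1, .ofNat 1, .ofNat 0]),
    ([.ofNat 0, .ofNat 2, .negSucc 1, .ofNat 0, .ofNat 0, .negSucc 1, .ofNat 2, .ofNat 0, .ofNat 0],
      [.ofNat 1, .ofNat 0, .negSucc 1, .ofNat 1, .ofNat 1, .negSucc 1, .ofNat 0, .ofNat 1, .ofNat 0]),
    ([.ofNat 0, .negSucc 0, .ofNat 1, .negSucc 0, .negSucc 0, .ofNat 1, .negSucc 0, .ofNat 0, .ofNat 2],
      [.ofNat 2, .negSucc 0, .ofNat 0, .negSucc 0, .negSucc 0, .ofNat 0, .negSucc 0, .ofNat 2, .ofNat 0]),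
    ([.ofNat 0, .negSucc 1, .ofNat 0, .ofNat 1, .ofNat 1, .ofNat 0, .negSucc 1, .ofNat 0, .ofNat 2],
      [.ofNat 2, .negSucc 1, .ofNat 0, .ofNat 0, .ofNat 0, .ofNat 0, .negSucc 1, .ofNat 2, .ofNat 0]),
    ([.ofNat 0, .negSucc 1, .negSucc 1, .ofNat 0, .ofNat 0, .ofNat 0, .ofNat 4, .ofNat 0, .ofNat 0],
      [.ofNat 0, .negSucc 1, .negSucc 1, .ofNat 0, .ofNat 1, .ofNat 1, .ofNat 0, .ofNat 1, .ofNat 1]),
    ([.ofNat 0, .negSucc 1, .negSucc 1, .ofNat 0, .ofNat 0, .ofNat 2, .ofNat 0, .ofNat 2, .ofNat 0],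
      [.ofNat 1, .negSucc 1, .negSucc 1, .ofNat 1, .ofNat 1, .ofNat 0, .ofNat 0, .ofNat 0, .ofNat 1]),
    ([.ofNat 0, .negSucc 0, .negSucc 0, .ofNat 0, .ofNat 0, .ofNat 2, .negSucc 1, .ofNat 2, .ofNat 0],
      [.ofNat 0, .negSucc 0, .negSucc 0, .ofNat 0, .ofNat 2, .ofNat 0, .negSucc 1, .ofNat 0, .ofNat 2]),
    ([.ofNat 0, .negSucc 0, .negSucc 0, .ofNat 0, .ofNat 2, .negSucc 0, .ofNat 0, .negSucc 0, .ofNat 2],
      [.ofNat 2, .negSucc 0, .negSucc 0, .ofNat 2, .ofNat 0, .negSucc 0, .ofNat 0, .negSucc 0, .ofNat 0]),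
    ([.ofNat 0, .ofNat 1, .ofNat 1, .ofNat 0, .ofNat 1, .negSucc 1, .ofNat 0, .negSucc 1, .ofNat 1],
      [.ofNat 1, .ofNat 0, .ofNat 0, .ofNat 1, .ofNat 0, .negSucc 1, .ofNat 2, .negSucc 1, .ofNat 0]),
    ([.ofNat 0, .ofNat 0, .ofNat 1, .ofNat 1, .negSucc 3, .ofNat 1, .ofNat 1, .ofNat 0, .ofNat 0],
      [.ofNat 2, .ofNat 0, .ofNat 0, .ofNat 0, .negSucc 3, .ofNat 0, .ofNat 0, .ofNat 0, .ofNat 2]),
    ([.ofNat 0, .ofNat 0, .ofNat 2, .negSucc 1, .ofNat 0, .negSucc 1, .ofNat 2, .ofNat 0, .ofNat 0],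
      [.ofNat 1, .ofNat 0, .ofNat 0, .negSucc 1, .ofNat 2, .negSucc 1, .ofNat 0, .ofNat 0, .ofNat 1]),
    ([.ofNat 0, .ofNat 1, .ofNat 0, .negSucc 1, .ofNat 2, .negSucc 1, .ofNat 0, .ofNat 1, .ofNat 0],
      [.ofNat 1, .ofNat 0, .ofNat 1, .negSucc 1, .ofNat 0, .negSucc 1, .ofNat 1, .ofNat 0, .ofNat 1]),
    ([.ofNat 0, .ofNat 1, .ofNat 1, .negSucc 1, .ofNat 0, .negSucc 1, .ofNat 1, .ofNat 1, .ofNat 0],
      [.ofNat 2, .ofNat 0, .ofNat 0, .negSucc 1, .ofNat 0, .negSucc 1, .ofNat 0, .ofNat 0, .ofNat 2]),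
    ([.ofNat 0, .ofNat 2, .negSucc 1, .ofNat 0, .ofNat 0, .ofNat 0, .negSucc 1, .ofNat 2, .ofNat 0],
      [.ofNat 1, .ofNat 0, .negSucc 1, .ofNat 1, .ofNat 0, .ofNat 1, .negSucc 1, .ofNat 0, .ofNat 1]),
    ([.ofNat 0, .ofNat 0, .negSucc 3, .ofNat 0, .ofNat 0, .ofNat 0, .ofNat 2, .ofNat 2, .ofNat 0],
      [.ofNat 1, .ofNat 1, .negSucc 3, .ofNat 1, .ofNat 1, .ofNat 0, .ofNat 0, .ofNat 0, .ofNat 0]),
    ([.ofNat 0, .negSucc 1, .ofNat 2, .negSucc 1, .ofNat 0, .ofNat 0, .ofNat 1, .ofNat 1, .ofNat 0],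
      [.ofNat 2, .negSucc 1, .ofNat 0, .negSucc 1, .ofNat 2, .ofNat 0, .ofNat 0, .ofNat 0, .ofNat 0]),
    ([.ofNat 0, .negSucc 1, .ofNat 0, .negSucc 1, .ofNat 0, .ofNat 0, .ofNat 2, .ofNat 2, .ofNat 0],
      [.ofNat 1, .negSucc 1, .ofNat 0, .negSucc 1, .ofNat 1, .ofNat 1, .ofNat 0, .ofNat 0, .ofNat 1]),
    ([.ofNat 0, .negSucc 1, .ofNat 2, .negSucc 1, .ofNat 0, .ofNat 1, .ofNat 0, .ofNat 0, .ofNat 1],
      [.ofNat 1, .negSucc 1, .ofNat 0, .negSucc 1, .ofNat 1, .ofNat 0, .ofNat 1, .ofNat 1, .ofNat 0]),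
    ([.ofNat 0, .negSucc 0, .ofNat 0, .negSucc 0, .ofNat 0, .ofNat 2, .negSucc 0, .negSucc 0, .ofNat 2],
      [.ofNat 2, .negSucc 0, .ofNat 0, .negSucc 0, .ofNat 2, .ofNat 0, .negSucc 0, .negSucc 0, .ofNat 0]),
    ([.ofNat 0, .ofNat 0, .ofNat 1, .ofNat 1, .negSucc 1, .negSucc 1, .ofNat 1, .ofNat 1, .ofNat 0],
      [.ofNat 0, .ofNat 2, .ofNat 0, .ofNat 0, .negSucc 1, .negSucc 1, .ofNat 0, .ofNat 0, .ofNat 2]),
    ([.ofNat 0, .ofNat 1, .ofNat 1, .ofNat 0, .negSucc 1, .negSucc 1, .ofNat 0, .ofNat 1, .ofNat 1],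
      [.ofNat 4, .ofNat 0, .ofNat 0, .ofNat 0, .negSucc 1, .negSucc 1, .ofNat 0, .ofNat 0, .ofNat 0]),
    ([.ofNat 0, .ofNat 0, .ofNat 2, .negSucc 1, .ofNat 0, .ofNat 0, .negSucc 1, .ofNat 2, .ofNat 0],
      [.ofNat 0, .ofNat 1, .ofNat 0, .negSucc 1, .ofNat 1, .ofNat 1, .negSucc 1, .ofNat 0, .ofNat 1]),
    ([.ofNat 0, .ofNat 2, .negSucc 0, .ofNat 0, .negSucc 0, .negSucc 0, .ofNat 0, .negSucc 0, .ofNat 2],
      [.ofNat 2, .ofNat 0, .negSucc 0, .ofNat 1, .negSucc 0, .negSucc 0, .ofNat 1, .negSucc 0, .ofNat 0]),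
    ([.ofNat 0, .ofNat 2, .negSucc 1, .ofNat 0, .ofNat 0, .ofNat 0, .ofNat 0, .negSucc 1, .ofNat 2],
      [.ofNat 2, .ofNat 0, .negSucc 1, .ofNat 0, .ofNat 1, .ofNat 1, .ofNat 0, .negSucc 1, .ofNat 0]),
    ([.ofNat 0, .ofNat 0, .negSucc 1, .negSucc 1, .ofNat 0, .ofNat 0, .ofNat 0, .ofNat 4, .ofNat 0],
      [.ofNat 1, .ofNat 0, .negSucc 1, .negSucc 1, .ofNat 0, .ofNat 1, .ofNat 1, .ofNat 0, .ofNat 1]),
    ([.ofNat 0, .ofNat 0, .negSucc 1, .negSucc 1, .ofNat 0, .ofNat 0, .ofNat 2, .ofNat 0, .ofNat 2],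
      [.ofNat 1, .ofNat 1, .negSucc 1, .negSucc 1, .ofNat 1, .ofNat 1, .ofNat 0, .ofNat 0, .ofNat 0]),
    ([.ofNat 0, .negSucc 1, .ofNat 1, .ofNat 1, .negSucc 1, .ofNat 0, .ofNat 1, .ofNat 0, .ofNat 1],
      [.ofNat 2, .negSucc 1, .ofNat 0, .ofNat 0, .negSucc 1, .ofNat 2, .ofNat 0, .ofNat 0, .ofNat 0]),
    ([.ofNat 0, .ofNat 0, .negSucc 0, .negSucc 0, .ofNat 0, .ofNat 0, .ofNat 2, .negSucc 1, .ofNat 2],
      [.ofNat 2, .ofNat 0, .negSucc 0, .negSucc 0, .ofNat 0, .ofNat 2, .ofNat 0, .negSucc 1, .ofNat 0]),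
    ([.ofNat 0, .negSucc 0, .ofNat 0, .ofNat 0, .negSucc 0, .ofNat 0, .ofNat 2, .negSucc 1, .ofNat 2],
      [.ofNat 1, .negSucc 0, .ofNat 1, .ofNat 1, .negSucc 0, .ofNat 1, .ofNat 0, .negSucc 1, .ofNat 0]),
    ([.ofNat 0, .ofNat 0, .ofNat 0, .ofNat 1, .ofNat 1, .negSucc 3, .ofNat 1, .ofNat 1, .ofNat 0],
      [.ofNat 2, .ofNat 2, .ofNat 0, .ofNat 0, .ofNat 0, .negSucc 3, .ofNat 0, .ofNat 0, .ofNat 0]),
    ([.ofNat 0, .ofNat 0, .ofNat 0, .ofNat 2, .negSucc 1, .ofNat 0, .negSucc 1, .ofNat 2, .ofNat 0],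
      [.ofNat 1, .ofNat 1, .ofNat 0, .ofNat 0, .negSucc 1, .ofNat 2, .negSucc 1, .ofNat 0, .ofNat 0]),
    ([.ofNat 0, .ofNat 0, .ofNat 1, .ofNat 0, .negSucc 1, .ofNat 2, .negSucc 1, .ofNat 0, .ofNat 1],
      [.ofNat 1, .ofNat 1, .ofNat 0, .ofNat 1, .negSucc 1, .ofNat 0, .negSucc 1, .ofNat 1, .ofNat 0]),
    ([.ofNat 0, .ofNat 0, .ofNat 1, .ofNat 1, .negSucc 1, .ofNat 0, .negSucc 1, .ofNat 1, .ofNat 1],
      [.ofNat 2, .ofNat 2, .ofNat 0, .ofNat 0, .negSucc 1, .ofNat 0, .negSucc 1, .ofNat 0, .ofNat 0]),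
    ([.ofNat 0, .ofNat 0, .ofNat 2, .negSucc 1, .ofNat 0, .ofNat 0, .ofNat 0, .negSucc 1, .ofNat 2],
      [.ofNat 1, .ofNat 1, .ofNat 0, .negSucc 1, .ofNat 1, .ofNat 0, .ofNat 1, .negSucc 1, .ofNat 0]),
    ([.ofNat 0, .ofNat 1, .ofNat 1, .negSucc 3, .ofNat 1, .ofNat 1, .ofNat 0, .ofNat 0, .ofNat 0],
      [.ofNat 0, .ofNat 0, .ofNat 0, .negSucc 3, .ofNat 0, .ofNat 0, .ofNat 0, .ofNat 2, .ofNat 2]),
    ([.ofNat 0, .ofNat 2, .negSucc 1, .ofNat 0, .negSucc 1, .ofNat 2, .ofNat 0, .ofNat 0, .ofNat 0],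
      [.ofNat 0, .ofNat 0, .negSucc 1, .ofNat 2, .negSucc 1, .ofNat 0, .ofNat 0, .ofNat 1, .ofNat 1]),
    ([.ofNat 0, .ofNat 1, .negSucc 1, .ofNat 0, .negSucc 1, .ofNat 1, .ofNat 0, .ofNat 1, .ofNat 1],
      [.ofNat 1, .ofNat 0, .negSucc 1, .ofNat 2, .negSucc 1, .ofNat 0, .ofNat 1, .ofNat 0, .ofNat 0]),
    ([.ofNat 0, .ofNat 0, .negSucc 1, .ofNat 0, .negSucc 1, .ofNat 0, .ofNat 0, .ofNat 2, .ofNat 2],
      [.ofNat 1, .ofNat 1, .negSucc 1, .ofNat 0, .negSucc 1, .ofNat 1, .ofNat 1, .ofNat 0, .ofNat 0]),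
    ([.ofNat 0, .negSucc 1, .ofNat 1, .ofNat 0, .ofNat 1, .negSucc 1, .ofNat 0, .ofNat 1, .ofNat 1],
      [.ofNat 2, .negSucc 1, .ofNat 0, .ofNat 0, .ofNat 0, .negSucc 1, .ofNat 2, .ofNat 0, .ofNat 0])]

/-- the data -/
def d9 : X10.Dt := ⟨tab, cls9, dcl, orow, [], []⟩

lemma dc0 : (List.range 25).all (fun j => X10.dck d9 (0 + j)) = true := by
  decide +kernel

lemma dc1 : (List.range 25).all (fun j => X10.dck d9 (25 + j)) = true := by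
  decide +kernel

lemma dc2 : (List.range 25).all (fun j => X10.dck d9 (50 + j)) = true := by
  decide +kernel

lemma dc3 : (List.range 25).all (fun j => X10.dck d9 (75 + j)) = true := by
  decide +kernel

lemma dc4 : (List.range 25).all (fun j => X10.dck d9 (100 + j)) = true := by
  decide +kernel

lemma dc5 : (List.range 25).all (fun j => X10.dck d9 (125 + j)) = true := by
  decide +kernel

lemma dc6 : (List.range 25).all (fun j => X10.dck d9 (150 + j)) = true := by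
  decide +kernel

lemma dc7 : (List.range 25).all (fun j => X10.dck d9 (175 + j)) = true := by
  decide +kernel

lemma dc8 : (List.range 19).all (fun j => X10.dck d9 (200 + j)) = true := by
  decide +kernel

lemma dc_all : ∀ i < 219, X10.dck d9 i = true := by
  intro i hi
  by_cases h0 : i < 25
  · exact X10.all_of dc0 (by omega) (by omega)
  by_cases h1 : i < 50
  · exact X10.all_of dc1 (by omega) (by omega)
  by_cases h2 : i < 75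
  · exact X10.all_of dc2 (by omega) (by omega)
  by_cases h3 : i < 100
  · exact X10.all_of dc3 (by omega) (by omega)
  by_cases h4 : i < 125
  · exact X10.all_of dc4 (by omega) (by omega)
  by_cases h5 : i < 150
  · exact X10.all_of dc5 (by omega) (by omega)
  by_cases h6 : i < 175
  · exact X10.all_of dc6 (by omega) (by omega)
  by_cases h7 : i < 200
  · exact X10.all_of dc7 (by omega) (by omega)
  exact X10.all_of dc8 (by omega) (by omega)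

lemma dcl_len : dcl.length = 219 := by decide +kernel

lemma cls9_len : cls9.length = 219 := by decide +kernel

/-- look up -/
def look (D D' : List ℤ) : Bool := X10.look d9 D D'

lemma look_spec {D D' : List ℤ} (h : look D D' = true) : ∃ p : ℕ × ℕ, p.1 < cls9.length ∧
    p.2 < 6 ∧ divl (oo cls9 p).2 = D ∧ divl (co cls9 p).2 = D' :=
  X10.look_spec (X10.dc_of dcl_len cls9_len dc_all) h

/-- rotation -/
def rot : List ℤ → List ℤ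
  | [] => []
  | a :: l => l ++ [a]

/-- look up all rotations -/
def lk : ℕ → List ℤ → List ℤ → Bool
  | 0, _, _ => true
  | j + 1, D, D' => look D D' && lk j (rot D) (rot D')

lemma lk_spec (n : ℕ) : ∀ {D D' : List ℤ},
    lk n D D' = true → ∀ j < n, look (rot^[j] D) (rot^[j] D') = true := by
  induction n with
  | zero => intro D D' _ j hj; omega
  | succ n ih =>
    intro D D' h j hj
    unfold lk at h
    rw [Bool.and_eq_true] at h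
    rcases j with _ | j
    · exact h.1
    · rw [Function.iterate_succ_apply, Function.iterate_succ_apply]
      exact ih h.2 j (by omega)

/-- the weight condition -/
def wtc (l : List ℤ) : Bool := dot [0, 1, 2, 3, 4, 5, 6, 7, 8] l % 9 == 0

/-- the divisor of `f` from the divisor of `1 - f` and the zeros of `f` -/
def mkD : List ℤ → List ℤ → List ℤ
  | a :: as, v :: vs => (if v < 0 then v else a) :: mkD as vs
  | _, _ => []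

/-- the forms vanishing at a zero of order `a` at `-sP`: the first `a - 1` rows -/
def RWL : List (List (List ℤ)) := [
    [[.ofNat 0, .negSucc 17, .negSucc 35, .negSucc 17, .negSucc 17, .negSucc 8, .negSucc 8, .ofNat 9, .negSucc 8],
      [.ofNat 0, .negSucc 197, .negSucc 89, .negSucc 161, .negSucc 143, .negSucc 143, .negSucc 161, .negSucc 89, .negSucc 197],
      [.ofNat 0, .ofNat 396, .ofNat 360, .ofNat 324, .ofNat 234, .ofNat 90, .ofNat 54, .negSucc 197, .ofNat 90],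
      [.ofNat 0, .ofNat 1296, .ofNat 216, .ofNat 648, .ofNat 432, .ofNat 432, .ofNat 648, .ofNat 216, .ofNat 1296],
      [.ofNat 0, .negSucc 2591, .negSucc 863, .negSucc 1295, .ofNat 0, .ofNat 432, .ofNat 1296, .ofNat 1296, .ofNat 1080],
      [.ofNat 0, .negSucc 2591, .ofNat 0, .ofNat 0, .ofNat 0, .ofNat 0, .ofNat 0, .ofNat 0, .negSucc 2591],
      [.ofNat 0, .ofNat 5184, .ofNat 0, .ofNat 0, .negSucc 2591, .negSucc 2591, .negSucc 7775, .negSucc 2591, .negSucc 12959]],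
    [[.negSucc 8, .ofNat 0, .negSucc 17, .negSucc 35, .negSucc 17, .negSucc 17, .negSucc 8, .negSucc 8, .ofNat 9],
      [.negSucc 197, .ofNat 0, .negSucc 197, .negSucc 89, .negSucc 161, .negSucc 143, .negSucc 143, .negSucc 161, .negSucc 89],
      [.ofNat 90, .ofNat 0, .ofNat 396, .ofNat 360, .ofNat 324, .ofNat 234, .ofNat 90, .ofNat 54, .negSucc 197],
      [.ofNat 1296, .ofNat 0, .ofNat 1296, .ofNat 216, .ofNat 648, .ofNat 432, .ofNat 432, .ofNat 648, .ofNat 216],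
      [.ofNat 1080, .ofNat 0, .negSucc 2591, .negSucc 863, .negSucc 1295, .ofNat 0, .ofNat 432, .ofNat 1296, .ofNat 1296],
      [.negSucc 2591, .ofNat 0, .negSucc 2591, .ofNat 0, .ofNat 0, .ofNat 0, .ofNat 0, .ofNat 0, .ofNat 0],
      [.negSucc 12959, .ofNat 0, .ofNat 5184, .ofNat 0, .ofNat 0, .negSucc 2591, .negSucc 2591, .negSucc 7775, .negSucc 2591]],
    [[.ofNat 9, .negSucc 8, .ofNat 0, .negSucc 17, .negSucc 35, .negSucc 17, .negSucc 17, .negSucc 8, .negSucc 8],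
      [.negSucc 89, .negSucc 197, .ofNat 0, .negSucc 197, .negSucc 89, .negSucc 161, .negSucc 143, .negSucc 143, .negSucc 161],
      [.negSucc 197, .ofNat 90, .ofNat 0, .ofNat 396, .ofNat 360, .ofNat 324, .ofNat 234, .ofNat 90, .ofNat 54],
      [.ofNat 216, .ofNat 1296, .ofNat 0, .ofNat 1296, .ofNat 216, .ofNat 648, .ofNat 432, .ofNat 432, .ofNat 648],
      [.ofNat 1296, .ofNat 1080, .ofNat 0, .negSucc 2591, .negSucc 863, .negSucc 1295, .ofNat 0, .ofNat 432, .ofNat 1296],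
      [.ofNat 0, .negSucc 2591, .ofNat 0, .negSucc 2591, .ofNat 0, .ofNat 0, .ofNat 0, .ofNat 0, .ofNat 0],
      [.negSucc 2591, .negSucc 12959, .ofNat 0, .ofNat 5184, .ofNat 0, .ofNat 0, .negSucc 2591, .negSucc 2591, .negSucc 7775]],
    [[.negSucc 8, .ofNat 9, .negSucc 8, .ofNat 0, .negSucc 17, .negSucc 35, .negSucc 17, .negSucc 17, .negSucc 8],
      [.negSucc 161, .negSucc 89, .negSucc 197, .ofNat 0, .negSucc 197, .negSucc 89, .negSucc 161, .negSucc 143, .negSucc 143],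
      [.ofNat 54, .negSucc 197, .ofNat 90, .ofNat 0, .ofNat 396, .ofNat 360, .ofNat 324, .ofNat 234, .ofNat 90],
      [.ofNat 648, .ofNat 216, .ofNat 1296, .ofNat 0, .ofNat 1296, .ofNat 216, .ofNat 648, .ofNat 432, .ofNat 432],
      [.ofNat 1296, .ofNat 1296, .ofNat 1080, .ofNat 0, .negSucc 2591, .negSucc 863, .negSucc 1295, .ofNat 0, .ofNat 432],
      [.ofNat 0, .ofNat 0, .negSucc 2591, .ofNat 0, .negSucc 2591, .ofNat 0, .ofNat 0, .ofNat 0, .ofNat 0],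
      [.negSucc 7775, .negSucc 2591, .negSucc 12959, .ofNat 0, .ofNat 5184, .ofNat 0, .ofNat 0, .negSucc 2591, .negSucc 2591]],
    [[.negSucc 8, .negSucc 8, .ofNat 9, .negSucc 8, .ofNat 0, .negSucc 17, .negSucc 35, .negSucc 17, .negSucc 17],
      [.negSucc 143, .negSucc 161, .negSucc 89, .negSucc 197, .ofNat 0, .negSucc 197, .negSucc 89, .negSucc 161, .negSucc 143],
      [.ofNat 90, .ofNat 54, .negSucc 197, .ofNat 90, .ofNat 0, .ofNat 396, .ofNat 360, .ofNat 324, .ofNat 234],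
      [.ofNat 432, .ofNat 648, .ofNat 216, .ofNat 1296, .ofNat 0, .ofNat 1296, .ofNat 216, .ofNat 648, .ofNat 432],
      [.ofNat 432, .ofNat 1296, .ofNat 1296, .ofNat 1080, .ofNat 0, .negSucc 2591, .negSucc 863, .negSucc 1295, .ofNat 0],
      [.ofNat 0, .ofNat 0, .ofNat 0, .negSucc 2591, .ofNat 0, .negSucc 2591, .ofNat 0, .ofNat 0, .ofNat 0],
      [.negSucc 2591, .negSucc 7775, .negSucc 2591, .negSucc 12959, .ofNat 0, .ofNat 5184, .ofNat 0, .ofNat 0, .negSucc 2591]],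
    [[.negSucc 17, .negSucc 8, .negSucc 8, .ofNat 9, .negSucc 8, .ofNat 0, .negSucc 17, .negSucc 35, .negSucc 17],
      [.negSucc 143, .negSucc 143, .negSucc 161, .negSucc 89, .negSucc 197, .ofNat 0, .negSucc 197, .negSucc 89, .negSucc 161],
      [.ofNat 234, .ofNat 90, .ofNat 54, .negSucc 197, .ofNat 90, .ofNat 0, .ofNat 396, .ofNat 360, .ofNat 324],
      [.ofNat 432, .ofNat 432, .ofNat 648, .ofNat 216, .ofNat 1296, .ofNat 0, .ofNat 1296, .ofNat 216, .ofNat 648],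
      [.ofNat 0, .ofNat 432, .ofNat 1296, .ofNat 1296, .ofNat 1080, .ofNat 0, .negSucc 2591, .negSucc 863, .negSucc 1295],
      [.ofNat 0, .ofNat 0, .ofNat 0, .ofNat 0, .negSucc 2591, .ofNat 0, .negSucc 2591, .ofNat 0, .ofNat 0],
      [.negSucc 2591, .negSucc 2591, .negSucc 7775, .negSucc 2591, .negSucc 12959, .ofNat 0, .ofNat 5184, .ofNat 0, .ofNat 0]],
    [[.negSucc 17, .negSucc 17, .negSucc 8, .negSucc 8, .ofNat 9, .negSucc 8, .ofNat 0, .negSucc 17, .negSucc 35],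
      [.negSucc 161, .negSucc 143, .negSucc 143, .negSucc 161, .negSucc 89, .negSucc 197, .ofNat 0, .negSucc 197, .negSucc 89],
      [.ofNat 324, .ofNat 234, .ofNat 90, .ofNat 54, .negSucc 197, .ofNat 90, .ofNat 0, .ofNat 396, .ofNat 360],
      [.ofNat 648, .ofNat 432, .ofNat 432, .ofNat 648, .ofNat 216, .ofNat 1296, .ofNat 0, .ofNat 1296, .ofNat 216],
      [.negSucc 1295, .ofNat 0, .ofNat 432, .ofNat 1296, .ofNat 1296, .ofNat 1080, .ofNat 0, .negSucc 2591, .negSucc 863],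
      [.ofNat 0, .ofNat 0, .ofNat 0, .ofNat 0, .ofNat 0, .negSucc 2591, .ofNat 0, .negSucc 2591, .ofNat 0],
      [.ofNat 0, .negSucc 2591, .negSucc 2591, .negSucc 7775, .negSucc 2591, .negSucc 12959, .ofNat 0, .ofNat 5184, .ofNat 0]],
    [[.negSucc 35, .negSucc 17, .negSucc 17, .negSucc 8, .negSucc 8, .ofNat 9, .negSucc 8, .ofNat 0, .negSucc 17],
      [.negSucc 89, .negSucc 161, .negSucc 143, .negSucc 143, .negSucc 161, .negSucc 89, .negSucc 197, .ofNat 0, .negSucc 197],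
      [.ofNat 360, .ofNat 324, .ofNat 234, .ofNat 90, .ofNat 54, .negSucc 197, .ofNat 90, .ofNat 0, .ofNat 396],
      [.ofNat 216, .ofNat 648, .ofNat 432, .ofNat 432, .ofNat 648, .ofNat 216, .ofNat 1296, .ofNat 0, .ofNat 1296],
      [.negSucc 863, .negSucc 1295, .ofNat 0, .ofNat 432, .ofNat 1296, .ofNat 1296, .ofNat 1080, .ofNat 0, .negSucc 2591],
      [.ofNat 0, .ofNat 0, .ofNat 0, .ofNat 0, .ofNat 0, .ofNat 0, .negSucc 2591, .ofNat 0, .negSucc 2591],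
      [.ofNat 0, .ofNat 0, .negSucc 2591, .negSucc 2591, .negSucc 7775, .negSucc 2591, .negSucc 12959, .ofNat 0, .ofNat 5184]],
    [[.negSucc 17, .negSucc 35, .negSucc 17, .negSucc 17, .negSucc 8, .negSucc 8, .ofNat 9, .negSucc 8, .ofNat 0],
      [.negSucc 197, .negSucc 89, .negSucc 161, .negSucc 143, .negSucc 143, .negSucc 161, .negSucc 89, .negSucc 197, .ofNat 0],
      [.ofNat 396, .ofNat 360, .ofNat 324, .ofNat 234, .ofNat 90, .ofNat 54, .negSucc 197, .ofNat 90, .ofNat 0],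
      [.ofNat 1296, .ofNat 216, .ofNat 648, .ofNat 432, .ofNat 432, .ofNat 648, .ofNat 216, .ofNat 1296, .ofNat 0],
      [.negSucc 2591, .negSucc 863, .negSucc 1295, .ofNat 0, .ofNat 432, .ofNat 1296, .ofNat 1296, .ofNat 1080, .ofNat 0],
      [.negSucc 2591, .ofNat 0, .ofNat 0, .ofNat 0, .ofNat 0, .ofNat 0, .ofNat 0, .negSucc 2591, .ofNat 0],
      [.ofNat 5184, .ofNat 0, .ofNat 0, .negSucc 2591, .negSucc 2591, .negSucc 7775, .negSucc 2591, .negSucc 12959, .ofNat 0]]]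

/-- the differences of the exponents of `2` and of `3` -/
def VWL : List (List (List ℤ)) := [
    [],
    [[.negSucc 6, .ofNat 7, .ofNat 3, .negSucc 0, .negSucc 4, .ofNat 0, .ofNat 5, .ofNat 1, .negSucc 2],
      [.negSucc 2, .ofNat 3, .ofNat 0, .negSucc 2, .ofNat 3, .ofNat 0, .negSucc 2, .ofNat 3, .ofNat 0]],
    [[.negSucc 9, .ofNat 0, .ofNat 10, .ofNat 2, .negSucc 5, .negSucc 4, .ofNat 5, .ofNat 6, .negSucc 1],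
      [.negSucc 2, .ofNat 0, .ofNat 3, .negSucc 2, .ofNat 0, .ofNat 3, .negSucc 2, .ofNat 0, .ofNat 3]],
    [[.negSucc 8, .negSucc 2, .ofNat 3, .ofNat 9, .negSucc 2, .negSucc 5, .ofNat 0, .ofNat 6, .ofNat 3],
      [.ofNat 0, .ofNat 0, .ofNat 0, .ofNat 0, .ofNat 0, .ofNat 0, .ofNat 0, .ofNat 0, .ofNat 0]],
    [[.negSucc 3, .negSucc 1, .ofNat 0, .ofNat 2, .ofNat 4, .negSucc 2, .negSucc 0, .ofNat 1, .ofNat 3],
      [.negSucc 2, .ofNat 3, .ofNat 0, .negSucc 2, .ofNat 3, .ofNat 0, .negSucc 2, .ofNat 3, .ofNat 0]],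
    [[.negSucc 3, .ofNat 3, .ofNat 1, .negSucc 0, .negSucc 2, .ofNat 4, .ofNat 2, .ofNat 0, .negSucc 1],
      [.negSucc 2, .ofNat 0, .ofNat 3, .negSucc 2, .ofNat 0, .ofNat 3, .negSucc 2, .ofNat 0, .ofNat 3]],
    [[.negSucc 8, .ofNat 3, .ofNat 6, .ofNat 0, .negSucc 5, .negSucc 2, .ofNat 9, .ofNat 3, .negSucc 2],
      [.ofNat 0, .ofNat 0, .ofNat 0, .ofNat 0, .ofNat 0, .ofNat 0, .ofNat 0, .ofNat 0, .ofNat 0]],
    [[.negSucc 9, .negSucc 1, .ofNat 6, .ofNat 5, .negSucc 4, .negSucc 5, .ofNat 2, .ofNat 10, .ofNat 0],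
      [.negSucc 2, .ofNat 3, .ofNat 0, .negSucc 2, .ofNat 3, .ofNat 0, .negSucc 2, .ofNat 3, .ofNat 0]],
    [[.negSucc 6, .negSucc 2, .ofNat 1, .ofNat 5, .ofNat 0, .negSucc 4, .negSucc 0, .ofNat 3, .ofNat 7],
      [.negSucc 2, .ofNat 0, .ofNat 3, .negSucc 2, .ofNat 0, .ofNat 3, .negSucc 2, .ofNat 0, .ofNat 3]]]

/-- a unit vector -/
def un (s : Fin 9) : List ℤ := (List.finRange 9).map (fun i => if i = s then 1 else 0)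

/-- a fibre with multiplicities and the levels of the enumeration -/
structure Cfg where
  pts : List (Fin 9 × ℕ)
  lv : List (Bool × List (List ℤ × List ℤ))

/-- the linear forms vanishing on the divisor of `1 - f` -/
def rowsC (pts : List (Fin 9 × ℕ)) : List (List ℤ) :=
  pts.map (fun p => un p.1) ++ ([1, 1, 1, 1, 1, 1, 1, 1, 1] ::
    pts.flatMap (fun p => VWL.getD p.1.val [] ++ (RWL.getD p.1.val []).take (p.2 - 1)))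

/-- the levels are correct -/
def lvok (pts : List (Fin 9 × ℕ)) (rows : List (List ℤ)) :
    List (Bool × List (List ℤ × List ℤ)) → Bool
  | [] => true
  | (b, rs) :: ms => (!b || pts.any (fun p => p.1.val == ms.length)) &&
      (rs.all (fun r => List.replicate ms.length 0 ++ r.1 == lcomb r.2 rows) &&
      lvok pts rows ms)

/-- the levels for the enumeration -/
def lvE (c : Cfg) : List (Bool × List (List ℤ)) := c.lv.map (fun b => (b.1, b.2.map Prod.fst))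

/-- the zeros of `f` -/
def fz (pts : List (Fin 9 × ℕ)) : List ℤ := (List.finRange 9).map (fun s =>
  match pts.find? (fun p => p.1 == s) with
  | some p => Int.ofNat p.2
  | none => 0)

/-- the check of a vector -/
def chkE (f : List ℤ) (l : List ℤ) : Bool :=
  !(wtc l) || (!(wtc (mkD f l)) || lk 9 (mkD f l) l)

/-- the check of a fibre -/
def okE (c : Cfg) : Bool := (c.lv.length == 9) && (lvok c.pts (rowsC c.pts) c.lv &&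
  X10.enS (chkE (fz c.pts)) (lvE c) (pos (fz c.pts)) (pos (fz c.pts)) [])

/-- the levels force the vector to vanish -/
def zall : List (Bool × List (List ℤ)) → Bool
  | [] => true
  | (b, rs) :: ms => (b || rs.any (fun r => !(r.headD 0 == 0))) && zall ms

/-- the check of a fibre without solutions -/
def okZ (c : Cfg) : Bool := (c.lv.length == 9) && (lvok c.pts (rowsC c.pts) c.lv && zall (lvE c))

/-- comparison of multiplicities -/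
def leP : List (Fin 9 × ℕ) → List (Fin 9 × ℕ) → Bool
  | [], [] => true
  | p :: l, q :: m => (p.1 == q.1) && (decide (p.2 ≤ q.2) && leP l m)
  | _, _ => false

/-- all fibres are covered -/
def cov (E Z : List Cfg) (a : List (Fin 9 × ℕ)) : Bool :=
  E.any (fun c => c.pts == a) || Z.any (fun c => leP c.pts a)

/-- lists of multiplicities between one and nine -/
def prods : ℕ → List (List ℕ)
  | 0 => [[]]
  | k + 1 => [1, 2, 3, 4, 5, 6, 7, 8, 9].flatMap (fun a => (prods k).map (fun l => a :: l))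

/-- all checks for one type of fibre -/
structure Typ (T : List (Fin 9)) (E Z : List Cfg) : Prop where
  okE : E.all okE = true
  okZ : Z.all okZ = true
  cov : (prods T.length).all (fun a => cov E Z (T.zip a)) = true

end Pool.Agent.K9
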