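import Pool.Agent.Lib_helper60.K9.D
import Pool.Agent.Lib_helper60.K9.T1

/-!
# A point of order nine, `d = 2`: the classes are solutions
-/

set_option autoImplicit false
set_option linter.unusedSectionVars false
set_option linter.unusedSimpArgs false
set_option linter.unusedVariables false

namespace Pool.Agent.K9

open Polynomial WeierstrassCurve.Affine WithZero
open Pool.Agent.TN Pool.Agent.KC72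

/-- a power of a monomial -/
def powz (R : Mo) (n : ℤ) : Mo := (R.1 && !(n % 2 == 0), R.2.map (fun v => n * v))

/-- substitution of monomials -/
def trl : List Mo → List ℤ → Mo
  | R :: Rs, n :: l => (powz R n).mul (trl Rs l)
  | _, _ => (false, [])

/-- the generators at the next point -/
def nxR : List Mo := [(false, [-2, 0, 0, 0, 1, 0, 0, 0, 2, 1]),
  (true, [-2, -1, 0, 0, 1, 1, 0, 0, 2, 1]),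
  (true, [-2, 0, -1, 0, 0, 1, 1, 0, 2, 0]),
  (true, [-2, 0, 0, -1, 0, 0, 1, 1, 1, 1]),
  (false, [-3, -1, 0, 0, 1, 1, 0, 0, 4, 2]),
  (true, [-3, -1, -1, 0, 1, 1, 1, 0, 4, 1]),
  (true, [-3, 0, -1, -1, 0, 1, 1, 1, 3, 1]),
  (true, [-3, 0, 0, -2, 0, 0, 2, 1, 2, 2]),
  (false, [0, 0, 0, 0, 0, 0, 0, 0, 1, 0]),
  (false, [0, 0, 0, 0, 0, 0, 0, 0, 0, 1])]

/-- a monomial at the next point -/
def trM (m : Mo) : Mo := (xor m.1 (trl nxR m.2).1, (trl nxR m.2).2)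

/-- a monomial with natural exponents -/
def nM (s : Bool) (l : List ℕ) : Mo := (s, l.map Int.ofNat)

/-- the types of classes: numerators and the denominator -/
def bt : ℕ → Mo × Mo × Mo
  | 0 => (nM true [0, 0, 0, 1, 0, 0, 0, 0, 0, 0], nM false [0, 0, 1, 0, 0, 0, 0, 0, 0, 0],
      nM false [0, 0, 0, 0, 0, 0, 0, 0, 1, 0])
  | 1 => (nM false [0, 0, 0, 1, 0, 0, 0, 0, 0, 0], nM true [0, 1, 0, 0, 0, 0, 0, 0, 0, 0],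
      nM false [0, 0, 0, 0, 0, 0, 0, 0, 1, 1])
  | 2 => (nM true [0, 0, 0, 1, 0, 0, 0, 0, 0, 0], nM false [1, 0, 0, 0, 0, 0, 0, 0, 0, 0],
      nM false [0, 0, 0, 0, 0, 0, 0, 0, 1, 1])
  | 3 => (nM false [0, 0, 1, 0, 0, 0, 0, 0, 0, 0], nM true [0, 1, 0, 0, 0, 0, 0, 0, 0, 0],
      nM false [0, 0, 0, 0, 0, 0, 0, 0, 3, 0])
  | 4 => (nM true [0, 0, 1, 0, 0, 0, 0, 0, 0, 0], nM false [1, 0, 0, 0, 0, 0, 0, 0, 0, 0],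
      nM false [0, 0, 0, 0, 0, 0, 0, 0, 2, 0])
  | 5 => (nM true [0, 1, 0, 0, 0, 0, 0, 0, 0, 0], nM false [1, 0, 0, 0, 0, 0, 0, 0, 0, 0],
      nM false [0, 0, 0, 0, 0, 0, 0, 0, 2, 1])
  | 6 => (nM false [0, 0, 1, 0, 0, 0, 0, 0, 0, 1], nM false [0, 1, 0, 0, 0, 0, 0, 0, 0, 0],
      nM false [0, 0, 0, 1, 0, 0, 0, 0, 2, 0])
  | 7 => (nM false [0, 0, 1, 0, 0, 0, 0, 0, 0, 1], nM true [1, 0, 0, 0, 0, 0, 0, 0, 0, 0],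
      nM false [0, 0, 0, 1, 0, 0, 0, 0, 1, 0])
  | 8 => (nM false [0, 1, 0, 0, 0, 0, 0, 0, 0, 0], nM false [1, 0, 0, 0, 0, 0, 0, 0, 0, 0],
      nM false [0, 0, 0, 1, 0, 0, 0, 0, 1, 0])
  | 9 => (nM false [0, 1, 0, 0, 0, 0, 0, 0, 0, 0], nM false [1, 0, 0, 0, 0, 0, 0, 0, 1, 0],
      nM false [0, 0, 1, 0, 0, 0, 0, 0, 0, 1])
  | 10 => (nM false [0, 0, 0, 0, 1, 1, 1, 0, 0, 0], nM true [0, 1, 1, 0, 0, 0, 1, 0, 0, 2],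
      nM false [0, 1, 1, 1, 0, 0, 0, 1, 0, 0])
  | 11 => (nM true [0, 0, 0, 0, 0, 1, 1, 2, 1, 0], nM false [2, 0, 0, 1, 0, 1, 1, 0, 0, 1],
      nM false [0, 1, 1, 1, 2, 0, 0, 0, 0, 0])
  | 12 => (nM true [1, 0, 0, 2, 0, 0, 0, 0, 0, 0], nM false [0, 0, 0, 0, 1, 0, 0, 1, 0, 0],
      nM false [0, 0, 0, 0, 0, 0, 0, 1, 2, 1])
  | 13 => (nM true [2, 1, 0, 0, 0, 0, 0, 0, 0, 0], nM false [0, 0, 0, 0, 1, 0, 0, 1, 0, 0],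
      nM false [0, 0, 0, 0, 1, 0, 0, 0, 2, 1])
  | 14 => (nM false [0, 0, 1, 0, 0, 0, 0, 1, 0, 1], nM false [0, 0, 0, 0, 0, 0, 0, 2, 0, 0],
      nM false [1, 0, 0, 2, 0, 0, 0, 0, 0, 0])
  | 15 => (nM false [1, 0, 1, 1, 0, 0, 0, 0, 0, 0], nM true [0, 1, 0, 0, 0, 0, 1, 0, 0, 0],
      nM false [0, 0, 0, 0, 0, 0, 2, 0, 0, 0])
  | 16 => (nM false [0, 1, 1, 0, 1, 0, 0, 0, 0, 0], nM true [0, 0, 0, 0, 0, 1, 0, 1, 2, 0],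
      nM false [2, 0, 0, 0, 0, 1, 0, 0, 0, 0])
  | 17 => (nM true [0, 0, 0, 0, 0, 1, 0, 1, 0, 1], nM false [0, 0, 0, 2, 1, 0, 0, 0, 0, 0],
      nM false [2, 0, 0, 0, 0, 0, 0, 1, 0, 0])
  | 18 => (nM false [1, 0, 0, 0, 1, 1, 0, 0, 0, 0], nM true [0, 1, 1, 0, 1, 0, 0, 0, 0, 1],
      nM false [0, 1, 0, 0, 0, 1, 0, 1, 0, 0])
  | 19 => (nM false [0, 0, 0, 2, 1, 0, 0, 0, 2, 0], nM false [0, 1, 0, 0, 0, 1, 0, 1, 0, 0],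
      nM false [1, 0, 0, 0, 1, 0, 0, 1, 0, 0])
  | 20 => (nM false [0, 0, 0, 2, 0, 0, 0, 0, 0, 0], nM true [1, 1, 0, 0, 0, 0, 0, 0, 0, 0],
      nM false [0, 0, 0, 0, 0, 0, 0, 0, 2, 2])
  | 21 => (nM true [0, 2, 0, 0, 0, 0, 0, 0, 0, 0], nM false [2, 0, 0, 0, 0, 0, 0, 0, 0, 0],
      nM false [0, 0, 0, 1, 0, 0, 0, 0, 3, 1])
  | 22 => (nM false [0, 1, 1, 0, 0, 0, 0, 0, 0, 1], nM false [2, 0, 0, 0, 0, 0, 0, 0, 0, 0],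
      nM false [0, 0, 0, 2, 0, 0, 0, 0, 2, 0])
  | 23 => (nM true [0, 1, 0, 1, 0, 0, 0, 0, 0, 0], nM false [2, 0, 0, 0, 0, 0, 0, 0, 0, 0],
      nM false [0, 0, 1, 0, 0, 0, 0, 0, 1, 2])
  | _ => (nM false [0, 2, 0, 0, 0, 0, 0, 0, 0, 0], nM false [1, 0, 0, 1, 0, 0, 0, 0, 3, 0],
      nM false [0, 0, 2, 0, 0, 0, 0, 0, 0, 2])

/-- the classes of a type after `i` translations -/
def bc (i r : ℕ) : Mo × Mo :=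
  (trM^[i] ((bt r).1.div (bt r).2.2), trM^[i] ((bt r).2.1.div (bt r).2.2))

/-- the type, the translation and the index of each class -/
def tix : List (ℕ × ℕ × ℕ) := [(0, 1, 0), (1, 1, 0), (2, 1, 0), (3, 1, 0), (4, 1, 0), (5, 1, 0), (6, 1, 0),
  (7, 1, 0), (8, 1, 0), (9, 1, 0), (2, 6, 2), (1, 6, 2), (0, 6, 2), (8, 6, 1),
  (7, 6, 1), (6, 6, 1), (5, 6, 1), (4, 6, 1), (3, 6, 1), (9, 6, 5), (2, 2, 1),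
  (4, 2, 1), (5, 2, 1), (0, 2, 0), (1, 2, 0), (3, 2, 0), (7, 2, 4), (8, 2, 4),
  (9, 2, 4), (6, 2, 0), (0, 7, 3), (7, 7, 0), (6, 7, 0), (2, 7, 2), (1, 7, 2),
  (8, 7, 1), (4, 7, 2), (3, 7, 2), (9, 7, 1), (5, 7, 1), (5, 3, 1), (2, 3, 1),
  (4, 3, 1), (1, 3, 1), (3, 3, 1), (0, 3, 0), (8, 3, 5), (9, 3, 5), (7, 3, 4),
  (6, 3, 4), (6, 8, 0), (0, 8, 3), (7, 8, 0), (1, 8, 3), (8, 8, 0), (2, 8, 2),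
  (3, 8, 3), (9, 8, 0), (4, 8, 2), (5, 8, 2), (5, 4, 1), (4, 4, 1), (2, 4, 1),
  (3, 4, 1), (1, 4, 1), (0, 4, 1), (9, 4, 5), (8, 4, 5), (7, 4, 5), (6, 4, 5),
  (6, 0, 0), (7, 0, 0), (0, 0, 3), (8, 0, 0), (1, 0, 3), (2, 0, 3), (9, 0, 0),
  (3, 0, 3), (4, 0, 3), (5, 0, 3), (5, 5, 1), (4, 5, 1), (2, 5, 1), (3, 5, 1),
  (1, 5, 1), (0, 5, 1), (9, 5, 5), (8, 5, 5), (7, 5, 5), (6, 5, 5), (10, 5, 0),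
  (11, 8, 0), (12, 1, 0), (10, 2, 2), (11, 5, 2), (13, 1, 0), (13, 4, 0), (11, 2, 1),
  (12, 4, 1), (10, 8, 0), (14, 1, 0), (13, 7, 4), (14, 7, 5), (15, 1, 3), (14, 4, 2),
  (12, 7, 0), (16, 4, 0), (17, 4, 0), (17, 1, 5), (16, 1, 5), (16, 7, 4), (17, 7, 2),
  (18, 5, 0), (19, 2, 0), (18, 2, 3), (19, 5, 1), (18, 8, 1), (19, 8, 5), (11, 0, 1),
  (12, 2, 1), (10, 6, 0), (11, 6, 3), (13, 2, 1), (10, 3, 2), (13, 5, 4), (14, 5, 5),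
  (11, 3, 1), (12, 5, 1), (10, 0, 0), (14, 2, 1), (13, 8, 4), (14, 8, 5), (15, 2, 2),
  (12, 8, 4), (17, 2, 1), (16, 2, 1), (17, 8, 5), (16, 5, 4), (16, 8, 3), (17, 5, 0),
  (19, 3, 1), (18, 6, 0), (18, 3, 2), (19, 6, 2), (18, 0, 0), (19, 0, 4), (13, 3, 0),
  (10, 4, 3), (11, 7, 3), (11, 1, 1), (12, 3, 1), (10, 7, 0), (12, 0, 3), (14, 0, 1),
  (13, 6, 4), (14, 6, 4), (15, 0, 2), (12, 6, 0), (10, 1, 1), (11, 4, 1), (13, 0, 3),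
  (14, 3, 1), (17, 3, 0), (17, 0, 4), (16, 3, 1), (16, 6, 4), (16, 0, 2), (17, 6, 1),
  (18, 4, 3), (19, 4, 1), (18, 7, 0), (19, 7, 5), (19, 1, 3), (18, 1, 4), (20, 1, 0),
  (21, 1, 0), (22, 1, 0), (23, 1, 0), (24, 1, 0), (22, 8, 0), (20, 8, 2), (24, 8, 0),
  (23, 8, 2), (21, 8, 2), (20, 6, 2), (22, 6, 1), (21, 6, 1), (24, 6, 5), (23, 6, 5),
  (20, 4, 1), (21, 4, 5), (23, 4, 4), (22, 4, 5), (24, 4, 2), (20, 2, 0), (21, 2, 4),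
  (22, 2, 4), (23, 2, 4), (24, 2, 4), (22, 0, 0), (20, 0, 3), (24, 0, 0), (23, 0, 3),
  (21, 0, 3), (20, 7, 2), (22, 7, 1), (24, 7, 1), (21, 7, 1), (23, 7, 1), (20, 5, 1),
  (21, 5, 5), (23, 5, 4), (22, 5, 5), (24, 5, 2), (20, 3, 1), (21, 3, 5), (23, 3, 5),
  (22, 3, 4), (24, 3, 3)]

/-- the check of a class -/
def tixc (c : ℕ) : Bool :=
  eqM (cls9.getD c default).1 (orb6 (bc (tix.getD c default).2.1 (tix.getD c default).1).1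
    (bc (tix.getD c default).2.1 (tix.getD c default).1).2 (tix.getD c default).2.2) &&
  eqM (cls9.getD c default).2 (orb6 (bc (tix.getD c default).2.1 (tix.getD c default).1).1
    (bc (tix.getD c default).2.1 (tix.getD c default).1).2 (cm6 (tix.getD c default).2.2))

lemma tix0 : (List.range 25).all (fun j => tixc (0 + j)) = true := by
  decide +kernel

lemma tix1 : (List.range 25).all (fun j => tixc (25 + j)) = true := by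
  decide +kernel

lemma tix2 : (List.range 25).all (fun j => tixc (50 + j)) = true := by
  decide +kernel

lemma tix3 : (List.range 25).all (fun j => tixc (75 + j)) = true := by
  decide +kernel

lemma tix4 : (List.range 25).all (fun j => tixc (100 + j)) = true := by
  decide +kernel

lemma tix5 : (List.range 25).all (fun j => tixc (125 + j)) = true := by
  decide +kernel

lemma tix6 : (List.range 25).all (fun j => tixc (150 + j)) = true := by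
  decide +kernel

lemma tix7 : (List.range 25).all (fun j => tixc (175 + j)) = true := by
  decide +kernel

lemma tix8 : (List.range 19).all (fun j => tixc (200 + j)) = true := by
  decide +kernel

lemma tix_ok : ∀ c < 219, tixc c = true := by
  intro i hi
  by_cases h0 : i < 25
  · exact X10.all_of tix0 (by omega) (by omega)
  by_cases h1 : i < 50
  · exact X10.all_of tix1 (by omega) (by omega)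
  by_cases h2 : i < 75
  · exact X10.all_of tix2 (by omega) (by omega)
  by_cases h3 : i < 100
  · exact X10.all_of tix3 (by omega) (by omega)
  by_cases h4 : i < 125
  · exact X10.all_of tix4 (by omega) (by omega)
  by_cases h5 : i < 150
  · exact X10.all_of tix5 (by omega) (by omega)
  by_cases h6 : i < 175
  · exact X10.all_of tix6 (by omega) (by omega)
  by_cases h7 : i < 200
  · exact X10.all_of tix7 (by omega) (by omega)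
  exact X10.all_of tix8 (by omega) (by omega)

section

variable {F : Type*} [Field F]

lemma ev_powz {g : List F} (hg : ∀ z ∈ g, z ≠ 0) (R : Mo) (n : ℤ) :
    KC72.ev g (powz R n) = KC72.ev g R ^ n := by
  have h1 : evl g (R.2.map (fun v => n * v)) = evl g R.2 ^ n := by
    generalize R.2 = l
    induction g generalizing l with
    | nil => simp
    | cons e g ih =>
      cases l with
      | nil => simp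
      | cons x l =>
        rw [List.map_cons, evl_cons, evl_cons, mul_zpow, ih (fun z hz => hg z (by simp [hz])),
          ← zpow_mul, mul_comm n x]
  unfold powz KC72.ev
  rw [h1, mul_zpow]
  congr 1
  rcases R with ⟨_ | _, l⟩
  · simp
  · by_cases hn : n % 2 = 0
    · have : Even n := Int.even_iff.mpr hn
      simp [hn, this.neg_one_zpow]
    · have : Odd n := Int.odd_iff.mpr (by omega)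
      have hb : (n % 2 == 0) = false := beq_eq_false_iff_ne.mpr hn
      simp [hb, this.neg_one_zpow]

lemma ev_trl {g : List F} (hg : ∀ z ∈ g, z ≠ 0) {Rs : List Mo} {G' : List F}
    (h : List.Forall₂ (fun R z => KC72.ev g R = z) Rs G') (l : List ℤ) :
    KC72.ev g (trl Rs l) = evl G' l := by
  induction h generalizing l with
  | nil => simp [trl, KC72.ev]
  | cons h1 h2 ih =>
    cases l with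
    | nil => simp [trl, KC72.ev]
    | cons n l =>
      show KC72.ev g ((powz _ n).mul (trl _ l)) = _
      rw [ev_mul hg, ev_powz hg, ih, h1, evl_cons]

lemma evl_ofFn {n : ℕ} (g : Fin n → F) (l : List ℤ) :
    evl (List.ofFn g) l = ∏ j : Fin n, g j ^ (l.getD j.val 0) := by
  induction n generalizing l with
  | zero => simp
  | succ n ih =>
    rw [List.ofFn_succ, Fin.prod_univ_succ]
    cases l with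
    | nil => simp
    | cons x l =>
      rw [evl_cons, ih]
      simp

/-- the generators -/
def G9 (x y : F) : Fin 10 → F := ![x, x - 12, x - 4, x - 6, y, y - 4 * x, y - 2 * x, y - 3 * x,
  2, 3]

lemma ev_G9 (x y : F) (s : Bool) (l : List ℤ) : KC72.ev (List.ofFn (G9 x y)) (s, l) =
    (bif s then -1 else 1) * (x ^ l.getD 0 0 * (x - 12) ^ l.getD 1 0 * (x - 4) ^ l.getD 2 0 *
      (x - 6) ^ l.getD 3 0 * y ^ l.getD 4 0 * (y - 4 * x) ^ l.getD 5 0 *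
      (y - 2 * x) ^ l.getD 6 0 * (y - 3 * x) ^ l.getD 7 0 * 2 ^ l.getD 8 0 * 3 ^ l.getD 9 0) := by
  unfold KC72.ev
  rw [evl_ofFn, Fin.prod_univ_castSucc, Fin.prod_univ_castSucc, Fin.prod_univ_eight]
  rfl

lemma ev_nM (x y : F) (s : Bool) (l : List ℕ) : KC72.ev (List.ofFn (G9 x y)) (nM s l) =
    (bif s then -1 else 1) * (x ^ l.getD 0 0 * (x - 12) ^ l.getD 1 0 * (x - 4) ^ l.getD 2 0 *
      (x - 6) ^ l.getD 3 0 * y ^ l.getD 4 0 * (y - 4 * x) ^ l.getD 5 0 *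
      (y - 2 * x) ^ l.getD 6 0 * (y - 3 * x) ^ l.getD 7 0 * 2 ^ l.getD 8 0 * 3 ^ l.getD 9 0) := by
  have key : ∀ j : ℕ, (l.map Int.ofNat).getD j 0 = ((l.getD j 0 : ℕ) : ℤ) := by
    intro j
    exact List.getD_map l (0 : ℕ) Int.ofNat
  unfold nM
  rw [ev_G9]
  simp only [key, zpow_natCast]

end

section

variable {k : Type*} [Field k] {F : Type*} [Field F] [Algebra k F] {x y : F}

lemma charF (k : Type*) [Field k] [CharZero k] (F : Type*) [Field F] [Algebra k F] : CharZero F :=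
  charZero_of_injective_algebraMap (algebraMap k F).injective

lemma G9_ne [CharZero k] (h : Gen (12 : k) 4 x y) (i : Fin 10) : G9 x y i ≠ 0 := by
  have := charF k F
  fin_cases i
  · exact uF_ne h 0
  · exact uF_ne h 1
  · exact uF_ne h 2
  · exact uF_ne h 3
  · exact uF_ne h 4
  · exact uF_ne h 5
  · exact uF_ne h 6
  · exact uF_ne h 7
  · exact (two_ne_zero : (2 : F) ≠ 0)
  · exact (three_ne_zero : (3 : F) ≠ 0)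

lemma G9l_ne [CharZero k] (h : Gen (12 : k) 4 x y) :
    ∀ z ∈ List.ofFn (G9 x y), z ≠ 0 := by
  intro z hz
  rw [List.mem_ofFn] at hz
  obtain ⟨i, rfl⟩ := hz
  exact G9_ne h i

/-- the identities of the types -/
lemma bt_sol (h : Gen (12 : k) 4 x y) (r : ℕ) :
    KC72.ev (List.ofFn (G9 x y)) (bt r).1 + KC72.ev (List.ofFn (G9 x y)) (bt r).2.1 =
      KC72.ev (List.ofFn (G9 x y)) (bt r).2.2 := by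
  have he := curve h
  rcases r with _ | _ | _ | _ | _ | _ | _ | _ | _ | _ | _ | _ | _ | _ | _ | _ | _ | _ | _ | _ | _ | _ | _ | _ | r
  · show KC72.ev _ (nM true [0, 0, 0, 1, 0, 0, 0, 0, 0, 0]) + KC72.ev _ (nM false [0, 0, 1, 0, 0, 0, 0, 0, 0, 0]) =
      KC72.ev _ (nM false [0, 0, 0, 0, 0, 0, 0, 0, 1, 0])
    rw [ev_nM, ev_nM, ev_nM]
    show (-1) * (x ^ 0 * (x - 12) ^ 0 * (x - 4) ^ 0 * (x - 6) ^ 1 * y ^ 0 * (y - 4 * x) ^ 0 * (y - 2 * x) ^ 0 * (y - 3 * x) ^ 0 * 2 ^ 0 * 3 ^ 0) +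
      1 * (x ^ 0 * (x - 12) ^ 0 * (x - 4) ^ 1 * (x - 6) ^ 0 * y ^ 0 * (y - 4 * x) ^ 0 * (y - 2 * x) ^ 0 * (y - 3 * x) ^ 0 * 2 ^ 0 * 3 ^ 0) =
      1 * (x ^ 0 * (x - 12) ^ 0 * (x - 4) ^ 0 * (x - 6) ^ 0 * y ^ 0 * (y - 4 * x) ^ 0 * (y - 2 * x) ^ 0 * (y - 3 * x) ^ 0 * 2 ^ 1 * 3 ^ 0)
    ring
  · show KC72.ev _ (nM false [0, 0, 0, 1, 0, 0, 0, 0, 0, 0]) + KC72.ev _ (nM true [0, 1, 0, 0, 0, 0, 0, 0, 0, 0]) =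
      KC72.ev _ (nM false [0, 0, 0, 0, 0, 0, 0, 0, 1, 1])
    rw [ev_nM, ev_nM, ev_nM]
    show 1 * (x ^ 0 * (x - 12) ^ 0 * (x - 4) ^ 0 * (x - 6) ^ 1 * y ^ 0 * (y - 4 * x) ^ 0 * (y - 2 * x) ^ 0 * (y - 3 * x) ^ 0 * 2 ^ 0 * 3 ^ 0) +
      (-1) * (x ^ 0 * (x - 12) ^ 1 * (x - 4) ^ 0 * (x - 6) ^ 0 * y ^ 0 * (y - 4 * x) ^ 0 * (y - 2 * x) ^ 0 * (y - 3 * x) ^ 0 * 2 ^ 0 * 3 ^ 0) =
      1 * (x ^ 0 * (x - 12) ^ 0 * (x - 4) ^ 0 * (x - 6) ^ 0 * y ^ 0 * (y - 4 * x) ^ 0 * (y - 2 * x) ^ 0 * (y - 3 * x) ^ 0 * 2 ^ 1 * 3 ^ 1)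
    ring
  · show KC72.ev _ (nM true [0, 0, 0, 1, 0, 0, 0, 0, 0, 0]) + KC72.ev _ (nM false [1, 0, 0, 0, 0, 0, 0, 0, 0, 0]) =
      KC72.ev _ (nM false [0, 0, 0, 0, 0, 0, 0, 0, 1, 1])
    rw [ev_nM, ev_nM, ev_nM]
    show (-1) * (x ^ 0 * (x - 12) ^ 0 * (x - 4) ^ 0 * (x - 6) ^ 1 * y ^ 0 * (y - 4 * x) ^ 0 * (y - 2 * x) ^ 0 * (y - 3 * x) ^ 0 * 2 ^ 0 * 3 ^ 0) +
      1 * (x ^ 1 * (x - 12) ^ 0 * (x - 4) ^ 0 * (x - 6) ^ 0 * y ^ 0 * (y - 4 * x) ^ 0 * (y - 2 * x) ^ 0 * (y - 3 * x) ^ 0 * 2 ^ 0 * 3 ^ 0) =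
      1 * (x ^ 0 * (x - 12) ^ 0 * (x - 4) ^ 0 * (x - 6) ^ 0 * y ^ 0 * (y - 4 * x) ^ 0 * (y - 2 * x) ^ 0 * (y - 3 * x) ^ 0 * 2 ^ 1 * 3 ^ 1)
    ring
  · show KC72.ev _ (nM false [0, 0, 1, 0, 0, 0, 0, 0, 0, 0]) + KC72.ev _ (nM true [0, 1, 0, 0, 0, 0, 0, 0, 0, 0]) =
      KC72.ev _ (nM false [0, 0, 0, 0, 0, 0, 0, 0, 3, 0])
    rw [ev_nM, ev_nM, ev_nM]
    show 1 * (x ^ 0 * (x - 12) ^ 0 * (x - 4) ^ 1 * (x - 6) ^ 0 * y ^ 0 * (y - 4 * x) ^ 0 * (y - 2 * x) ^ 0 * (y - 3 * x) ^ 0 * 2 ^ 0 * 3 ^ 0) +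
      (-1) * (x ^ 0 * (x - 12) ^ 1 * (x - 4) ^ 0 * (x - 6) ^ 0 * y ^ 0 * (y - 4 * x) ^ 0 * (y - 2 * x) ^ 0 * (y - 3 * x) ^ 0 * 2 ^ 0 * 3 ^ 0) =
      1 * (x ^ 0 * (x - 12) ^ 0 * (x - 4) ^ 0 * (x - 6) ^ 0 * y ^ 0 * (y - 4 * x) ^ 0 * (y - 2 * x) ^ 0 * (y - 3 * x) ^ 0 * 2 ^ 3 * 3 ^ 0)
    ring
  · show KC72.ev _ (nM true [0, 0, 1, 0, 0, 0, 0, 0, 0, 0]) + KC72.ev _ (nM false [1, 0, 0, 0, 0, 0, 0, 0, 0, 0]) =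
      KC72.ev _ (nM false [0, 0, 0, 0, 0, 0, 0, 0, 2, 0])
    rw [ev_nM, ev_nM, ev_nM]
    show (-1) * (x ^ 0 * (x - 12) ^ 0 * (x - 4) ^ 1 * (x - 6) ^ 0 * y ^ 0 * (y - 4 * x) ^ 0 * (y - 2 * x) ^ 0 * (y - 3 * x) ^ 0 * 2 ^ 0 * 3 ^ 0) +
      1 * (x ^ 1 * (x - 12) ^ 0 * (x - 4) ^ 0 * (x - 6) ^ 0 * y ^ 0 * (y - 4 * x) ^ 0 * (y - 2 * x) ^ 0 * (y - 3 * x) ^ 0 * 2 ^ 0 * 3 ^ 0) =
      1 * (x ^ 0 * (x - 12) ^ 0 * (x - 4) ^ 0 * (x - 6) ^ 0 * y ^ 0 * (y - 4 * x) ^ 0 * (y - 2 * x) ^ 0 * (y - 3 * x) ^ 0 * 2 ^ 2 * 3 ^ 0)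
    ring
  · show KC72.ev _ (nM true [0, 1, 0, 0, 0, 0, 0, 0, 0, 0]) + KC72.ev _ (nM false [1, 0, 0, 0, 0, 0, 0, 0, 0, 0]) =
      KC72.ev _ (nM false [0, 0, 0, 0, 0, 0, 0, 0, 2, 1])
    rw [ev_nM, ev_nM, ev_nM]
    show (-1) * (x ^ 0 * (x - 12) ^ 1 * (x - 4) ^ 0 * (x - 6) ^ 0 * y ^ 0 * (y - 4 * x) ^ 0 * (y - 2 * x) ^ 0 * (y - 3 * x) ^ 0 * 2 ^ 0 * 3 ^ 0) +
      1 * (x ^ 1 * (x - 12) ^ 0 * (x - 4) ^ 0 * (x - 6) ^ 0 * y ^ 0 * (y - 4 * x) ^ 0 * (y - 2 * x) ^ 0 * (y - 3 * x) ^ 0 * 2 ^ 0 * 3 ^ 0) =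
      1 * (x ^ 0 * (x - 12) ^ 0 * (x - 4) ^ 0 * (x - 6) ^ 0 * y ^ 0 * (y - 4 * x) ^ 0 * (y - 2 * x) ^ 0 * (y - 3 * x) ^ 0 * 2 ^ 2 * 3 ^ 1)
    ring
  · show KC72.ev _ (nM false [0, 0, 1, 0, 0, 0, 0, 0, 0, 1]) + KC72.ev _ (nM false [0, 1, 0, 0, 0, 0, 0, 0, 0, 0]) =
      KC72.ev _ (nM false [0, 0, 0, 1, 0, 0, 0, 0, 2, 0])
    rw [ev_nM, ev_nM, ev_nM]
    show 1 * (x ^ 0 * (x - 12) ^ 0 * (x - 4) ^ 1 * (x - 6) ^ 0 * y ^ 0 * (y - 4 * x) ^ 0 * (y - 2 * x) ^ 0 * (y - 3 * x) ^ 0 * 2 ^ 0 * 3 ^ 1) +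
      1 * (x ^ 0 * (x - 12) ^ 1 * (x - 4) ^ 0 * (x - 6) ^ 0 * y ^ 0 * (y - 4 * x) ^ 0 * (y - 2 * x) ^ 0 * (y - 3 * x) ^ 0 * 2 ^ 0 * 3 ^ 0) =
      1 * (x ^ 0 * (x - 12) ^ 0 * (x - 4) ^ 0 * (x - 6) ^ 1 * y ^ 0 * (y - 4 * x) ^ 0 * (y - 2 * x) ^ 0 * (y - 3 * x) ^ 0 * 2 ^ 2 * 3 ^ 0)
    ring
  · show KC72.ev _ (nM false [0, 0, 1, 0, 0, 0, 0, 0, 0, 1]) + KC72.ev _ (nM true [1, 0, 0, 0, 0, 0, 0, 0, 0, 0]) =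
      KC72.ev _ (nM false [0, 0, 0, 1, 0, 0, 0, 0, 1, 0])
    rw [ev_nM, ev_nM, ev_nM]
    show 1 * (x ^ 0 * (x - 12) ^ 0 * (x - 4) ^ 1 * (x - 6) ^ 0 * y ^ 0 * (y - 4 * x) ^ 0 * (y - 2 * x) ^ 0 * (y - 3 * x) ^ 0 * 2 ^ 0 * 3 ^ 1) +
      (-1) * (x ^ 1 * (x - 12) ^ 0 * (x - 4) ^ 0 * (x - 6) ^ 0 * y ^ 0 * (y - 4 * x) ^ 0 * (y - 2 * x) ^ 0 * (y - 3 * x) ^ 0 * 2 ^ 0 * 3 ^ 0) =
      1 * (x ^ 0 * (x - 12) ^ 0 * (x - 4) ^ 0 * (x - 6) ^ 1 * y ^ 0 * (y - 4 * x) ^ 0 * (y - 2 * x) ^ 0 * (y - 3 * x) ^ 0 * 2 ^ 1 * 3 ^ 0)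
    ring
  · show KC72.ev _ (nM false [0, 1, 0, 0, 0, 0, 0, 0, 0, 0]) + KC72.ev _ (nM false [1, 0, 0, 0, 0, 0, 0, 0, 0, 0]) =
      KC72.ev _ (nM false [0, 0, 0, 1, 0, 0, 0, 0, 1, 0])
    rw [ev_nM, ev_nM, ev_nM]
    show 1 * (x ^ 0 * (x - 12) ^ 1 * (x - 4) ^ 0 * (x - 6) ^ 0 * y ^ 0 * (y - 4 * x) ^ 0 * (y - 2 * x) ^ 0 * (y - 3 * x) ^ 0 * 2 ^ 0 * 3 ^ 0) +
      1 * (x ^ 1 * (x - 12) ^ 0 * (x - 4) ^ 0 * (x - 6) ^ 0 * y ^ 0 * (y - 4 * x) ^ 0 * (y - 2 * x) ^ 0 * (y - 3 * x) ^ 0 * 2 ^ 0 * 3 ^ 0) =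
      1 * (x ^ 0 * (x - 12) ^ 0 * (x - 4) ^ 0 * (x - 6) ^ 1 * y ^ 0 * (y - 4 * x) ^ 0 * (y - 2 * x) ^ 0 * (y - 3 * x) ^ 0 * 2 ^ 1 * 3 ^ 0)
    ring
  · show KC72.ev _ (nM false [0, 1, 0, 0, 0, 0, 0, 0, 0, 0]) + KC72.ev _ (nM false [1, 0, 0, 0, 0, 0, 0, 0, 1, 0]) =
      KC72.ev _ (nM false [0, 0, 1, 0, 0, 0, 0, 0, 0, 1])
    rw [ev_nM, ev_nM, ev_nM]
    show 1 * (x ^ 0 * (x - 12) ^ 1 * (x - 4) ^ 0 * (x - 6) ^ 0 * y ^ 0 * (y - 4 * x) ^ 0 * (y - 2 * x) ^ 0 * (y - 3 * x) ^ 0 * 2 ^ 0 * 3 ^ 0) +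
      1 * (x ^ 1 * (x - 12) ^ 0 * (x - 4) ^ 0 * (x - 6) ^ 0 * y ^ 0 * (y - 4 * x) ^ 0 * (y - 2 * x) ^ 0 * (y - 3 * x) ^ 0 * 2 ^ 1 * 3 ^ 0) =
      1 * (x ^ 0 * (x - 12) ^ 0 * (x - 4) ^ 1 * (x - 6) ^ 0 * y ^ 0 * (y - 4 * x) ^ 0 * (y - 2 * x) ^ 0 * (y - 3 * x) ^ 0 * 2 ^ 0 * 3 ^ 1)
    ring
  · show KC72.ev _ (nM false [0, 0, 0, 0, 1, 1, 1, 0, 0, 0]) + KC72.ev _ (nM true [0, 1, 1, 0, 0, 0, 1, 0, 0, 2]) =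
      KC72.ev _ (nM false [0, 1, 1, 1, 0, 0, 0, 1, 0, 0])
    rw [ev_nM, ev_nM, ev_nM]
    show 1 * (x ^ 0 * (x - 12) ^ 0 * (x - 4) ^ 0 * (x - 6) ^ 0 * y ^ 1 * (y - 4 * x) ^ 1 * (y - 2 * x) ^ 1 * (y - 3 * x) ^ 0 * 2 ^ 0 * 3 ^ 0) +
      (-1) * (x ^ 0 * (x - 12) ^ 1 * (x - 4) ^ 1 * (x - 6) ^ 0 * y ^ 0 * (y - 4 * x) ^ 0 * (y - 2 * x) ^ 1 * (y - 3 * x) ^ 0 * 2 ^ 0 * 3 ^ 2) =
      1 * (x ^ 0 * (x - 12) ^ 1 * (x - 4) ^ 1 * (x - 6) ^ 1 * y ^ 0 * (y - 4 * x) ^ 0 * (y - 2 * x) ^ 0 * (y - 3 * x) ^ 1 * 2 ^ 0 * 3 ^ 0)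
    linear_combination (-3 * x + y + 12) * he
  · show KC72.ev _ (nM true [0, 0, 0, 0, 0, 1, 1, 2, 1, 0]) + KC72.ev _ (nM false [2, 0, 0, 1, 0, 1, 1, 0, 0, 1]) =
      KC72.ev _ (nM false [0, 1, 1, 1, 2, 0, 0, 0, 0, 0])
    rw [ev_nM, ev_nM, ev_nM]
    show (-1) * (x ^ 0 * (x - 12) ^ 0 * (x - 4) ^ 0 * (x - 6) ^ 0 * y ^ 0 * (y - 4 * x) ^ 1 * (y - 2 * x) ^ 1 * (y - 3 * x) ^ 2 * 2 ^ 1 * 3 ^ 0) +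
      1 * (x ^ 2 * (x - 12) ^ 0 * (x - 4) ^ 0 * (x - 6) ^ 1 * y ^ 0 * (y - 4 * x) ^ 1 * (y - 2 * x) ^ 1 * (y - 3 * x) ^ 0 * 2 ^ 0 * 3 ^ 1) =
      1 * (x ^ 0 * (x - 12) ^ 1 * (x - 4) ^ 1 * (x - 6) ^ 1 * y ^ 2 * (y - 4 * x) ^ 0 * (y - 2 * x) ^ 0 * (y - 3 * x) ^ 0 * 2 ^ 0 * 3 ^ 0)
    linear_combination (-24 * x ^ 2 + 18 * x * y - 2 * y ^ 2 - 24 * y) * he
  · show KC72.ev _ (nM true [1, 0, 0, 2, 0, 0, 0, 0, 0, 0]) + KC72.ev _ (nM false [0, 0, 0, 0, 1, 0, 0, 1, 0, 0]) =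
      KC72.ev _ (nM false [0, 0, 0, 0, 0, 0, 0, 1, 2, 1])
    rw [ev_nM, ev_nM, ev_nM]
    show (-1) * (x ^ 1 * (x - 12) ^ 0 * (x - 4) ^ 0 * (x - 6) ^ 2 * y ^ 0 * (y - 4 * x) ^ 0 * (y - 2 * x) ^ 0 * (y - 3 * x) ^ 0 * 2 ^ 0 * 3 ^ 0) +
      1 * (x ^ 0 * (x - 12) ^ 0 * (x - 4) ^ 0 * (x - 6) ^ 0 * y ^ 1 * (y - 4 * x) ^ 0 * (y - 2 * x) ^ 0 * (y - 3 * x) ^ 1 * 2 ^ 0 * 3 ^ 0) =
      1 * (x ^ 0 * (x - 12) ^ 0 * (x - 4) ^ 0 * (x - 6) ^ 0 * y ^ 0 * (y - 4 * x) ^ 0 * (y - 2 * x) ^ 0 * (y - 3 * x) ^ 1 * 2 ^ 2 * 3 ^ 1)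
    linear_combination (1) * he
  · show KC72.ev _ (nM true [2, 1, 0, 0, 0, 0, 0, 0, 0, 0]) + KC72.ev _ (nM false [0, 0, 0, 0, 1, 0, 0, 1, 0, 0]) =
      KC72.ev _ (nM false [0, 0, 0, 0, 1, 0, 0, 0, 2, 1])
    rw [ev_nM, ev_nM, ev_nM]
    show (-1) * (x ^ 2 * (x - 12) ^ 1 * (x - 4) ^ 0 * (x - 6) ^ 0 * y ^ 0 * (y - 4 * x) ^ 0 * (y - 2 * x) ^ 0 * (y - 3 * x) ^ 0 * 2 ^ 0 * 3 ^ 0) +
      1 * (x ^ 0 * (x - 12) ^ 0 * (x - 4) ^ 0 * (x - 6) ^ 0 * y ^ 1 * (y - 4 * x) ^ 0 * (y - 2 * x) ^ 0 * (y - 3 * x) ^ 1 * 2 ^ 0 * 3 ^ 0) =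
      1 * (x ^ 0 * (x - 12) ^ 0 * (x - 4) ^ 0 * (x - 6) ^ 0 * y ^ 1 * (y - 4 * x) ^ 0 * (y - 2 * x) ^ 0 * (y - 3 * x) ^ 0 * 2 ^ 2 * 3 ^ 1)
    linear_combination (1) * he
  · show KC72.ev _ (nM false [0, 0, 1, 0, 0, 0, 0, 1, 0, 1]) + KC72.ev _ (nM false [0, 0, 0, 0, 0, 0, 0, 2, 0, 0]) =
      KC72.ev _ (nM false [1, 0, 0, 2, 0, 0, 0, 0, 0, 0])
    rw [ev_nM, ev_nM, ev_nM]
    show 1 * (x ^ 0 * (x - 12) ^ 0 * (x - 4) ^ 1 * (x - 6) ^ 0 * y ^ 0 * (y - 4 * x) ^ 0 * (y - 2 * x) ^ 0 * (y - 3 * x) ^ 1 * 2 ^ 0 * 3 ^ 1) +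
      1 * (x ^ 0 * (x - 12) ^ 0 * (x - 4) ^ 0 * (x - 6) ^ 0 * y ^ 0 * (y - 4 * x) ^ 0 * (y - 2 * x) ^ 0 * (y - 3 * x) ^ 2 * 2 ^ 0 * 3 ^ 0) =
      1 * (x ^ 1 * (x - 12) ^ 0 * (x - 4) ^ 0 * (x - 6) ^ 2 * y ^ 0 * (y - 4 * x) ^ 0 * (y - 2 * x) ^ 0 * (y - 3 * x) ^ 0 * 2 ^ 0 * 3 ^ 0)
    linear_combination (1) * he
  · show KC72.ev _ (nM false [1, 0, 1, 1, 0, 0, 0, 0, 0, 0]) + KC72.ev _ (nM true [0, 1, 0, 0, 0, 0, 1, 0, 0, 0]) =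
      KC72.ev _ (nM false [0, 0, 0, 0, 0, 0, 2, 0, 0, 0])
    rw [ev_nM, ev_nM, ev_nM]
    show 1 * (x ^ 1 * (x - 12) ^ 0 * (x - 4) ^ 1 * (x - 6) ^ 1 * y ^ 0 * (y - 4 * x) ^ 0 * (y - 2 * x) ^ 0 * (y - 3 * x) ^ 0 * 2 ^ 0 * 3 ^ 0) +
      (-1) * (x ^ 0 * (x - 12) ^ 1 * (x - 4) ^ 0 * (x - 6) ^ 0 * y ^ 0 * (y - 4 * x) ^ 0 * (y - 2 * x) ^ 1 * (y - 3 * x) ^ 0 * 2 ^ 0 * 3 ^ 0) =
      1 * (x ^ 0 * (x - 12) ^ 0 * (x - 4) ^ 0 * (x - 6) ^ 0 * y ^ 0 * (y - 4 * x) ^ 0 * (y - 2 * x) ^ 2 * (y - 3 * x) ^ 0 * 2 ^ 0 * 3 ^ 0)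
    linear_combination (-1) * he
  · show KC72.ev _ (nM false [0, 1, 1, 0, 1, 0, 0, 0, 0, 0]) + KC72.ev _ (nM true [0, 0, 0, 0, 0, 1, 0, 1, 2, 0]) =
      KC72.ev _ (nM false [2, 0, 0, 0, 0, 1, 0, 0, 0, 0])
    rw [ev_nM, ev_nM, ev_nM]
    show 1 * (x ^ 0 * (x - 12) ^ 1 * (x - 4) ^ 1 * (x - 6) ^ 0 * y ^ 1 * (y - 4 * x) ^ 0 * (y - 2 * x) ^ 0 * (y - 3 * x) ^ 0 * 2 ^ 0 * 3 ^ 0) +
      (-1) * (x ^ 0 * (x - 12) ^ 0 * (x - 4) ^ 0 * (x - 6) ^ 0 * y ^ 0 * (y - 4 * x) ^ 1 * (y - 2 * x) ^ 0 * (y - 3 * x) ^ 1 * 2 ^ 2 * 3 ^ 0) =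
      1 * (x ^ 2 * (x - 12) ^ 0 * (x - 4) ^ 0 * (x - 6) ^ 0 * y ^ 0 * (y - 4 * x) ^ 1 * (y - 2 * x) ^ 0 * (y - 3 * x) ^ 0 * 2 ^ 0 * 3 ^ 0)
    linear_combination (-4) * he
  · show KC72.ev _ (nM true [0, 0, 0, 0, 0, 1, 0, 1, 0, 1]) + KC72.ev _ (nM false [0, 0, 0, 2, 1, 0, 0, 0, 0, 0]) =
      KC72.ev _ (nM false [2, 0, 0, 0, 0, 0, 0, 1, 0, 0])
    rw [ev_nM, ev_nM, ev_nM]
    show (-1) * (x ^ 0 * (x - 12) ^ 0 * (x - 4) ^ 0 * (x - 6) ^ 0 * y ^ 0 * (y - 4 * x) ^ 1 * (y - 2 * x) ^ 0 * (y - 3 * x) ^ 1 * 2 ^ 0 * 3 ^ 1) +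
      1 * (x ^ 0 * (x - 12) ^ 0 * (x - 4) ^ 0 * (x - 6) ^ 2 * y ^ 1 * (y - 4 * x) ^ 0 * (y - 2 * x) ^ 0 * (y - 3 * x) ^ 0 * 2 ^ 0 * 3 ^ 0) =
      1 * (x ^ 2 * (x - 12) ^ 0 * (x - 4) ^ 0 * (x - 6) ^ 0 * y ^ 0 * (y - 4 * x) ^ 0 * (y - 2 * x) ^ 0 * (y - 3 * x) ^ 1 * 2 ^ 0 * 3 ^ 0)
    linear_combination (-3) * he
  · show KC72.ev _ (nM false [1, 0, 0, 0, 1, 1, 0, 0, 0, 0]) + KC72.ev _ (nM true [0, 1, 1, 0, 1, 0, 0, 0, 0, 1]) =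
      KC72.ev _ (nM false [0, 1, 0, 0, 0, 1, 0, 1, 0, 0])
    rw [ev_nM, ev_nM, ev_nM]
    show 1 * (x ^ 1 * (x - 12) ^ 0 * (x - 4) ^ 0 * (x - 6) ^ 0 * y ^ 1 * (y - 4 * x) ^ 1 * (y - 2 * x) ^ 0 * (y - 3 * x) ^ 0 * 2 ^ 0 * 3 ^ 0) +
      (-1) * (x ^ 0 * (x - 12) ^ 1 * (x - 4) ^ 1 * (x - 6) ^ 0 * y ^ 1 * (y - 4 * x) ^ 0 * (y - 2 * x) ^ 0 * (y - 3 * x) ^ 0 * 2 ^ 0 * 3 ^ 1) =
      1 * (x ^ 0 * (x - 12) ^ 1 * (x - 4) ^ 0 * (x - 6) ^ 0 * y ^ 0 * (y - 4 * x) ^ 1 * (y - 2 * x) ^ 0 * (y - 3 * x) ^ 1 * 2 ^ 0 * 3 ^ 0)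
    linear_combination (12) * he
  · show KC72.ev _ (nM false [0, 0, 0, 2, 1, 0, 0, 0, 2, 0]) + KC72.ev _ (nM false [0, 1, 0, 0, 0, 1, 0, 1, 0, 0]) =
      KC72.ev _ (nM false [1, 0, 0, 0, 1, 0, 0, 1, 0, 0])
    rw [ev_nM, ev_nM, ev_nM]
    show 1 * (x ^ 0 * (x - 12) ^ 0 * (x - 4) ^ 0 * (x - 6) ^ 2 * y ^ 1 * (y - 4 * x) ^ 0 * (y - 2 * x) ^ 0 * (y - 3 * x) ^ 0 * 2 ^ 2 * 3 ^ 0) +
      1 * (x ^ 0 * (x - 12) ^ 1 * (x - 4) ^ 0 * (x - 6) ^ 0 * y ^ 0 * (y - 4 * x) ^ 1 * (y - 2 * x) ^ 0 * (y - 3 * x) ^ 1 * 2 ^ 0 * 3 ^ 0) =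
      1 * (x ^ 1 * (x - 12) ^ 0 * (x - 4) ^ 0 * (x - 6) ^ 0 * y ^ 1 * (y - 4 * x) ^ 0 * (y - 2 * x) ^ 0 * (y - 3 * x) ^ 1 * 2 ^ 0 * 3 ^ 0)
    linear_combination (-12) * he
  · show KC72.ev _ (nM false [0, 0, 0, 2, 0, 0, 0, 0, 0, 0]) + KC72.ev _ (nM true [1, 1, 0, 0, 0, 0, 0, 0, 0, 0]) =
      KC72.ev _ (nM false [0, 0, 0, 0, 0, 0, 0, 0, 2, 2])
    rw [ev_nM, ev_nM, ev_nM]
    show 1 * (x ^ 0 * (x - 12) ^ 0 * (x - 4) ^ 0 * (x - 6) ^ 2 * y ^ 0 * (y - 4 * x) ^ 0 * (y - 2 * x) ^ 0 * (y - 3 * x) ^ 0 * 2 ^ 0 * 3 ^ 0) +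
      (-1) * (x ^ 1 * (x - 12) ^ 1 * (x - 4) ^ 0 * (x - 6) ^ 0 * y ^ 0 * (y - 4 * x) ^ 0 * (y - 2 * x) ^ 0 * (y - 3 * x) ^ 0 * 2 ^ 0 * 3 ^ 0) =
      1 * (x ^ 0 * (x - 12) ^ 0 * (x - 4) ^ 0 * (x - 6) ^ 0 * y ^ 0 * (y - 4 * x) ^ 0 * (y - 2 * x) ^ 0 * (y - 3 * x) ^ 0 * 2 ^ 2 * 3 ^ 2)
    ring
  · show KC72.ev _ (nM true [0, 2, 0, 0, 0, 0, 0, 0, 0, 0]) + KC72.ev _ (nM false [2, 0, 0, 0, 0, 0, 0, 0, 0, 0]) =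
      KC72.ev _ (nM false [0, 0, 0, 1, 0, 0, 0, 0, 3, 1])
    rw [ev_nM, ev_nM, ev_nM]
    show (-1) * (x ^ 0 * (x - 12) ^ 2 * (x - 4) ^ 0 * (x - 6) ^ 0 * y ^ 0 * (y - 4 * x) ^ 0 * (y - 2 * x) ^ 0 * (y - 3 * x) ^ 0 * 2 ^ 0 * 3 ^ 0) +
      1 * (x ^ 2 * (x - 12) ^ 0 * (x - 4) ^ 0 * (x - 6) ^ 0 * y ^ 0 * (y - 4 * x) ^ 0 * (y - 2 * x) ^ 0 * (y - 3 * x) ^ 0 * 2 ^ 0 * 3 ^ 0) =
      1 * (x ^ 0 * (x - 12) ^ 0 * (x - 4) ^ 0 * (x - 6) ^ 1 * y ^ 0 * (y - 4 * x) ^ 0 * (y - 2 * x) ^ 0 * (y - 3 * x) ^ 0 * 2 ^ 3 * 3 ^ 1)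
    ring
  · show KC72.ev _ (nM false [0, 1, 1, 0, 0, 0, 0, 0, 0, 1]) + KC72.ev _ (nM false [2, 0, 0, 0, 0, 0, 0, 0, 0, 0]) =
      KC72.ev _ (nM false [0, 0, 0, 2, 0, 0, 0, 0, 2, 0])
    rw [ev_nM, ev_nM, ev_nM]
    show 1 * (x ^ 0 * (x - 12) ^ 1 * (x - 4) ^ 1 * (x - 6) ^ 0 * y ^ 0 * (y - 4 * x) ^ 0 * (y - 2 * x) ^ 0 * (y - 3 * x) ^ 0 * 2 ^ 0 * 3 ^ 1) +
      1 * (x ^ 2 * (x - 12) ^ 0 * (x - 4) ^ 0 * (x - 6) ^ 0 * y ^ 0 * (y - 4 * x) ^ 0 * (y - 2 * x) ^ 0 * (y - 3 * x) ^ 0 * 2 ^ 0 * 3 ^ 0) =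
      1 * (x ^ 0 * (x - 12) ^ 0 * (x - 4) ^ 0 * (x - 6) ^ 2 * y ^ 0 * (y - 4 * x) ^ 0 * (y - 2 * x) ^ 0 * (y - 3 * x) ^ 0 * 2 ^ 2 * 3 ^ 0)
    ring
  · show KC72.ev _ (nM true [0, 1, 0, 1, 0, 0, 0, 0, 0, 0]) + KC72.ev _ (nM false [2, 0, 0, 0, 0, 0, 0, 0, 0, 0]) =
      KC72.ev _ (nM false [0, 0, 1, 0, 0, 0, 0, 0, 1, 2])
    rw [ev_nM, ev_nM, ev_nM]
    show (-1) * (x ^ 0 * (x - 12) ^ 1 * (x - 4) ^ 0 * (x - 6) ^ 1 * y ^ 0 * (y - 4 * x) ^ 0 * (y - 2 * x) ^ 0 * (y - 3 * x) ^ 0 * 2 ^ 0 * 3 ^ 0) +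
      1 * (x ^ 2 * (x - 12) ^ 0 * (x - 4) ^ 0 * (x - 6) ^ 0 * y ^ 0 * (y - 4 * x) ^ 0 * (y - 2 * x) ^ 0 * (y - 3 * x) ^ 0 * 2 ^ 0 * 3 ^ 0) =
      1 * (x ^ 0 * (x - 12) ^ 0 * (x - 4) ^ 1 * (x - 6) ^ 0 * y ^ 0 * (y - 4 * x) ^ 0 * (y - 2 * x) ^ 0 * (y - 3 * x) ^ 0 * 2 ^ 1 * 3 ^ 2)
    ring
  · show KC72.ev _ (nM false [0, 2, 0, 0, 0, 0, 0, 0, 0, 0]) + KC72.ev _ (nM false [1, 0, 0, 1, 0, 0, 0, 0, 3, 0]) =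
      KC72.ev _ (nM false [0, 0, 2, 0, 0, 0, 0, 0, 0, 2])
    rw [ev_nM, ev_nM, ev_nM]
    show 1 * (x ^ 0 * (x - 12) ^ 2 * (x - 4) ^ 0 * (x - 6) ^ 0 * y ^ 0 * (y - 4 * x) ^ 0 * (y - 2 * x) ^ 0 * (y - 3 * x) ^ 0 * 2 ^ 0 * 3 ^ 0) +
      1 * (x ^ 1 * (x - 12) ^ 0 * (x - 4) ^ 0 * (x - 6) ^ 1 * y ^ 0 * (y - 4 * x) ^ 0 * (y - 2 * x) ^ 0 * (y - 3 * x) ^ 0 * 2 ^ 3 * 3 ^ 0) =
      1 * (x ^ 0 * (x - 12) ^ 0 * (x - 4) ^ 2 * (x - 6) ^ 0 * y ^ 0 * (y - 4 * x) ^ 0 * (y - 2 * x) ^ 0 * (y - 3 * x) ^ 0 * 2 ^ 0 * 3 ^ 2)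
    ring

/-- the generators at the next point -/
lemma nx_ev [CharZero k] (h : Gen (12 : k) 4 x y) :
    List.Forall₂ (fun R z => KC72.ev (List.ofFn (G9 x y)) R = z) nxR
      (List.ofFn (G9 (nx x y) (ny x y))) := by
  have := charF k F
  obtain ⟨e0, e1, e2, e3, e4, e5, e6, e7⟩ := uF_next h
  have hu := uF_ne h
  have hu0 : x ≠ 0 := hu 0
  have hu1 : x - 12 ≠ 0 := hu 1
  have hu2 : x - 4 ≠ 0 := hu 2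
  have hu3 : x - 6 ≠ 0 := hu 3
  have hu4 : y ≠ 0 := hu 4
  have hu5 : y - 4 * x ≠ 0 := hu 5
  have hu6 : y - 2 * x ≠ 0 := hu 6
  have hu7 : y - 3 * x ≠ 0 := hu 7
  show List.Forall₂ _ _ [nx x y, nx x y - 12, nx x y - 4, nx x y - 6, ny x y,
    ny x y - 4 * nx x y, ny x y - 2 * nx x y, ny x y - 3 * nx x y, 2, 3]
  rw [e1, e2, e3, e5, e6, e7, e0, e4]
  unfold nxR
  refine .cons ?_ (.cons ?_ (.cons ?_ (.cons ?_ (.cons ?_ (.cons ?_ (.cons ?_ (.cons ?_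
    (.cons ?_ (.cons ?_ .nil)))))))))
  · rw [ev_G9]
    show 1 * (x ^ (-2 : ℤ) * (x - 12) ^ (0 : ℤ) * (x - 4) ^ (0 : ℤ) * (x - 6) ^ (0 : ℤ) * y ^ (1 : ℤ) * (y - 4 * x) ^ (0 : ℤ) * (y - 2 * x) ^ (0 : ℤ) * (y - 3 * x) ^ (0 : ℤ) * 2 ^ (2 : ℤ) * 3 ^ (1 : ℤ)) = _
    simp only [zpow_neg, zpow_zero, zpow_one, zpow_ofNat]
    field_simp
    try ring
  · rw [ev_G9]
    show (-1) * (x ^ (-2 : ℤ) * (x - 12) ^ (-1 : ℤ) * (x - 4) ^ (0 : ℤ) * (x - 6) ^ (0 : ℤ) * y ^ (1 : ℤ) * (y - 4 * x) ^ (1 : ℤ) * (y - 2 * x) ^ (0 : ℤ) * (y - 3 * x) ^ (0 : ℤ) * 2 ^ (2 : ℤ) * 3 ^ (1 : ℤ)) = _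
    simp only [zpow_neg, zpow_zero, zpow_one, zpow_ofNat]
    field_simp
    try ring
  · rw [ev_G9]
    show (-1) * (x ^ (-2 : ℤ) * (x - 12) ^ (0 : ℤ) * (x - 4) ^ (-1 : ℤ) * (x - 6) ^ (0 : ℤ) * y ^ (0 : ℤ) * (y - 4 * x) ^ (1 : ℤ) * (y - 2 * x) ^ (1 : ℤ) * (y - 3 * x) ^ (0 : ℤ) * 2 ^ (2 : ℤ) * 3 ^ (0 : ℤ)) = _
    simp only [zpow_neg, zpow_zero, zpow_one, zpow_ofNat]
    field_simp
    try ring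
  · rw [ev_G9]
    show (-1) * (x ^ (-2 : ℤ) * (x - 12) ^ (0 : ℤ) * (x - 4) ^ (0 : ℤ) * (x - 6) ^ (-1 : ℤ) * y ^ (0 : ℤ) * (y - 4 * x) ^ (0 : ℤ) * (y - 2 * x) ^ (1 : ℤ) * (y - 3 * x) ^ (1 : ℤ) * 2 ^ (1 : ℤ) * 3 ^ (1 : ℤ)) = _
    simp only [zpow_neg, zpow_zero, zpow_one, zpow_ofNat]
    field_simp
    try ring
  · rw [ev_G9]
    show 1 * (x ^ (-3 : ℤ) * (x - 12) ^ (-1 : ℤ) * (x - 4) ^ (0 : ℤ) * (x - 6) ^ (0 : ℤ) * y ^ (1 : ℤ) * (y - 4 * x) ^ (1 : ℤ) * (y - 2 * x) ^ (0 : ℤ) * (y - 3 * x) ^ (0 : ℤ) * 2 ^ (4 : ℤ) * 3 ^ (2 : ℤ)) = _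
    simp only [zpow_neg, zpow_zero, zpow_one, zpow_ofNat]
    field_simp
    try ring
  · rw [ev_G9]
    show (-1) * (x ^ (-3 : ℤ) * (x - 12) ^ (-1 : ℤ) * (x - 4) ^ (-1 : ℤ) * (x - 6) ^ (0 : ℤ) * y ^ (1 : ℤ) * (y - 4 * x) ^ (1 : ℤ) * (y - 2 * x) ^ (1 : ℤ) * (y - 3 * x) ^ (0 : ℤ) * 2 ^ (4 : ℤ) * 3 ^ (1 : ℤ)) = _
    simp only [zpow_neg, zpow_zero, zpow_one, zpow_ofNat]
    field_simp
    try ring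
  · rw [ev_G9]
    show (-1) * (x ^ (-3 : ℤ) * (x - 12) ^ (0 : ℤ) * (x - 4) ^ (-1 : ℤ) * (x - 6) ^ (-1 : ℤ) * y ^ (0 : ℤ) * (y - 4 * x) ^ (1 : ℤ) * (y - 2 * x) ^ (1 : ℤ) * (y - 3 * x) ^ (1 : ℤ) * 2 ^ (3 : ℤ) * 3 ^ (1 : ℤ)) = _
    simp only [zpow_neg, zpow_zero, zpow_one, zpow_ofNat]
    field_simp
    try ring
  · rw [ev_G9]
    show (-1) * (x ^ (-3 : ℤ) * (x - 12) ^ (0 : ℤ) * (x - 4) ^ (0 : ℤ) * (x - 6) ^ (-2 : ℤ) * y ^ (0 : ℤ) * (y - 4 * x) ^ (0 : ℤ) * (y - 2 * x) ^ (2 : ℤ) * (y - 3 * x) ^ (1 : ℤ) * 2 ^ (2 : ℤ) * 3 ^ (2 : ℤ)) = _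
    simp only [zpow_neg, zpow_zero, zpow_one, zpow_ofNat]
    field_simp
    try ring
  · rw [ev_G9]
    show 1 * (x ^ (0 : ℤ) * (x - 12) ^ (0 : ℤ) * (x - 4) ^ (0 : ℤ) * (x - 6) ^ (0 : ℤ) * y ^ (0 : ℤ) * (y - 4 * x) ^ (0 : ℤ) * (y - 2 * x) ^ (0 : ℤ) * (y - 3 * x) ^ (0 : ℤ) * 2 ^ (1 : ℤ) * 3 ^ (0 : ℤ)) = _
    simp only [zpow_neg, zpow_zero, zpow_one, zpow_ofNat]
    ring
  · rw [ev_G9]
    show 1 * (x ^ (0 : ℤ) * (x - 12) ^ (0 : ℤ) * (x - 4) ^ (0 : ℤ) * (x - 6) ^ (0 : ℤ) * y ^ (0 : ℤ) * (y - 4 * x) ^ (0 : ℤ) * (y - 2 * x) ^ (0 : ℤ) * (y - 3 * x) ^ (0 : ℤ) * 2 ^ (0 : ℤ) * 3 ^ (1 : ℤ)) = _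
    simp only [zpow_neg, zpow_zero, zpow_one, zpow_ofNat]
    ring

/-- translation of monomials -/
lemma ev_trM [CharZero k] (h : Gen (12 : k) 4 x y) (m : Mo) :
    KC72.ev (List.ofFn (G9 x y)) (trM m) = KC72.ev (List.ofFn (G9 (nx x y) (ny x y))) m := by
  have h1 := ev_trl (G9l_ne h) (nx_ev h) m.2
  obtain ⟨s, l⟩ := m
  unfold trM
  unfold KC72.ev at h1 ⊢
  simp only at h1 ⊢
  rw [← h1]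
  rcases s with _ | _ <;> rcases (trl nxR l).1 with _ | _ <;> simp

/-- the classes of a type are solutions -/
lemma bc_sol [CharZero k] (r : ℕ) : ∀ (i : ℕ) {x y : F} (h : Gen (12 : k) 4 x y),
    KC72.ev (List.ofFn (G9 x y)) (bc i r).1 + KC72.ev (List.ofFn (G9 x y)) (bc i r).2 = 1 := by
  have key : ∀ (i : ℕ) {x y : F} (h : Gen (12 : k) 4 x y) (f g : Mo),
      (∀ {x y : F} (h : Gen (12 : k) 4 x y), KC72.ev (List.ofFn (G9 x y)) f +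
        KC72.ev (List.ofFn (G9 x y)) g = 1) →
      KC72.ev (List.ofFn (G9 x y)) (trM^[i] f) + KC72.ev (List.ofFn (G9 x y)) (trM^[i] g) = 1 := by
    intro i
    induction i with
    | zero => intro x y h f g H; exact H h
    | succ i ih =>
      intro x y h f g H
      rw [Function.iterate_succ_apply, Function.iterate_succ_apply]
      refine ih h (trM f) (trM g) ?_
      intro x y h
      rw [ev_trM h, ev_trM h]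
      exact H (Gen.next' h)
  intro i x y h
  refine key i h _ _ ?_
  intro x y h
  have hg := G9l_ne h
  rw [ev_div hg, ev_div hg, ← add_div, bt_sol h, div_self (ev_ne hg _)]

/-- **the classes are solutions** -/
theorem sols9 [CharZero k] (h : Gen (12 : k) 4 x y) : Sols (List.ofFn (G9 x y)) cls9 := by
  intro p hp
  have hg := G9l_ne h
  obtain ⟨c, hc, hcp⟩ := List.getElem_of_mem hp
  have h3 : p = cls9.getD c default := by rw [List.getD_eq_getElem _ _ hc, hcp]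
  rw [cls9_len] at hc
  have h2 := tix_ok c hc
  unfold tixc at h2
  rw [Bool.and_eq_true] at h2
  rw [h3, ev_eqM hg h2.1, ev_eqM hg h2.2]
  exact orb6_add hg (bc_sol _ _ h) _

end

end Pool.Agent.K9
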