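import Pool.Agent.Lib_helper60.K9.T3
import Pool.Agent.Lib_helper60.K9.T4

/-!
# A point of order nine, `d = 2`: the unit equation
-/

set_option autoImplicit false
set_option linter.unusedSectionVars false
set_option linter.unusedSimpArgs false
set_option linter.unusedVariables false

namespace Pool.Agent.K9

open Polynomial WeierstrassCurve.Affine WithZero
open Pool.Agent.TN Pool.Agent.KC72

lemma dot8 (a : Fin 8 → ℤ) (l : List ℤ) : dot [a 0, a 1, a 2, a 3, a 4, a 5, a 6, a 7] l =
    ∑ j : Fin 8, l.getD j.val 0 * a j := by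
  rw [Fin.sum_univ_eight]
  show _ = l.getD 0 0 * a 0 + l.getD 1 0 * a 1 + l.getD 2 0 * a 2 + l.getD 3 0 * a 3 +
    l.getD 4 0 * a 4 + l.getD 5 0 * a 5 + l.getD 6 0 * a 6 + l.getD 7 0 * a 7
  rcases l with _ | ⟨l0, _ | ⟨l1, _ | ⟨l2, _ | ⟨l3, _ | ⟨l4, _ | ⟨l5, _ | ⟨l6, _ | ⟨l7, l⟩⟩⟩⟩⟩⟩⟩⟩ <;>
    simp [dot] <;> ring

lemma orow_eq : orow = (List.finRange 9).map (fun m => [oU 0 (-m), oU 1 (-m), oU 2 (-m),
    oU 3 (-m), oU 4 (-m), oU 5 (-m), oU 6 (-m), oU 7 (-m)]) := by decide +kernel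

lemma divl_eq (l : List ℤ) :
    divl l = tl (fun m => Dn (fun j : Fin 8 => l.getD j.val 0) (-m)) := by
  have key : ∀ m : Fin 9, dot [oU 0 (-m), oU 1 (-m), oU 2 (-m), oU 3 (-m), oU 4 (-m),
      oU 5 (-m), oU 6 (-m), oU 7 (-m)] l = Dn (fun j : Fin 8 => l.getD j.val 0) (-m) :=
    fun m => dot8 (fun j => oU j (-m)) l
  unfold divl
  rw [orow_eq, List.map_map]
  show [dot _ l, dot _ l, dot _ l, dot _ l, dot _ l, dot _ l, dot _ l, dot _ l, dot _ l] = _
  simp only [key]
  rfl

lemma NN_of {e : Fin 9 → ℤ} {l : List ℤ} (h : divl l = tl (OO e)) :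
    (fun j : Fin 8 => l.getD j.val 0) = NN e := by
  rw [divl_eq] at h
  apply Dn_inj
  intro i
  have h2 := tl_inj h (-i)
  simp only [neg_neg] at h2
  rw [h2, Dn_NN]

section

variable {F : Type*} [Field F]

lemma orb6_orb {g : List F} (hg : ∀ x ∈ g, x ≠ 0) {f h : Mo} (H : KC72.ev g f + KC72.ev g h = 1)
    (σ : ℕ) : Orb (KC72.ev g f) (KC72.ev g (orb6 f h σ)) := by
  have hf := ev_ne hg f
  have hh := ev_ne hg h
  have e1 : KC72.ev g h = 1 - KC72.ev g f := by linear_combination H
  rw [e1] at hh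
  have hh' : KC72.ev g f - 1 ≠ 0 := fun h' => hh (by linear_combination -h')
  unfold Orb
  rcases σ with _ | _ | _ | _ | _ | σ
  · left; rfl
  · right; left; exact e1
  · right; right; left
    show KC72.ev g f.inv = _
    rw [ev_inv, one_div]
  · right; right; right; left
    show KC72.ev g (h.div f).neg = _
    rw [KC72.ev_neg, ev_div hg, e1]
    field_simp
    ring
  · right; right; right; right; left
    show KC72.ev g h.inv = _
    rw [ev_inv, e1, one_div]
  · right; right; right; right; right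
    show KC72.ev g (f.div h).neg = _
    rw [KC72.ev_neg, ev_div hg, e1, eq_div_iff hh', neg_mul, div_mul_eq_mul_div, neg_eq_iff_eq_neg,
      div_eq_iff hh]
    ring

lemma Orb.compl' {u f : F} (h0 : u ≠ 0) (h1 : u ≠ 1) (h : Orb u f) : Orb u (1 - f) := by
  have a : 1 - u ≠ 0 := sub_ne_zero.mpr (Ne.symm h1)
  have b : u - 1 ≠ 0 := sub_ne_zero.mpr h1
  unfold Orb at h ⊢
  rcases h with h | h | h | h | h | h
  · right; left; rw [h]
  · left; rw [h]; ring
  · right; right; right; left; rw [h]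
  · right; right; left; rw [h]; ring
  · right; right; right; right; right; rw [h]; field_simp; ring
  · right; right; right; right; left; rw [h]; field_simp; ring

lemma Orb.inv' {u f : F} (h0 : u ≠ 0) (h1 : u ≠ 1) (h : Orb u f) : Orb u f⁻¹ := by
  have a : 1 - u ≠ 0 := sub_ne_zero.mpr (Ne.symm h1)
  have b : u - 1 ≠ 0 := sub_ne_zero.mpr h1
  have c : 1 - 1 / u = (u - 1) / u := by field_simp
  unfold Orb at h ⊢
  rcases h with h | h | h | h | h | h
  · right; right; left; rw [h, one_div]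
  · right; right; right; right; left; rw [h, one_div]
  · left; rw [h, one_div, inv_inv]
  · right; right; right; right; right; rw [h, c, inv_div]
  · right; left; rw [h, one_div, inv_inv]
  · right; right; right; left; rw [h, c, inv_div]

end

section

variable {k : Type*} [Field k] {F : Type*} [Field F] [Algebra k F] {x y : F}

lemma ev_M9 (s : Bool) (l : List ℤ) : KC72.ev (List.ofFn (G9 x y)) (s, l) =
    algebraMap k F ((bif s then -1 else 1) * (2 ^ l.getD 8 0 * 3 ^ l.getD 9 0)) *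
      M9 x y (fun j => l.getD j.val 0) := by
  rw [ev_G9]
  unfold M9
  rw [Fin.prod_univ_eight, map_mul, map_mul, map_zpow₀, map_zpow₀, map_ofNat, map_ofNat]
  have hs : algebraMap k F (bif s then -1 else 1) = bif s then -1 else 1 := by
    cases s <;> simp
  rw [hs]
  show _ = _ * (x ^ l.getD 0 0 * (x - 12) ^ l.getD 1 0 * (x - 4) ^ l.getD 2 0 *
      (x - 6) ^ l.getD 3 0 * y ^ l.getD 4 0 * (y - 4 * x) ^ l.getD 5 0 *
      (y - 2 * x) ^ l.getD 6 0 * (y - 3 * x) ^ l.getD 7 0)
  ring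

/-- **identification** -/
theorem t9_id [CharZero k] (h : Gen (12 : k) 4 x y) {c₀ c₁ : k} {e e' : Fin 9 → ℤ}
    (hu : algebraMap k F c₀ * mon x y e + algebraMap k F c₁ * mon x y e' = 1)
    (he : ∃ s, OO e s ≠ 0) (hl : look (tl (OO e)) (tl (OO e')) = true) :
    ∃ p ∈ cls9, Orb (KC72.ev (List.ofFn (G9 x y)) p.1) (algebraMap k F c₀ * mon x y e) := by
  have HS := sols9 h
  obtain ⟨p, hp, hp', q1, q2⟩ := look_spec hl
  have hg := G9l_ne h
  have r1 := NN_of q1
  have r2 := NN_of q2
  have v1 : KC72.ev (List.ofFn (G9 x y)) (oo cls9 p) = algebraMap k F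
      ((bif (oo cls9 p).1 then -1 else 1) * (2 ^ ((oo cls9 p).2.getD 8 0) *
        3 ^ ((oo cls9 p).2.getD 9 0))) * M9 x y (NN e) := by rw [← r1]; exact ev_M9 _ _
  have v2 : KC72.ev (List.ofFn (G9 x y)) (co cls9 p) = algebraMap k F
      ((bif (co cls9 p).1 then -1 else 1) * (2 ^ ((co cls9 p).2.getD 8 0) *
        3 ^ ((co cls9 p).2.getD 9 0))) * M9 x y (NN e') := by rw [← r2]; exact ev_M9 _ _
  have v3 := oo_co hg HS hp
  rw [v1, v2] at v3
  rw [mon_eq h, mon_eq h, ← mul_assoc, ← mul_assoc, ← map_mul, ← map_mul] at hu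
  have hn : NN e ≠ 0 := by
    intro h'
    obtain ⟨s, hs⟩ := he
    apply hs
    have := Dn_NN e (-s)
    rw [neg_neg] at this
    rw [← this, h']
    simp [Dn]
  have v4 := M9_uniq h hn v3 hu
  refine ⟨cls9.getD p.1 default, ?_, ?_⟩
  · rw [List.getD_eq_getElem _ _ hp]
    exact List.getElem_mem hp
  · have v5 := orb6_orb hg (HS.getD hp) p.2
    have v6 : algebraMap k F c₀ * mon x y e =
        KC72.ev (List.ofFn (G9 x y)) (oo cls9 p) := by
      rw [v1, v4, mon_eq h, ← mul_assoc, ← map_mul]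
    rw [v6]
    exact v5

/-- **the unit equation** -/
theorem unit9' [CharZero k] (h : Gen (12 : k) 4 x y) {c₀ c₁ : k} (h0 : c₀ ≠ 0) (h1 : c₁ ≠ 0)
    {e e' : Fin 9 → ℤ}
    (hu : algebraMap k F c₀ * mon x y e + algebraMap k F c₁ * mon x y e' = 1) :
    (∃ s : k, algebraMap k F c₀ * mon x y e = algebraMap k F s) ∨
    ∃ p ∈ cls9, Orb (KC72.ev (List.ofFn (G9 x y)) p.1) (algebraMap k F c₀ * mon x y e) := by
  have n0 : algebraMap k F c₀ ≠ 0 := (_root_.map_ne_zero _).mpr h0
  have n1 : algebraMap k F c₁ ≠ 0 := (_root_.map_ne_zero _).mpr h1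
  have hg := G9l_ne h
  have m0 := mon_ne h e
  by_cases he : ∃ s, OO e s ≠ 0
  · by_cases he' : ∃ s, OO e' s ≠ 0
    · right
      have B := (shp h h0 h1 hu he').alt
      have ne : ∀ p ∈ cls9, KC72.ev (List.ofFn (G9 x y)) p.1 ≠ 0 ∧
          KC72.ev (List.ofFn (G9 x y)) p.1 ≠ 1 := by
        intro p hp
        refine ⟨ev_ne hg _, fun h2 => ?_⟩
        have h3 := sols9 h p hp
        rw [h2] at h3
        exact ev_ne hg p.2 (by linear_combination h3)
      obtain ⟨a, b, c, ha, hb, hc, hab⟩ | ⟨a, b, c, ha, hb, hc, hab⟩ |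
          ⟨a, b, c, ha, hb, hc, hab⟩ :=
        small3 (fun s => 1 ≤ OO e s) (fun s => 1 ≤ OO e' s) (fun s => OO e s ≤ -1)
          (ex_pos (sum_OO e) he) (ex_pos (sum_OO e') he') (ex_neg (sum_OO e) he)
          (fun s hs => by have := B s; have := hs.1; have := hs.2; omega)
          (fun s hs => by have := hs.1; have := hs.2; omega)
          (fun s hs => by have := B s; have := hs.1; have := hs.2; omega)
      · exact t9_id h hu he (t9_look h h0 h1 hu he' ha hb hc hab)
      · have hu' : algebraMap k F c₁ * mon x y e' +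
            algebraMap k F c₀ * mon x y e = 1 := by rw [add_comm]; exact hu
        obtain ⟨p, hp, h2⟩ := t9_id h hu' he' (t9_look h h1 h0 hu' he ha hb hc hab)
        refine ⟨p, hp, ?_⟩
        have h3 := Orb.compl' (ne p hp).1 (ne p hp).2 h2
        have h4 : algebraMap k F c₀ * mon x y e =
            1 - algebraMap k F c₁ * mon x y e' := by linear_combination hu
        rw [h4]
        exact h3
      · have hu' : algebraMap k F c₀⁻¹ * mon x y (fun i => - e i) +
            algebraMap k F (-(c₁ * c₀⁻¹)) * mon x y (fun i => e' i - e i) = 1 := by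
          rw [mon_neg, mon_sub h, map_neg, map_mul, map_inv₀]
          field_simp
          linear_combination -hu
        have o1 : ∀ s, OO (fun i => - e i) s = - OO e s := by
          intro s; unfold OO; ring
        have o2 : ∀ s, OO (fun i => e' i - e i) s = OO e' s - OO e s := by
          intro s; unfold OO; ring
        have q1 : ∃ s, OO (fun i => - e i) s ≠ 0 := by
          obtain ⟨s, hs⟩ := he
          exact ⟨s, by rw [o1]; exact neg_ne_zero.mpr hs⟩
        have q2 : ∃ s, OO (fun i => e' i - e i) s ≠ 0 := by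
          obtain ⟨s, hs⟩ := ex_pos (sum_OO e) he
          refine ⟨s, ?_⟩
          rw [o2]
          have := B s
          omega
        obtain ⟨p, hp, h2⟩ := t9_id h hu' q1 (t9_look h (inv_ne_zero h0)
          (neg_ne_zero.mpr (mul_ne_zero h1 (inv_ne_zero h0))) hu' q2 (a := a) (b := b) (c := c)
          (by rw [o1]; omega) (by rw [o1]; omega) (by rw [o1]; omega)
          (fun s hs => hab s (by rw [o1] at hs; omega)))
        refine ⟨p, hp, ?_⟩
        have h3 := Orb.inv' (ne p hp).1 (ne p hp).2 h2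
        rw [mon_neg, map_inv₀, ← mul_inv, inv_inv] at h3
        exact h3
    · left
      push Not at he'
      rw [mon_const h he'] at hu
      refine ⟨1 - c₁ * ∏ i, lam k i ^ e' i, ?_⟩
      rw [map_sub, map_one, map_mul]
      linear_combination hu
  · left
    push Not at he
    rw [mon_const h he]
    exact ⟨c₀ * ∏ i, lam k i ^ e i, by rw [map_mul]⟩

/-- functions supported on the multiples of `P` -/
def U9 (k : Type*) [Field k] {F : Type*} [Field F] [Algebra k F] (x y f : F) : Prop :=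
  ∃ (d : k) (n : Fin 8 → ℤ), d ≠ 0 ∧ f = algebraMap k F d * M9 x y n

/-- **the unit equation for the point of order nine on the curve `y² - 3xy - 12y = x³ - 12x²`** -/
theorem unit9 [CharZero k] (h : Gen (12 : k) 4 x y) {f : F}
    (hf : U9 k x y f) (hf1 : U9 k x y (1 - f)) :
    (∃ c : k, f = algebraMap k F c) ∨
    ∃ p ∈ cls9, Orb (KC72.ev (List.ofFn (G9 x y)) p.1) f := by
  obtain ⟨d, n, hd, rfl⟩ := hf
  obtain ⟨d', n', hd', h2⟩ := hf1
  have l0 : ∀ n : Fin 8 → ℤ, (∏ i, lam k i ^ SE n i)⁻¹ ≠ 0 := fun n =>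
    inv_ne_zero (Finset.prod_ne_zero_iff.mpr fun i _ => zpow_ne_zero _ (lam_ne i))
  have key := unit9' h (mul_ne_zero hd (l0 n)) (mul_ne_zero hd' (l0 n'))
    (e := SE n) (e' := SE n')
  rw [map_mul, map_mul, mul_assoc, mul_assoc, ← M9_eq h, ← M9_eq h] at key
  exact key (by rw [← h2]; ring)

lemma G9_const (i : Fin 10) (hi : 8 ≤ i.val) : ∃ c : k, G9 x y i = algebraMap k F c := by
  fin_cases i <;> simp at hi
  · exact ⟨2, (map_ofNat (algebraMap k F) 2).symm⟩
  · exact ⟨3, (map_ofNat (algebraMap k F) 3).symm⟩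

/-- a monomial in the first eight generators is constant only if it is trivial -/
lemma G9_hM [CharZero k] (h : Gen (12 : k) 4 x y) (e : Fin 8 → ℤ) {c : k}
    (he : ∏ j : Fin 8, G9 x y ⟨j.val, by omega⟩ ^ e j = algebraMap k F c) : e = 0 := by
  apply M9_const h (n := e) (s := c)
  rw [← he]
  unfold M9
  refine Finset.prod_congr rfl fun j _ => ?_
  fin_cases j <;> rfl

/-- the same in the form of the certificates -/
lemma G9_hM' [CharZero k] (h : Gen (12 : k) 4 x y) (hrn : 8 ≤ 10) (e : Fin 8 → ℤ) (c : k)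
    (_ : c ≠ 0) (he : ∏ i, G9 x y (Fin.castLE hrn i) ^ e i = algebraMap k F c) : e = 0 := by
  apply M9_const h (n := e) (s := c)
  rw [← he]
  unfold M9
  refine Finset.prod_congr rfl fun j _ => ?_
  fin_cases j <;> rfl

/-- `2` and `3` are independent -/
lemma G9_hc [CharZero k] (h : Gen (12 : k) 4 x y) (e : Fin 10 → ℤ)
    (he : ∀ i : Fin 10, i.val < 8 → e i = 0) (hp : ∏ i, G9 x y i ^ e i = 1) : e = 0 := by
  have e0 := he 0 (by decide)
  have e1 := he 1 (by decide)
  have e2 := he 2 (by decide)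
  have e3 := he 3 (by decide)
  have e4 := he 4 (by decide)
  have e5 := he 5 (by decide)
  have e6 := he 6 (by decide)
  have e7 := he 7 (by decide)
  rw [Fin.prod_univ_castSucc, Fin.prod_univ_castSucc, Fin.prod_univ_eight] at hp
  have hp' : G9 x y 0 ^ e 0 * G9 x y 1 ^ e 1 * G9 x y 2 ^ e 2 * G9 x y 3 ^ e 3 *
    G9 x y 4 ^ e 4 * G9 x y 5 ^ e 5 * G9 x y 6 ^ e 6 * G9 x y 7 ^ e 7 * (2 : F) ^ e 8 *
    (3 : F) ^ e 9 = 1 := hp
  rw [e0, e1, e2, e3, e4, e5, e6, e7] at hp'
  simp only [zpow_zero, one_mul] at hp'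
  have h2 : (2 : k) ^ e 8 * 3 ^ e 9 = 1 := by
    apply (algebraMap k F).injective
    rw [map_mul, map_zpow₀, map_zpow₀, map_ofNat, map_ofNat, map_one]
    exact hp'
  obtain ⟨e8, e9⟩ := two_three h2
  funext i
  fin_cases i <;> assumption

end

end Pool.Agent.K9
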