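import Pool.Agent.Lib_helper72.K7.A

/-!
# A point of order nine: the space of the functions with a pole of order at most nine
-/

set_option autoImplicit false
set_option linter.unusedSectionVars false
set_option linter.unusedSimpArgs false
set_option linter.unusedVariables false

namespace Pool.Agent.K9

open Polynomial WeierstrassCurve.Affine WithZero
open Pool.Agent.TN Pool.Agent.K7

section General

variable {k : Type*} [Field k] {W : WeierstrassCurve.Affine k}

/-- the elements of `⟨1, x, y, x², x y, x³, x² y, x⁴, x³ y⟩` -/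
noncomputable def N9 (n₀ n₂ n₃ n₄ n₅ n₆ n₇ n₈ n₉ : k) : K W :=
  N7 n₀ n₂ n₃ n₄ n₅ n₆ n₇ + cK n₈ * xK ^ 4 + cK n₉ * (xK ^ 3 * yK)

lemma N9_basis (n₀ n₂ n₃ n₄ n₅ n₆ n₇ n₈ n₉ : k) : (N9 n₀ n₂ n₃ n₄ n₅ n₆ n₇ n₈ n₉ : K W) =
    inc ((C n₈ * X ^ 4 + (C n₆ * X ^ 3 + C n₄ * X ^ 2 + C n₂ * X + C n₀) : k[X]) •
      (1 : W.CoordinateRing) +
      (C n₉ * X ^ 3 + C n₇ * X ^ 2 + C n₅ * X + C n₃ : k[X]) • CoordinateRing.mk W X) := by
  rw [inc_basis]
  simp only [eval₂_add, eval₂_mul, eval₂_C, eval₂_X, eval₂_pow]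
  unfold N9 N7
  ring

lemma w9 {n₀ n₂ n₃ n₄ n₅ n₆ n₇ n₈ n₉ : k} (h : n₉ ≠ 0) :
    v (W := W) (N9 n₀ n₂ n₃ n₄ n₅ n₆ n₇ n₈ n₉) = exp 9 := by
  rw [N9_basis]
  refine v_odd (d := 3) (degree_cubic h) ?_
  have h1 : (C n₈ * X ^ 4 + (C n₆ * X ^ 3 + C n₄ * X ^ 2 + C n₂ * X + C n₀) : k[X]).degree ≤ 4 := by
    refine (degree_add_le _ _).trans (max_le ?_ ?_)
    · exact degree_C_mul_X_pow_le 4 n₈
    · exact degree_cubic_le.trans (by norm_num)
  refine (nsmul_le_nsmul_right h1 2).trans ?_
  norm_num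

lemma w8 {n₀ n₂ n₃ n₄ n₅ n₆ n₇ n₈ : k} (h : n₈ ≠ 0) :
    v (W := W) (N9 n₀ n₂ n₃ n₄ n₅ n₆ n₇ n₈ 0) = exp 8 := by
  rw [N9_basis]
  simp only [C_0, zero_mul, zero_add]
  refine v_even (d := 4) ?_ ?_
  · have h1 : (C n₆ * X ^ 3 + C n₄ * X ^ 2 + C n₂ * X + C n₀ : k[X]).degree <
        (C n₈ * X ^ 4 : k[X]).degree := by
      rw [degree_C_mul_X_pow 4 h]
      exact degree_cubic_le.trans_lt (by norm_num)
    rw [degree_add_eq_left_of_degree_lt h1, degree_C_mul_X_pow 4 h]
  · refine (add_le_add_left (nsmul_le_nsmul_right degree_quadratic_le 2) 3).trans ?_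
    norm_num

lemma N9_zero (n₀ n₂ n₃ n₄ n₅ n₆ n₇ : k) :
    (N9 n₀ n₂ n₃ n₄ n₅ n₆ n₇ 0 0 : K W) = N7 n₀ n₂ n₃ n₄ n₅ n₆ n₇ := by
  unfold N9
  simp

/-- the element with the coefficients `n` -/
noncomputable def NV (n : Fin 9 → k) : K W :=
  N9 (n 0) (n 1) (n 2) (n 3) (n 4) (n 5) (n 6) (n 7) (n 8)

lemma NV_add (n m : Fin 9 → k) : (NV (n + m) : K W) = NV n + NV m := by
  unfold NV N9 N7; simp only [Pi.add_apply, map_add]; ring

lemma NV_smul (a : k) (n : Fin 9 → k) : (NV (a • n) : K W) = cK a * NV n := by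
  unfold NV N9 N7; simp only [Pi.smul_apply, smul_eq_mul, map_mul]; ring

lemma NV_zero : (NV (0 : Fin 9 → k) : K W) = 0 := by
  unfold NV N9 N7; simp

lemma NV_sub (n m : Fin 9 → k) : (NV (n - m) : K W) = NV n - NV m := by
  unfold NV N9 N7; simp only [Pi.sub_apply, map_sub]; ring

lemma NV_sum {ι : Type*} (s : Finset ι) (a : ι → k) (n : ι → Fin 9 → k) :
    (NV (∑ i ∈ s, a i • n i) : K W) = ∑ i ∈ s, cK (a i) * NV (n i) := by
  classical
  induction s using Finset.induction_on with
  | empty => simpa using NV_zero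
  | insert i s hi ih => rw [Finset.sum_insert hi, Finset.sum_insert hi, NV_add, NV_smul, ih]

/-- the orders of the basis `1, x, y, x², xy, x³, x²y, x⁴, x³y` -/
def ordm : Fin 9 → ℤ := ![0, 2, 3, 4, 5, 6, 7, 8, 9]

/-- the leading term of an element of the space -/
lemma v_NV (r : Fin 9 → k) : r = 0 ∨ ∃ M : Fin 9, r M ≠ 0 ∧ (∀ m, M < m → r m = 0) ∧
    v (W := W) (NV r) = exp (ordm M) := by
  unfold NV
  by_cases h8 : r 8 = 0
  · rw [h8]
    by_cases h7 : r 7 = 0
    · rw [h7, N9_zero]
      by_cases h6 : r 6 = 0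
      · rw [h6]
        by_cases h5 : r 5 = 0
        · rw [h5]
          by_cases h4 : r 4 = 0
          · rw [h4]
            by_cases h3 : r 3 = 0
            · rw [h3]
              by_cases h2 : r 2 = 0
              · rw [h2]
                by_cases h1 : r 1 = 0
                · rw [h1]
                  by_cases h0 : r 0 = 0
                  · left; funext j; fin_cases j <;> assumption
                  · right
                    refine ⟨0, h0, fun m hm => ?_, ?_⟩
                    · fin_cases m <;> first | exact absurd hm (by decide) | assumption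
                    · unfold N7; simp only [map_zero, zero_mul, add_zero]; exact v_c h0
                · refine Or.inr ⟨1, h1, fun m hm => ?_, v2 h1⟩
                  fin_cases m <;> first | exact absurd hm (by decide) | assumption
              · refine Or.inr ⟨2, h2, fun m hm => ?_, v3 h2⟩
                fin_cases m <;> first | exact absurd hm (by decide) | assumption
            · refine Or.inr ⟨3, h3, fun m hm => ?_, v4 h3⟩
              fin_cases m <;> first | exact absurd hm (by decide) | assumption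
          · refine Or.inr ⟨4, h4, fun m hm => ?_, v5 h4⟩
            fin_cases m <;> first | exact absurd hm (by decide) | assumption
        · refine Or.inr ⟨5, h5, fun m hm => ?_, v6 h5⟩
          fin_cases m <;> first | exact absurd hm (by decide) | assumption
      · refine Or.inr ⟨6, h6, fun m hm => ?_, v7 h6⟩
        fin_cases m <;> first | exact absurd hm (by decide) | assumption
    · refine Or.inr ⟨7, h7, fun m hm => ?_, w8 h7⟩
      fin_cases m <;> first | exact absurd hm (by decide) | assumption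
  · refine Or.inr ⟨8, h8, fun m hm => ?_, w9 h8⟩
    fin_cases m <;> exact absurd hm (by decide)

lemma NV_eq_zero {n : Fin 9 → k} (h : (NV n : K W) = 0) : n = 0 := by
  rcases v_NV (W := W) n with h1 | ⟨M, -, -, h1⟩
  · exact h1
  · exact absurd h (ne_of_v h1)

end General

end Pool.Agent.K9
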