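import Pool.Agent.Lib_helper60.K9.A

/-!
# A point of order nine, `d = 2`: the units, their logarithmic derivatives
-/

set_option autoImplicit false
set_option linter.unusedSectionVars false
set_option linter.unusedSimpArgs false
set_option linter.unusedVariables false

namespace Pool.Agent.K9

open Polynomial WeierstrassCurve.Affine WithZero
open Pool.Agent.TN Pool.Agent.K7

/-- the coefficients of `q u'/u` in the basis `1, x, y, x², xy, x³, x²y, x⁴, x³y` -/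
def rz : Fin 8 → Fin 9 → ℤ :=
  ![![3456, -864, -576, -168, 288, 54, -44, -3, 2], ![0, -288, 0, 48, 48, 18, -20, -3, 2],
    ![0, -864, 0, 0, 144, 42, -36, -3, 2], ![0, -576, 0, 48, 96, 36, -32, -3, 2],
    ![6912, -2880, -576, 144, 312, 60, -54, -6, 3], ![3456, -1728, -288, 120, 240, 24, -50, -2, 3],
    ![3456, -2592, -288, 264, 264, 42, -56, -4, 3], ![3456, -2016, -288, 216, 240, 30, -54, -3, 3]]

/-- the orders of the basis at `0, P, .., 8P` -/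
def oU : Fin 8 → Fin 9 → ℤ :=
  ![![-2, 1, 0, 0, 0, 0, 0, 0, 1], ![-2, 0, 1, 0, 0, 0, 0, 1, 0], ![-2, 0, 0, 1, 0, 0, 1, 0, 0],
    ![-2, 0, 0, 0, 1, 1, 0, 0, 0], ![-3, 2, 0, 0, 0, 0, 0, 1, 0], ![-3, 1, 1, 0, 0, 0, 1, 0, 0],
    ![-3, 1, 0, 1, 0, 1, 0, 0, 0], ![-3, 1, 0, 0, 2, 0, 0, 0, 0]]

/-- the order at `iP` of a monomial -/
def Dn (n : Fin 8 → ℤ) (i : Fin 9) : ℤ := ∑ j, n j * oU j i

lemma rz_top (j : Fin 8) : rz j 8 = - oU j 0 := by
  fin_cases j <;> rfl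

section K

variable {k : Type*} [Field k]

variable (k) in
/-- the curve with the point `(0,0)` of order nine -/
abbrev W9 : WeierstrassCurve.Affine k := Wt (12 : k) 4

/-- the basis of the units -/
noncomputable def uK : Fin 8 → K (W9 k) :=
  ![xK, xK - cK 12, xK - cK 4, xK - cK 6, yK, yK - cK 4 * xK, yK - cK 2 * xK, yK - cK 3 * xK]

lemma LC_uK (j : Fin 8) : LC (uK (k := k) j) (- oU j 0) 1 := by
  fin_cases j
  · exact LC_x
  · exact LC_xc _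
  · exact LC_xc _
  · exact LC_xc _
  · exact LC_y
  · exact LC_yx _
  · exact LC_yx _
  · exact LC_yx _

lemma uK_ne (j : Fin 8) : uK (k := k) j ≠ 0 := (LC_uK j).ne

/-- the function with simple zeros at the eight points -/
noncomputable def qK : K (W9 k) := xK * (xK - 12) * (xK - 4) * (xK - 6)

lemma hdx : (dx : K (W9 k)) = 2 * yK - 3 * xK - 12 := by
  show 2 * yK + cK (1 - 4) * xK + cK (- 12) = _
  rw [map_sub, map_one, map_neg, map_ofNat, map_ofNat]; ring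

lemma hdy : (dy : K (W9 k)) = 3 * xK ^ 2 - 24 * xK + 3 * yK := by
  show 3 * xK ^ 2 + 2 * cK (- 12) * xK + cK 0 - cK (1 - 4) * yK = _
  rw [map_sub, map_one, map_neg, map_zero, map_ofNat, map_ofNat]; ring

lemma dv_cmul (a : k) (z : K (W9 k)) : dv (cK a * z) = cK a * dv z := by
  rw [dv_mul, dv_c, mul_zero, add_zero]

lemma dv_sub' (z w : K (W9 k)) : dv (z - w) = dv z - dv w := by
  have h := dv_add (z - w) w
  rw [sub_add_cancel] at h
  linear_combination -h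

lemma dv_w (a : k) : dv (yK - cK a * xK : K (W9 k)) = dy - cK a * dx := by
  rw [dv_sub', dv_cmul, dv_x, dv_y]

/-- the derivatives of the basis -/
lemma dv_uK (j : Fin 8) : dv (uK (k := k) j) = (![dx, dx, dx, dx, dy, dy - cK 4 * dx,
    dy - cK 2 * dx, dy - cK 3 * dx] : Fin 8 → K (W9 k)) j := by
  fin_cases j
  · exact dv_x
  · exact (dv_sub_c _ _).trans dv_x
  · exact (dv_sub_c _ _).trans dv_x
  · exact (dv_sub_c _ _).trans dv_x
  · exact dv_y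
  · exact dv_w 4
  · exact dv_w 2
  · exact dv_w 3

lemma eqW9 : (yK : K (W9 k)) ^ 2 - 3 * xK * yK - 12 * yK = xK ^ 3 - 12 * xK ^ 2 := by
  have h : (yK : K (W9 k)) ^ 2 + (1 - cK 4) * xK * yK - cK 12 * yK = xK ^ 3 - cK 12 * xK ^ 2 := eqW
  rw [map_ofNat, map_ofNat] at h
  linear_combination h

/-- the coefficients of `q u'/u` -/
def rr (j : Fin 8) (m : Fin 9) : k := ((rz j m : ℤ) : k)

lemma cK_int (a : ℤ) : (cK ((a : ℤ) : k) : K (W9 k)) = (a : K (W9 k)) := map_intCast _ a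

lemma NV_rr (j : Fin 8) : (NV (rr (k := k) j) : K (W9 k)) =
    (rz j 0 : K (W9 k)) + (rz j 1 : K (W9 k)) * xK + (rz j 2 : K (W9 k)) * yK +
    (rz j 3 : K (W9 k)) * xK ^ 2 + (rz j 4 : K (W9 k)) * (xK * yK) +
    (rz j 5 : K (W9 k)) * xK ^ 3 + (rz j 6 : K (W9 k)) * (xK ^ 2 * yK) +
    (rz j 7 : K (W9 k)) * xK ^ 4 + (rz j 8 : K (W9 k)) * (xK ^ 3 * yK) := by
  unfold NV N9 N7 rr
  simp only [cK_int]

lemma ld_uK (j : Fin 8) : qK * ld (uK (k := k) j) = NV (rr j) := by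
  have hu := uK_ne (k := k) j
  have he := eqW9 (k := k)
  have h1 := hdx (k := k)
  have h2 := hdy (k := k)
  have c12 : (cK 12 : K (W9 k)) = 12 := map_ofNat _ _
  have c4 : (cK 4 : K (W9 k)) = 4 := map_ofNat _ _
  have c6 : (cK 6 : K (W9 k)) = 6 := map_ofNat _ _
  have c2 : (cK 2 : K (W9 k)) = 2 := map_ofNat _ _
  have c3 : (cK 3 : K (W9 k)) = 3 := map_ofNat _ _
  unfold ld
  rw [← mul_div_assoc, div_eq_iff hu, dv_uK, NV_rr]
  unfold qK
  fin_cases j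
  · show xK * (xK - 12) * (xK - 4) * (xK - 6) * dx =
      ((((3456 : ℤ)) : K (W9 k)) +
      (((-864 : ℤ)) : K (W9 k)) * xK +
      (((-576 : ℤ)) : K (W9 k)) * yK +
      (((-168 : ℤ)) : K (W9 k)) * xK ^ 2 +
      (((288 : ℤ)) : K (W9 k)) * (xK * yK) +
      (((54 : ℤ)) : K (W9 k)) * xK ^ 3 +
      (((-44 : ℤ)) : K (W9 k)) * (xK ^ 2 * yK) +
      (((-3 : ℤ)) : K (W9 k)) * xK ^ 4 +
      (((2 : ℤ)) : K (W9 k)) * (xK ^ 3 * yK)) * xK
    rw [h1]; push_cast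
    ring
  · show xK * (xK - 12) * (xK - 4) * (xK - 6) * dx =
      ((((0 : ℤ)) : K (W9 k)) +
      (((-288 : ℤ)) : K (W9 k)) * xK +
      (((0 : ℤ)) : K (W9 k)) * yK +
      (((48 : ℤ)) : K (W9 k)) * xK ^ 2 +
      (((48 : ℤ)) : K (W9 k)) * (xK * yK) +
      (((18 : ℤ)) : K (W9 k)) * xK ^ 3 +
      (((-20 : ℤ)) : K (W9 k)) * (xK ^ 2 * yK) +
      (((-3 : ℤ)) : K (W9 k)) * xK ^ 4 +
      (((2 : ℤ)) : K (W9 k)) * (xK ^ 3 * yK)) * (xK - cK 12)
    rw [h1, c12]; push_cast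
    ring
  · show xK * (xK - 12) * (xK - 4) * (xK - 6) * dx =
      ((((0 : ℤ)) : K (W9 k)) +
      (((-864 : ℤ)) : K (W9 k)) * xK +
      (((0 : ℤ)) : K (W9 k)) * yK +
      (((0 : ℤ)) : K (W9 k)) * xK ^ 2 +
      (((144 : ℤ)) : K (W9 k)) * (xK * yK) +
      (((42 : ℤ)) : K (W9 k)) * xK ^ 3 +
      (((-36 : ℤ)) : K (W9 k)) * (xK ^ 2 * yK) +
      (((-3 : ℤ)) : K (W9 k)) * xK ^ 4 +
      (((2 : ℤ)) : K (W9 k)) * (xK ^ 3 * yK)) * (xK - cK 4)
    rw [h1, c4]; push_cast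
    ring
  · show xK * (xK - 12) * (xK - 4) * (xK - 6) * dx =
      ((((0 : ℤ)) : K (W9 k)) +
      (((-576 : ℤ)) : K (W9 k)) * xK +
      (((0 : ℤ)) : K (W9 k)) * yK +
      (((48 : ℤ)) : K (W9 k)) * xK ^ 2 +
      (((96 : ℤ)) : K (W9 k)) * (xK * yK) +
      (((36 : ℤ)) : K (W9 k)) * xK ^ 3 +
      (((-32 : ℤ)) : K (W9 k)) * (xK ^ 2 * yK) +
      (((-3 : ℤ)) : K (W9 k)) * xK ^ 4 +
      (((2 : ℤ)) : K (W9 k)) * (xK ^ 3 * yK)) * (xK - cK 6)
    rw [h1, c6]; push_cast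
    ring
  · show xK * (xK - 12) * (xK - 4) * (xK - 6) * dy =
      ((((6912 : ℤ)) : K (W9 k)) +
      (((-2880 : ℤ)) : K (W9 k)) * xK +
      (((-576 : ℤ)) : K (W9 k)) * yK +
      (((144 : ℤ)) : K (W9 k)) * xK ^ 2 +
      (((312 : ℤ)) : K (W9 k)) * (xK * yK) +
      (((60 : ℤ)) : K (W9 k)) * xK ^ 3 +
      (((-54 : ℤ)) : K (W9 k)) * (xK ^ 2 * yK) +
      (((-6 : ℤ)) : K (W9 k)) * xK ^ 4 +
      (((3 : ℤ)) : K (W9 k)) * (xK ^ 3 * yK)) * yK
    rw [h2]; push_cast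
    linear_combination (-3 * xK ^ 3 + 54 * xK ^ 2 - 312 * xK + 576) * he
  · show xK * (xK - 12) * (xK - 4) * (xK - 6) * (dy - cK 4 * dx) =
      ((((3456 : ℤ)) : K (W9 k)) +
      (((-1728 : ℤ)) : K (W9 k)) * xK +
      (((-288 : ℤ)) : K (W9 k)) * yK +
      (((120 : ℤ)) : K (W9 k)) * xK ^ 2 +
      (((240 : ℤ)) : K (W9 k)) * (xK * yK) +
      (((24 : ℤ)) : K (W9 k)) * xK ^ 3 +
      (((-50 : ℤ)) : K (W9 k)) * (xK ^ 2 * yK) +
      (((-2 : ℤ)) : K (W9 k)) * xK ^ 4 +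
      (((3 : ℤ)) : K (W9 k)) * (xK ^ 3 * yK)) * (yK - cK 4 * xK)
    rw [h1, h2, c4]; push_cast
    linear_combination (-3 * xK ^ 3 + 50 * xK ^ 2 - 240 * xK + 288) * he
  · show xK * (xK - 12) * (xK - 4) * (xK - 6) * (dy - cK 2 * dx) =
      ((((3456 : ℤ)) : K (W9 k)) +
      (((-2592 : ℤ)) : K (W9 k)) * xK +
      (((-288 : ℤ)) : K (W9 k)) * yK +
      (((264 : ℤ)) : K (W9 k)) * xK ^ 2 +
      (((264 : ℤ)) : K (W9 k)) * (xK * yK) +
      (((42 : ℤ)) : K (W9 k)) * xK ^ 3 +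
      (((-56 : ℤ)) : K (W9 k)) * (xK ^ 2 * yK) +
      (((-4 : ℤ)) : K (W9 k)) * xK ^ 4 +
      (((3 : ℤ)) : K (W9 k)) * (xK ^ 3 * yK)) * (yK - cK 2 * xK)
    rw [h1, h2, c2]; push_cast
    linear_combination (-3 * xK ^ 3 + 56 * xK ^ 2 - 264 * xK + 288) * he
  · show xK * (xK - 12) * (xK - 4) * (xK - 6) * (dy - cK 3 * dx) =
      ((((3456 : ℤ)) : K (W9 k)) +
      (((-2016 : ℤ)) : K (W9 k)) * xK +
      (((-288 : ℤ)) : K (W9 k)) * yK +
      (((216 : ℤ)) : K (W9 k)) * xK ^ 2 +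
      (((240 : ℤ)) : K (W9 k)) * (xK * yK) +
      (((30 : ℤ)) : K (W9 k)) * xK ^ 3 +
      (((-54 : ℤ)) : K (W9 k)) * (xK ^ 2 * yK) +
      (((-3 : ℤ)) : K (W9 k)) * xK ^ 4 +
      (((3 : ℤ)) : K (W9 k)) * (xK ^ 3 * yK)) * (yK - cK 3 * xK)
    rw [h1, h2, c3]; push_cast
    linear_combination (-3 * xK ^ 3 + 54 * xK ^ 2 - 240 * xK + 288) * he

/-! ### monomials -/

/-- a monomial -/
noncomputable def mo (n : Fin 8 → ℤ) : K (W9 k) := ∏ j, uK j ^ n j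

/-- the coefficients of `q f'/f` for a monomial `f` -/
noncomputable def RR (n : Fin 8 → ℤ) : Fin 9 → k := ∑ j, ((n j : ℤ) : k) • rr j

lemma LC_mo (n : Fin 8 → ℤ) : LC (mo (k := k) n) (- Dn n 0) 1 := by
  have h := LC_prod Finset.univ (z := fun j => uK (k := k) j ^ n j) (n := fun j => n j * (- oU j 0))
    (a := fun j => (1 : k) ^ n j) (fun j _ => (LC_uK j).zpow (n j))
  simp only [one_zpow, Finset.prod_const_one] at h
  have e : - Dn n 0 = ∑ j, n j * (- oU j 0) := by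
    unfold Dn; rw [← Finset.sum_neg_distrib]; exact Finset.sum_congr rfl fun j _ => by ring
  rw [e]; exact h

lemma mo_ne (n : Fin 8 → ℤ) : mo (k := k) n ≠ 0 := (LC_mo n).ne

lemma ld_prod {ι : Type*} (s : Finset ι) (z : ι → K (W9 k)) (hz : ∀ i ∈ s, z i ≠ 0) :
    ld (∏ i ∈ s, z i) = ∑ i ∈ s, ld (z i) := by
  classical
  induction s using Finset.induction_on with
  | empty => simpa using ld_one
  | insert i s hi ih =>
    have h1 := hz i (Finset.mem_insert_self _ _)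
    have h2 : ∀ j ∈ s, z j ≠ 0 := fun j hj => hz j (Finset.mem_insert_of_mem hj)
    rw [Finset.prod_insert hi, Finset.sum_insert hi, ld_mul h1 (Finset.prod_ne_zero_iff.mpr h2),
      ih h2]

lemma ld_mo (n : Fin 8 → ℤ) : qK * ld (mo (k := k) n) = NV (RR n) := by
  unfold mo RR
  rw [ld_prod _ _ (fun j _ => zpow_ne_zero _ (uK_ne j)), NV_sum, Finset.mul_sum]
  refine Finset.sum_congr rfl fun j _ => ?_
  rw [ld_zpow (uK_ne j), ← ld_uK]
  rw [cK_int]; ring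

lemma RR_top (n : Fin 8 → ℤ) : RR (k := k) n 8 = ((- Dn n 0 : ℤ) : k) := by
  unfold RR Dn
  rw [Finset.sum_apply, ← Finset.sum_neg_distrib]
  push_cast
  refine Finset.sum_congr rfl fun j _ => ?_
  rw [Pi.smul_apply, smul_eq_mul]
  unfold rr
  rw [rz_top]; push_cast; ring

/-- **the bound at the origin** -/
theorem bound_K [CharZero k] {c₀ c₁ : k} (h0 : c₀ ≠ 0) (h1 : c₁ ≠ 0)
    {n n' : Fin 8 → ℤ} (h : cK c₀ * mo n + cK c₁ * mo n' = 1) :
    (Dn n 0 = 0 ∧ Dn n' 0 = 0) ∨ (1 ≤ Dn n 0 ∧ Dn n' 0 = 0 ∧ c₁ = 1) ∨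
    (Dn n 0 = 0 ∧ 1 ≤ Dn n' 0) ∨ (Dn n 0 = Dn n' 0 ∧ Dn n 0 ≤ -1) := by
  have hc0 : (cK c₀ : K (W9 k)) ≠ 0 := ne_of_v (v_c h0)
  have hc1 : (cK c₁ : K (W9 k)) ≠ 0 := ne_of_v (v_c h1)
  have Lf : LC (cK c₀ * mo n) (- Dn n 0) c₀ := by
    have := (LC_c (W := W9 k) h0).mul (LC_mo n); rwa [zero_add, mul_one] at this
  have Lg : LC (cK c₁ * mo n') (- Dn n' 0) c₁ := by
    have := (LC_c (W := W9 k) h1).mul (LC_mo n'); rwa [zero_add, mul_one] at this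
  have lf : NV (RR n) = qK * ld (cK c₀ * mo n) := by
    rw [ld_mul hc0 (mo_ne _), ld_c, zero_add, ld_mo]
  have lg : NV (RR n') = qK * ld (cK c₁ * mo n') := by
    rw [ld_mul hc1 (mo_ne _), ld_c, zero_add, ld_mo]
  have key : ∀ r : Fin 9 → k, (NV r : K (W9 k)) = 0 ∨ ∃ i : ℤ, v (NV r : K (W9 k)) = exp i := by
    intro r
    rcases v_NV (W := W9 k) r with rfl | ⟨M, -, -, hi⟩
    · exact Or.inl NV_zero
    · exact Or.inr ⟨_, hi⟩
  have top : ∀ {m : Fin 8 → ℤ}, RR (k := k) m 8 ≠ 0 ↔ Dn m 0 ≠ 0 := by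
    intro m; rw [RR_top]
    constructor
    · intro h h'; apply h; rw [h']; simp
    · intro h h'; apply h; have := Int.cast_eq_zero.mp h'; omega
  rcases wr2 h lf lg Lf.v_eq Lg.v_eq (key _) (key _) (by rw [← NV_sub]; exact key _) with
    ⟨h2, h3⟩ | ⟨i, j, l, hi, hj, hl, e1, e2, h2⟩
  · left
    constructor
    · by_contra hne
      exact top.mpr hne (by rw [NV_eq_zero h2]; rfl)
    · by_contra hne
      exact top.mpr hne (by rw [NV_eq_zero h3]; rfl)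
  · have val2 : Dn n' 0 = 0 → Dn n 0 ≥ 1 → c₁ = 1 := by
      intro a1 a2
      rw [a1, neg_zero] at Lg
      refine Lg.unique LC_one ?_
      have : cK c₁ * mo n' - 1 = - (cK c₀ * mo n) := by rw [← h]; ring
      rw [this, Valuation.map_neg, Lf.v_eq, ← exp_zero, exp_lt_exp]; omega
    rcases h2 with h2 | h2 | h2 | h2
    · right; right; right; omega
    · left; omega
    · right; left
      exact ⟨by omega, by omega, val2 (by omega) (by omega)⟩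
    · right; right; left; omega

/-- **a zero of `f` at the origin**: the coefficients of `q g'/g` vanish -/
theorem van_K [CharZero k] {c₀ c₁ : k} (h0 : c₀ ≠ 0) (h1 : c₁ ≠ 0)
    {n n' : Fin 8 → ℤ} (h : cK c₀ * mo n + cK c₁ * mo n' = 1) (hn : 1 ≤ Dn n 0)
    (hn' : Dn n' 0 = 0) :
    ∃ M : Fin 9, ordm M = 9 - Dn n 0 ∧ ∀ m, M < m → RR (k := k) n' m = 0 := by
  have hc0 : (cK c₀ : K (W9 k)) ≠ 0 := ne_of_v (v_c h0)
  have hc1 : (cK c₁ : K (W9 k)) ≠ 0 := ne_of_v (v_c h1)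
  have Lf : LC (cK c₀ * mo n) (- Dn n 0) c₀ := by
    have := (LC_c (W := W9 k) h0).mul (LC_mo n); rwa [zero_add, mul_one] at this
  have Lg : LC (cK c₁ * mo n') (- Dn n' 0) c₁ := by
    have := (LC_c (W := W9 k) h1).mul (LC_mo n'); rwa [zero_add, mul_one] at this
  have lf : NV (RR n) = qK * ld (cK c₀ * mo n) := by
    rw [ld_mul hc0 (mo_ne _), ld_c, zero_add, ld_mo]
  have lg : NV (RR n') = qK * ld (cK c₁ * mo n') := by
    rw [ld_mul hc1 (mo_ne _), ld_c, zero_add, ld_mo]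
  have key : ∀ r : Fin 9 → k, (NV r : K (W9 k)) = 0 ∨ ∃ i : ℤ, v (NV r : K (W9 k)) = exp i := by
    intro r
    rcases v_NV (W := W9 k) r with rfl | ⟨M, -, -, hi⟩
    · exact Or.inl NV_zero
    · exact Or.inr ⟨_, hi⟩
  have top : RR (k := k) n 8 ≠ 0 := by
    rw [RR_top]
    intro h'
    have := Int.cast_eq_zero.mp h'
    omega
  have top' : RR (k := k) n' 8 = 0 := by rw [RR_top, hn']; simp
  rcases wr2 h lf lg Lf.v_eq Lg.v_eq (key _) (key _) (by rw [← NV_sub]; exact key _) with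
    ⟨h2, h3⟩ | ⟨i, j, l, hi, hj, hl, e1, e2, h2⟩
  · exact absurd (by rw [NV_eq_zero h2]; rfl) top
  · have l9 : l = 9 := by
      rw [← NV_sub] at hl
      rcases v_NV (W := W9 k) (RR n - RR n') with h3 | ⟨M, hM, hM', hv⟩
      · rw [h3, NV_zero, map_zero] at hl; exact absurd hl.symm exp_ne_zero
      · rw [hl, exp_inj] at hv
        have : M = 8 := by
          by_contra hne
          have h4 := hM' 8 (lt_of_le_of_ne (Fin.le_last M) hne)
          rw [Pi.sub_apply, top', sub_zero] at h4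
          exact top h4
        rw [hv, this]; rfl
    rcases v_NV (W := W9 k) (RR n') with h3 | ⟨M, hM, hM', hv⟩
    · rw [h3, NV_zero, map_zero] at hj; exact absurd hj.symm exp_ne_zero
    · rw [hj, exp_inj] at hv
      exact ⟨M, by omega, hM'⟩

end K

end Pool.Agent.K9
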