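import Pool.Agent.Lib_helper60.K9.B

/-!
# A point of order nine, `d = 2`: the functions `x(z + iP)`, the nine points
-/

set_option autoImplicit false
set_option linter.unusedSectionVars false
set_option linter.unusedSimpArgs false
set_option linter.unusedVariables false

namespace Pool.Agent.K9

open Polynomial WeierstrassCurve.Affine WithZero
open Pool.Agent.TN Pool.Agent.K7

/-- the exponents of `X i` in the basis -/
def ex : Fin 9 → Fin 8 → ℤ :=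
  ![![1, 0, 0, 0, 0, 0, 0, 0], ![-2, 0, 0, 0, 1, 0, 0, 0], ![1, -1, 0, 0, -1, 1, 0, 0],
    ![0, 1, -1, 0, 0, -1, 1, 0], ![0, 0, 1, -1, 0, 0, -1, 1], ![0, 0, 0, 0, 0, 0, 1, -1],
    ![0, 0, -1, 1, 0, 1, -1, 0], ![0, -1, 1, 0, 1, -1, 0, 0], ![0, 1, 0, 0, -1, 0, 0, 0]]

/-- the leading coefficient of `X i` at the origin -/
def lz : Fin 9 → ℤ := ![1, 12, 12, 4, 6, 6, 4, 12, -12]

/-- the order at the point `-sP` of `∏ X i ^ e i` -/
def OO (e : Fin 9 → ℤ) (s : Fin 9) : ℤ := e (s + 1) + e (s - 1) - 2 * e s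

/-- the exponents in the basis -/
def NN (e : Fin 9 → ℤ) (j : Fin 8) : ℤ := ∑ i, e i * ex i j

lemma Dn_NN (e : Fin 9 → ℤ) (m : Fin 9) : Dn (NN e) m = OO e (-m) := by
  have key : ∀ i m : Fin 9, ∑ j, ex i j * oU j m = (if i = -m + 1 then 1 else 0) +
      (if i = -m - 1 then 1 else 0) - 2 * (if i = -m then 1 else 0) := by decide +kernel
  unfold Dn NN OO
  have h1 : ∑ j, (∑ i, e i * ex i j) * oU j m = ∑ i, e i * ∑ j, ex i j * oU j m := by
    rw [show (∑ j, (∑ i, e i * ex i j) * oU j m) = ∑ j, ∑ i, e i * (ex i j * oU j m) from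
      Finset.sum_congr rfl fun j _ => by
        rw [Finset.sum_mul]; exact Finset.sum_congr rfl fun i _ => by ring, Finset.sum_comm]
    exact Finset.sum_congr rfl fun i _ => (Finset.mul_sum _ _ _).symm
  rw [h1]
  simp only [key, mul_sub, mul_add, Finset.sum_sub_distrib, Finset.sum_add_distrib]
  simp only [mul_ite, mul_one, mul_zero, Finset.sum_ite_eq', Finset.mem_univ, if_true]
  ring

section Alg

variable {F : Type*} [Field F]

/-- the nine functions in terms of the units -/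
def Xf (x p q r y w v t : F) : Fin 9 → F :=
  ![x, 12 * y / x ^ 2, 12 * x * w / (p * y), 4 * p * v / (q * w), 6 * q * t / (r * v),
    6 * v / t, 4 * r * w / (q * v), 12 * q * y / (p * w), -(12 * p) / y]

lemma Xf_next [CharZero F] {x p q r y w v t x' p' q' r' y' w' v' t' : F} (hx : x ≠ 0)
    (hp : p ≠ 0) (hq : q ≠ 0) (hr : r ≠ 0) (hy : y ≠ 0) (hw : w ≠ 0) (hv : v ≠ 0) (ht : t ≠ 0)
    (h0 : x' = 12 * y / x ^ 2) (h1 : p' = -(12 * y * w / (p * x ^ 2)))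
    (h2 : q' = -(4 * w * v / (q * x ^ 2))) (h3 : r' = -(6 * v * t / (r * x ^ 2)))
    (h4 : y' = 144 * y * w / (p * x ^ 3)) (h5 : w' = -(48 * y * w * v / (p * q * x ^ 3)))
    (h6 : v' = -(24 * w * v * t / (q * r * x ^ 3)))
    (h7 : t' = -(36 * v ^ 2 * t / (r ^ 2 * x ^ 3))) (i : Fin 9) :
    Xf x' p' q' r' y' w' v' t' i = Xf x p q r y w v t (i + 1) := by
  subst h0 h1 h2 h3 h4 h5 h6 h7
  fin_cases i
  · rfl
  · show 12 * (144 * y * w / (p * x ^ 3)) / (12 * y / x ^ 2) ^ 2 = 12 * x * w / (p * y)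
    field_simp; norm_num
  · show 12 * (12 * y / x ^ 2) * -(48 * y * w * v / (p * q * x ^ 3)) /
      (-(12 * y * w / (p * x ^ 2)) * (144 * y * w / (p * x ^ 3))) = 4 * p * v / (q * w)
    field_simp; norm_num
  · show 4 * -(12 * y * w / (p * x ^ 2)) * -(24 * w * v * t / (q * r * x ^ 3)) /
      (-(4 * w * v / (q * x ^ 2)) * -(48 * y * w * v / (p * q * x ^ 3))) = 6 * q * t / (r * v)
    field_simp; norm_num
  · show 6 * -(4 * w * v / (q * x ^ 2)) * -(36 * v ^ 2 * t / (r ^ 2 * x ^ 3)) /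
      (-(6 * v * t / (r * x ^ 2)) * -(24 * w * v * t / (q * r * x ^ 3))) = 6 * v / t
    field_simp; norm_num
  · show 6 * -(24 * w * v * t / (q * r * x ^ 3)) / -(36 * v ^ 2 * t / (r ^ 2 * x ^ 3)) =
      4 * r * w / (q * v)
    field_simp; norm_num
  · show 4 * -(6 * v * t / (r * x ^ 2)) * -(48 * y * w * v / (p * q * x ^ 3)) /
      (-(4 * w * v / (q * x ^ 2)) * -(24 * w * v * t / (q * r * x ^ 3))) =
      12 * q * y / (p * w)
    field_simp; norm_num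
  · show 12 * -(4 * w * v / (q * x ^ 2)) * (144 * y * w / (p * x ^ 3)) /
      (-(12 * y * w / (p * x ^ 2)) * -(48 * y * w * v / (p * q * x ^ 3))) = -(12 * p) / y
    field_simp; norm_num
  · show -(12 * -(12 * y * w / (p * x ^ 2))) / (144 * y * w / (p * x ^ 3)) = x
    field_simp; norm_num

end Alg

section F

variable {k : Type*} [Field k] {F : Type*} [Field F] [Algebra k F] {x y : F}

variable (x y) in
/-- the basis -/
def uF : Fin 8 → F := ![x, x - 12, x - 4, x - 6, y, y - 4 * x, y - 2 * x, y - 3 * x]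

variable (x y) in
/-- the functions `x(z + iP)` -/
def XF : Fin 9 → F := Xf x (x - 12) (x - 4) (x - 6) y (y - 4 * x) (y - 2 * x) (y - 3 * x)

variable (x y) in
/-- monomials -/
def mon (e : Fin 9 → ℤ) : F := ∏ i, XF x y i ^ e i

variable (x y) in
/-- monomials in the basis -/
def M9 (n : Fin 8 → ℤ) : F := ∏ j, uF x y j ^ n j

lemma io_uK (h : Gen (12 : k) 4 x y) (j : Fin 8) : TN.io h (uK j) = uF x y j := by
  have e1 : TN.io h xK = x := io_x h
  have e2 : TN.io h yK = y := io_y h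
  have e3 : ∀ a : k, TN.io h (xK - cK a) = x - algebraMap k F a := fun a => by
    rw [map_sub, io_x, io_c]
  have e4 : ∀ a : k, TN.io h (yK - cK a * xK) = y - algebraMap k F a * x := fun a => by
    rw [map_sub, map_mul, io_x, io_y, io_c]
  fin_cases j
  · exact e1
  · exact (e3 12).trans (by rw [map_ofNat]; rfl)
  · exact (e3 4).trans (by rw [map_ofNat]; rfl)
  · exact (e3 6).trans (by rw [map_ofNat]; rfl)
  · exact e2
  · exact (e4 4).trans (by rw [map_ofNat]; rfl)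
  · exact (e4 2).trans (by rw [map_ofNat]; rfl)
  · exact (e4 3).trans (by rw [map_ofNat]; rfl)

lemma uF_ne (h : Gen (12 : k) 4 x y) (j : Fin 8) : uF x y j ≠ 0 := by
  rw [← io_uK h]; exact (_root_.map_ne_zero _).mpr (uK_ne j)

lemma io_mo (h : Gen (12 : k) 4 x y) (n : Fin 8 → ℤ) : TN.io h (mo n) = M9 x y n := by
  unfold mo M9
  rw [map_prod]
  refine Finset.prod_congr rfl fun j _ => ?_
  rw [map_zpow₀, io_uK]

lemma curve (h : Gen (12 : k) 4 x y) : y ^ 2 - 3 * x * y - 12 * y = x ^ 3 - 12 * x ^ 2 := by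
  have := h.eq
  rw [map_ofNat, map_ofNat] at this
  linear_combination this

/-- the leading coefficient of `X i` at the origin -/
def lam (k : Type*) [Field k] (i : Fin 9) : k := ((lz i : ℤ) : k)

lemma lam_ne [CharZero k] (i : Fin 9) : lam k i ≠ 0 := by
  have : ∀ i, lz i ≠ 0 := by decide
  exact Int.cast_ne_zero.mpr (this i)

lemma XF_eq (h : Gen (12 : k) 4 x y) (i : Fin 9) :
    XF x y i = algebraMap k F (lam k i) * ∏ j, uF x y j ^ ex i j := by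
  have hu := uF_ne h
  have hu0 : x ≠ 0 := hu 0
  have hu1 : x - 12 ≠ 0 := hu 1
  have hu2 : x - 4 ≠ 0 := hu 2
  have hu3 : x - 6 ≠ 0 := hu 3
  have hu4 : y ≠ 0 := hu 4
  have hu5 : y - 4 * x ≠ 0 := hu 5
  have hu6 : y - 2 * x ≠ 0 := hu 6
  have hu7 : y - 3 * x ≠ 0 := hu 7
  have hl : algebraMap k F (lam k i) = ((lz i : ℤ) : F) := map_intCast _ _
  rw [hl, Fin.prod_univ_eight]
  unfold XF
  set p := x - 12 with hp
  set q := x - 4 with hq
  set r := x - 6 with hr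
  set w := y - 4 * x with hw
  set v := y - 2 * x with hv
  set t := y - 3 * x with ht
  fin_cases i
  · show x = ((1 : ℤ) : F) * (x ^ (1 : ℤ) * p ^ (0 : ℤ) * q ^ (0 : ℤ) * r ^ (0 : ℤ) *
      y ^ (0 : ℤ) * w ^ (0 : ℤ) * v ^ (0 : ℤ) * t ^ (0 : ℤ))
    simp
  · show 12 * y / x ^ 2 = ((12 : ℤ) : F) * (x ^ (-2 : ℤ) * p ^ (0 : ℤ) * q ^ (0 : ℤ) *
      r ^ (0 : ℤ) * y ^ (1 : ℤ) * w ^ (0 : ℤ) * v ^ (0 : ℤ) * t ^ (0 : ℤ))
    simp [zpow_neg]; field_simp
  · show 12 * x * w / (p * y) = ((12 : ℤ) : F) * (x ^ (1 : ℤ) * p ^ (-1 : ℤ) * q ^ (0 : ℤ) *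
      r ^ (0 : ℤ) * y ^ (-1 : ℤ) * w ^ (1 : ℤ) * v ^ (0 : ℤ) * t ^ (0 : ℤ))
    simp [zpow_neg]; field_simp
  · show 4 * p * v / (q * w) = ((4 : ℤ) : F) * (x ^ (0 : ℤ) * p ^ (1 : ℤ) * q ^ (-1 : ℤ) *
      r ^ (0 : ℤ) * y ^ (0 : ℤ) * w ^ (-1 : ℤ) * v ^ (1 : ℤ) * t ^ (0 : ℤ))
    simp [zpow_neg]; field_simp
  · show 6 * q * t / (r * v) = ((6 : ℤ) : F) * (x ^ (0 : ℤ) * p ^ (0 : ℤ) * q ^ (1 : ℤ) *
      r ^ (-1 : ℤ) * y ^ (0 : ℤ) * w ^ (0 : ℤ) * v ^ (-1 : ℤ) * t ^ (1 : ℤ))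
    simp [zpow_neg]; field_simp
  · show 6 * v / t = ((6 : ℤ) : F) * (x ^ (0 : ℤ) * p ^ (0 : ℤ) * q ^ (0 : ℤ) *
      r ^ (0 : ℤ) * y ^ (0 : ℤ) * w ^ (0 : ℤ) * v ^ (1 : ℤ) * t ^ (-1 : ℤ))
    simp [zpow_neg]; field_simp
  · show 4 * r * w / (q * v) = ((4 : ℤ) : F) * (x ^ (0 : ℤ) * p ^ (0 : ℤ) * q ^ (-1 : ℤ) *
      r ^ (1 : ℤ) * y ^ (0 : ℤ) * w ^ (1 : ℤ) * v ^ (-1 : ℤ) * t ^ (0 : ℤ))
    simp [zpow_neg]; field_simp
  · show 12 * q * y / (p * w) = ((12 : ℤ) : F) * (x ^ (0 : ℤ) * p ^ (-1 : ℤ) * q ^ (1 : ℤ) *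
      r ^ (0 : ℤ) * y ^ (1 : ℤ) * w ^ (-1 : ℤ) * v ^ (0 : ℤ) * t ^ (0 : ℤ))
    simp [zpow_neg]; field_simp
  · show -(12 * p) / y = ((-12 : ℤ) : F) * (x ^ (0 : ℤ) * p ^ (1 : ℤ) * q ^ (0 : ℤ) *
      r ^ (0 : ℤ) * y ^ (-1 : ℤ) * w ^ (0 : ℤ) * v ^ (0 : ℤ) * t ^ (0 : ℤ))
    simp [zpow_neg]; field_simp

lemma XF_ne [CharZero k] (h : Gen (12 : k) 4 x y) (i : Fin 9) : XF x y i ≠ 0 := by
  rw [XF_eq h]
  exact mul_ne_zero ((_root_.map_ne_zero _).mpr (lam_ne i))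
    (Finset.prod_ne_zero_iff.mpr fun j _ => zpow_ne_zero _ (uF_ne h j))

lemma mon_eq (h : Gen (12 : k) 4 x y) (e : Fin 9 → ℤ) :
    mon x y e = algebraMap k F (∏ i, lam k i ^ e i) * M9 x y (NN e) := by
  rw [map_prod]
  unfold mon M9
  simp only [XF_eq h]
  rw [show (∏ j, uF x y j ^ NN e j) = ∏ i, (∏ j, uF x y j ^ ex i j) ^ e i by
    rw [show (∏ i, (∏ j, uF x y j ^ ex i j) ^ e i) =
      ∏ i, ∏ j, uF x y j ^ (e i * ex i j) from Finset.prod_congr rfl fun i _ => by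
        rw [← Finset.prod_zpow]
        refine Finset.prod_congr rfl fun j _ => ?_
        rw [← zpow_mul, mul_comm], Finset.prod_comm]
    refine Finset.prod_congr rfl fun j _ => ?_
    unfold NN
    have : ∀ (s : Finset (Fin 9)) (a : Fin 9 → ℤ), uF x y j ^ (∑ i ∈ s, a i) =
        ∏ i ∈ s, uF x y j ^ a i := by
      intro s a
      induction s using Finset.induction_on with
      | empty => simp
      | insert i s hi ih => rw [Finset.sum_insert hi, Finset.prod_insert hi,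
          zpow_add₀ (uF_ne h j), ih]
    exact this _ _]
  rw [← Finset.prod_mul_distrib]
  refine Finset.prod_congr rfl fun i _ => ?_
  rw [mul_zpow, map_zpow₀]

/-! ### translation -/

variable (x y) in
/-- the first coordinate of `z + P` -/
def nx : F := 12 * y / x ^ 2

variable (x y) in
/-- the second coordinate of `z + P` -/
def ny : F := 144 * (x ^ 2 - y) / x ^ 3

lemma Gen.next' [CharZero k] (h : Gen (12 : k) 4 x y) : Gen (12 : k) 4 (nx x y) (ny x y) := by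
  have := TN.Gen.next (b := (12 : k)) (by norm_num) h
  rw [map_ofNat, show ((OfNat.ofNat 12 : F)) ^ 2 = 144 by norm_num] at this
  exact this

/-- the basis at the next point -/
lemma uF_next [CharZero k] (h : Gen (12 : k) 4 x y) :
    nx x y = 12 * y / x ^ 2 ∧
    nx x y - 12 = -(12 * y * (y - 4 * x) / ((x - 12) * x ^ 2)) ∧
    nx x y - 4 = -(4 * (y - 4 * x) * (y - 2 * x) / ((x - 4) * x ^ 2)) ∧
    nx x y - 6 = -(6 * (y - 2 * x) * (y - 3 * x) / ((x - 6) * x ^ 2)) ∧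
    ny x y = 144 * y * (y - 4 * x) / ((x - 12) * x ^ 3) ∧
    ny x y - 4 * nx x y = -(48 * y * (y - 4 * x) * (y - 2 * x) / ((x - 12) * (x - 4) * x ^ 3)) ∧
    ny x y - 2 * nx x y = -(24 * (y - 4 * x) * (y - 2 * x) * (y - 3 * x) /
      ((x - 4) * (x - 6) * x ^ 3)) ∧
    ny x y - 3 * nx x y = -(36 * (y - 2 * x) ^ 2 * (y - 3 * x) / ((x - 6) ^ 2 * x ^ 3)) := by
  have hu := uF_ne h
  have hu0 : x ≠ 0 := hu 0
  have hu1 : x - 12 ≠ 0 := hu 1
  have hu2 : x - 4 ≠ 0 := hu 2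
  have hu3 : x - 6 ≠ 0 := hu 3
  have he := curve h
  have ex' : nx x y = 12 * y / x ^ 2 := rfl
  have ey' : ny x y = 144 * (x ^ 2 - y) / x ^ 3 := rfl
  refine ⟨rfl, ?_, ?_, ?_, ?_, ?_, ?_, ?_⟩
  · rw [ex', ← sub_eq_zero]
    have : 12 * y / x ^ 2 - 12 - -(12 * y * (y - 4 * x) / ((x - 12) * x ^ 2)) =
      12 * ((y ^ 2 - 3 * x * y - 12 * y) - (x ^ 3 - 12 * x ^ 2)) / ((x - 12) * x ^ 2) := by
      field_simp; ring
    rw [this, he, sub_self, mul_zero, zero_div]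
  · rw [ex', ← sub_eq_zero]
    have : 12 * y / x ^ 2 - 4 - -(4 * (y - 4 * x) * (y - 2 * x) / ((x - 4) * x ^ 2)) =
      4 * ((y ^ 2 - 3 * x * y - 12 * y) - (x ^ 3 - 12 * x ^ 2)) / ((x - 4) * x ^ 2) := by
      field_simp; ring
    rw [this, he, sub_self, mul_zero, zero_div]
  · rw [ex', ← sub_eq_zero]
    have : 12 * y / x ^ 2 - 6 - -(6 * (y - 2 * x) * (y - 3 * x) / ((x - 6) * x ^ 2)) =
      6 * ((y ^ 2 - 3 * x * y - 12 * y) - (x ^ 3 - 12 * x ^ 2)) / ((x - 6) * x ^ 2) := by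
      field_simp; ring
    rw [this, he, sub_self, mul_zero, zero_div]
  · rw [ey', ← sub_eq_zero]
    have : 144 * (x ^ 2 - y) / x ^ 3 - 144 * y * (y - 4 * x) / ((x - 12) * x ^ 3) =
      -(144 * ((y ^ 2 - 3 * x * y - 12 * y) - (x ^ 3 - 12 * x ^ 2))) / ((x - 12) * x ^ 3) := by
      field_simp; ring
    rw [this, he, sub_self, mul_zero, neg_zero, zero_div]
  · rw [ex', ey', ← sub_eq_zero]
    have : 144 * (x ^ 2 - y) / x ^ 3 - 4 * (12 * y / x ^ 2) -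
      -(48 * y * (y - 4 * x) * (y - 2 * x) / ((x - 12) * (x - 4) * x ^ 3)) =
      48 * (-3 * x + y + 12) * ((y ^ 2 - 3 * x * y - 12 * y) - (x ^ 3 - 12 * x ^ 2)) /
        ((x - 12) * (x - 4) * x ^ 3) := by
      field_simp; ring
    rw [this, he, sub_self, mul_zero, zero_div]
  · rw [ex', ey', ← sub_eq_zero]
    have : 144 * (x ^ 2 - y) / x ^ 3 - 2 * (12 * y / x ^ 2) -
      -(24 * (y - 4 * x) * (y - 2 * x) * (y - 3 * x) / ((x - 4) * (x - 6) * x ^ 3)) =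
      24 * (-6 * x + y + 12) * ((y ^ 2 - 3 * x * y - 12 * y) - (x ^ 3 - 12 * x ^ 2)) /
        ((x - 4) * (x - 6) * x ^ 3) := by
      field_simp; ring
    rw [this, he, sub_self, mul_zero, zero_div]
  · rw [ex', ey', ← sub_eq_zero]
    have : 144 * (x ^ 2 - y) / x ^ 3 - 3 * (12 * y / x ^ 2) -
      -(36 * (y - 2 * x) ^ 2 * (y - 3 * x) / ((x - 6) ^ 2 * x ^ 3)) =
      36 * (-4 * x + y + 12) * ((y ^ 2 - 3 * x * y - 12 * y) - (x ^ 3 - 12 * x ^ 2)) /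
        ((x - 6) ^ 2 * x ^ 3) := by
      field_simp; ring
    rw [this, he, sub_self, mul_zero, zero_div]

lemma XF_next [CharZero k] (h : Gen (12 : k) 4 x y) (i : Fin 9) :
    XF (nx x y) (ny x y) i = XF x y (i + 1) := by
  have : CharZero F := charZero_of_injective_algebraMap (algebraMap k F).injective
  obtain ⟨e0, e1, e2, e3, e4, e5, e6, e7⟩ := uF_next h
  exact Xf_next (uF_ne h 0) (uF_ne h 1) (uF_ne h 2) (uF_ne h 3) (uF_ne h 4) (uF_ne h 5)
    (uF_ne h 6) (uF_ne h 7) e0 e1 e2 e3 e4 e5 e6 e7 i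

/-- generic points after `s` translations -/
lemma exists_shift [CharZero k] (h : Gen (12 : k) 4 x y) (s : Fin 9) :
    ∃ x' y' : F, Gen (12 : k) 4 x' y' ∧ ∀ i, XF x' y' i = XF x y (i + s) := by
  have key : ∀ n : ℕ, ∃ x' y' : F, Gen (12 : k) 4 x' y' ∧
      ∀ i, XF x' y' i = XF x y (i + n • 1) := by
    intro n
    induction n with
    | zero => exact ⟨x, y, h, fun i => by simp⟩
    | succ n ih =>
      obtain ⟨x', y', h', hi⟩ := ih
      refine ⟨nx x' y', ny x' y', Gen.next' h', fun i => ?_⟩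
      rw [XF_next h', hi]
      congr 1
      rw [succ_nsmul]
      abel
  obtain ⟨x', y', h', hi⟩ := key s.val
  refine ⟨x', y', h', fun i => ?_⟩
  have h9 : ∀ s : Fin 9, s.val • (1 : Fin 9) = s := by decide
  rw [hi, h9]

lemma mon_shift {x' y' : F} (s : Fin 9) (hs : ∀ i, XF x' y' i = XF x y (i + s))
    (e : Fin 9 → ℤ) : mon x y e = mon x' y' (fun i => e (i + s)) := by
  unfold mon
  rw [← Equiv.prod_comp (Equiv.addRight s) (fun i => XF x y i ^ e i)]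
  refine Finset.prod_congr rfl fun i _ => ?_
  rw [hs]; rfl

/-- the leading coefficient of `c ∏ X i ^ e i` at `-sP` -/
def Lc (c : k) (e : Fin 9 → ℤ) (s : Fin 9) : k := c * ∏ i, lam k i ^ e (i + s)

lemma Lc_ne [CharZero k] {c : k} (hc : c ≠ 0) (e : Fin 9 → ℤ) (s : Fin 9) : Lc c e s ≠ 0 :=
  mul_ne_zero hc (Finset.prod_ne_zero_iff.mpr fun i _ => zpow_ne_zero _ (lam_ne i))

lemma OO_shift (e : Fin 9 → ℤ) (h s : Fin 9) : OO (fun i => e (i + h)) s = OO e (s + h) := by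
  show e (s + 1 + h) + e (s - 1 + h) - 2 * e (s + h) = e (s + h + 1) + e (s + h - 1) - 2 * e (s + h)
  rw [show s + 1 + h = s + h + 1 by abel, show s - 1 + h = s + h - 1 by abel]

/-- the unit equation at the origin of the translate -/
lemma at_s [CharZero k] (h : Gen (12 : k) 4 x y) {c₀ c₁ : k} {e e' : Fin 9 → ℤ}
    (hu : algebraMap k F c₀ * mon x y e + algebraMap k F c₁ * mon x y e' = 1) (s : Fin 9) :
    (cK (Lc c₀ e s) * mo (NN fun i => e (i + s)) + cK (Lc c₁ e' s) * mo (NN fun i => e' (i + s)) :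
      K (W9 k)) = 1 := by
  obtain ⟨x', y', h', hx⟩ := exists_shift h s
  rw [mon_shift s hx e, mon_shift s hx e', mon_eq h', mon_eq h', ← mul_assoc, ← mul_assoc,
    ← map_mul, ← map_mul, ← io_mo h', ← io_mo h', ← io_c h', ← io_c h', ← map_mul, ← map_mul,
    ← map_add] at hu
  exact io_inj h' (hu.trans (map_one _).symm)

lemma Dn_at (e : Fin 9 → ℤ) (s : Fin 9) : Dn (NN fun i => e (i + s)) 0 = OO e s := by
  rw [Dn_NN, OO_shift, neg_zero, zero_add]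

/-- **the alternatives at a point** -/
theorem bound9 [CharZero k] (h : Gen (12 : k) 4 x y) {c₀ c₁ : k}
    (h0 : c₀ ≠ 0) (h1 : c₁ ≠ 0) {e e' : Fin 9 → ℤ}
    (hu : algebraMap k F c₀ * mon x y e + algebraMap k F c₁ * mon x y e' = 1) (s : Fin 9) :
    (OO e s = 0 ∧ OO e' s = 0) ∨ (1 ≤ OO e s ∧ OO e' s = 0 ∧ Lc c₁ e' s = 1) ∨
    (OO e s = 0 ∧ 1 ≤ OO e' s) ∨ (OO e s = OO e' s ∧ OO e s ≤ -1) := by
  have key := bound_K (Lc_ne h0 e s) (Lc_ne h1 e' s) (at_s h hu s)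
  rwa [Dn_at, Dn_at] at key

/-- **a zero of `f` at `-sP`** -/
theorem van9 [CharZero k] (h : Gen (12 : k) 4 x y) {c₀ c₁ : k}
    (h0 : c₀ ≠ 0) (h1 : c₁ ≠ 0) {e e' : Fin 9 → ℤ}
    (hu : algebraMap k F c₀ * mon x y e + algebraMap k F c₁ * mon x y e' = 1) (s : Fin 9)
    (hs : 1 ≤ OO e s) (hs' : OO e' s = 0) :
    ∃ M : Fin 9, ordm M = 9 - OO e s ∧
      ∀ m, M < m → RR (k := k) (NN fun i => e' (i + s)) m = 0 := by
  have key := van_K (Lc_ne h0 e s) (Lc_ne h1 e' s) (at_s h hu s) (by rw [Dn_at]; exact hs)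
    (by rw [Dn_at]; exact hs')
  rwa [Dn_at] at key

end F

end Pool.Agent.K9
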