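import Pool.Agent.Lib_helper60.K9.T1

/-!
# A point of order nine, `d = 2`: the fibres at 0
-/

set_option autoImplicit false
set_option maxRecDepth 100000

namespace Pool.Agent.K9

/-- a fibre -/
def e0_0 : Cfg :=
    ⟨[(0, 1)], [(false, []), (false, []), (false, []), (false, []), (false, []), (false, []), (false,
      []), (false, [([.ofNat 1, .ofNat 1, .ofNat 1, .ofNat 1, .ofNat 1, .ofNat 1, .ofNat 1,
      .ofNat 1], [.negSucc 0, .ofNat 1])]), (true, [])]⟩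

lemma e0_0_ok : okE e0_0 = true := by decide +kernel

/-- a fibre -/
def e0_1 : Cfg :=
    ⟨[(0, 2)], [(false, []), (false, []), (false, []), (false, []), (false, []), (false, []), (false,
      [([.ofNat 18, .ofNat 0, .ofNat 0, .negSucc 8, .negSucc 8, .negSucc 26, .negSucc 8],
      [.ofNat 18, .negSucc 17, .negSucc 0])]), (false, [([.ofNat 1, .ofNat 1, .ofNat 1, .ofNat 1,
      .ofNat 1, .ofNat 1, .ofNat 1, .ofNat 1], [.negSucc 0, .ofNat 1, .ofNat 0])]), (true, [])]⟩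

lemma e0_1_ok : okE e0_1 = true := by decide +kernel

/-- a fibre -/
def e0_2 : Cfg :=
    ⟨[(0, 3)], [(false, []), (false, []), (false, []), (false, []), (false, []), (false, [([.ofNat 36,
      .ofNat 54, .ofNat 108, .ofNat 90, .ofNat 270, .ofNat 54], [.negSucc 305, .ofNat 306,
      .ofNat 6, .ofNat 1])]), (false, [([.ofNat 18, .ofNat 0, .ofNat 0, .negSucc 8, .negSucc 8,
      .negSucc 26, .negSucc 8], [.ofNat 18, .negSucc 17, .negSucc 0, .ofNat 0])]), (false,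
      [([.ofNat 1, .ofNat 1, .ofNat 1, .ofNat 1, .ofNat 1, .ofNat 1, .ofNat 1, .ofNat 1],
      [.negSucc 0, .ofNat 1, .ofNat 0, .ofNat 0])]), (true, [])]⟩

lemma e0_2_ok : okE e0_2 = true := by decide +kernel

/-- a fibre -/
def e0_3 : Cfg :=
    ⟨[(0, 4)], [(false, []), (false, []), (false, []), (false, []), (false, [([.ofNat 54, .ofNat 108,
      .ofNat 180, .ofNat 108, .ofNat 216], [.ofNat 180, .negSucc 179, .negSucc 9, .negSucc 1,
      .negSucc 0])]), (false, [([.ofNat 36, .ofNat 54, .ofNat 108, .ofNat 90, .ofNat 270,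
      .ofNat 54], [.negSucc 305, .ofNat 306, .ofNat 6, .ofNat 1, .ofNat 0])]), (false,
      [([.ofNat 18, .ofNat 0, .ofNat 0, .negSucc 8, .negSucc 8, .negSucc 26, .negSucc 8],
      [.ofNat 18, .negSucc 17, .negSucc 0, .ofNat 0, .ofNat 0])]), (false, [([.ofNat 1, .ofNat 1,
      .ofNat 1, .ofNat 1, .ofNat 1, .ofNat 1, .ofNat 1, .ofNat 1], [.negSucc 0, .ofNat 1,
      .ofNat 0, .ofNat 0, .ofNat 0])]), (true, [])]⟩

lemma e0_3_ok : okE e0_3 = true := by decide +kernel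

/-- a fibre -/
def e0_4 : Cfg :=
    ⟨[(0, 5)], [(false, []), (false, []), (false, []), (false, [([.ofNat 324, .ofNat 72, .ofNat 1944,
      .ofNat 0], [.negSucc 3491, .ofNat 3492, .ofNat 68, .ofNat 22, .ofNat 2, .ofNat 1])]),
      (false, [([.ofNat 54, .ofNat 108, .ofNat 180, .ofNat 108, .ofNat 216], [.ofNat 180,
      .negSucc 179, .negSucc 9, .negSucc 1, .negSucc 0, .ofNat 0])]), (false, [([.ofNat 36,
      .ofNat 54, .ofNat 108, .ofNat 90, .ofNat 270, .ofNat 54], [.negSucc 305, .ofNat 306,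
      .ofNat 6, .ofNat 1, .ofNat 0, .ofNat 0])]), (false, [([.ofNat 18, .ofNat 0, .ofNat 0,
      .negSucc 8, .negSucc 8, .negSucc 26, .negSucc 8], [.ofNat 18, .negSucc 17, .negSucc 0,
      .ofNat 0, .ofNat 0, .ofNat 0])]), (false, [([.ofNat 1, .ofNat 1, .ofNat 1, .ofNat 1,
      .ofNat 1, .ofNat 1, .ofNat 1, .ofNat 1], [.negSucc 0, .ofNat 1, .ofNat 0, .ofNat 0,
      .ofNat 0, .ofNat 0])]), (true, [])]⟩

lemma e0_4_ok : okE e0_4 = true := by decide +kernel

/-- a fibre -/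
def e0_5 : Cfg :=
    ⟨[(0, 6)], [(false, []), (false, []), (false, [([.ofNat 360, .negSucc 3239, .ofNat 0],
      [.ofNat 9432, .negSucc 9431, .negSucc 271, .negSucc 75, .negSucc 19, .negSucc 3,
      .negSucc 0])]), (false, [([.ofNat 324, .ofNat 72, .ofNat 1944, .ofNat 0], [.negSucc 3491,
      .ofNat 3492, .ofNat 68, .ofNat 22, .ofNat 2, .ofNat 1, .ofNat 0])]), (false, [([.ofNat 54,
      .ofNat 108, .ofNat 180, .ofNat 108, .ofNat 216], [.ofNat 180, .negSucc 179, .negSucc 9,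
      .negSucc 1, .negSucc 0, .ofNat 0, .ofNat 0])]), (false, [([.ofNat 36, .ofNat 54, .ofNat 108,
      .ofNat 90, .ofNat 270, .ofNat 54], [.negSucc 305, .ofNat 306, .ofNat 6, .ofNat 1, .ofNat 0,
      .ofNat 0, .ofNat 0])]), (false, [([.ofNat 18, .ofNat 0, .ofNat 0, .negSucc 8, .negSucc 8,
      .negSucc 26, .negSucc 8], [.ofNat 18, .negSucc 17, .negSucc 0, .ofNat 0, .ofNat 0, .ofNat 0,
      .ofNat 0])]), (false, [([.ofNat 1, .ofNat 1, .ofNat 1, .ofNat 1, .ofNat 1, .ofNat 1,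
      .ofNat 1, .ofNat 1], [.negSucc 0, .ofNat 1, .ofNat 0, .ofNat 0, .ofNat 0, .ofNat 0,
      .ofNat 0])]), (true, [])]⟩

lemma e0_5_ok : okE e0_5 = true := by decide +kernel

/-- a fibre -/
def e0_6 : Cfg :=
    ⟨[(0, 7)], [(false, []), (false, [([.ofNat 77760, .ofNat 12960], [.negSucc 228095, .ofNat 228096,
      .ofNat 6336, .ofNat 1968, .ofNat 480, .ofNat 132, .ofNat 28, .ofNat 5])]), (false,
      [([.ofNat 360, .negSucc 3239, .ofNat 0], [.ofNat 9432, .negSucc 9431, .negSucc 271,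
      .negSucc 75, .negSucc 19, .negSucc 3, .negSucc 0, .ofNat 0])]), (false, [([.ofNat 324,
      .ofNat 72, .ofNat 1944, .ofNat 0], [.negSucc 3491, .ofNat 3492, .ofNat 68, .ofNat 22,
      .ofNat 2, .ofNat 1, .ofNat 0, .ofNat 0])]), (false, [([.ofNat 54, .ofNat 108, .ofNat 180,
      .ofNat 108, .ofNat 216], [.ofNat 180, .negSucc 179, .negSucc 9, .negSucc 1, .negSucc 0,
      .ofNat 0, .ofNat 0, .ofNat 0])]), (false, [([.ofNat 36, .ofNat 54, .ofNat 108, .ofNat 90,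
      .ofNat 270, .ofNat 54], [.negSucc 305, .ofNat 306, .ofNat 6, .ofNat 1, .ofNat 0, .ofNat 0,
      .ofNat 0, .ofNat 0])]), (false, [([.ofNat 18, .ofNat 0, .ofNat 0, .negSucc 8, .negSucc 8,
      .negSucc 26, .negSucc 8], [.ofNat 18, .negSucc 17, .negSucc 0, .ofNat 0, .ofNat 0, .ofNat 0,
      .ofNat 0, .ofNat 0])]), (false, [([.ofNat 1, .ofNat 1, .ofNat 1, .ofNat 1, .ofNat 1,
      .ofNat 1, .ofNat 1, .ofNat 1], [.negSucc 0, .ofNat 1, .ofNat 0, .ofNat 0, .ofNat 0,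
      .ofNat 0, .ofNat 0, .ofNat 0])]), (true, [])]⟩

lemma e0_6_ok : okE e0_6 = true := by decide +kernel

/-- the fibres with solutions -/
def E0 : List Cfg := [
    e0_0, e0_1, e0_2, e0_3, e0_4, e0_5, e0_6]

/-- the fibres without solutions -/
def Z0 : List Cfg := [
    ⟨[(0, 8)], [(false, [([.ofNat 90720], [.ofNat 20736, .negSucc 20735, .negSucc 575, .negSucc 767,
      .negSucc 239, .negSucc 191, .negSucc 67, .negSucc 39, .negSucc 14])]), (false,
      [([.ofNat 77760, .ofNat 12960], [.negSucc 228095, .ofNat 228096, .ofNat 6336, .ofNat 1968,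
      .ofNat 480, .ofNat 132, .ofNat 28, .ofNat 5, .ofNat 0])]), (false, [([.ofNat 360,
      .negSucc 3239, .ofNat 0], [.ofNat 9432, .negSucc 9431, .negSucc 271, .negSucc 75,
      .negSucc 19, .negSucc 3, .negSucc 0, .ofNat 0, .ofNat 0])]), (false, [([.ofNat 324,
      .ofNat 72, .ofNat 1944, .ofNat 0], [.negSucc 3491, .ofNat 3492, .ofNat 68, .ofNat 22,
      .ofNat 2, .ofNat 1, .ofNat 0, .ofNat 0, .ofNat 0])]), (false, [([.ofNat 54, .ofNat 108,
      .ofNat 180, .ofNat 108, .ofNat 216], [.ofNat 180, .negSucc 179, .negSucc 9, .negSucc 1,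
      .negSucc 0, .ofNat 0, .ofNat 0, .ofNat 0, .ofNat 0])]), (false, [([.ofNat 36, .ofNat 54,
      .ofNat 108, .ofNat 90, .ofNat 270, .ofNat 54], [.negSucc 305, .ofNat 306, .ofNat 6,
      .ofNat 1, .ofNat 0, .ofNat 0, .ofNat 0, .ofNat 0, .ofNat 0])]), (false, [([.ofNat 18,
      .ofNat 0, .ofNat 0, .negSucc 8, .negSucc 8, .negSucc 26, .negSucc 8], [.ofNat 18,
      .negSucc 17, .negSucc 0, .ofNat 0, .ofNat 0, .ofNat 0, .ofNat 0, .ofNat 0, .ofNat 0])]),
      (false, [([.ofNat 1, .ofNat 1, .ofNat 1, .ofNat 1, .ofNat 1, .ofNat 1, .ofNat 1, .ofNat 1],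
      [.negSucc 0, .ofNat 1, .ofNat 0, .ofNat 0, .ofNat 0, .ofNat 0, .ofNat 0, .ofNat 0,
      .ofNat 0])]), (true, [])]⟩]

lemma E0_ok : E0.all okE = true := by
  simp only [E0, List.all_cons, List.all_nil, Bool.and_self,
    e0_0_ok, e0_1_ok, e0_2_ok, e0_3_ok, e0_4_ok, e0_5_ok, e0_6_ok]

lemma Z0_ok : Z0.all okZ = true := by decide +kernel

lemma cov0 : (prods 1).all (fun a => cov E0 Z0 (([0] : List (Fin 9)).zip a)) = true := by
  decide +kernel

theorem typ0 : Typ [0] E0 Z0 := ⟨E0_ok, Z0_ok, cov0⟩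

end Pool.Agent.K9
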