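import Pool.Agent.Lib_helper60.K9.T1

/-!
# A point of order nine, `d = 2`: the fibres at 0, 1
-/

set_option autoImplicit false
set_option maxRecDepth 100000

namespace Pool.Agent.K9

/-- a fibre -/
def e01_0 : Cfg :=
    ⟨[(0, 1), (1, 1)], [(false, []), (false, []), (false, []), (false, []), (false, [([.ofNat 36,
      .ofNat 9, .negSucc 17, .ofNat 18, .ofNat 18], [.negSucc 17, .ofNat 0, .ofNat 9, .negSucc 2,
      .ofNat 4])]), (false, [([.ofNat 4, .ofNat 8, .ofNat 3, .negSucc 1, .ofNat 2, .ofNat 6],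
      [.negSucc 9, .ofNat 4, .ofNat 3, .negSucc 0, .ofNat 0])]), (false, [([.ofNat 1, .ofNat 1,
      .ofNat 1, .ofNat 1, .ofNat 1, .ofNat 1, .ofNat 1], [.negSucc 0, .negSucc 0, .ofNat 1,
      .ofNat 0, .ofNat 0])]), (true, []), (true, [])]⟩

lemma e01_0_ok : okE e01_0 = true := by decide +kernel

/-- a fibre -/
def e01_1 : Cfg :=
    ⟨[(0, 1), (1, 2)], [(false, []), (false, []), (false, []), (false, [([.ofNat 9, .ofNat 36,
      .ofNat 0, .ofNat 72], [.negSucc 71, .ofNat 0, .ofNat 45, .negSucc 2, .negSucc 7,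
      .ofNat 2])]), (false, [([.ofNat 36, .ofNat 9, .negSucc 17, .ofNat 18, .ofNat 18],
      [.negSucc 17, .ofNat 0, .ofNat 9, .negSucc 2, .ofNat 4, .ofNat 0])]), (false, [([.ofNat 4,
      .ofNat 8, .ofNat 3, .negSucc 1, .ofNat 2, .ofNat 6], [.negSucc 9, .ofNat 4, .ofNat 3,
      .negSucc 0, .ofNat 0, .ofNat 0])]), (false, [([.ofNat 1, .ofNat 1, .ofNat 1, .ofNat 1,
      .ofNat 1, .ofNat 1, .ofNat 1], [.negSucc 0, .negSucc 0, .ofNat 1, .ofNat 0, .ofNat 0,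
      .ofNat 0])]), (true, []), (true, [])]⟩

lemma e01_1_ok : okE e01_1 = true := by decide +kernel

/-- a fibre -/
def e01_2 : Cfg :=
    ⟨[(0, 1), (1, 3)], [(false, []), (false, []), (false, [([.ofNat 54, .negSucc 71, .ofNat 108],
      [.negSucc 323, .ofNat 306, .negSucc 71, .negSucc 17, .negSucc 35, .ofNat 4, .negSucc 0])]),
      (false, [([.ofNat 9, .ofNat 36, .ofNat 0, .ofNat 72], [.negSucc 71, .ofNat 0, .ofNat 45,
      .negSucc 2, .negSucc 7, .ofNat 2, .ofNat 0])]), (false, [([.ofNat 36, .ofNat 9, .negSucc 17,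
      .ofNat 18, .ofNat 18], [.negSucc 17, .ofNat 0, .ofNat 9, .negSucc 2, .ofNat 4, .ofNat 0,
      .ofNat 0])]), (false, [([.ofNat 4, .ofNat 8, .ofNat 3, .negSucc 1, .ofNat 2, .ofNat 6],
      [.negSucc 9, .ofNat 4, .ofNat 3, .negSucc 0, .ofNat 0, .ofNat 0, .ofNat 0])]), (false,
      [([.ofNat 1, .ofNat 1, .ofNat 1, .ofNat 1, .ofNat 1, .ofNat 1, .ofNat 1], [.negSucc 0,
      .negSucc 0, .ofNat 1, .ofNat 0, .ofNat 0, .ofNat 0, .ofNat 0])]), (true, []), (true, [])]⟩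

lemma e01_2_ok : okE e01_2 = true := by decide +kernel

/-- a fibre -/
def e01_3 : Cfg :=
    ⟨[(0, 1), (1, 4)], [(false, []), (false, [([.ofNat 36, .negSucc 107], [.negSucc 431, .ofNat 792,
      .negSucc 593, .negSucc 17, .negSucc 23, .negSucc 13, .negSucc 3, .negSucc 0])]), (false,
      [([.ofNat 54, .negSucc 71, .ofNat 108], [.negSucc 323, .ofNat 306, .negSucc 71, .negSucc 17,
      .negSucc 35, .ofNat 4, .negSucc 0, .ofNat 0])]), (false, [([.ofNat 9, .ofNat 36, .ofNat 0,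
      .ofNat 72], [.negSucc 71, .ofNat 0, .ofNat 45, .negSucc 2, .negSucc 7, .ofNat 2, .ofNat 0,
      .ofNat 0])]), (false, [([.ofNat 36, .ofNat 9, .negSucc 17, .ofNat 18, .ofNat 18],
      [.negSucc 17, .ofNat 0, .ofNat 9, .negSucc 2, .ofNat 4, .ofNat 0, .ofNat 0, .ofNat 0])]),
      (false, [([.ofNat 4, .ofNat 8, .ofNat 3, .negSucc 1, .ofNat 2, .ofNat 6], [.negSucc 9,
      .ofNat 4, .ofNat 3, .negSucc 0, .ofNat 0, .ofNat 0, .ofNat 0, .ofNat 0])]), (false,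
      [([.ofNat 1, .ofNat 1, .ofNat 1, .ofNat 1, .ofNat 1, .ofNat 1, .ofNat 1], [.negSucc 0,
      .negSucc 0, .ofNat 1, .ofNat 0, .ofNat 0, .ofNat 0, .ofNat 0, .ofNat 0])]), (true, []),
      (true, [])]⟩

lemma e01_3_ok : okE e01_3 = true := by decide +kernel

/-- a fibre -/
def e01_4 : Cfg :=
    ⟨[(0, 2), (1, 1)], [(false, []), (false, []), (false, []), (false, [([.ofNat 18, .ofNat 27,
      .ofNat 45, .ofNat 9], [.ofNat 0, .negSucc 35, .ofNat 27, .ofNat 1, .ofNat 3, .ofNat 2])]),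
      (false, [([.ofNat 36, .negSucc 26, .negSucc 71, .negSucc 71, .ofNat 0], [.negSucc 17,
      .ofNat 72, .negSucc 44, .negSucc 1, .negSucc 8, .ofNat 0])]), (false, [([.ofNat 18,
      .ofNat 18, .ofNat 27, .ofNat 27, .ofNat 45, .ofNat 27], [.negSucc 35, .negSucc 17,
      .ofNat 36, .ofNat 1, .ofNat 0, .ofNat 0])]), (false, [([.ofNat 1, .ofNat 1, .ofNat 1,
      .ofNat 1, .ofNat 1, .ofNat 1, .ofNat 1], [.negSucc 0, .negSucc 0, .ofNat 1, .ofNat 0,
      .ofNat 0, .ofNat 0])]), (true, []), (true, [])]⟩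

lemma e01_4_ok : okE e01_4 = true := by decide +kernel

/-- a fibre -/
def e01_5 : Cfg :=
    ⟨[(0, 2), (1, 2)], [(false, []), (false, []), (false, [([.ofNat 45, .negSucc 44, .ofNat 135],
      [.negSucc 143, .ofNat 36, .ofNat 63, .negSucc 0, .negSucc 8, .negSucc 17, .ofNat 4])]),
      (false, [([.ofNat 18, .ofNat 27, .ofNat 45, .ofNat 9], [.ofNat 0, .negSucc 35, .ofNat 27,
      .ofNat 1, .ofNat 3, .ofNat 2, .ofNat 0])]), (false, [([.ofNat 36, .negSucc 26, .negSucc 71,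
      .negSucc 71, .ofNat 0], [.negSucc 17, .ofNat 72, .negSucc 44, .negSucc 1, .negSucc 8,
      .ofNat 0, .ofNat 0])]), (false, [([.ofNat 18, .ofNat 18, .ofNat 27, .ofNat 27, .ofNat 45,
      .ofNat 27], [.negSucc 35, .negSucc 17, .ofNat 36, .ofNat 1, .ofNat 0, .ofNat 0,
      .ofNat 0])]), (false, [([.ofNat 1, .ofNat 1, .ofNat 1, .ofNat 1, .ofNat 1, .ofNat 1,
      .ofNat 1], [.negSucc 0, .negSucc 0, .ofNat 1, .ofNat 0, .ofNat 0, .ofNat 0, .ofNat 0])]),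
      (true, []), (true, [])]⟩

lemma e01_5_ok : okE e01_5 = true := by decide +kernel

/-- a fibre -/
def e01_6 : Cfg :=
    ⟨[(0, 2), (1, 3)], [(false, []), (false, [([.ofNat 90, .ofNat 270], [.ofNat 756, .negSucc 1313,
      .ofNat 738, .negSucc 5, .ofNat 36, .ofNat 72, .ofNat 4, .ofNat 5])]), (false, [([.ofNat 45,
      .negSucc 44, .ofNat 135], [.negSucc 143, .ofNat 36, .ofNat 63, .negSucc 0, .negSucc 8,
      .negSucc 17, .ofNat 4, .ofNat 0])]), (false, [([.ofNat 18, .ofNat 27, .ofNat 45, .ofNat 9],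
      [.ofNat 0, .negSucc 35, .ofNat 27, .ofNat 1, .ofNat 3, .ofNat 2, .ofNat 0, .ofNat 0])]),
      (false, [([.ofNat 36, .negSucc 26, .negSucc 71, .negSucc 71, .ofNat 0], [.negSucc 17,
      .ofNat 72, .negSucc 44, .negSucc 1, .negSucc 8, .ofNat 0, .ofNat 0, .ofNat 0])]), (false,
      [([.ofNat 18, .ofNat 18, .ofNat 27, .ofNat 27, .ofNat 45, .ofNat 27], [.negSucc 35,
      .negSucc 17, .ofNat 36, .ofNat 1, .ofNat 0, .ofNat 0, .ofNat 0, .ofNat 0])]), (false,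
      [([.ofNat 1, .ofNat 1, .ofNat 1, .ofNat 1, .ofNat 1, .ofNat 1, .ofNat 1], [.negSucc 0,
      .negSucc 0, .ofNat 1, .ofNat 0, .ofNat 0, .ofNat 0, .ofNat 0, .ofNat 0])]), (true, []),
      (true, [])]⟩

lemma e01_6_ok : okE e01_6 = true := by decide +kernel

/-- a fibre -/
def e01_7 : Cfg :=
    ⟨[(0, 3), (1, 1)], [(false, []), (false, []), (false, [([.ofNat 117, .negSucc 188, .ofNat 135],
      [.ofNat 900, .negSucc 539, .negSucc 620, .negSucc 4, .negSucc 3, .ofNat 27, .ofNat 30])]),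
      (false, [([.ofNat 135, .ofNat 144, .ofNat 432, .ofNat 0], [.negSucc 449, .ofNat 0,
      .ofNat 513, .ofNat 10, .ofNat 2, .ofNat 9, .ofNat 0])]), (false, [([.ofNat 18, .ofNat 54,
      .ofNat 36, .ofNat 180, .ofNat 0], [.negSucc 233, .ofNat 36, .ofNat 234, .ofNat 4, .ofNat 1,
      .ofNat 0, .ofNat 0])]), (false, [([.ofNat 18, .ofNat 18, .ofNat 27, .ofNat 27, .ofNat 45,
      .ofNat 27], [.negSucc 35, .negSucc 17, .ofNat 36, .ofNat 1, .ofNat 0, .ofNat 0,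
      .ofNat 0])]), (false, [([.ofNat 1, .ofNat 1, .ofNat 1, .ofNat 1, .ofNat 1, .ofNat 1,
      .ofNat 1], [.negSucc 0, .negSucc 0, .ofNat 1, .ofNat 0, .ofNat 0, .ofNat 0, .ofNat 0])]),
      (true, []), (true, [])]⟩

lemma e01_7_ok : okE e01_7 = true := by decide +kernel

/-- a fibre -/
def e01_8 : Cfg :=
    ⟨[(0, 3), (1, 2)], [(false, []), (false, [([.ofNat 90, .ofNat 270], [.negSucc 1592, .ofNat 792,
      .ofNat 981, .ofNat 3, .ofNat 5, .negSucc 62, .negSucc 95, .ofNat 13])]), (false,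
      [([.ofNat 117, .negSucc 188, .ofNat 135], [.ofNat 900, .negSucc 539, .negSucc 620,
      .negSucc 4, .negSucc 3, .ofNat 27, .ofNat 30, .ofNat 0])]), (false, [([.ofNat 135,
      .ofNat 144, .ofNat 432, .ofNat 0], [.negSucc 449, .ofNat 0, .ofNat 513, .ofNat 10, .ofNat 2,
      .ofNat 9, .ofNat 0, .ofNat 0])]), (false, [([.ofNat 18, .ofNat 54, .ofNat 36, .ofNat 180,
      .ofNat 0], [.negSucc 233, .ofNat 36, .ofNat 234, .ofNat 4, .ofNat 1, .ofNat 0, .ofNat 0,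
      .ofNat 0])]), (false, [([.ofNat 18, .ofNat 18, .ofNat 27, .ofNat 27, .ofNat 45, .ofNat 27],
      [.negSucc 35, .negSucc 17, .ofNat 36, .ofNat 1, .ofNat 0, .ofNat 0, .ofNat 0, .ofNat 0])]),
      (false, [([.ofNat 1, .ofNat 1, .ofNat 1, .ofNat 1, .ofNat 1, .ofNat 1, .ofNat 1],
      [.negSucc 0, .negSucc 0, .ofNat 1, .ofNat 0, .ofNat 0, .ofNat 0, .ofNat 0, .ofNat 0])]),
      (true, []), (true, [])]⟩

lemma e01_8_ok : okE e01_8 = true := by decide +kernel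

/-- a fibre -/
def e01_9 : Cfg :=
    ⟨[(0, 3), (1, 3)], [(false, []), (false, [([.ofNat 90, .ofNat 270], [.negSucc 1592, .ofNat 792,
      .ofNat 981, .ofNat 3, .ofNat 5, .negSucc 62, .negSucc 95, .ofNat 13, .ofNat 0])]), (false,
      [([.ofNat 117, .negSucc 188, .ofNat 135], [.ofNat 900, .negSucc 539, .negSucc 620,
      .negSucc 4, .negSucc 3, .ofNat 27, .ofNat 30, .ofNat 0, .ofNat 0])]), (false, [([.ofNat 135,
      .ofNat 144, .ofNat 432, .ofNat 0], [.negSucc 449, .ofNat 0, .ofNat 513, .ofNat 10, .ofNat 2,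
      .ofNat 9, .ofNat 0, .ofNat 0, .ofNat 0])]), (false, [([.ofNat 18, .ofNat 54, .ofNat 36,
      .ofNat 180, .ofNat 0], [.negSucc 233, .ofNat 36, .ofNat 234, .ofNat 4, .ofNat 1, .ofNat 0,
      .ofNat 0, .ofNat 0, .ofNat 0])]), (false, [([.ofNat 18, .ofNat 18, .ofNat 27, .ofNat 27,
      .ofNat 45, .ofNat 27], [.negSucc 35, .negSucc 17, .ofNat 36, .ofNat 1, .ofNat 0, .ofNat 0,
      .ofNat 0, .ofNat 0, .ofNat 0])]), (false, [([.ofNat 1, .ofNat 1, .ofNat 1, .ofNat 1,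
      .ofNat 1, .ofNat 1, .ofNat 1], [.negSucc 0, .negSucc 0, .ofNat 1, .ofNat 0, .ofNat 0,
      .ofNat 0, .ofNat 0, .ofNat 0, .ofNat 0])]), (true, []), (true, [])]⟩

lemma e01_9_ok : okE e01_9 = true := by decide +kernel

/-- a fibre -/
def e01_10 : Cfg :=
    ⟨[(0, 4), (1, 1)], [(false, []), (false, [([.ofNat 648, .negSucc 863], [.ofNat 3834,
      .negSucc 6371, .negSucc 143, .ofNat 162, .negSucc 2, .ofNat 13, .ofNat 342, .ofNat 432])]),
      (false, [([.ofNat 648, .negSucc 1295, .ofNat 1080], [.ofNat 3510, .negSucc 539,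
      .negSucc 3383, .negSucc 89, .negSucc 20, .negSucc 4, .ofNat 18, .ofNat 0])]), (false,
      [([.ofNat 54, .negSucc 71, .ofNat 432, .negSucc 215], [.negSucc 881, .ofNat 108, .ofNat 882,
      .ofNat 22, .ofNat 5, .ofNat 1, .ofNat 0, .ofNat 0])]), (false, [([.ofNat 18, .ofNat 54,
      .ofNat 36, .ofNat 180, .ofNat 0], [.negSucc 233, .ofNat 36, .ofNat 234, .ofNat 4, .ofNat 1,
      .ofNat 0, .ofNat 0, .ofNat 0])]), (false, [([.ofNat 18, .ofNat 18, .ofNat 27, .ofNat 27,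
      .ofNat 45, .ofNat 27], [.negSucc 35, .negSucc 17, .ofNat 36, .ofNat 1, .ofNat 0, .ofNat 0,
      .ofNat 0, .ofNat 0])]), (false, [([.ofNat 1, .ofNat 1, .ofNat 1, .ofNat 1, .ofNat 1,
      .ofNat 1, .ofNat 1], [.negSucc 0, .negSucc 0, .ofNat 1, .ofNat 0, .ofNat 0, .ofNat 0,
      .ofNat 0, .ofNat 0])]), (true, []), (true, [])]⟩

lemma e01_10_ok : okE e01_10 = true := by decide +kernel

/-- the fibres with solutions -/
def E01 : List Cfg := [
    e01_0, e01_1, e01_2, e01_3, e01_4, e01_5, e01_6, e01_7, e01_8, e01_9, e01_10]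

/-- the fibres without solutions -/
def Z01 : List Cfg := [
    ⟨[(0, 1), (1, 5)], [(false, [([.ofNat 2808], [.ofNat 7992, .negSucc 16415, .ofNat 12240,
      .ofNat 360, .ofNat 552, .ofNat 240, .ofNat 84, .ofNat 16, .ofNat 1])]), (false,
      [([.ofNat 36, .negSucc 107], [.negSucc 431, .ofNat 792, .negSucc 593, .negSucc 17,
      .negSucc 23, .negSucc 13, .negSucc 3, .negSucc 0, .ofNat 0])]), (false, [([.ofNat 54,
      .negSucc 71, .ofNat 108], [.negSucc 323, .ofNat 306, .negSucc 71, .negSucc 17, .negSucc 35,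
      .ofNat 4, .negSucc 0, .ofNat 0, .ofNat 0])]), (false, [([.ofNat 9, .ofNat 36, .ofNat 0,
      .ofNat 72], [.negSucc 71, .ofNat 0, .ofNat 45, .negSucc 2, .negSucc 7, .ofNat 2, .ofNat 0,
      .ofNat 0, .ofNat 0])]), (false, [([.ofNat 36, .ofNat 9, .negSucc 17, .ofNat 18, .ofNat 18],
      [.negSucc 17, .ofNat 0, .ofNat 9, .negSucc 2, .ofNat 4, .ofNat 0, .ofNat 0, .ofNat 0,
      .ofNat 0])]), (false, [([.ofNat 4, .ofNat 8, .ofNat 3, .negSucc 1, .ofNat 2, .ofNat 6],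
      [.negSucc 9, .ofNat 4, .ofNat 3, .negSucc 0, .ofNat 0, .ofNat 0, .ofNat 0, .ofNat 0,
      .ofNat 0])]), (false, [([.ofNat 1, .ofNat 1, .ofNat 1, .ofNat 1, .ofNat 1, .ofNat 1,
      .ofNat 1], [.negSucc 0, .negSucc 0, .ofNat 1, .ofNat 0, .ofNat 0, .ofNat 0, .ofNat 0,
      .ofNat 0, .ofNat 0])]), (true, []), (true, [])]⟩,
    ⟨[(0, 2), (1, 4)], [(false, [([.ofNat 1080], [.ofNat 3672, .negSucc 6587, .ofNat 4446,
      .negSucc 11, .ofNat 162, .ofNat 264, .ofNat 78, .ofNat 30, .ofNat 5])]), (false,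
      [([.ofNat 90, .ofNat 270], [.ofNat 756, .negSucc 1313, .ofNat 738, .negSucc 5, .ofNat 36,
      .ofNat 72, .ofNat 4, .ofNat 5, .ofNat 0])]), (false, [([.ofNat 45, .negSucc 44, .ofNat 135],
      [.negSucc 143, .ofNat 36, .ofNat 63, .negSucc 0, .negSucc 8, .negSucc 17, .ofNat 4,
      .ofNat 0, .ofNat 0])]), (false, [([.ofNat 18, .ofNat 27, .ofNat 45, .ofNat 9], [.ofNat 0,
      .negSucc 35, .ofNat 27, .ofNat 1, .ofNat 3, .ofNat 2, .ofNat 0, .ofNat 0, .ofNat 0])]),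
      (false, [([.ofNat 36, .negSucc 26, .negSucc 71, .negSucc 71, .ofNat 0], [.negSucc 17,
      .ofNat 72, .negSucc 44, .negSucc 1, .negSucc 8, .ofNat 0, .ofNat 0, .ofNat 0, .ofNat 0])]),
      (false, [([.ofNat 18, .ofNat 18, .ofNat 27, .ofNat 27, .ofNat 45, .ofNat 27], [.negSucc 35,
      .negSucc 17, .ofNat 36, .ofNat 1, .ofNat 0, .ofNat 0, .ofNat 0, .ofNat 0, .ofNat 0])]),
      (false, [([.ofNat 1, .ofNat 1, .ofNat 1, .ofNat 1, .ofNat 1, .ofNat 1, .ofNat 1],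
      [.negSucc 0, .negSucc 0, .ofNat 1, .ofNat 0, .ofNat 0, .ofNat 0, .ofNat 0, .ofNat 0,
      .ofNat 0])]), (true, []), (true, [])]⟩,
    ⟨[(0, 4), (1, 2)], [(false, [([.ofNat 1080], [.negSucc 5885, .ofNat 4644, .ofNat 2772,
      .negSucc 53, .ofNat 15, .negSucc 4, .negSucc 305, .negSucc 431, .ofNat 36])]), (false,
      [([.ofNat 648, .negSucc 863], [.ofNat 3834, .negSucc 6371, .negSucc 143, .ofNat 162,
      .negSucc 2, .ofNat 13, .ofNat 342, .ofNat 432, .ofNat 0])]), (false, [([.ofNat 648,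
      .negSucc 1295, .ofNat 1080], [.ofNat 3510, .negSucc 539, .negSucc 3383, .negSucc 89,
      .negSucc 20, .negSucc 4, .ofNat 18, .ofNat 0, .ofNat 0])]), (false, [([.ofNat 54,
      .negSucc 71, .ofNat 432, .negSucc 215], [.negSucc 881, .ofNat 108, .ofNat 882, .ofNat 22,
      .ofNat 5, .ofNat 1, .ofNat 0, .ofNat 0, .ofNat 0])]), (false, [([.ofNat 18, .ofNat 54,
      .ofNat 36, .ofNat 180, .ofNat 0], [.negSucc 233, .ofNat 36, .ofNat 234, .ofNat 4, .ofNat 1,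
      .ofNat 0, .ofNat 0, .ofNat 0, .ofNat 0])]), (false, [([.ofNat 18, .ofNat 18, .ofNat 27,
      .ofNat 27, .ofNat 45, .ofNat 27], [.negSucc 35, .negSucc 17, .ofNat 36, .ofNat 1, .ofNat 0,
      .ofNat 0, .ofNat 0, .ofNat 0, .ofNat 0])]), (false, [([.ofNat 1, .ofNat 1, .ofNat 1,
      .ofNat 1, .ofNat 1, .ofNat 1, .ofNat 1], [.negSucc 0, .negSucc 0, .ofNat 1, .ofNat 0,
      .ofNat 0, .ofNat 0, .ofNat 0, .ofNat 0, .ofNat 0])]), (true, []), (true, [])]⟩,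
    ⟨[(0, 5), (1, 1)], [(false, [([.ofNat 2808], [.negSucc 9179, .ofNat 9936, .ofNat 2736,
      .negSucc 251, .ofNat 30, .negSucc 21, .ofNat 3, .negSucc 611, .negSucc 719])]), (false,
      [([.ofNat 3240, .ofNat 4104], [.negSucc 8369, .negSucc 2051, .ofNat 7488, .ofNat 54,
      .ofNat 75, .negSucc 0, .ofNat 9, .negSucc 125, .ofNat 0])]), (false, [([.ofNat 504,
      .negSucc 647, .ofNat 1296], [.ofNat 1800, .negSucc 647, .negSucc 1799, .negSucc 63,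
      .negSucc 7, .negSucc 3, .ofNat 1, .ofNat 0, .ofNat 0])]), (false, [([.ofNat 54, .negSucc 71,
      .ofNat 432, .negSucc 215], [.negSucc 881, .ofNat 108, .ofNat 882, .ofNat 22, .ofNat 5,
      .ofNat 1, .ofNat 0, .ofNat 0, .ofNat 0])]), (false, [([.ofNat 18, .ofNat 54, .ofNat 36,
      .ofNat 180, .ofNat 0], [.negSucc 233, .ofNat 36, .ofNat 234, .ofNat 4, .ofNat 1, .ofNat 0,
      .ofNat 0, .ofNat 0, .ofNat 0])]), (false, [([.ofNat 18, .ofNat 18, .ofNat 27, .ofNat 27,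
      .ofNat 45, .ofNat 27], [.negSucc 35, .negSucc 17, .ofNat 36, .ofNat 1, .ofNat 0, .ofNat 0,
      .ofNat 0, .ofNat 0, .ofNat 0])]), (false, [([.ofNat 1, .ofNat 1, .ofNat 1, .ofNat 1,
      .ofNat 1, .ofNat 1, .ofNat 1], [.negSucc 0, .negSucc 0, .ofNat 1, .ofNat 0, .ofNat 0,
      .ofNat 0, .ofNat 0, .ofNat 0, .ofNat 0])]), (true, []), (true, [])]⟩]

lemma E01_ok : E01.all okE = true := by
  simp only [E01, List.all_cons, List.all_nil, Bool.and_self,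
    e01_0_ok, e01_1_ok, e01_2_ok, e01_3_ok, e01_4_ok, e01_5_ok, e01_6_ok, e01_7_ok, e01_8_ok,
    e01_9_ok, e01_10_ok]

lemma Z01_ok : Z01.all okZ = true := by decide +kernel

lemma cov01 : (prods 2).all (fun a => cov E01 Z01 (([0, 1] : List (Fin 9)).zip a)) = true := by
  decide +kernel

theorem typ01 : Typ [0, 1] E01 Z01 := ⟨E01_ok, Z01_ok, cov01⟩

end Pool.Agent.K9
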