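import Pool.Agent.Lib_helper60.K9.T1

/-!
# A point of order nine, `d = 2`: the fibres at 0, 1, 2
-/

set_option autoImplicit false
set_option maxRecDepth 100000

namespace Pool.Agent.K9

/-- a fibre -/
def e012_0 : Cfg :=
    ⟨[(0, 1), (1, 1), (2, 1)], [(false, []), (false, [([.ofNat 18, .ofNat 9], [.ofNat 18, .ofNat 0,
      .negSucc 26, .ofNat 4, .negSucc 0, .ofNat 1, .ofNat 2, .ofNat 2])]), (false, [([.ofNat 9,
      .ofNat 18, .ofNat 0], [.ofNat 18, .negSucc 17, .negSucc 17, .ofNat 5, .ofNat 1, .ofNat 2,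
      .ofNat 1, .ofNat 0])]), (false, [([.ofNat 9, .ofNat 18, .ofNat 18, .ofNat 0], [.ofNat 18,
      .negSucc 35, .negSucc 17, .ofNat 9, .ofNat 3, .ofNat 2, .ofNat 0, .ofNat 0])]), (false,
      [([.ofNat 4, .negSucc 0, .negSucc 5, .negSucc 1, .ofNat 2], [.negSucc 5, .ofNat 8, .ofNat 4,
      .negSucc 0, .negSucc 0, .ofNat 0, .ofNat 0, .ofNat 0])]), (false, [([.ofNat 1, .ofNat 1,
      .ofNat 1, .ofNat 1, .ofNat 1, .ofNat 1], [.negSucc 0, .negSucc 0, .negSucc 0, .ofNat 1,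
      .ofNat 0, .ofNat 0, .ofNat 0, .ofNat 0])]), (true, []), (true, []), (true, [])]⟩

lemma e012_0_ok : okE e012_0 = true := by decide +kernel

/-- the fibres with solutions -/
def E012 : List Cfg := [
    e012_0]

/-- the fibres without solutions -/
def Z012 : List Cfg := [
    ⟨[(0, 1), (1, 1), (2, 2)], [(false, [([.ofNat 9], [.ofNat 108, .ofNat 54, .negSucc 44,
      .negSucc 35, .negSucc 2, .negSucc 4, .ofNat 6, .ofNat 10, .negSucc 1])]), (false,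
      [([.ofNat 18, .ofNat 9], [.ofNat 18, .ofNat 0, .negSucc 26, .ofNat 4, .negSucc 0, .ofNat 1,
      .ofNat 2, .ofNat 2, .ofNat 0])]), (false, [([.ofNat 9, .ofNat 18, .ofNat 0], [.ofNat 18,
      .negSucc 17, .negSucc 17, .ofNat 5, .ofNat 1, .ofNat 2, .ofNat 1, .ofNat 0, .ofNat 0])]),
      (false, [([.ofNat 9, .ofNat 18, .ofNat 18, .ofNat 0], [.ofNat 18, .negSucc 35, .negSucc 17,
      .ofNat 9, .ofNat 3, .ofNat 2, .ofNat 0, .ofNat 0, .ofNat 0])]), (false, [([.ofNat 4,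
      .negSucc 0, .negSucc 5, .negSucc 1, .ofNat 2], [.negSucc 5, .ofNat 8, .ofNat 4, .negSucc 0,
      .negSucc 0, .ofNat 0, .ofNat 0, .ofNat 0, .ofNat 0])]), (false, [([.ofNat 1, .ofNat 1,
      .ofNat 1, .ofNat 1, .ofNat 1, .ofNat 1], [.negSucc 0, .negSucc 0, .negSucc 0, .ofNat 1,
      .ofNat 0, .ofNat 0, .ofNat 0, .ofNat 0, .ofNat 0])]), (true, []), (true, []), (true, [])]⟩,
    ⟨[(0, 1), (1, 2), (2, 1)], [(false, [([.ofNat 99], [.negSucc 71, .ofNat 72, .negSucc 26,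
      .ofNat 38, .negSucc 10, .negSucc 10, .ofNat 2, .ofNat 4, .ofNat 6])]), (false, [([.ofNat 27,
      .negSucc 35], [.ofNat 63, .negSucc 35, .negSucc 26, .negSucc 12, .ofNat 4, .ofNat 7,
      .negSucc 0, .ofNat 1, .ofNat 0])]), (false, [([.ofNat 9, .negSucc 8, .ofNat 36],
      [.negSucc 44, .ofNat 18, .ofNat 9, .ofNat 18, .negSucc 2, .negSucc 4, .ofNat 1, .ofNat 0,
      .ofNat 0])]), (false, [([.ofNat 9, .ofNat 18, .ofNat 18, .ofNat 0], [.ofNat 18, .negSucc 35,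
      .negSucc 17, .ofNat 9, .ofNat 3, .ofNat 2, .ofNat 0, .ofNat 0, .ofNat 0])]), (false,
      [([.ofNat 4, .negSucc 0, .negSucc 5, .negSucc 1, .ofNat 2], [.negSucc 5, .ofNat 8, .ofNat 4,
      .negSucc 0, .negSucc 0, .ofNat 0, .ofNat 0, .ofNat 0, .ofNat 0])]), (false, [([.ofNat 1,
      .ofNat 1, .ofNat 1, .ofNat 1, .ofNat 1, .ofNat 1], [.negSucc 0, .negSucc 0, .negSucc 0,
      .ofNat 1, .ofNat 0, .ofNat 0, .ofNat 0, .ofNat 0, .ofNat 0])]), (true, []), (true, []),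
      (true, [])]⟩,
    ⟨[(0, 2), (1, 1), (2, 1)], [(false, [([.ofNat 9], [.ofNat 90, .negSucc 35, .negSucc 116,
      .negSucc 15, .negSucc 1, .ofNat 1, .ofNat 3, .ofNat 4, .ofNat 6])]), (false, [([.ofNat 27,
      .ofNat 9], [.negSucc 17, .ofNat 18, .ofNat 18, .ofNat 14, .ofNat 1, .negSucc 1, .ofNat 0,
      .ofNat 1, .ofNat 0])]), (false, [([.ofNat 9, .negSucc 8, .negSucc 8], [.ofNat 36,
      .negSucc 35, .negSucc 35, .negSucc 8, .negSucc 0, .ofNat 3, .ofNat 2, .ofNat 0,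
      .ofNat 0])]), (false, [([.ofNat 9, .ofNat 9, .ofNat 27, .ofNat 9], [.negSucc 17, .ofNat 0,
      .ofNat 18, .ofNat 18, .ofNat 1, .ofNat 0, .ofNat 0, .ofNat 0, .ofNat 0])]), (false,
      [([.ofNat 4, .negSucc 0, .negSucc 5, .negSucc 1, .ofNat 2], [.negSucc 5, .ofNat 8, .ofNat 4,
      .negSucc 0, .ofNat 0, .negSucc 0, .ofNat 0, .ofNat 0, .ofNat 0])]), (false, [([.ofNat 1,
      .ofNat 1, .ofNat 1, .ofNat 1, .ofNat 1, .ofNat 1], [.negSucc 0, .negSucc 0, .negSucc 0,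
      .ofNat 1, .ofNat 0, .ofNat 0, .ofNat 0, .ofNat 0, .ofNat 0])]), (true, []), (true, []),
      (true, [])]⟩]

lemma E012_ok : E012.all okE = true := by
  simp only [E012, List.all_cons, List.all_nil, Bool.and_self,
    e012_0_ok]

lemma Z012_ok : Z012.all okZ = true := by decide +kernel

lemma cov012 : (prods 3).all (fun a => cov E012 Z012 (([0, 1, 2] : List (Fin 9)).zip a)) = true := by
  decide +kernel

theorem typ012 : Typ [0, 1, 2] E012 Z012 := ⟨E012_ok, Z012_ok, cov012⟩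

end Pool.Agent.K9
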