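import Pool.Agent.Lib_helper60.K9.T1

/-!
# A point of order nine, `d = 2`: the fibres at 0, 1, 3
-/

set_option autoImplicit false
set_option maxRecDepth 100000

namespace Pool.Agent.K9

/-- a fibre -/
def e013_0 : Cfg :=
    ⟨[(0, 1), (1, 1), (3, 1)], [(false, []), (false, []), (false, [([.ofNat 9, .negSucc 8, .ofNat 18],
      [.negSucc 35, .ofNat 36, .negSucc 35, .ofNat 6, .negSucc 2, .negSucc 5, .ofNat 1,
      .ofNat 0])]), (false, [([.ofNat 9, .ofNat 18, .negSucc 17, .ofNat 18], [.negSucc 53,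
      .ofNat 36, .negSucc 35, .ofNat 9, .negSucc 2, .negSucc 7, .ofNat 0, .ofNat 0])]), (false,
      [([.ofNat 8, .ofNat 3, .negSucc 1, .ofNat 2, .ofNat 6], [.negSucc 9, .ofNat 4, .negSucc 3,
      .ofNat 3, .negSucc 0, .ofNat 0, .ofNat 0, .ofNat 0])]), (true, []), (false, [([.ofNat 1,
      .ofNat 0, .ofNat 1, .ofNat 1, .ofNat 1, .ofNat 1, .ofNat 1], [.negSucc 0, .negSucc 0,
      .negSucc 0, .ofNat 1, .ofNat 0, .ofNat 0, .ofNat 0, .ofNat 0])]), (true, []), (true, [])]⟩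

lemma e013_0_ok : okE e013_0 = true := by decide +kernel

/-- a fibre -/
def e013_1 : Cfg :=
    ⟨[(0, 1), (1, 1), (3, 2)], [(false, []), (false, [([.ofNat 18, .ofNat 18], [.ofNat 9, .ofNat 63,
      .negSucc 35, .negSucc 11, .negSucc 2, .negSucc 2, .ofNat 4, .ofNat 0, .negSucc 0])]),
      (false, [([.ofNat 9, .negSucc 8, .ofNat 18], [.negSucc 35, .ofNat 36, .negSucc 35, .ofNat 6,
      .negSucc 2, .negSucc 5, .ofNat 1, .ofNat 0, .ofNat 0])]), (false, [([.ofNat 9, .ofNat 18,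
      .negSucc 17, .ofNat 18], [.negSucc 53, .ofNat 36, .negSucc 35, .ofNat 9, .negSucc 2,
      .negSucc 7, .ofNat 0, .ofNat 0, .ofNat 0])]), (false, [([.ofNat 8, .ofNat 3, .negSucc 1,
      .ofNat 2, .ofNat 6], [.negSucc 9, .ofNat 4, .negSucc 3, .ofNat 3, .negSucc 0, .ofNat 0,
      .ofNat 0, .ofNat 0, .ofNat 0])]), (true, []), (false, [([.ofNat 1, .ofNat 0, .ofNat 1,
      .ofNat 1, .ofNat 1, .ofNat 1, .ofNat 1], [.negSucc 0, .negSucc 0, .negSucc 0, .ofNat 1,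
      .ofNat 0, .ofNat 0, .ofNat 0, .ofNat 0, .ofNat 0])]), (true, []), (true, [])]⟩

lemma e013_1_ok : okE e013_1 = true := by decide +kernel

/-- a fibre -/
def e013_2 : Cfg :=
    ⟨[(0, 1), (1, 2), (3, 1)], [(false, []), (false, [([.ofNat 18, .ofNat 9], [.ofNat 27, .negSucc 53,
      .ofNat 54, .ofNat 12, .ofNat 3, .ofNat 6, .ofNat 1, .negSucc 0, .ofNat 0])]), (false,
      [([.ofNat 9, .ofNat 9, .ofNat 27], [.negSucc 8, .negSucc 17, .ofNat 18, .ofNat 18, .ofNat 0,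
      .ofNat 0, .ofNat 1, .ofNat 0, .ofNat 0])]), (false, [([.ofNat 9, .ofNat 18, .negSucc 17,
      .ofNat 18], [.negSucc 53, .ofNat 36, .negSucc 35, .ofNat 9, .negSucc 2, .negSucc 7,
      .ofNat 0, .ofNat 0, .ofNat 0])]), (false, [([.ofNat 8, .ofNat 3, .negSucc 1, .ofNat 2,
      .ofNat 6], [.negSucc 9, .ofNat 4, .negSucc 3, .ofNat 3, .negSucc 0, .ofNat 0, .ofNat 0,
      .ofNat 0, .ofNat 0])]), (true, []), (false, [([.ofNat 1, .ofNat 0, .ofNat 1, .ofNat 1,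
      .ofNat 1, .ofNat 1, .ofNat 1], [.negSucc 0, .negSucc 0, .negSucc 0, .ofNat 1, .ofNat 0,
      .ofNat 0, .ofNat 0, .ofNat 0, .ofNat 0])]), (true, []), (true, [])]⟩

lemma e013_2_ok : okE e013_2 = true := by decide +kernel

/-- a fibre -/
def e013_3 : Cfg :=
    ⟨[(0, 2), (1, 1), (3, 1)], [(false, []), (false, [([.ofNat 72, .negSucc 8], [.ofNat 72,
      .negSucc 71, .ofNat 36, .ofNat 15, .ofNat 1, .ofNat 6, .ofNat 12, .ofNat 1, .ofNat 0])]),
      (false, [([.ofNat 9, .negSucc 80, .ofNat 27], [.negSucc 107, .ofNat 108, .negSucc 71,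
      .negSucc 8, .negSucc 0, .negSucc 8, .negSucc 17, .ofNat 0, .ofNat 0])]), (false,
      [([.ofNat 81, .ofNat 126, .ofNat 162, .ofNat 54], [.negSucc 53, .negSucc 107, .negSucc 35,
      .ofNat 117, .ofNat 4, .ofNat 9, .ofNat 0, .ofNat 0, .ofNat 0])]), (false, [([.ofNat 18,
      .ofNat 27, .ofNat 27, .ofNat 45, .ofNat 27], [.negSucc 35, .negSucc 17, .negSucc 17,
      .ofNat 36, .ofNat 1, .ofNat 0, .ofNat 0, .ofNat 0, .ofNat 0])]), (true, []), (false,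
      [([.ofNat 1, .ofNat 0, .ofNat 1, .ofNat 1, .ofNat 1, .ofNat 1, .ofNat 1], [.negSucc 0,
      .negSucc 0, .negSucc 0, .ofNat 1, .ofNat 0, .ofNat 0, .ofNat 0, .ofNat 0, .ofNat 0])]),
      (true, []), (true, [])]⟩

lemma e013_3_ok : okE e013_3 = true := by decide +kernel

/-- the fibres with solutions -/
def E013 : List Cfg := [
    e013_0, e013_1, e013_2, e013_3]

/-- the fibres without solutions -/
def Z013 : List Cfg := [
    ⟨[(0, 1), (1, 1), (3, 3)], [(false, [([.ofNat 108], [.negSucc 152, .negSucc 134, .negSucc 305,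
      .ofNat 270, .negSucc 8, .negSucc 8, .ofNat 0, .ofNat 0, .ofNat 5, .ofNat 1])]), (false,
      [([.ofNat 18, .ofNat 18], [.ofNat 9, .ofNat 63, .negSucc 35, .negSucc 11, .negSucc 2,
      .negSucc 2, .ofNat 4, .ofNat 0, .negSucc 0, .ofNat 0])]), (false, [([.ofNat 9, .negSucc 8,
      .ofNat 18], [.negSucc 35, .ofNat 36, .negSucc 35, .ofNat 6, .negSucc 2, .negSucc 5,
      .ofNat 1, .ofNat 0, .ofNat 0, .ofNat 0])]), (false, [([.ofNat 9, .ofNat 18, .negSucc 17,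
      .ofNat 18], [.negSucc 53, .ofNat 36, .negSucc 35, .ofNat 9, .negSucc 2, .negSucc 7,
      .ofNat 0, .ofNat 0, .ofNat 0, .ofNat 0])]), (false, [([.ofNat 8, .ofNat 3, .negSucc 1,
      .ofNat 2, .ofNat 6], [.negSucc 9, .ofNat 4, .negSucc 3, .ofNat 3, .negSucc 0, .ofNat 0,
      .ofNat 0, .ofNat 0, .ofNat 0, .ofNat 0])]), (true, []), (false, [([.ofNat 1, .ofNat 0,
      .ofNat 1, .ofNat 1, .ofNat 1, .ofNat 1, .ofNat 1], [.negSucc 0, .negSucc 0, .negSucc 0,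
      .ofNat 1, .ofNat 0, .ofNat 0, .ofNat 0, .ofNat 0, .ofNat 0, .ofNat 0])]), (true, []), (true,
      [])]⟩,
    ⟨[(0, 1), (1, 2), (3, 2)], [(false, [([.ofNat 9], [.negSucc 17, .ofNat 117, .negSucc 89,
      .negSucc 23, .negSucc 5, .negSucc 8, .negSucc 0, .ofNat 5, .ofNat 0, .negSucc 0])]), (false,
      [([.ofNat 18, .ofNat 9], [.ofNat 27, .negSucc 53, .ofNat 54, .ofNat 12, .ofNat 3, .ofNat 6,
      .ofNat 1, .negSucc 0, .ofNat 0, .ofNat 0])]), (false, [([.ofNat 9, .ofNat 9, .ofNat 27],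
      [.negSucc 8, .negSucc 17, .ofNat 18, .ofNat 18, .ofNat 0, .ofNat 0, .ofNat 1, .ofNat 0,
      .ofNat 0, .ofNat 0])]), (false, [([.ofNat 9, .ofNat 18, .negSucc 17, .ofNat 18],
      [.negSucc 53, .ofNat 36, .negSucc 35, .ofNat 9, .negSucc 2, .negSucc 7, .ofNat 0, .ofNat 0,
      .ofNat 0, .ofNat 0])]), (false, [([.ofNat 8, .ofNat 3, .negSucc 1, .ofNat 2, .ofNat 6],
      [.negSucc 9, .ofNat 4, .negSucc 3, .ofNat 3, .negSucc 0, .ofNat 0, .ofNat 0, .ofNat 0,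
      .ofNat 0, .ofNat 0])]), (true, []), (false, [([.ofNat 1, .ofNat 0, .ofNat 1, .ofNat 1,
      .ofNat 1, .ofNat 1, .ofNat 1], [.negSucc 0, .negSucc 0, .negSucc 0, .ofNat 1, .ofNat 0,
      .ofNat 0, .ofNat 0, .ofNat 0, .ofNat 0, .ofNat 0])]), (true, []), (true, [])]⟩,
    ⟨[(0, 1), (1, 3), (3, 1)], [(false, [([.ofNat 9], [.negSucc 80, .ofNat 36, .ofNat 270,
      .negSucc 95, .ofNat 3, .ofNat 6, .ofNat 5, .negSucc 0, .negSucc 6, .ofNat 0])]), (false,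
      [([.ofNat 126, .ofNat 54], [.ofNat 270, .negSucc 413, .ofNat 108, .ofNat 180, .ofNat 18,
      .ofNat 36, .ofNat 2, .ofNat 1, .ofNat 0, .ofNat 0])]), (false, [([.ofNat 9, .ofNat 9,
      .ofNat 27], [.negSucc 8, .negSucc 17, .ofNat 18, .ofNat 18, .ofNat 0, .ofNat 0, .ofNat 1,
      .ofNat 0, .ofNat 0, .ofNat 0])]), (false, [([.ofNat 9, .ofNat 18, .negSucc 17, .ofNat 18],
      [.negSucc 53, .ofNat 36, .negSucc 35, .ofNat 9, .negSucc 2, .negSucc 7, .ofNat 0, .ofNat 0,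
      .ofNat 0, .ofNat 0])]), (false, [([.ofNat 8, .ofNat 3, .negSucc 1, .ofNat 2, .ofNat 6],
      [.negSucc 9, .ofNat 4, .negSucc 3, .ofNat 3, .negSucc 0, .ofNat 0, .ofNat 0, .ofNat 0,
      .ofNat 0, .ofNat 0])]), (true, []), (false, [([.ofNat 1, .ofNat 0, .ofNat 1, .ofNat 1,
      .ofNat 1, .ofNat 1, .ofNat 1], [.negSucc 0, .negSucc 0, .negSucc 0, .ofNat 1, .ofNat 0,
      .ofNat 0, .ofNat 0, .ofNat 0, .ofNat 0, .ofNat 0])]), (true, []), (true, [])]⟩,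
    ⟨[(0, 2), (1, 1), (3, 2)], [(false, [([.ofNat 81], [.negSucc 35, .ofNat 324, .negSucc 179,
      .negSucc 62, .negSucc 0, .negSucc 17, .negSucc 23, .ofNat 15, .ofNat 0, .negSucc 3])]),
      (false, [([.ofNat 72, .negSucc 8], [.ofNat 72, .negSucc 71, .ofNat 36, .ofNat 15, .ofNat 1,
      .ofNat 6, .ofNat 12, .ofNat 1, .ofNat 0, .ofNat 0])]), (false, [([.ofNat 9, .negSucc 80,
      .ofNat 27], [.negSucc 107, .ofNat 108, .negSucc 71, .negSucc 8, .negSucc 0, .negSucc 8,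
      .negSucc 17, .ofNat 0, .ofNat 0, .ofNat 0])]), (false, [([.ofNat 81, .ofNat 126, .ofNat 162,
      .ofNat 54], [.negSucc 53, .negSucc 107, .negSucc 35, .ofNat 117, .ofNat 4, .ofNat 9,
      .ofNat 0, .ofNat 0, .ofNat 0, .ofNat 0])]), (false, [([.ofNat 18, .ofNat 27, .ofNat 27,
      .ofNat 45, .ofNat 27], [.negSucc 35, .negSucc 17, .negSucc 17, .ofNat 36, .ofNat 1,
      .ofNat 0, .ofNat 0, .ofNat 0, .ofNat 0, .ofNat 0])]), (true, []), (false, [([.ofNat 1,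
      .ofNat 0, .ofNat 1, .ofNat 1, .ofNat 1, .ofNat 1, .ofNat 1], [.negSucc 0, .negSucc 0,
      .negSucc 0, .ofNat 1, .ofNat 0, .ofNat 0, .ofNat 0, .ofNat 0, .ofNat 0, .ofNat 0])]), (true,
      []), (true, [])]⟩,
    ⟨[(0, 2), (1, 2), (3, 1)], [(false, [([.ofNat 45], [.ofNat 36, .negSucc 143, .ofNat 180,
      .ofNat 33, .negSucc 0, .ofNat 6, .ofNat 12, .ofNat 4, .negSucc 4, .ofNat 0])]), (false,
      [([.ofNat 90, .ofNat 0], [.ofNat 99, .negSucc 125, .ofNat 90, .ofNat 27, .ofNat 1, .ofNat 9,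
      .ofNat 18, .ofNat 1, .ofNat 0, .ofNat 0])]), (false, [([.ofNat 9, .negSucc 80, .ofNat 27],
      [.negSucc 107, .ofNat 108, .negSucc 71, .negSucc 8, .negSucc 0, .negSucc 8, .negSucc 17,
      .ofNat 0, .ofNat 0, .ofNat 0])]), (false, [([.ofNat 81, .ofNat 126, .ofNat 162, .ofNat 54],
      [.negSucc 53, .negSucc 107, .negSucc 35, .ofNat 117, .ofNat 4, .ofNat 9, .ofNat 0, .ofNat 0,
      .ofNat 0, .ofNat 0])]), (false, [([.ofNat 18, .ofNat 27, .ofNat 27, .ofNat 45, .ofNat 27],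
      [.negSucc 35, .negSucc 17, .negSucc 17, .ofNat 36, .ofNat 1, .ofNat 0, .ofNat 0, .ofNat 0,
      .ofNat 0, .ofNat 0])]), (true, []), (false, [([.ofNat 1, .ofNat 0, .ofNat 1, .ofNat 1,
      .ofNat 1, .ofNat 1, .ofNat 1], [.negSucc 0, .negSucc 0, .negSucc 0, .ofNat 1, .ofNat 0,
      .ofNat 0, .ofNat 0, .ofNat 0, .ofNat 0, .ofNat 0])]), (true, []), (true, [])]⟩,
    ⟨[(0, 3), (1, 1), (3, 1)], [(false, [([.ofNat 27], [.negSucc 359, .ofNat 270, .negSucc 125,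
      .ofNat 171, .ofNat 1, .ofNat 1, .negSucc 17, .negSucc 29, .ofNat 3, .ofNat 0])]), (false,
      [([.ofNat 216, .negSucc 53], [.ofNat 576, .negSucc 485, .ofNat 234, .negSucc 125, .ofNat 2,
      .negSucc 0, .ofNat 36, .ofNat 66, .ofNat 0, .ofNat 0])]), (false, [([.ofNat 99,
      .negSucc 242, .ofNat 135], [.ofNat 540, .negSucc 269, .negSucc 89, .negSucc 476, .negSucc 4,
      .negSucc 2, .ofNat 9, .ofNat 0, .ofNat 0, .ofNat 0])]), (false, [([.ofNat 27, .ofNat 9,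
      .ofNat 135, .negSucc 26], [.negSucc 197, .ofNat 54, .ofNat 18, .ofNat 198, .ofNat 3,
      .ofNat 1, .ofNat 0, .ofNat 0, .ofNat 0, .ofNat 0])]), (false, [([.ofNat 18, .ofNat 27,
      .ofNat 27, .ofNat 45, .ofNat 27], [.negSucc 35, .negSucc 17, .negSucc 17, .ofNat 36,
      .ofNat 1, .ofNat 0, .ofNat 0, .ofNat 0, .ofNat 0, .ofNat 0])]), (true, []), (false,
      [([.ofNat 1, .ofNat 0, .ofNat 1, .ofNat 1, .ofNat 1, .ofNat 1, .ofNat 1], [.negSucc 0,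
      .negSucc 0, .negSucc 0, .ofNat 1, .ofNat 0, .ofNat 0, .ofNat 0, .ofNat 0, .ofNat 0,
      .ofNat 0])]), (true, []), (true, [])]⟩]

lemma E013_ok : E013.all okE = true := by
  simp only [E013, List.all_cons, List.all_nil, Bool.and_self,
    e013_0_ok, e013_1_ok, e013_2_ok, e013_3_ok]

lemma Z013_ok : Z013.all okZ = true := by decide +kernel

lemma cov013 : (prods 3).all (fun a => cov E013 Z013 (([0, 1, 3] : List (Fin 9)).zip a)) = true := by
  decide +kernel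

theorem typ013 : Typ [0, 1, 3] E013 Z013 := ⟨E013_ok, Z013_ok, cov013⟩

end Pool.Agent.K9
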