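import Pool.Agent.Lib_helper60.K9.T1

/-!
# A point of order nine, `d = 2`: the fibres at 0, 1, 4
-/

set_option autoImplicit false
set_option maxRecDepth 100000

namespace Pool.Agent.K9

/-- a fibre -/
def e014_0 : Cfg :=
    ⟨[(0, 1), (1, 1), (4, 1)], [(false, []), (false, []), (false, [([.ofNat 9, .negSucc 8,
      .negSucc 8], [.ofNat 0, .ofNat 0, .ofNat 18, .negSucc 2, .ofNat 1, .negSucc 1, .negSucc 0,
      .ofNat 0])]), (false, [([.ofNat 9, .negSucc 17, .ofNat 18, .ofNat 18], [.negSucc 17,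
      .ofNat 0, .negSucc 35, .ofNat 9, .negSucc 2, .ofNat 4, .ofNat 0, .ofNat 0])]), (true, []),
      (false, [([.ofNat 4, .ofNat 0, .ofNat 3, .negSucc 1, .ofNat 2, .ofNat 6], [.negSucc 9,
      .ofNat 4, .negSucc 7, .ofNat 3, .negSucc 0, .ofNat 0, .ofNat 0, .ofNat 0])]), (false,
      [([.ofNat 1, .ofNat 1, .ofNat 0, .ofNat 1, .ofNat 1, .ofNat 1, .ofNat 1], [.negSucc 0,
      .negSucc 0, .negSucc 0, .ofNat 1, .ofNat 0, .ofNat 0, .ofNat 0, .ofNat 0])]), (true, []),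
      (true, [])]⟩

lemma e014_0_ok : okE e014_0 = true := by decide +kernel

/-- a fibre -/
def e014_1 : Cfg :=
    ⟨[(0, 1), (1, 1), (4, 2)], [(false, []), (false, [([.ofNat 72, .ofNat 54], [.ofNat 54,
      .negSucc 35, .negSucc 80, .ofNat 9, .ofNat 0, .ofNat 12, .ofNat 9, .ofNat 0, .negSucc 0])]),
      (false, [([.ofNat 9, .negSucc 8, .negSucc 8], [.ofNat 0, .ofNat 0, .ofNat 18, .negSucc 2,
      .ofNat 1, .negSucc 1, .negSucc 0, .ofNat 0, .ofNat 0])]), (false, [([.ofNat 9, .negSucc 17,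
      .ofNat 18, .ofNat 18], [.negSucc 17, .ofNat 0, .negSucc 35, .ofNat 9, .negSucc 2, .ofNat 4,
      .ofNat 0, .ofNat 0, .ofNat 0])]), (true, []), (false, [([.ofNat 4, .ofNat 0, .ofNat 3,
      .negSucc 1, .ofNat 2, .ofNat 6], [.negSucc 9, .ofNat 4, .negSucc 7, .ofNat 3, .negSucc 0,
      .ofNat 0, .ofNat 0, .ofNat 0, .ofNat 0])]), (false, [([.ofNat 1, .ofNat 1, .ofNat 0,
      .ofNat 1, .ofNat 1, .ofNat 1, .ofNat 1], [.negSucc 0, .negSucc 0, .negSucc 0, .ofNat 1,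
      .ofNat 0, .ofNat 0, .ofNat 0, .ofNat 0, .ofNat 0])]), (true, []), (true, [])]⟩

lemma e014_1_ok : okE e014_1 = true := by decide +kernel

/-- a fibre -/
def e014_2 : Cfg :=
    ⟨[(0, 1), (1, 2), (4, 1)], [(false, []), (false, [([.ofNat 18, .ofNat 54], [.negSucc 26, .ofNat 0,
      .negSucc 35, .ofNat 27, .negSucc 2, .ofNat 0, .ofNat 1, .ofNat 3, .ofNat 0])]), (false,
      [([.ofNat 27, .negSucc 8, .ofNat 27], [.negSucc 26, .ofNat 0, .ofNat 18, .ofNat 18,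
      .ofNat 0, .negSucc 5, .ofNat 1, .ofNat 0, .ofNat 0])]), (false, [([.ofNat 9, .negSucc 17,
      .ofNat 18, .ofNat 18], [.negSucc 17, .ofNat 0, .negSucc 35, .ofNat 9, .negSucc 2, .ofNat 4,
      .ofNat 0, .ofNat 0, .ofNat 0])]), (true, []), (false, [([.ofNat 4, .ofNat 0, .ofNat 3,
      .negSucc 1, .ofNat 2, .ofNat 6], [.negSucc 9, .ofNat 4, .negSucc 7, .ofNat 3, .negSucc 0,
      .ofNat 0, .ofNat 0, .ofNat 0, .ofNat 0])]), (false, [([.ofNat 1, .ofNat 1, .ofNat 0,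
      .ofNat 1, .ofNat 1, .ofNat 1, .ofNat 1], [.negSucc 0, .negSucc 0, .negSucc 0, .ofNat 1,
      .ofNat 0, .ofNat 0, .ofNat 0, .ofNat 0, .ofNat 0])]), (true, []), (true, [])]⟩

lemma e014_2_ok : okE e014_2 = true := by decide +kernel

/-- a fibre -/
def e014_3 : Cfg :=
    ⟨[(0, 2), (1, 1), (4, 1)], [(false, []), (false, [([.ofNat 72, .ofNat 36], [.ofNat 36,
      .negSucc 35, .negSucc 53, .ofNat 30, .ofNat 1, .ofNat 2, .ofNat 8, .ofNat 7, .ofNat 0])]),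
      (false, [([.ofNat 63, .ofNat 9, .negSucc 26], [.ofNat 36, .negSucc 35, .ofNat 72, .ofNat 9,
      .ofNat 1, .ofNat 9, .negSucc 5, .ofNat 0, .ofNat 0])]), (false, [([.ofNat 27, .ofNat 72,
      .ofNat 72, .ofNat 0], [.ofNat 18, .negSucc 71, .ofNat 36, .ofNat 45, .ofNat 2, .ofNat 9,
      .ofNat 0, .ofNat 0, .ofNat 0])]), (true, []), (false, [([.ofNat 18, .ofNat 0, .ofNat 27,
      .ofNat 27, .ofNat 45, .ofNat 27], [.negSucc 35, .negSucc 17, .negSucc 17, .ofNat 36,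
      .ofNat 1, .ofNat 0, .ofNat 0, .ofNat 0, .ofNat 0])]), (false, [([.ofNat 1, .ofNat 1,
      .ofNat 0, .ofNat 1, .ofNat 1, .ofNat 1, .ofNat 1], [.negSucc 0, .negSucc 0, .negSucc 0,
      .ofNat 1, .ofNat 0, .ofNat 0, .ofNat 0, .ofNat 0, .ofNat 0])]), (true, []), (true, [])]⟩

lemma e014_3_ok : okE e014_3 = true := by decide +kernel

/-- the fibres with solutions -/
def E014 : List Cfg := [
    e014_0, e014_1, e014_2, e014_3]

/-- the fibres without solutions -/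
def Z014 : List Cfg := [
    ⟨[(0, 1), (1, 1), (4, 3)], [(false, [([.ofNat 108], [.negSucc 215, .ofNat 144, .negSucc 278,
      .ofNat 171, .negSucc 23, .ofNat 0, .negSucc 2, .ofNat 0, .negSucc 0, .ofNat 1])]), (false,
      [([.ofNat 72, .ofNat 54], [.ofNat 54, .negSucc 35, .negSucc 80, .ofNat 9, .ofNat 0,
      .ofNat 12, .ofNat 9, .ofNat 0, .negSucc 0, .ofNat 0])]), (false, [([.ofNat 9, .negSucc 8,
      .negSucc 8], [.ofNat 0, .ofNat 0, .ofNat 18, .negSucc 2, .ofNat 1, .negSucc 1, .negSucc 0,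
      .ofNat 0, .ofNat 0, .ofNat 0])]), (false, [([.ofNat 9, .negSucc 17, .ofNat 18, .ofNat 18],
      [.negSucc 17, .ofNat 0, .negSucc 35, .ofNat 9, .negSucc 2, .ofNat 4, .ofNat 0, .ofNat 0,
      .ofNat 0, .ofNat 0])]), (true, []), (false, [([.ofNat 4, .ofNat 0, .ofNat 3, .negSucc 1,
      .ofNat 2, .ofNat 6], [.negSucc 9, .ofNat 4, .negSucc 7, .ofNat 3, .negSucc 0, .ofNat 0,
      .ofNat 0, .ofNat 0, .ofNat 0, .ofNat 0])]), (false, [([.ofNat 1, .ofNat 1, .ofNat 0,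
      .ofNat 1, .ofNat 1, .ofNat 1, .ofNat 1], [.negSucc 0, .negSucc 0, .negSucc 0, .ofNat 1,
      .ofNat 0, .ofNat 0, .ofNat 0, .ofNat 0, .ofNat 0, .ofNat 0])]), (true, []), (true, [])]⟩,
    ⟨[(0, 1), (1, 2), (4, 2)], [(false, [([.ofNat 162], [.negSucc 161, .ofNat 36, .negSucc 62,
      .ofNat 99, .negSucc 11, .negSucc 11, .ofNat 4, .ofNat 3, .ofNat 0, .ofNat 1])]), (false,
      [([.ofNat 18, .ofNat 54], [.negSucc 26, .ofNat 0, .negSucc 35, .ofNat 27, .negSucc 2,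
      .ofNat 0, .ofNat 1, .ofNat 3, .ofNat 0, .ofNat 0])]), (false, [([.ofNat 27, .negSucc 8,
      .ofNat 27], [.negSucc 26, .ofNat 0, .ofNat 18, .ofNat 18, .ofNat 0, .negSucc 5, .ofNat 1,
      .ofNat 0, .ofNat 0, .ofNat 0])]), (false, [([.ofNat 9, .negSucc 17, .ofNat 18, .ofNat 18],
      [.negSucc 17, .ofNat 0, .negSucc 35, .ofNat 9, .negSucc 2, .ofNat 4, .ofNat 0, .ofNat 0,
      .ofNat 0, .ofNat 0])]), (true, []), (false, [([.ofNat 4, .ofNat 0, .ofNat 3, .negSucc 1,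
      .ofNat 2, .ofNat 6], [.negSucc 9, .ofNat 4, .negSucc 7, .ofNat 3, .negSucc 0, .ofNat 0,
      .ofNat 0, .ofNat 0, .ofNat 0, .ofNat 0])]), (false, [([.ofNat 1, .ofNat 1, .ofNat 0,
      .ofNat 1, .ofNat 1, .ofNat 1, .ofNat 1], [.negSucc 0, .negSucc 0, .negSucc 0, .ofNat 1,
      .ofNat 0, .ofNat 0, .ofNat 0, .ofNat 0, .ofNat 0, .ofNat 0])]), (true, []), (true, [])]⟩,
    ⟨[(0, 1), (1, 3), (4, 1)], [(false, [([.ofNat 216], [.negSucc 350, .ofNat 306, .negSucc 143,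
      .negSucc 26, .negSucc 26, .negSucc 23, .ofNat 5, .negSucc 0, .ofNat 9, .ofNat 0])]), (false,
      [([.ofNat 54, .negSucc 53], [.ofNat 270, .negSucc 305, .ofNat 36, .ofNat 108, .ofNat 18,
      .ofNat 24, .negSucc 1, .ofNat 1, .ofNat 0, .ofNat 0])]), (false, [([.ofNat 27, .negSucc 8,
      .ofNat 27], [.negSucc 26, .ofNat 0, .ofNat 18, .ofNat 18, .ofNat 0, .negSucc 5, .ofNat 1,
      .ofNat 0, .ofNat 0, .ofNat 0])]), (false, [([.ofNat 9, .negSucc 17, .ofNat 18, .ofNat 18],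
      [.negSucc 17, .ofNat 0, .negSucc 35, .ofNat 9, .negSucc 2, .ofNat 4, .ofNat 0, .ofNat 0,
      .ofNat 0, .ofNat 0])]), (true, []), (false, [([.ofNat 4, .ofNat 0, .ofNat 3, .negSucc 1,
      .ofNat 2, .ofNat 6], [.negSucc 9, .ofNat 4, .negSucc 7, .ofNat 3, .negSucc 0, .ofNat 0,
      .ofNat 0, .ofNat 0, .ofNat 0, .ofNat 0])]), (false, [([.ofNat 1, .ofNat 1, .ofNat 0,
      .ofNat 1, .ofNat 1, .ofNat 1, .ofNat 1], [.negSucc 0, .negSucc 0, .negSucc 0, .ofNat 1,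
      .ofNat 0, .ofNat 0, .ofNat 0, .ofNat 0, .ofNat 0, .ofNat 0])]), (true, []), (true, [])]⟩,
    ⟨[(0, 2), (1, 1), (4, 2)], [(false, [([.ofNat 18], [.ofNat 18, .ofNat 0, .negSucc 26, .negSucc 20,
      .negSucc 0, .negSucc 1, .ofNat 4, .ofNat 2, .ofNat 0, .negSucc 0])]), (false, [([.ofNat 72,
      .ofNat 36], [.ofNat 36, .negSucc 35, .negSucc 53, .ofNat 30, .ofNat 1, .ofNat 2, .ofNat 8,
      .ofNat 7, .ofNat 0, .ofNat 0])]), (false, [([.ofNat 63, .ofNat 9, .negSucc 26], [.ofNat 36,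
      .negSucc 35, .ofNat 72, .ofNat 9, .ofNat 1, .ofNat 9, .negSucc 5, .ofNat 0, .ofNat 0,
      .ofNat 0])]), (false, [([.ofNat 27, .ofNat 72, .ofNat 72, .ofNat 0], [.ofNat 18,
      .negSucc 71, .ofNat 36, .ofNat 45, .ofNat 2, .ofNat 9, .ofNat 0, .ofNat 0, .ofNat 0,
      .ofNat 0])]), (true, []), (false, [([.ofNat 18, .ofNat 0, .ofNat 27, .ofNat 27, .ofNat 45,
      .ofNat 27], [.negSucc 35, .negSucc 17, .negSucc 17, .ofNat 36, .ofNat 1, .ofNat 0, .ofNat 0,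
      .ofNat 0, .ofNat 0, .ofNat 0])]), (false, [([.ofNat 1, .ofNat 1, .ofNat 0, .ofNat 1,
      .ofNat 1, .ofNat 1, .ofNat 1], [.negSucc 0, .negSucc 0, .negSucc 0, .ofNat 1, .ofNat 0,
      .ofNat 0, .ofNat 0, .ofNat 0, .ofNat 0, .ofNat 0])]), (true, []), (true, [])]⟩,
    ⟨[(0, 2), (1, 2), (4, 1)], [(false, [([.ofNat 180], [.negSucc 143, .ofNat 36, .negSucc 89,
      .ofNat 78, .negSucc 0, .negSucc 13, .negSucc 7, .ofNat 4, .ofNat 5, .ofNat 0])]), (false,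
      [([.ofNat 90, .negSucc 269], [.ofNat 297, .negSucc 107, .ofNat 90, .negSucc 98, .ofNat 3,
      .ofNat 27, .ofNat 24, .negSucc 6, .ofNat 0, .ofNat 0])]), (false, [([.ofNat 63, .ofNat 9,
      .negSucc 26], [.ofNat 36, .negSucc 35, .ofNat 72, .ofNat 9, .ofNat 1, .ofNat 9, .negSucc 5,
      .ofNat 0, .ofNat 0, .ofNat 0])]), (false, [([.ofNat 27, .ofNat 72, .ofNat 72, .ofNat 0],
      [.ofNat 18, .negSucc 71, .ofNat 36, .ofNat 45, .ofNat 2, .ofNat 9, .ofNat 0, .ofNat 0,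
      .ofNat 0, .ofNat 0])]), (true, []), (false, [([.ofNat 18, .ofNat 0, .ofNat 27, .ofNat 27,
      .ofNat 45, .ofNat 27], [.negSucc 35, .negSucc 17, .negSucc 17, .ofNat 36, .ofNat 1,
      .ofNat 0, .ofNat 0, .ofNat 0, .ofNat 0, .ofNat 0])]), (false, [([.ofNat 1, .ofNat 1,
      .ofNat 0, .ofNat 1, .ofNat 1, .ofNat 1, .ofNat 1], [.negSucc 0, .negSucc 0, .negSucc 0,
      .ofNat 1, .ofNat 0, .ofNat 0, .ofNat 0, .ofNat 0, .ofNat 0, .ofNat 0])]), (true, []), (true,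
      [])]⟩,
    ⟨[(0, 3), (1, 1), (4, 1)], [(false, [([.ofNat 72], [.ofNat 234, .negSucc 143, .negSucc 71,
      .negSucc 137, .negSucc 0, .negSucc 0, .ofNat 4, .ofNat 16, .ofNat 5, .ofNat 0])]), (false,
      [([.ofNat 360, .negSucc 323], [.negSucc 1457, .ofNat 828, .ofNat 234, .ofNat 1116,
      .ofNat 12, .ofNat 7, .negSucc 17, .negSucc 71, .ofNat 0, .ofNat 0])]), (false,
      [([.ofNat 108, .negSucc 35, .ofNat 0], [.ofNat 270, .negSucc 179, .ofNat 90, .negSucc 143,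
      .ofNat 0, .negSucc 0, .ofNat 18, .ofNat 0, .ofNat 0, .ofNat 0])]), (false, [([.ofNat 54,
      .ofNat 36, .ofNat 180, .ofNat 0], [.negSucc 233, .ofNat 36, .negSucc 17, .ofNat 234,
      .ofNat 4, .ofNat 1, .ofNat 0, .ofNat 0, .ofNat 0, .ofNat 0])]), (true, []), (false,
      [([.ofNat 18, .ofNat 0, .ofNat 27, .ofNat 27, .ofNat 45, .ofNat 27], [.negSucc 35,
      .negSucc 17, .negSucc 17, .ofNat 36, .ofNat 1, .ofNat 0, .ofNat 0, .ofNat 0, .ofNat 0,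
      .ofNat 0])]), (false, [([.ofNat 1, .ofNat 1, .ofNat 0, .ofNat 1, .ofNat 1, .ofNat 1,
      .ofNat 1], [.negSucc 0, .negSucc 0, .negSucc 0, .ofNat 1, .ofNat 0, .ofNat 0, .ofNat 0,
      .ofNat 0, .ofNat 0, .ofNat 0])]), (true, []), (true, [])]⟩]

lemma E014_ok : E014.all okE = true := by
  simp only [E014, List.all_cons, List.all_nil, Bool.and_self,
    e014_0_ok, e014_1_ok, e014_2_ok, e014_3_ok]

lemma Z014_ok : Z014.all okZ = true := by decide +kernel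

lemma cov014 : (prods 3).all (fun a => cov E014 Z014 (([0, 1, 4] : List (Fin 9)).zip a)) = true := by
  decide +kernel

theorem typ014 : Typ [0, 1, 4] E014 Z014 := ⟨E014_ok, Z014_ok, cov014⟩

end Pool.Agent.K9
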