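import Pool.Agent.Lib_helper60.K9.T1

/-!
# A point of order nine, `d = 2`: the fibres at 0, 1, 5
-/

set_option autoImplicit false
set_option maxRecDepth 100000

namespace Pool.Agent.K9

/-- a fibre -/
def e015_0 : Cfg :=
    ⟨[(0, 1), (1, 1), (5, 1)], [(false, []), (false, []), (false, [([.ofNat 18, .ofNat 18,
      .negSucc 17], [.ofNat 18, .negSucc 35, .ofNat 9, .ofNat 3, .ofNat 3, .ofNat 4, .ofNat 0,
      .negSucc 3])]), (true, []), (false, [([.ofNat 36, .ofNat 0, .negSucc 17, .ofNat 18,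
      .ofNat 18], [.negSucc 17, .ofNat 0, .negSucc 8, .ofNat 9, .negSucc 2, .ofNat 4, .ofNat 0,
      .ofNat 0])]), (false, [([.ofNat 4, .ofNat 8, .ofNat 0, .negSucc 1, .ofNat 2, .ofNat 6],
      [.negSucc 9, .ofNat 4, .negSucc 2, .ofNat 3, .negSucc 0, .ofNat 0, .ofNat 0, .ofNat 0])]),
      (false, [([.ofNat 1, .ofNat 1, .ofNat 1, .ofNat 0, .ofNat 1, .ofNat 1, .ofNat 1],
      [.negSucc 0, .negSucc 0, .negSucc 0, .ofNat 1, .ofNat 0, .ofNat 0, .ofNat 0, .ofNat 0])]),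
      (true, []), (true, [])]⟩

lemma e015_0_ok : okE e015_0 = true := by decide +kernel

/-- a fibre -/
def e015_1 : Cfg :=
    ⟨[(0, 1), (1, 1), (5, 2)], [(false, [([.ofNat 72], [.negSucc 107, .ofNat 108, .negSucc 8,
      .negSucc 14, .negSucc 8, .negSucc 15, .ofNat 0, .ofNat 8, .negSucc 1])]), (false, []),
      (false, [([.ofNat 18, .ofNat 18, .negSucc 17], [.ofNat 18, .negSucc 35, .ofNat 9, .ofNat 3,
      .ofNat 3, .ofNat 4, .ofNat 0, .negSucc 3, .ofNat 0])]), (true, []), (false, [([.ofNat 36,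
      .ofNat 0, .negSucc 17, .ofNat 18, .ofNat 18], [.negSucc 17, .ofNat 0, .negSucc 8, .ofNat 9,
      .negSucc 2, .ofNat 4, .ofNat 0, .ofNat 0, .ofNat 0])]), (false, [([.ofNat 4, .ofNat 8,
      .ofNat 0, .negSucc 1, .ofNat 2, .ofNat 6], [.negSucc 9, .ofNat 4, .negSucc 2, .ofNat 3,
      .negSucc 0, .ofNat 0, .ofNat 0, .ofNat 0, .ofNat 0])]), (false, [([.ofNat 1, .ofNat 1,
      .ofNat 1, .ofNat 0, .ofNat 1, .ofNat 1, .ofNat 1], [.negSucc 0, .negSucc 0, .negSucc 0,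
      .ofNat 1, .ofNat 0, .ofNat 0, .ofNat 0, .ofNat 0, .ofNat 0])]), (true, []), (true, [])]⟩

lemma e015_1_ok : okE e015_1 = true := by decide +kernel

/-- a fibre -/
def e015_2 : Cfg :=
    ⟨[(0, 1), (1, 2), (5, 1)], [(false, []), (false, [([.ofNat 36, .negSucc 107], [.ofNat 108,
      .negSucc 71, .ofNat 27, .negSucc 38, .ofNat 9, .ofNat 16, .negSucc 1, .ofNat 0,
      .negSucc 7])]), (false, [([.ofNat 36, .ofNat 0, .ofNat 72], [.negSucc 71, .ofNat 0,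
      .negSucc 8, .ofNat 45, .negSucc 2, .negSucc 7, .ofNat 2, .ofNat 0, .ofNat 0])]), (true, []),
      (false, [([.ofNat 36, .ofNat 0, .negSucc 17, .ofNat 18, .ofNat 18], [.negSucc 17, .ofNat 0,
      .negSucc 8, .ofNat 9, .negSucc 2, .ofNat 4, .ofNat 0, .ofNat 0, .ofNat 0])]), (false,
      [([.ofNat 4, .ofNat 8, .ofNat 0, .negSucc 1, .ofNat 2, .ofNat 6], [.negSucc 9, .ofNat 4,
      .negSucc 2, .ofNat 3, .negSucc 0, .ofNat 0, .ofNat 0, .ofNat 0, .ofNat 0])]), (false,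
      [([.ofNat 1, .ofNat 1, .ofNat 1, .ofNat 0, .ofNat 1, .ofNat 1, .ofNat 1], [.negSucc 0,
      .negSucc 0, .negSucc 0, .ofNat 1, .ofNat 0, .ofNat 0, .ofNat 0, .ofNat 0, .ofNat 0])]),
      (true, []), (true, [])]⟩

lemma e015_2_ok : okE e015_2 = true := by decide +kernel

/-- a fibre -/
def e015_3 : Cfg :=
    ⟨[(0, 2), (1, 1), (5, 1)], [(false, []), (false, [([.ofNat 36, .ofNat 72], [.negSucc 53,
      .ofNat 36, .negSucc 62, .ofNat 45, .ofNat 2, .negSucc 2, .negSucc 7, .ofNat 0,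
      .ofNat 12])]), (false, [([.ofNat 27, .ofNat 45, .ofNat 9], [.ofNat 0, .negSucc 35,
      .negSucc 17, .ofNat 27, .ofNat 1, .ofNat 3, .ofNat 2, .ofNat 0, .ofNat 0])]), (true, []),
      (false, [([.ofNat 36, .ofNat 0, .negSucc 71, .negSucc 71, .ofNat 0], [.negSucc 17,
      .ofNat 72, .ofNat 27, .negSucc 44, .negSucc 1, .negSucc 8, .ofNat 0, .ofNat 0, .ofNat 0])]),
      (false, [([.ofNat 18, .ofNat 18, .ofNat 0, .ofNat 27, .ofNat 45, .ofNat 27], [.negSucc 35,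
      .negSucc 17, .negSucc 26, .ofNat 36, .ofNat 1, .ofNat 0, .ofNat 0, .ofNat 0, .ofNat 0])]),
      (false, [([.ofNat 1, .ofNat 1, .ofNat 1, .ofNat 0, .ofNat 1, .ofNat 1, .ofNat 1],
      [.negSucc 0, .negSucc 0, .negSucc 0, .ofNat 1, .ofNat 0, .ofNat 0, .ofNat 0, .ofNat 0,
      .ofNat 0])]), (true, []), (true, [])]⟩

lemma e015_3_ok : okE e015_3 = true := by decide +kernel

/-- the fibres with solutions -/
def E015 : List Cfg := [
    e015_0, e015_1, e015_2, e015_3]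

/-- the fibres without solutions -/
def Z015 : List Cfg := [
    ⟨[(0, 1), (1, 1), (5, 3)], [(false, [([.ofNat 72], [.negSucc 107, .ofNat 108, .negSucc 8,
      .negSucc 14, .negSucc 8, .negSucc 15, .ofNat 0, .ofNat 8, .negSucc 1, .ofNat 0])]), (false,
      [([.ofNat 216, .negSucc 107], [.ofNat 162, .negSucc 269, .negSucc 107, .ofNat 168,
      .ofNat 18, .ofNat 40, .ofNat 0, .negSucc 19, .ofNat 0, .ofNat 1])]), (false, [([.ofNat 18,
      .ofNat 18, .negSucc 17], [.ofNat 18, .negSucc 35, .ofNat 9, .ofNat 3, .ofNat 3, .ofNat 4,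
      .ofNat 0, .negSucc 3, .ofNat 0, .ofNat 0])]), (true, []), (false, [([.ofNat 36, .ofNat 0,
      .negSucc 17, .ofNat 18, .ofNat 18], [.negSucc 17, .ofNat 0, .negSucc 8, .ofNat 9,
      .negSucc 2, .ofNat 4, .ofNat 0, .ofNat 0, .ofNat 0, .ofNat 0])]), (false, [([.ofNat 4,
      .ofNat 8, .ofNat 0, .negSucc 1, .ofNat 2, .ofNat 6], [.negSucc 9, .ofNat 4, .negSucc 2,
      .ofNat 3, .negSucc 0, .ofNat 0, .ofNat 0, .ofNat 0, .ofNat 0, .ofNat 0])]), (false,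
      [([.ofNat 1, .ofNat 1, .ofNat 1, .ofNat 0, .ofNat 1, .ofNat 1, .ofNat 1], [.negSucc 0,
      .negSucc 0, .negSucc 0, .ofNat 1, .ofNat 0, .ofNat 0, .ofNat 0, .ofNat 0, .ofNat 0,
      .ofNat 0])]), (true, []), (true, [])]⟩,
    ⟨[(0, 1), (1, 2), (5, 2)], [(false, [([.ofNat 72], [.negSucc 107, .ofNat 108, .negSucc 8,
      .negSucc 14, .negSucc 8, .negSucc 15, .ofNat 0, .ofNat 0, .ofNat 8, .negSucc 1])]), (false,
      [([.ofNat 36, .negSucc 107], [.ofNat 108, .negSucc 71, .ofNat 27, .negSucc 38, .ofNat 9,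
      .ofNat 16, .negSucc 1, .ofNat 0, .negSucc 7, .ofNat 0])]), (false, [([.ofNat 36, .ofNat 0,
      .ofNat 72], [.negSucc 71, .ofNat 0, .negSucc 8, .ofNat 45, .negSucc 2, .negSucc 7, .ofNat 2,
      .ofNat 0, .ofNat 0, .ofNat 0])]), (true, []), (false, [([.ofNat 36, .ofNat 0, .negSucc 17,
      .ofNat 18, .ofNat 18], [.negSucc 17, .ofNat 0, .negSucc 8, .ofNat 9, .negSucc 2, .ofNat 4,
      .ofNat 0, .ofNat 0, .ofNat 0, .ofNat 0])]), (false, [([.ofNat 4, .ofNat 8, .ofNat 0,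
      .negSucc 1, .ofNat 2, .ofNat 6], [.negSucc 9, .ofNat 4, .negSucc 2, .ofNat 3, .negSucc 0,
      .ofNat 0, .ofNat 0, .ofNat 0, .ofNat 0, .ofNat 0])]), (false, [([.ofNat 1, .ofNat 1,
      .ofNat 1, .ofNat 0, .ofNat 1, .ofNat 1, .ofNat 1], [.negSucc 0, .negSucc 0, .negSucc 0,
      .ofNat 1, .ofNat 0, .ofNat 0, .ofNat 0, .ofNat 0, .ofNat 0, .ofNat 0])]), (true, []), (true,
      [])]⟩,
    ⟨[(0, 1), (1, 3), (5, 1)], [(false, [([.ofNat 432], [.ofNat 0, .negSucc 323, .negSucc 134,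
      .ofNat 435, .negSucc 8, .negSucc 15, .ofNat 6, .ofNat 2, .ofNat 0, .ofNat 32])]), (false,
      [([.ofNat 144, .ofNat 0], [.ofNat 432, .negSucc 611, .negSucc 26, .ofNat 279, .ofNat 27,
      .ofNat 48, .negSucc 1, .ofNat 2, .ofNat 0, .ofNat 0])]), (false, [([.ofNat 36, .ofNat 0,
      .ofNat 72], [.negSucc 71, .ofNat 0, .negSucc 8, .ofNat 45, .negSucc 2, .negSucc 7, .ofNat 2,
      .ofNat 0, .ofNat 0, .ofNat 0])]), (true, []), (false, [([.ofNat 36, .ofNat 0, .negSucc 17,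
      .ofNat 18, .ofNat 18], [.negSucc 17, .ofNat 0, .negSucc 8, .ofNat 9, .negSucc 2, .ofNat 4,
      .ofNat 0, .ofNat 0, .ofNat 0, .ofNat 0])]), (false, [([.ofNat 4, .ofNat 8, .ofNat 0,
      .negSucc 1, .ofNat 2, .ofNat 6], [.negSucc 9, .ofNat 4, .negSucc 2, .ofNat 3, .negSucc 0,
      .ofNat 0, .ofNat 0, .ofNat 0, .ofNat 0, .ofNat 0])]), (false, [([.ofNat 1, .ofNat 1,
      .ofNat 1, .ofNat 0, .ofNat 1, .ofNat 1, .ofNat 1], [.negSucc 0, .negSucc 0, .negSucc 0,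
      .ofNat 1, .ofNat 0, .ofNat 0, .ofNat 0, .ofNat 0, .ofNat 0, .ofNat 0])]), (true, []), (true,
      [])]⟩,
    ⟨[(0, 2), (1, 1), (5, 2)], [(false, [([.ofNat 72], [.negSucc 107, .ofNat 108, .negSucc 8,
      .negSucc 14, .ofNat 0, .negSucc 8, .negSucc 15, .ofNat 0, .ofNat 8, .negSucc 1])]), (false,
      [([.ofNat 36, .ofNat 72], [.negSucc 53, .ofNat 36, .negSucc 62, .ofNat 45, .ofNat 2,
      .negSucc 2, .negSucc 7, .ofNat 0, .ofNat 12, .ofNat 0])]), (false, [([.ofNat 27, .ofNat 45,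
      .ofNat 9], [.ofNat 0, .negSucc 35, .negSucc 17, .ofNat 27, .ofNat 1, .ofNat 3, .ofNat 2,
      .ofNat 0, .ofNat 0, .ofNat 0])]), (true, []), (false, [([.ofNat 36, .ofNat 0, .negSucc 71,
      .negSucc 71, .ofNat 0], [.negSucc 17, .ofNat 72, .ofNat 27, .negSucc 44, .negSucc 1,
      .negSucc 8, .ofNat 0, .ofNat 0, .ofNat 0, .ofNat 0])]), (false, [([.ofNat 18, .ofNat 18,
      .ofNat 0, .ofNat 27, .ofNat 45, .ofNat 27], [.negSucc 35, .negSucc 17, .negSucc 26,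
      .ofNat 36, .ofNat 1, .ofNat 0, .ofNat 0, .ofNat 0, .ofNat 0, .ofNat 0])]), (false,
      [([.ofNat 1, .ofNat 1, .ofNat 1, .ofNat 0, .ofNat 1, .ofNat 1, .ofNat 1], [.negSucc 0,
      .negSucc 0, .negSucc 0, .ofNat 1, .ofNat 0, .ofNat 0, .ofNat 0, .ofNat 0, .ofNat 0,
      .ofNat 0])]), (true, []), (true, [])]⟩,
    ⟨[(0, 2), (1, 2), (5, 1)], [(false, [([.ofNat 90], [.negSucc 80, .ofNat 54, .negSucc 44,
      .ofNat 42, .ofNat 1, .negSucc 5, .negSucc 11, .ofNat 1, .ofNat 0, .ofNat 10])]), (false,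
      [([.ofNat 180, .negSucc 179], [.ofNat 216, .negSucc 143, .negSucc 44, .negSucc 26, .ofNat 4,
      .ofNat 21, .ofNat 32, .negSucc 5, .ofNat 0, .ofNat 0])]), (false, [([.ofNat 27, .ofNat 45,
      .ofNat 9], [.ofNat 0, .negSucc 35, .negSucc 17, .ofNat 27, .ofNat 1, .ofNat 3, .ofNat 2,
      .ofNat 0, .ofNat 0, .ofNat 0])]), (true, []), (false, [([.ofNat 36, .ofNat 0, .negSucc 71,
      .negSucc 71, .ofNat 0], [.negSucc 17, .ofNat 72, .ofNat 27, .negSucc 44, .negSucc 1,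
      .negSucc 8, .ofNat 0, .ofNat 0, .ofNat 0, .ofNat 0])]), (false, [([.ofNat 18, .ofNat 18,
      .ofNat 0, .ofNat 27, .ofNat 45, .ofNat 27], [.negSucc 35, .negSucc 17, .negSucc 26,
      .ofNat 36, .ofNat 1, .ofNat 0, .ofNat 0, .ofNat 0, .ofNat 0, .ofNat 0])]), (false,
      [([.ofNat 1, .ofNat 1, .ofNat 1, .ofNat 0, .ofNat 1, .ofNat 1, .ofNat 1], [.negSucc 0,
      .negSucc 0, .negSucc 0, .ofNat 1, .ofNat 0, .ofNat 0, .ofNat 0, .ofNat 0, .ofNat 0,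
      .ofNat 0])]), (true, []), (true, [])]⟩,
    ⟨[(0, 3), (1, 1), (5, 1)], [(false, [([.ofNat 432], [.ofNat 162, .ofNat 0, .negSucc 296,
      .negSucc 128, .ofNat 6, .negSucc 1, .negSucc 8, .negSucc 31, .ofNat 0, .ofNat 64])]),
      (false, [([.ofNat 576, .negSucc 143], [.negSucc 1349, .ofNat 576, .negSucc 116, .ofNat 1107,
      .ofNat 14, .ofNat 6, .negSucc 20, .negSucc 31, .ofNat 0, .ofNat 0])]), (false,
      [([.ofNat 144, .ofNat 432, .ofNat 0], [.negSucc 449, .ofNat 0, .negSucc 134, .ofNat 513,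
      .ofNat 10, .ofNat 2, .ofNat 9, .ofNat 0, .ofNat 0, .ofNat 0])]), (true, []), (false,
      [([.ofNat 18, .ofNat 0, .ofNat 36, .ofNat 180, .ofNat 0], [.negSucc 233, .ofNat 36,
      .negSucc 53, .ofNat 234, .ofNat 4, .ofNat 1, .ofNat 0, .ofNat 0, .ofNat 0, .ofNat 0])]),
      (false, [([.ofNat 18, .ofNat 18, .ofNat 0, .ofNat 27, .ofNat 45, .ofNat 27], [.negSucc 35,
      .negSucc 17, .negSucc 26, .ofNat 36, .ofNat 1, .ofNat 0, .ofNat 0, .ofNat 0, .ofNat 0,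
      .ofNat 0])]), (false, [([.ofNat 1, .ofNat 1, .ofNat 1, .ofNat 0, .ofNat 1, .ofNat 1,
      .ofNat 1], [.negSucc 0, .negSucc 0, .negSucc 0, .ofNat 1, .ofNat 0, .ofNat 0, .ofNat 0,
      .ofNat 0, .ofNat 0, .ofNat 0])]), (true, []), (true, [])]⟩]

lemma E015_ok : E015.all okE = true := by
  simp only [E015, List.all_cons, List.all_nil, Bool.and_self,
    e015_0_ok, e015_1_ok, e015_2_ok, e015_3_ok]

lemma Z015_ok : Z015.all okZ = true := by decide +kernel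

lemma cov015 : (prods 3).all (fun a => cov E015 Z015 (([0, 1, 5] : List (Fin 9)).zip a)) = true := by
  decide +kernel

theorem typ015 : Typ [0, 1, 5] E015 Z015 := ⟨E015_ok, Z015_ok, cov015⟩

end Pool.Agent.K9
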