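import Pool.Agent.Lib_helper60.K9.T1

/-!
# A point of order nine, `d = 2`: the fibres at 0, 1, 6
-/

set_option autoImplicit false
set_option maxRecDepth 100000

namespace Pool.Agent.K9

/-- a fibre -/
def e016_0 : Cfg :=
    ⟨[(0, 1), (1, 1), (6, 1)], [(false, []), (false, []), (true, []), (false, [([.ofNat 9, .ofNat 0,
      .ofNat 0, .ofNat 0], [.ofNat 0, .negSucc 17, .ofNat 0, .ofNat 3, .ofNat 3, .ofNat 0,
      .negSucc 1, .ofNat 0])]), (false, [([.ofNat 36, .ofNat 9, .ofNat 0, .ofNat 18, .ofNat 18],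
      [.negSucc 17, .ofNat 0, .ofNat 18, .ofNat 9, .negSucc 2, .ofNat 4, .ofNat 0, .ofNat 0])]),
      (false, [([.ofNat 4, .ofNat 8, .ofNat 3, .ofNat 0, .ofNat 2, .ofNat 6], [.negSucc 9,
      .ofNat 4, .ofNat 2, .ofNat 3, .negSucc 0, .ofNat 0, .ofNat 0, .ofNat 0])]), (false,
      [([.ofNat 1, .ofNat 1, .ofNat 1, .ofNat 1, .ofNat 0, .ofNat 1, .ofNat 1], [.negSucc 0,
      .negSucc 0, .negSucc 0, .ofNat 1, .ofNat 0, .ofNat 0, .ofNat 0, .ofNat 0])]), (true, []),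
      (true, [])]⟩

lemma e016_0_ok : okE e016_0 = true := by decide +kernel

/-- a fibre -/
def e016_1 : Cfg :=
    ⟨[(0, 1), (1, 1), (6, 2)], [(false, []), (false, [([.ofNat 18, .ofNat 36], [.negSucc 17, .ofNat 0,
      .ofNat 18, .negSucc 5, .negSucc 2, .ofNat 2, .ofNat 1, .ofNat 0, .negSucc 0])]), (true, []),
      (false, [([.ofNat 9, .ofNat 0, .ofNat 0, .ofNat 0], [.ofNat 0, .negSucc 17, .ofNat 0,
      .ofNat 3, .ofNat 3, .ofNat 0, .negSucc 1, .ofNat 0, .ofNat 0])]), (false, [([.ofNat 36,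
      .ofNat 9, .ofNat 0, .ofNat 18, .ofNat 18], [.negSucc 17, .ofNat 0, .ofNat 18, .ofNat 9,
      .negSucc 2, .ofNat 4, .ofNat 0, .ofNat 0, .ofNat 0])]), (false, [([.ofNat 4, .ofNat 8,
      .ofNat 3, .ofNat 0, .ofNat 2, .ofNat 6], [.negSucc 9, .ofNat 4, .ofNat 2, .ofNat 3,
      .negSucc 0, .ofNat 0, .ofNat 0, .ofNat 0, .ofNat 0])]), (false, [([.ofNat 1, .ofNat 1,
      .ofNat 1, .ofNat 1, .ofNat 0, .ofNat 1, .ofNat 1], [.negSucc 0, .negSucc 0, .negSucc 0,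
      .ofNat 1, .ofNat 0, .ofNat 0, .ofNat 0, .ofNat 0, .ofNat 0])]), (true, []), (true, [])]⟩

lemma e016_1_ok : okE e016_1 = true := by decide +kernel

/-- a fibre -/
def e016_2 : Cfg :=
    ⟨[(0, 1), (1, 2), (6, 1)], [(false, [([.ofNat 36], [.negSucc 35, .ofNat 9, .negSucc 17, .ofNat 21,
      .negSucc 2, .negSucc 3, .ofNat 1, .ofNat 1, .ofNat 0])]), (false, []), (true, []), (false,
      [([.ofNat 9, .ofNat 0, .ofNat 0, .ofNat 72], [.negSucc 71, .ofNat 0, .negSucc 35, .ofNat 45,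
      .negSucc 2, .negSucc 7, .ofNat 2, .ofNat 0, .ofNat 0])]), (false, [([.ofNat 36, .ofNat 9,
      .ofNat 0, .ofNat 18, .ofNat 18], [.negSucc 17, .ofNat 0, .ofNat 18, .ofNat 9, .negSucc 2,
      .ofNat 4, .ofNat 0, .ofNat 0, .ofNat 0])]), (false, [([.ofNat 4, .ofNat 8, .ofNat 3,
      .ofNat 0, .ofNat 2, .ofNat 6], [.negSucc 9, .ofNat 4, .ofNat 2, .ofNat 3, .negSucc 0,
      .ofNat 0, .ofNat 0, .ofNat 0, .ofNat 0])]), (false, [([.ofNat 1, .ofNat 1, .ofNat 1,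
      .ofNat 1, .ofNat 0, .ofNat 1, .ofNat 1], [.negSucc 0, .negSucc 0, .negSucc 0, .ofNat 1,
      .ofNat 0, .ofNat 0, .ofNat 0, .ofNat 0, .ofNat 0])]), (true, []), (true, [])]⟩

lemma e016_2_ok : okE e016_2 = true := by decide +kernel

/-- a fibre -/
def e016_3 : Cfg :=
    ⟨[(0, 2), (1, 1), (6, 1)], [(false, []), (false, [([.ofNat 45, .ofNat 9], [.ofNat 0, .ofNat 0,
      .negSucc 26, .ofNat 21, .ofNat 1, .negSucc 2, .ofNat 2, .ofNat 4, .ofNat 0])]), (true, []),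
      (false, [([.ofNat 18, .ofNat 0, .ofNat 45, .ofNat 9], [.ofNat 0, .negSucc 35, .negSucc 26,
      .ofNat 27, .ofNat 1, .ofNat 3, .ofNat 2, .ofNat 0, .ofNat 0])]), (false, [([.ofNat 36,
      .negSucc 26, .ofNat 0, .negSucc 71, .ofNat 0], [.negSucc 17, .ofNat 72, .ofNat 72,
      .negSucc 44, .negSucc 1, .negSucc 8, .ofNat 0, .ofNat 0, .ofNat 0])]), (false, [([.ofNat 18,
      .ofNat 18, .ofNat 27, .ofNat 0, .ofNat 45, .ofNat 27], [.negSucc 35, .negSucc 17,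
      .negSucc 26, .ofNat 36, .ofNat 1, .ofNat 0, .ofNat 0, .ofNat 0, .ofNat 0])]), (false,
      [([.ofNat 1, .ofNat 1, .ofNat 1, .ofNat 1, .ofNat 0, .ofNat 1, .ofNat 1], [.negSucc 0,
      .negSucc 0, .negSucc 0, .ofNat 1, .ofNat 0, .ofNat 0, .ofNat 0, .ofNat 0, .ofNat 0])]),
      (true, []), (true, [])]⟩

lemma e016_3_ok : okE e016_3 = true := by decide +kernel

/-- the fibres with solutions -/
def E016 : List Cfg := [
    e016_0, e016_1, e016_2, e016_3]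

/-- the fibres without solutions -/
def Z016 : List Cfg := [
    ⟨[(0, 1), (1, 1), (6, 3)], [(false, [([.ofNat 216], [.negSucc 71, .negSucc 107, .negSucc 89,
      .ofNat 126, .ofNat 9, .ofNat 0, .negSucc 8, .ofNat 0, .negSucc 4, .ofNat 1])]), (false,
      [([.ofNat 18, .ofNat 36], [.negSucc 17, .ofNat 0, .ofNat 18, .negSucc 5, .negSucc 2,
      .ofNat 2, .ofNat 1, .ofNat 0, .negSucc 0, .ofNat 0])]), (true, []), (false, [([.ofNat 9,
      .ofNat 0, .ofNat 0, .ofNat 0], [.ofNat 0, .negSucc 17, .ofNat 0, .ofNat 3, .ofNat 3,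
      .ofNat 0, .negSucc 1, .ofNat 0, .ofNat 0, .ofNat 0])]), (false, [([.ofNat 36, .ofNat 9,
      .ofNat 0, .ofNat 18, .ofNat 18], [.negSucc 17, .ofNat 0, .ofNat 18, .ofNat 9, .negSucc 2,
      .ofNat 4, .ofNat 0, .ofNat 0, .ofNat 0, .ofNat 0])]), (false, [([.ofNat 4, .ofNat 8,
      .ofNat 3, .ofNat 0, .ofNat 2, .ofNat 6], [.negSucc 9, .ofNat 4, .ofNat 2, .ofNat 3,
      .negSucc 0, .ofNat 0, .ofNat 0, .ofNat 0, .ofNat 0, .ofNat 0])]), (false, [([.ofNat 1,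
      .ofNat 1, .ofNat 1, .ofNat 1, .ofNat 0, .ofNat 1, .ofNat 1], [.negSucc 0, .negSucc 0,
      .negSucc 0, .ofNat 1, .ofNat 0, .ofNat 0, .ofNat 0, .ofNat 0, .ofNat 0, .ofNat 0])]), (true,
      []), (true, [])]⟩,
    ⟨[(0, 1), (1, 2), (6, 2)], [(false, [([.ofNat 36], [.negSucc 35, .ofNat 9, .negSucc 17, .ofNat 21,
      .negSucc 2, .negSucc 3, .ofNat 1, .ofNat 1, .ofNat 0, .ofNat 0])]), (false, [([.ofNat 18,
      .ofNat 0], [.ofNat 18, .negSucc 8, .ofNat 36, .negSucc 26, .ofNat 0, .ofNat 6, .negSucc 0,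
      .ofNat 0, .ofNat 0, .negSucc 0])]), (true, []), (false, [([.ofNat 9, .ofNat 0, .ofNat 0,
      .ofNat 72], [.negSucc 71, .ofNat 0, .negSucc 35, .ofNat 45, .negSucc 2, .negSucc 7,
      .ofNat 2, .ofNat 0, .ofNat 0, .ofNat 0])]), (false, [([.ofNat 36, .ofNat 9, .ofNat 0,
      .ofNat 18, .ofNat 18], [.negSucc 17, .ofNat 0, .ofNat 18, .ofNat 9, .negSucc 2, .ofNat 4,
      .ofNat 0, .ofNat 0, .ofNat 0, .ofNat 0])]), (false, [([.ofNat 4, .ofNat 8, .ofNat 3,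
      .ofNat 0, .ofNat 2, .ofNat 6], [.negSucc 9, .ofNat 4, .ofNat 2, .ofNat 3, .negSucc 0,
      .ofNat 0, .ofNat 0, .ofNat 0, .ofNat 0, .ofNat 0])]), (false, [([.ofNat 1, .ofNat 1,
      .ofNat 1, .ofNat 1, .ofNat 0, .ofNat 1, .ofNat 1], [.negSucc 0, .negSucc 0, .negSucc 0,
      .ofNat 1, .ofNat 0, .ofNat 0, .ofNat 0, .ofNat 0, .ofNat 0, .ofNat 0])]), (true, []), (true,
      [])]⟩,
    ⟨[(0, 1), (1, 3), (6, 1)], [(false, [([.ofNat 36], [.negSucc 35, .ofNat 9, .negSucc 17, .ofNat 21,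
      .negSucc 2, .negSucc 3, .ofNat 1, .ofNat 0, .ofNat 1, .ofNat 0])]), (false, [([.ofNat 72,
      .negSucc 107], [.ofNat 324, .negSucc 305, .ofNat 54, .ofNat 72, .ofNat 18, .ofNat 36,
      .negSucc 3, .ofNat 1, .ofNat 0, .ofNat 0])]), (true, []), (false, [([.ofNat 9, .ofNat 0,
      .ofNat 0, .ofNat 72], [.negSucc 71, .ofNat 0, .negSucc 35, .ofNat 45, .negSucc 2,
      .negSucc 7, .ofNat 2, .ofNat 0, .ofNat 0, .ofNat 0])]), (false, [([.ofNat 36, .ofNat 9,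
      .ofNat 0, .ofNat 18, .ofNat 18], [.negSucc 17, .ofNat 0, .ofNat 18, .ofNat 9, .negSucc 2,
      .ofNat 4, .ofNat 0, .ofNat 0, .ofNat 0, .ofNat 0])]), (false, [([.ofNat 4, .ofNat 8,
      .ofNat 3, .ofNat 0, .ofNat 2, .ofNat 6], [.negSucc 9, .ofNat 4, .ofNat 2, .ofNat 3,
      .negSucc 0, .ofNat 0, .ofNat 0, .ofNat 0, .ofNat 0, .ofNat 0])]), (false, [([.ofNat 1,
      .ofNat 1, .ofNat 1, .ofNat 1, .ofNat 0, .ofNat 1, .ofNat 1], [.negSucc 0, .negSucc 0,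
      .negSucc 0, .ofNat 1, .ofNat 0, .ofNat 0, .ofNat 0, .ofNat 0, .ofNat 0, .ofNat 0])]), (true,
      []), (true, [])]⟩,
    ⟨[(0, 2), (1, 1), (6, 2)], [(false, [([.ofNat 162], [.negSucc 89, .ofNat 0, .ofNat 144,
      .negSucc 71, .negSucc 1, .negSucc 8, .ofNat 6, .negSucc 2, .ofNat 0, .negSucc 4])]), (false,
      [([.ofNat 45, .ofNat 9], [.ofNat 0, .ofNat 0, .negSucc 26, .ofNat 21, .ofNat 1, .negSucc 2,
      .ofNat 2, .ofNat 4, .ofNat 0, .ofNat 0])]), (true, []), (false, [([.ofNat 18, .ofNat 0,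
      .ofNat 45, .ofNat 9], [.ofNat 0, .negSucc 35, .negSucc 26, .ofNat 27, .ofNat 1, .ofNat 3,
      .ofNat 2, .ofNat 0, .ofNat 0, .ofNat 0])]), (false, [([.ofNat 36, .negSucc 26, .ofNat 0,
      .negSucc 71, .ofNat 0], [.negSucc 17, .ofNat 72, .ofNat 72, .negSucc 44, .negSucc 1,
      .negSucc 8, .ofNat 0, .ofNat 0, .ofNat 0, .ofNat 0])]), (false, [([.ofNat 18, .ofNat 18,
      .ofNat 27, .ofNat 0, .ofNat 45, .ofNat 27], [.negSucc 35, .negSucc 17, .negSucc 26,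
      .ofNat 36, .ofNat 1, .ofNat 0, .ofNat 0, .ofNat 0, .ofNat 0, .ofNat 0])]), (false,
      [([.ofNat 1, .ofNat 1, .ofNat 1, .ofNat 1, .ofNat 0, .ofNat 1, .ofNat 1], [.negSucc 0,
      .negSucc 0, .negSucc 0, .ofNat 1, .ofNat 0, .ofNat 0, .ofNat 0, .ofNat 0, .ofNat 0,
      .ofNat 0])]), (true, []), (true, [])]⟩,
    ⟨[(0, 2), (1, 2), (6, 1)], [(false, [([.ofNat 36], [.negSucc 35, .ofNat 9, .negSucc 17, .ofNat 21,
      .ofNat 0, .negSucc 2, .negSucc 3, .ofNat 1, .ofNat 1, .ofNat 0])]), (false, [([.ofNat 45,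
      .negSucc 134], [.ofNat 144, .negSucc 35, .ofNat 45, .negSucc 62, .ofNat 1, .ofNat 9,
      .ofNat 18, .negSucc 3, .ofNat 0, .ofNat 0])]), (true, []), (false, [([.ofNat 18, .ofNat 0,
      .ofNat 45, .ofNat 9], [.ofNat 0, .negSucc 35, .negSucc 26, .ofNat 27, .ofNat 1, .ofNat 3,
      .ofNat 2, .ofNat 0, .ofNat 0, .ofNat 0])]), (false, [([.ofNat 36, .negSucc 26, .ofNat 0,
      .negSucc 71, .ofNat 0], [.negSucc 17, .ofNat 72, .ofNat 72, .negSucc 44, .negSucc 1,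
      .negSucc 8, .ofNat 0, .ofNat 0, .ofNat 0, .ofNat 0])]), (false, [([.ofNat 18, .ofNat 18,
      .ofNat 27, .ofNat 0, .ofNat 45, .ofNat 27], [.negSucc 35, .negSucc 17, .negSucc 26,
      .ofNat 36, .ofNat 1, .ofNat 0, .ofNat 0, .ofNat 0, .ofNat 0, .ofNat 0])]), (false,
      [([.ofNat 1, .ofNat 1, .ofNat 1, .ofNat 1, .ofNat 0, .ofNat 1, .ofNat 1], [.negSucc 0,
      .negSucc 0, .negSucc 0, .ofNat 1, .ofNat 0, .ofNat 0, .ofNat 0, .ofNat 0, .ofNat 0,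
      .ofNat 0])]), (true, []), (true, [])]⟩,
    ⟨[(0, 3), (1, 1), (6, 1)], [(false, [([.ofNat 216], [.ofNat 1125, .negSucc 674, .negSucc 287,
      .negSucc 665, .negSucc 0, .negSucc 4, .ofNat 18, .ofNat 48, .ofNat 21, .ofNat 0])]), (false,
      [([.ofNat 189, .negSucc 134], [.negSucc 899, .ofNat 540, .ofNat 117, .ofNat 621, .ofNat 5,
      .ofNat 4, .negSucc 26, .negSucc 29, .ofNat 0, .ofNat 0])]), (true, []), (false,
      [([.ofNat 135, .ofNat 0, .ofNat 432, .ofNat 0], [.negSucc 449, .ofNat 0, .negSucc 143,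
      .ofNat 513, .ofNat 10, .ofNat 2, .ofNat 9, .ofNat 0, .ofNat 0, .ofNat 0])]), (false,
      [([.ofNat 18, .ofNat 54, .ofNat 0, .ofNat 180, .ofNat 0], [.negSucc 233, .ofNat 36,
      .negSucc 35, .ofNat 234, .ofNat 4, .ofNat 1, .ofNat 0, .ofNat 0, .ofNat 0, .ofNat 0])]),
      (false, [([.ofNat 18, .ofNat 18, .ofNat 27, .ofNat 0, .ofNat 45, .ofNat 27], [.negSucc 35,
      .negSucc 17, .negSucc 26, .ofNat 36, .ofNat 1, .ofNat 0, .ofNat 0, .ofNat 0, .ofNat 0,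
      .ofNat 0])]), (false, [([.ofNat 1, .ofNat 1, .ofNat 1, .ofNat 1, .ofNat 0, .ofNat 1,
      .ofNat 1], [.negSucc 0, .negSucc 0, .negSucc 0, .ofNat 1, .ofNat 0, .ofNat 0, .ofNat 0,
      .ofNat 0, .ofNat 0, .ofNat 0])]), (true, []), (true, [])]⟩]

lemma E016_ok : E016.all okE = true := by
  simp only [E016, List.all_cons, List.all_nil, Bool.and_self,
    e016_0_ok, e016_1_ok, e016_2_ok, e016_3_ok]

lemma Z016_ok : Z016.all okZ = true := by decide +kernel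

lemma cov016 : (prods 3).all (fun a => cov E016 Z016 (([0, 1, 6] : List (Fin 9)).zip a)) = true := by
  decide +kernel

theorem typ016 : Typ [0, 1, 6] E016 Z016 := ⟨E016_ok, Z016_ok, cov016⟩

end Pool.Agent.K9
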