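import Pool.Agent.Lib_helper60.K9.T1

/-!
# A point of order nine, `d = 2`: the fibres at 0, 1, 7
-/

set_option autoImplicit false
set_option maxRecDepth 100000

namespace Pool.Agent.K9

/-- a fibre -/
def e017_0 : Cfg :=
    ⟨[(0, 1), (1, 1), (7, 1)], [(false, []), (true, []), (false, []), (false, [([.ofNat 9, .ofNat 9,
      .ofNat 0, .ofNat 0], [.negSucc 8, .negSucc 8, .ofNat 9, .ofNat 3, .ofNat 1, .negSucc 0,
      .negSucc 0, .ofNat 0])]), (false, [([.ofNat 36, .ofNat 9, .negSucc 17, .ofNat 0, .ofNat 18],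
      [.negSucc 17, .ofNat 0, .negSucc 17, .ofNat 9, .negSucc 2, .ofNat 4, .ofNat 0, .ofNat 0])]),
      (false, [([.ofNat 4, .ofNat 8, .ofNat 3, .negSucc 1, .ofNat 0, .ofNat 6], [.negSucc 9,
      .ofNat 4, .negSucc 1, .ofNat 3, .negSucc 0, .ofNat 0, .ofNat 0, .ofNat 0])]), (false,
      [([.ofNat 1, .ofNat 1, .ofNat 1, .ofNat 1, .ofNat 1, .ofNat 0, .ofNat 1], [.negSucc 0,
      .negSucc 0, .negSucc 0, .ofNat 1, .ofNat 0, .ofNat 0, .ofNat 0, .ofNat 0])]), (true, []),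
      (true, [])]⟩

lemma e017_0_ok : okE e017_0 = true := by decide +kernel

/-- a fibre -/
def e017_1 : Cfg :=
    ⟨[(0, 1), (1, 1), (7, 2)], [(false, []), (true, []), (false, [([.ofNat 27, .ofNat 0, .ofNat 18],
      [.negSucc 116, .negSucc 26, .ofNat 81, .negSucc 11, .ofNat 2, .negSucc 6, .negSucc 4,
      .ofNat 0, .negSucc 1])]), (false, [([.ofNat 9, .ofNat 9, .ofNat 0, .ofNat 0], [.negSucc 8,
      .negSucc 8, .ofNat 9, .ofNat 3, .ofNat 1, .negSucc 0, .negSucc 0, .ofNat 0, .ofNat 0])]),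
      (false, [([.ofNat 36, .ofNat 9, .negSucc 17, .ofNat 0, .ofNat 18], [.negSucc 17, .ofNat 0,
      .negSucc 17, .ofNat 9, .negSucc 2, .ofNat 4, .ofNat 0, .ofNat 0, .ofNat 0])]), (false,
      [([.ofNat 4, .ofNat 8, .ofNat 3, .negSucc 1, .ofNat 0, .ofNat 6], [.negSucc 9, .ofNat 4,
      .negSucc 1, .ofNat 3, .negSucc 0, .ofNat 0, .ofNat 0, .ofNat 0, .ofNat 0])]), (false,
      [([.ofNat 1, .ofNat 1, .ofNat 1, .ofNat 1, .ofNat 1, .ofNat 0, .ofNat 1], [.negSucc 0,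
      .negSucc 0, .negSucc 0, .ofNat 1, .ofNat 0, .ofNat 0, .ofNat 0, .ofNat 0, .ofNat 0])]),
      (true, []), (true, [])]⟩

lemma e017_1_ok : okE e017_1 = true := by decide +kernel

/-- a fibre -/
def e017_2 : Cfg :=
    ⟨[(0, 1), (1, 2), (7, 1)], [(false, []), (true, []), (false, [([.ofNat 27, .ofNat 0, .ofNat 72],
      [.negSucc 62, .ofNat 9, .negSucc 8, .ofNat 42, .negSucc 3, .negSucc 6, .ofNat 2, .ofNat 1,
      .ofNat 0])]), (false, [([.ofNat 9, .ofNat 36, .ofNat 0, .ofNat 72], [.negSucc 71, .ofNat 0,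
      .ofNat 0, .ofNat 45, .negSucc 2, .negSucc 7, .ofNat 2, .ofNat 0, .ofNat 0])]), (false,
      [([.ofNat 36, .ofNat 9, .negSucc 17, .ofNat 0, .ofNat 18], [.negSucc 17, .ofNat 0,
      .negSucc 17, .ofNat 9, .negSucc 2, .ofNat 4, .ofNat 0, .ofNat 0, .ofNat 0])]), (false,
      [([.ofNat 4, .ofNat 8, .ofNat 3, .negSucc 1, .ofNat 0, .ofNat 6], [.negSucc 9, .ofNat 4,
      .negSucc 1, .ofNat 3, .negSucc 0, .ofNat 0, .ofNat 0, .ofNat 0, .ofNat 0])]), (false,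
      [([.ofNat 1, .ofNat 1, .ofNat 1, .ofNat 1, .ofNat 1, .ofNat 0, .ofNat 1], [.negSucc 0,
      .negSucc 0, .negSucc 0, .ofNat 1, .ofNat 0, .ofNat 0, .ofNat 0, .ofNat 0, .ofNat 0])]),
      (true, []), (true, [])]⟩

lemma e017_2_ok : okE e017_2 = true := by decide +kernel

/-- a fibre -/
def e017_3 : Cfg :=
    ⟨[(0, 2), (1, 1), (7, 1)], [(false, []), (true, []), (false, [([.ofNat 9, .ofNat 0, .ofNat 9],
      [.ofNat 18, .negSucc 17, .negSucc 62, .ofNat 21, .ofNat 1, .ofNat 1, .ofNat 4, .ofNat 2,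
      .ofNat 0])]), (false, [([.ofNat 18, .ofNat 27, .ofNat 0, .ofNat 9], [.ofNat 0, .negSucc 35,
      .negSucc 44, .ofNat 27, .ofNat 1, .ofNat 3, .ofNat 2, .ofNat 0, .ofNat 0])]), (false,
      [([.ofNat 36, .negSucc 26, .negSucc 71, .ofNat 0, .ofNat 0], [.negSucc 17, .ofNat 72,
      .ofNat 72, .negSucc 44, .negSucc 1, .negSucc 8, .ofNat 0, .ofNat 0, .ofNat 0])]), (false,
      [([.ofNat 18, .ofNat 18, .ofNat 27, .ofNat 27, .ofNat 0, .ofNat 27], [.negSucc 35,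
      .negSucc 17, .negSucc 44, .ofNat 36, .ofNat 1, .ofNat 0, .ofNat 0, .ofNat 0, .ofNat 0])]),
      (false, [([.ofNat 1, .ofNat 1, .ofNat 1, .ofNat 1, .ofNat 1, .ofNat 0, .ofNat 1],
      [.negSucc 0, .negSucc 0, .negSucc 0, .ofNat 1, .ofNat 0, .ofNat 0, .ofNat 0, .ofNat 0,
      .ofNat 0])]), (true, []), (true, [])]⟩

lemma e017_3_ok : okE e017_3 = true := by decide +kernel

/-- the fibres with solutions -/
def E017 : List Cfg := [
    e017_0, e017_1, e017_2, e017_3]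

/-- the fibres without solutions -/
def Z017 : List Cfg := [
    ⟨[(0, 1), (1, 1), (7, 3)], [(false, [([.ofNat 36], [.negSucc 530, .negSucc 44, .ofNat 153,
      .ofNat 75, .ofNat 1, .negSucc 22, .negSucc 15, .ofNat 0, .negSucc 8, .ofNat 1])]), (true,
      []), (false, [([.ofNat 27, .ofNat 0, .ofNat 18], [.negSucc 116, .negSucc 26, .ofNat 81,
      .negSucc 11, .ofNat 2, .negSucc 6, .negSucc 4, .ofNat 0, .negSucc 1, .ofNat 0])]), (false,
      [([.ofNat 9, .ofNat 9, .ofNat 0, .ofNat 0], [.negSucc 8, .negSucc 8, .ofNat 9, .ofNat 3,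
      .ofNat 1, .negSucc 0, .negSucc 0, .ofNat 0, .ofNat 0, .ofNat 0])]), (false, [([.ofNat 36,
      .ofNat 9, .negSucc 17, .ofNat 0, .ofNat 18], [.negSucc 17, .ofNat 0, .negSucc 17, .ofNat 9,
      .negSucc 2, .ofNat 4, .ofNat 0, .ofNat 0, .ofNat 0, .ofNat 0])]), (false, [([.ofNat 4,
      .ofNat 8, .ofNat 3, .negSucc 1, .ofNat 0, .ofNat 6], [.negSucc 9, .ofNat 4, .negSucc 1,
      .ofNat 3, .negSucc 0, .ofNat 0, .ofNat 0, .ofNat 0, .ofNat 0, .ofNat 0])]), (false,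
      [([.ofNat 1, .ofNat 1, .ofNat 1, .ofNat 1, .ofNat 1, .ofNat 0, .ofNat 1], [.negSucc 0,
      .negSucc 0, .negSucc 0, .ofNat 1, .ofNat 0, .ofNat 0, .ofNat 0, .ofNat 0, .ofNat 0,
      .ofNat 0])]), (true, []), (true, [])]⟩,
    ⟨[(0, 1), (1, 2), (7, 2)], [(false, [([.ofNat 27], [.ofNat 27, .ofNat 18, .negSucc 44, .ofNat 27,
      .negSucc 2, .ofNat 0, .ofNat 1, .ofNat 3, .ofNat 0, .ofNat 1])]), (true, []), (false,
      [([.ofNat 27, .ofNat 0, .ofNat 72], [.negSucc 62, .ofNat 9, .negSucc 8, .ofNat 42,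
      .negSucc 3, .negSucc 6, .ofNat 2, .ofNat 1, .ofNat 0, .ofNat 0])]), (false, [([.ofNat 9,
      .ofNat 36, .ofNat 0, .ofNat 72], [.negSucc 71, .ofNat 0, .ofNat 0, .ofNat 45, .negSucc 2,
      .negSucc 7, .ofNat 2, .ofNat 0, .ofNat 0, .ofNat 0])]), (false, [([.ofNat 36, .ofNat 9,
      .negSucc 17, .ofNat 0, .ofNat 18], [.negSucc 17, .ofNat 0, .negSucc 17, .ofNat 9,
      .negSucc 2, .ofNat 4, .ofNat 0, .ofNat 0, .ofNat 0, .ofNat 0])]), (false, [([.ofNat 4,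
      .ofNat 8, .ofNat 3, .negSucc 1, .ofNat 0, .ofNat 6], [.negSucc 9, .ofNat 4, .negSucc 1,
      .ofNat 3, .negSucc 0, .ofNat 0, .ofNat 0, .ofNat 0, .ofNat 0, .ofNat 0])]), (false,
      [([.ofNat 1, .ofNat 1, .ofNat 1, .ofNat 1, .ofNat 1, .ofNat 0, .ofNat 1], [.negSucc 0,
      .negSucc 0, .negSucc 0, .ofNat 1, .ofNat 0, .ofNat 0, .ofNat 0, .ofNat 0, .ofNat 0,
      .ofNat 0])]), (true, []), (true, [])]⟩,
    ⟨[(0, 1), (1, 3), (7, 1)], [(false, [([.ofNat 36], [.ofNat 198, .negSucc 287, .negSucc 89,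
      .ofNat 156, .ofNat 10, .ofNat 22, .ofNat 0, .ofNat 1, .ofNat 2, .ofNat 0])]), (true, []),
      (false, [([.ofNat 54, .ofNat 0, .ofNat 108], [.negSucc 323, .ofNat 306, .ofNat 72,
      .negSucc 71, .negSucc 17, .negSucc 35, .ofNat 4, .negSucc 0, .ofNat 0, .ofNat 0])]), (false,
      [([.ofNat 9, .ofNat 36, .ofNat 0, .ofNat 72], [.negSucc 71, .ofNat 0, .ofNat 0, .ofNat 45,
      .negSucc 2, .negSucc 7, .ofNat 2, .ofNat 0, .ofNat 0, .ofNat 0])]), (false, [([.ofNat 36,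
      .ofNat 9, .negSucc 17, .ofNat 0, .ofNat 18], [.negSucc 17, .ofNat 0, .negSucc 17, .ofNat 9,
      .negSucc 2, .ofNat 4, .ofNat 0, .ofNat 0, .ofNat 0, .ofNat 0])]), (false, [([.ofNat 4,
      .ofNat 8, .ofNat 3, .negSucc 1, .ofNat 0, .ofNat 6], [.negSucc 9, .ofNat 4, .negSucc 1,
      .ofNat 3, .negSucc 0, .ofNat 0, .ofNat 0, .ofNat 0, .ofNat 0, .ofNat 0])]), (false,
      [([.ofNat 1, .ofNat 1, .ofNat 1, .ofNat 1, .ofNat 1, .ofNat 0, .ofNat 1], [.negSucc 0,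
      .negSucc 0, .negSucc 0, .ofNat 1, .ofNat 0, .ofNat 0, .ofNat 0, .ofNat 0, .ofNat 0,
      .ofNat 0])]), (true, []), (true, [])]⟩,
    ⟨[(0, 2), (1, 1), (7, 2)], [(false, [([.ofNat 9], [.ofNat 171, .negSucc 26, .negSucc 269,
      .ofNat 75, .ofNat 3, .ofNat 1, .ofNat 19, .ofNat 11, .ofNat 0, .ofNat 2])]), (true, []),
      (false, [([.ofNat 9, .ofNat 0, .ofNat 9], [.ofNat 18, .negSucc 17, .negSucc 62, .ofNat 21,
      .ofNat 1, .ofNat 1, .ofNat 4, .ofNat 2, .ofNat 0, .ofNat 0])]), (false, [([.ofNat 18,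
      .ofNat 27, .ofNat 0, .ofNat 9], [.ofNat 0, .negSucc 35, .negSucc 44, .ofNat 27, .ofNat 1,
      .ofNat 3, .ofNat 2, .ofNat 0, .ofNat 0, .ofNat 0])]), (false, [([.ofNat 36, .negSucc 26,
      .negSucc 71, .ofNat 0, .ofNat 0], [.negSucc 17, .ofNat 72, .ofNat 72, .negSucc 44,
      .negSucc 1, .negSucc 8, .ofNat 0, .ofNat 0, .ofNat 0, .ofNat 0])]), (false, [([.ofNat 18,
      .ofNat 18, .ofNat 27, .ofNat 27, .ofNat 0, .ofNat 27], [.negSucc 35, .negSucc 17,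
      .negSucc 44, .ofNat 36, .ofNat 1, .ofNat 0, .ofNat 0, .ofNat 0, .ofNat 0, .ofNat 0])]),
      (false, [([.ofNat 1, .ofNat 1, .ofNat 1, .ofNat 1, .ofNat 1, .ofNat 0, .ofNat 1],
      [.negSucc 0, .negSucc 0, .negSucc 0, .ofNat 1, .ofNat 0, .ofNat 0, .ofNat 0, .ofNat 0,
      .ofNat 0, .ofNat 0])]), (true, []), (true, [])]⟩,
    ⟨[(0, 2), (1, 2), (7, 1)], [(false, [([.ofNat 45], [.negSucc 116, .ofNat 63, .ofNat 180,
      .negSucc 20, .negSucc 2, .negSucc 6, .negSucc 18, .ofNat 2, .negSucc 4, .ofNat 0])]), (true,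
      []), (false, [([.ofNat 45, .ofNat 0, .ofNat 135], [.negSucc 143, .ofNat 36, .ofNat 45,
      .ofNat 63, .negSucc 0, .negSucc 8, .negSucc 17, .ofNat 4, .ofNat 0, .ofNat 0])]), (false,
      [([.ofNat 18, .ofNat 27, .ofNat 0, .ofNat 9], [.ofNat 0, .negSucc 35, .negSucc 44,
      .ofNat 27, .ofNat 1, .ofNat 3, .ofNat 2, .ofNat 0, .ofNat 0, .ofNat 0])]), (false,
      [([.ofNat 36, .negSucc 26, .negSucc 71, .ofNat 0, .ofNat 0], [.negSucc 17, .ofNat 72,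
      .ofNat 72, .negSucc 44, .negSucc 1, .negSucc 8, .ofNat 0, .ofNat 0, .ofNat 0, .ofNat 0])]),
      (false, [([.ofNat 18, .ofNat 18, .ofNat 27, .ofNat 27, .ofNat 0, .ofNat 27], [.negSucc 35,
      .negSucc 17, .negSucc 44, .ofNat 36, .ofNat 1, .ofNat 0, .ofNat 0, .ofNat 0, .ofNat 0,
      .ofNat 0])]), (false, [([.ofNat 1, .ofNat 1, .ofNat 1, .ofNat 1, .ofNat 1, .ofNat 0,
      .ofNat 1], [.negSucc 0, .negSucc 0, .negSucc 0, .ofNat 1, .ofNat 0, .ofNat 0, .ofNat 0,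
      .ofNat 0, .ofNat 0, .ofNat 0])]), (true, []), (true, [])]⟩,
    ⟨[(0, 3), (1, 1), (7, 1)], [(false, [([.ofNat 9], [.ofNat 333, .negSucc 152, .ofNat 504,
      .negSucc 446, .negSucc 8, .negSucc 1, .ofNat 7, .negSucc 10, .negSucc 12, .ofNat 0])]),
      (true, []), (false, [([.ofNat 117, .ofNat 0, .ofNat 135], [.ofNat 900, .negSucc 539,
      .ofNat 189, .negSucc 620, .negSucc 4, .negSucc 3, .ofNat 27, .ofNat 30, .ofNat 0,
      .ofNat 0])]), (false, [([.ofNat 135, .ofNat 144, .ofNat 0, .ofNat 0], [.negSucc 449,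
      .ofNat 0, .negSucc 431, .ofNat 513, .ofNat 10, .ofNat 2, .ofNat 9, .ofNat 0, .ofNat 0,
      .ofNat 0])]), (false, [([.ofNat 18, .ofNat 54, .ofNat 36, .ofNat 0, .ofNat 0],
      [.negSucc 233, .ofNat 36, .negSucc 179, .ofNat 234, .ofNat 4, .ofNat 1, .ofNat 0, .ofNat 0,
      .ofNat 0, .ofNat 0])]), (false, [([.ofNat 18, .ofNat 18, .ofNat 27, .ofNat 27, .ofNat 0,
      .ofNat 27], [.negSucc 35, .negSucc 17, .negSucc 44, .ofNat 36, .ofNat 1, .ofNat 0, .ofNat 0,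
      .ofNat 0, .ofNat 0, .ofNat 0])]), (false, [([.ofNat 1, .ofNat 1, .ofNat 1, .ofNat 1,
      .ofNat 1, .ofNat 0, .ofNat 1], [.negSucc 0, .negSucc 0, .negSucc 0, .ofNat 1, .ofNat 0,
      .ofNat 0, .ofNat 0, .ofNat 0, .ofNat 0, .ofNat 0])]), (true, []), (true, [])]⟩]

lemma E017_ok : E017.all okE = true := by
  simp only [E017, List.all_cons, List.all_nil, Bool.and_self,
    e017_0_ok, e017_1_ok, e017_2_ok, e017_3_ok]

lemma Z017_ok : Z017.all okZ = true := by decide +kernel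

lemma cov017 : (prods 3).all (fun a => cov E017 Z017 (([0, 1, 7] : List (Fin 9)).zip a)) = true := by
  decide +kernel

theorem typ017 : Typ [0, 1, 7] E017 Z017 := ⟨E017_ok, Z017_ok, cov017⟩

end Pool.Agent.K9
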