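import Pool.Agent.Lib_helper60.K9.T1

/-!
# A point of order nine, `d = 2`: the fibres at 0, 2
-/

set_option autoImplicit false
set_option maxRecDepth 100000

namespace Pool.Agent.K9

/-- a fibre -/
def e02_0 : Cfg :=
    ⟨[(0, 1), (2, 1)], [(false, []), (false, []), (false, []), (false, []), (false, [([.ofNat 18,
      .ofNat 9, .negSucc 8, .negSucc 17, .ofNat 0], [.negSucc 35, .ofNat 36, .ofNat 0, .negSucc 2,
      .negSucc 1])]), (false, [([.ofNat 2, .negSucc 5, .negSucc 4, .ofNat 5, .ofNat 6,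
      .negSucc 1], [.ofNat 10, .negSucc 9, .ofNat 0, .ofNat 1, .ofNat 0])]), (true, []), (false,
      [([.ofNat 1, .ofNat 0, .ofNat 1, .ofNat 1, .ofNat 1, .ofNat 1, .ofNat 1, .ofNat 1],
      [.negSucc 0, .negSucc 0, .ofNat 1, .ofNat 0, .ofNat 0])]), (true, [])]⟩

lemma e02_0_ok : okE e02_0 = true := by decide +kernel

/-- a fibre -/
def e02_1 : Cfg :=
    ⟨[(0, 1), (2, 2)], [(false, []), (false, []), (false, []), (false, [([.ofNat 9, .ofNat 27,
      .ofNat 54, .ofNat 18], [.ofNat 162, .negSucc 107, .negSucc 17, .ofNat 9, .ofNat 12,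
      .negSucc 1])]), (false, [([.ofNat 18, .ofNat 9, .negSucc 8, .negSucc 17, .ofNat 0],
      [.negSucc 35, .ofNat 36, .ofNat 0, .negSucc 2, .negSucc 1, .ofNat 0])]), (false,
      [([.ofNat 2, .negSucc 5, .negSucc 4, .ofNat 5, .ofNat 6, .negSucc 1], [.ofNat 10,
      .negSucc 9, .ofNat 0, .ofNat 1, .ofNat 0, .ofNat 0])]), (true, []), (false, [([.ofNat 1,
      .ofNat 0, .ofNat 1, .ofNat 1, .ofNat 1, .ofNat 1, .ofNat 1, .ofNat 1], [.negSucc 0,
      .negSucc 0, .ofNat 1, .ofNat 0, .ofNat 0, .ofNat 0])]), (true, [])]⟩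

lemma e02_1_ok : okE e02_1 = true := by decide +kernel

/-- a fibre -/
def e02_2 : Cfg :=
    ⟨[(0, 1), (2, 3)], [(false, []), (false, []), (false, [([.ofNat 162, .ofNat 270, .ofNat 72],
      [.ofNat 432, .negSucc 629, .ofNat 162, .ofNat 36, .ofNat 36, .negSucc 3, .ofNat 1])]),
      (false, [([.ofNat 9, .ofNat 27, .ofNat 54, .ofNat 18], [.ofNat 162, .negSucc 107,
      .negSucc 17, .ofNat 9, .ofNat 12, .negSucc 1, .ofNat 0])]), (false, [([.ofNat 18, .ofNat 9,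
      .negSucc 8, .negSucc 17, .ofNat 0], [.negSucc 35, .ofNat 36, .ofNat 0, .negSucc 2,
      .negSucc 1, .ofNat 0, .ofNat 0])]), (false, [([.ofNat 2, .negSucc 5, .negSucc 4, .ofNat 5,
      .ofNat 6, .negSucc 1], [.ofNat 10, .negSucc 9, .ofNat 0, .ofNat 1, .ofNat 0, .ofNat 0,
      .ofNat 0])]), (true, []), (false, [([.ofNat 1, .ofNat 0, .ofNat 1, .ofNat 1, .ofNat 1,
      .ofNat 1, .ofNat 1, .ofNat 1], [.negSucc 0, .negSucc 0, .ofNat 1, .ofNat 0, .ofNat 0,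
      .ofNat 0, .ofNat 0])]), (true, [])]⟩

lemma e02_2_ok : okE e02_2 = true := by decide +kernel

/-- a fibre -/
def e02_3 : Cfg :=
    ⟨[(0, 1), (2, 4)], [(false, []), (false, [([.ofNat 270, .negSucc 35], [.ofNat 8532, .ofNat 2178,
      .negSucc 5885, .ofNat 252, .ofNat 396, .negSucc 177, .negSucc 22, .negSucc 2])]), (false,
      [([.ofNat 162, .ofNat 270, .ofNat 72], [.ofNat 432, .negSucc 629, .ofNat 162, .ofNat 36,
      .ofNat 36, .negSucc 3, .ofNat 1, .ofNat 0])]), (false, [([.ofNat 9, .ofNat 27, .ofNat 54,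
      .ofNat 18], [.ofNat 162, .negSucc 107, .negSucc 17, .ofNat 9, .ofNat 12, .negSucc 1,
      .ofNat 0, .ofNat 0])]), (false, [([.ofNat 18, .ofNat 9, .negSucc 8, .negSucc 17, .ofNat 0],
      [.negSucc 35, .ofNat 36, .ofNat 0, .negSucc 2, .negSucc 1, .ofNat 0, .ofNat 0, .ofNat 0])]),
      (false, [([.ofNat 2, .negSucc 5, .negSucc 4, .ofNat 5, .ofNat 6, .negSucc 1], [.ofNat 10,
      .negSucc 9, .ofNat 0, .ofNat 1, .ofNat 0, .ofNat 0, .ofNat 0, .ofNat 0])]), (true, []),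
      (false, [([.ofNat 1, .ofNat 0, .ofNat 1, .ofNat 1, .ofNat 1, .ofNat 1, .ofNat 1, .ofNat 1],
      [.negSucc 0, .negSucc 0, .ofNat 1, .ofNat 0, .ofNat 0, .ofNat 0, .ofNat 0, .ofNat 0])]),
      (true, [])]⟩

lemma e02_3_ok : okE e02_3 = true := by decide +kernel

/-- a fibre -/
def e02_4 : Cfg :=
    ⟨[(0, 2), (2, 1)], [(false, []), (false, []), (false, []), (false, [([.ofNat 9, .ofNat 9,
      .ofNat 27, .ofNat 9], [.negSucc 17, .ofNat 18, .ofNat 18, .ofNat 1, .ofNat 0, .ofNat 0])]),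
      (false, [([.ofNat 18, .ofNat 9, .negSucc 8, .negSucc 17, .ofNat 0], [.negSucc 35, .ofNat 36,
      .ofNat 0, .ofNat 0, .negSucc 2, .negSucc 1])]), (false, [([.ofNat 2, .negSucc 5, .negSucc 4,
      .ofNat 5, .ofNat 6, .negSucc 1], [.ofNat 10, .negSucc 9, .ofNat 0, .ofNat 0, .ofNat 1,
      .ofNat 0])]), (true, []), (false, [([.ofNat 1, .ofNat 0, .ofNat 1, .ofNat 1, .ofNat 1,
      .ofNat 1, .ofNat 1, .ofNat 1], [.negSucc 0, .negSucc 0, .ofNat 1, .ofNat 0, .ofNat 0,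
      .ofNat 0])]), (true, [])]⟩

lemma e02_4_ok : okE e02_4 = true := by decide +kernel

/-- a fibre -/
def e02_5 : Cfg :=
    ⟨[(0, 2), (2, 2)], [(false, []), (false, []), (false, [([.ofNat 18, .ofNat 27, .ofNat 9],
      [.ofNat 180, .negSucc 125, .negSucc 35, .negSucc 0, .ofNat 9, .ofNat 12, .negSucc 1])]),
      (false, [([.ofNat 9, .ofNat 9, .ofNat 27, .ofNat 9], [.negSucc 17, .ofNat 18, .ofNat 18,
      .ofNat 1, .ofNat 0, .ofNat 0, .ofNat 0])]), (false, [([.ofNat 18, .ofNat 9, .negSucc 8,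
      .negSucc 17, .ofNat 0], [.negSucc 35, .ofNat 36, .ofNat 0, .ofNat 0, .negSucc 2, .negSucc 1,
      .ofNat 0])]), (false, [([.ofNat 2, .negSucc 5, .negSucc 4, .ofNat 5, .ofNat 6, .negSucc 1],
      [.ofNat 10, .negSucc 9, .ofNat 0, .ofNat 0, .ofNat 1, .ofNat 0, .ofNat 0])]), (true, []),
      (false, [([.ofNat 1, .ofNat 0, .ofNat 1, .ofNat 1, .ofNat 1, .ofNat 1, .ofNat 1, .ofNat 1],
      [.negSucc 0, .negSucc 0, .ofNat 1, .ofNat 0, .ofNat 0, .ofNat 0, .ofNat 0])]), (true, [])]⟩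

lemma e02_5_ok : okE e02_5 = true := by decide +kernel

/-- a fibre -/
def e02_6 : Cfg :=
    ⟨[(0, 2), (2, 3)], [(false, []), (false, [([.ofNat 27, .negSucc 8], [.negSucc 1187, .ofNat 504,
      .ofNat 486, .ofNat 9, .negSucc 44, .negSucc 71, .ofNat 14, .ofNat 1])]), (false,
      [([.ofNat 18, .ofNat 27, .ofNat 9], [.ofNat 180, .negSucc 125, .negSucc 35, .negSucc 0,
      .ofNat 9, .ofNat 12, .negSucc 1, .ofNat 0])]), (false, [([.ofNat 9, .ofNat 9, .ofNat 27,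
      .ofNat 9], [.negSucc 17, .ofNat 18, .ofNat 18, .ofNat 1, .ofNat 0, .ofNat 0, .ofNat 0,
      .ofNat 0])]), (false, [([.ofNat 18, .ofNat 9, .negSucc 8, .negSucc 17, .ofNat 0],
      [.negSucc 35, .ofNat 36, .ofNat 0, .ofNat 0, .negSucc 2, .negSucc 1, .ofNat 0, .ofNat 0])]),
      (false, [([.ofNat 2, .negSucc 5, .negSucc 4, .ofNat 5, .ofNat 6, .negSucc 1], [.ofNat 10,
      .negSucc 9, .ofNat 0, .ofNat 0, .ofNat 1, .ofNat 0, .ofNat 0, .ofNat 0])]), (true, []),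
      (false, [([.ofNat 1, .ofNat 0, .ofNat 1, .ofNat 1, .ofNat 1, .ofNat 1, .ofNat 1, .ofNat 1],
      [.negSucc 0, .negSucc 0, .ofNat 1, .ofNat 0, .ofNat 0, .ofNat 0, .ofNat 0, .ofNat 0])]),
      (true, [])]⟩

lemma e02_6_ok : okE e02_6 = true := by decide +kernel

/-- a fibre -/
def e02_7 : Cfg :=
    ⟨[(0, 3), (2, 1)], [(false, []), (false, []), (false, [([.ofNat 36, .ofNat 27, .ofNat 27],
      [.negSucc 71, .ofNat 378, .negSucc 71, .ofNat 7, .negSucc 0, .negSucc 8, .negSucc 17])]),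
      (false, [([.ofNat 9, .ofNat 9, .ofNat 27, .ofNat 9], [.negSucc 17, .ofNat 18, .ofNat 18,
      .ofNat 1, .ofNat 0, .ofNat 0, .ofNat 0])]), (false, [([.ofNat 162, .ofNat 144, .negSucc 53,
      .ofNat 0, .ofNat 36], [.negSucc 377, .ofNat 72, .ofNat 198, .ofNat 0, .ofNat 1, .negSucc 17,
      .ofNat 0])]), (false, [([.ofNat 36, .ofNat 54, .ofNat 54, .ofNat 36, .ofNat 108, .ofNat 0],
      [.negSucc 197, .negSucc 107, .ofNat 198, .ofNat 0, .ofNat 1, .ofNat 0, .ofNat 0])]), (true,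
      []), (false, [([.ofNat 1, .ofNat 0, .ofNat 1, .ofNat 1, .ofNat 1, .ofNat 1, .ofNat 1,
      .ofNat 1], [.negSucc 0, .negSucc 0, .ofNat 1, .ofNat 0, .ofNat 0, .ofNat 0, .ofNat 0])]),
      (true, [])]⟩

lemma e02_7_ok : okE e02_7 = true := by decide +kernel

/-- a fibre -/
def e02_8 : Cfg :=
    ⟨[(0, 3), (2, 2)], [(false, []), (false, [([.ofNat 27, .negSucc 8], [.ofNat 432, .negSucc 629,
      .ofNat 0, .negSucc 8, .ofNat 1, .ofNat 27, .ofNat 42, .negSucc 3])]), (false, [([.ofNat 36,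
      .ofNat 27, .ofNat 27], [.negSucc 71, .ofNat 378, .negSucc 71, .ofNat 7, .negSucc 0,
      .negSucc 8, .negSucc 17, .ofNat 0])]), (false, [([.ofNat 9, .ofNat 9, .ofNat 27, .ofNat 9],
      [.negSucc 17, .ofNat 18, .ofNat 18, .ofNat 1, .ofNat 0, .ofNat 0, .ofNat 0, .ofNat 0])]),
      (false, [([.ofNat 162, .ofNat 144, .negSucc 53, .ofNat 0, .ofNat 36], [.negSucc 377,
      .ofNat 72, .ofNat 198, .ofNat 0, .ofNat 1, .negSucc 17, .ofNat 0, .ofNat 0])]), (false,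
      [([.ofNat 36, .ofNat 54, .ofNat 54, .ofNat 36, .ofNat 108, .ofNat 0], [.negSucc 197,
      .negSucc 107, .ofNat 198, .ofNat 0, .ofNat 1, .ofNat 0, .ofNat 0, .ofNat 0])]), (true, []),
      (false, [([.ofNat 1, .ofNat 0, .ofNat 1, .ofNat 1, .ofNat 1, .ofNat 1, .ofNat 1, .ofNat 1],
      [.negSucc 0, .negSucc 0, .ofNat 1, .ofNat 0, .ofNat 0, .ofNat 0, .ofNat 0, .ofNat 0])]),
      (true, [])]⟩

lemma e02_8_ok : okE e02_8 = true := by decide +kernel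

/-- a fibre -/
def e02_9 : Cfg :=
    ⟨[(0, 3), (2, 3)], [(false, []), (false, [([.ofNat 27, .negSucc 8], [.ofNat 432, .negSucc 629,
      .ofNat 0, .negSucc 8, .ofNat 1, .ofNat 27, .ofNat 42, .negSucc 3, .ofNat 0])]), (false,
      [([.ofNat 36, .ofNat 27, .ofNat 27], [.negSucc 71, .ofNat 378, .negSucc 71, .ofNat 7,
      .negSucc 0, .negSucc 8, .negSucc 17, .ofNat 0, .ofNat 0])]), (false, [([.ofNat 9, .ofNat 9,
      .ofNat 27, .ofNat 9], [.negSucc 17, .ofNat 18, .ofNat 18, .ofNat 1, .ofNat 0, .ofNat 0,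
      .ofNat 0, .ofNat 0, .ofNat 0])]), (false, [([.ofNat 162, .ofNat 144, .negSucc 53, .ofNat 0,
      .ofNat 36], [.negSucc 377, .ofNat 72, .ofNat 198, .ofNat 0, .ofNat 1, .negSucc 17, .ofNat 0,
      .ofNat 0, .ofNat 0])]), (false, [([.ofNat 36, .ofNat 54, .ofNat 54, .ofNat 36, .ofNat 108,
      .ofNat 0], [.negSucc 197, .negSucc 107, .ofNat 198, .ofNat 0, .ofNat 1, .ofNat 0, .ofNat 0,
      .ofNat 0, .ofNat 0])]), (true, []), (false, [([.ofNat 1, .ofNat 0, .ofNat 1, .ofNat 1,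
      .ofNat 1, .ofNat 1, .ofNat 1, .ofNat 1], [.negSucc 0, .negSucc 0, .ofNat 1, .ofNat 0,
      .ofNat 0, .ofNat 0, .ofNat 0, .ofNat 0, .ofNat 0])]), (true, [])]⟩

lemma e02_9_ok : okE e02_9 = true := by decide +kernel

/-- a fibre -/
def e02_10 : Cfg :=
    ⟨[(0, 4), (2, 1)], [(false, []), (false, [([.ofNat 351, .negSucc 80], [.negSucc 1403, .ofNat 3186,
      .ofNat 180, .ofNat 87, .negSucc 2, .ofNat 2, .negSucc 80, .negSucc 137])]), (false,
      [([.ofNat 414, .negSucc 215, .ofNat 432], [.ofNat 1278, .negSucc 431, .negSucc 1097,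
      .negSucc 49, .negSucc 6, .negSucc 2, .ofNat 18, .ofNat 0])]), (false, [([.ofNat 9, .ofNat 9,
      .ofNat 27, .ofNat 9], [.negSucc 17, .ofNat 18, .ofNat 18, .ofNat 1, .ofNat 0, .ofNat 0,
      .ofNat 0, .ofNat 0])]), (false, [([.ofNat 54, .ofNat 198, .ofNat 270, .ofNat 378,
      .ofNat 306], [.ofNat 0, .ofNat 180, .ofNat 0, .ofNat 0, .negSucc 1, .negSucc 0, .ofNat 0,
      .ofNat 0])]), (false, [([.ofNat 36, .ofNat 54, .ofNat 54, .ofNat 36, .ofNat 108, .ofNat 0],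
      [.negSucc 197, .negSucc 107, .ofNat 198, .ofNat 0, .ofNat 1, .ofNat 0, .ofNat 0,
      .ofNat 0])]), (true, []), (false, [([.ofNat 1, .ofNat 0, .ofNat 1, .ofNat 1, .ofNat 1,
      .ofNat 1, .ofNat 1, .ofNat 1], [.negSucc 0, .negSucc 0, .ofNat 1, .ofNat 0, .ofNat 0,
      .ofNat 0, .ofNat 0, .ofNat 0])]), (true, [])]⟩

lemma e02_10_ok : okE e02_10 = true := by decide +kernel

/-- the fibres with solutions -/
def E02 : List Cfg := [
    e02_0, e02_1, e02_2, e02_3, e02_4, e02_5, e02_6, e02_7, e02_8, e02_9, e02_10]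

/-- the fibres without solutions -/
def Z02 : List Cfg := [
    ⟨[(0, 1), (2, 5)], [(false, [([.ofNat 576], [.negSucc 60911, .negSucc 30527, .ofNat 52776,
      .negSucc 1511, .negSucc 2375, .ofNat 1408, .ofNat 248, .ofNat 28, .ofNat 5])]), (false,
      [([.ofNat 270, .negSucc 35], [.ofNat 8532, .ofNat 2178, .negSucc 5885, .ofNat 252,
      .ofNat 396, .negSucc 177, .negSucc 22, .negSucc 2, .ofNat 0])]), (false, [([.ofNat 162,
      .ofNat 270, .ofNat 72], [.ofNat 432, .negSucc 629, .ofNat 162, .ofNat 36, .ofNat 36,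
      .negSucc 3, .ofNat 1, .ofNat 0, .ofNat 0])]), (false, [([.ofNat 9, .ofNat 27, .ofNat 54,
      .ofNat 18], [.ofNat 162, .negSucc 107, .negSucc 17, .ofNat 9, .ofNat 12, .negSucc 1,
      .ofNat 0, .ofNat 0, .ofNat 0])]), (false, [([.ofNat 18, .ofNat 9, .negSucc 8, .negSucc 17,
      .ofNat 0], [.negSucc 35, .ofNat 36, .ofNat 0, .negSucc 2, .negSucc 1, .ofNat 0, .ofNat 0,
      .ofNat 0, .ofNat 0])]), (false, [([.ofNat 2, .negSucc 5, .negSucc 4, .ofNat 5, .ofNat 6,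
      .negSucc 1], [.ofNat 10, .negSucc 9, .ofNat 0, .ofNat 1, .ofNat 0, .ofNat 0, .ofNat 0,
      .ofNat 0, .ofNat 0])]), (true, []), (false, [([.ofNat 1, .ofNat 0, .ofNat 1, .ofNat 1,
      .ofNat 1, .ofNat 1, .ofNat 1, .ofNat 1], [.negSucc 0, .negSucc 0, .ofNat 1, .ofNat 0,
      .ofNat 0, .ofNat 0, .ofNat 0, .ofNat 0, .ofNat 0])]), (true, [])]⟩,
    ⟨[(0, 2), (2, 4)], [(false, [([.ofNat 18], [.ofNat 6804, .negSucc 953, .negSucc 3581, .negSucc 29,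
      .ofNat 234, .ofNat 372, .negSucc 105, .negSucc 10, .negSucc 0])]), (false, [([.ofNat 27,
      .negSucc 8], [.negSucc 1187, .ofNat 504, .ofNat 486, .ofNat 9, .negSucc 44, .negSucc 71,
      .ofNat 14, .ofNat 1, .ofNat 0])]), (false, [([.ofNat 18, .ofNat 27, .ofNat 9], [.ofNat 180,
      .negSucc 125, .negSucc 35, .negSucc 0, .ofNat 9, .ofNat 12, .negSucc 1, .ofNat 0,
      .ofNat 0])]), (false, [([.ofNat 9, .ofNat 9, .ofNat 27, .ofNat 9], [.negSucc 17, .ofNat 18,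
      .ofNat 18, .ofNat 1, .ofNat 0, .ofNat 0, .ofNat 0, .ofNat 0, .ofNat 0])]), (false,
      [([.ofNat 18, .ofNat 9, .negSucc 8, .negSucc 17, .ofNat 0], [.negSucc 35, .ofNat 36,
      .ofNat 0, .ofNat 0, .negSucc 2, .negSucc 1, .ofNat 0, .ofNat 0, .ofNat 0])]), (false,
      [([.ofNat 2, .negSucc 5, .negSucc 4, .ofNat 5, .ofNat 6, .negSucc 1], [.ofNat 10,
      .negSucc 9, .ofNat 0, .ofNat 0, .ofNat 1, .ofNat 0, .ofNat 0, .ofNat 0, .ofNat 0])]), (true,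
      []), (false, [([.ofNat 1, .ofNat 0, .ofNat 1, .ofNat 1, .ofNat 1, .ofNat 1, .ofNat 1,
      .ofNat 1], [.negSucc 0, .negSucc 0, .ofNat 1, .ofNat 0, .ofNat 0, .ofNat 0, .ofNat 0,
      .ofNat 0, .ofNat 0])]), (true, [])]⟩,
    ⟨[(0, 4), (2, 2)], [(false, [([.ofNat 18], [.negSucc 3509, .ofNat 5688, .ofNat 90, .ofNat 102,
      .negSucc 7, .ofNat 1, .negSucc 215, .negSucc 341, .ofNat 26])]), (false, [([.ofNat 351,
      .negSucc 80], [.negSucc 1403, .ofNat 3186, .ofNat 180, .ofNat 87, .negSucc 2, .ofNat 2,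
      .negSucc 80, .negSucc 137, .ofNat 0])]), (false, [([.ofNat 414, .negSucc 215, .ofNat 432],
      [.ofNat 1278, .negSucc 431, .negSucc 1097, .negSucc 49, .negSucc 6, .negSucc 2, .ofNat 18,
      .ofNat 0, .ofNat 0])]), (false, [([.ofNat 9, .ofNat 9, .ofNat 27, .ofNat 9], [.negSucc 17,
      .ofNat 18, .ofNat 18, .ofNat 1, .ofNat 0, .ofNat 0, .ofNat 0, .ofNat 0, .ofNat 0])]),
      (false, [([.ofNat 54, .ofNat 198, .ofNat 270, .ofNat 378, .ofNat 306], [.ofNat 0,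
      .ofNat 180, .ofNat 0, .ofNat 0, .negSucc 1, .negSucc 0, .ofNat 0, .ofNat 0, .ofNat 0])]),
      (false, [([.ofNat 36, .ofNat 54, .ofNat 54, .ofNat 36, .ofNat 108, .ofNat 0], [.negSucc 197,
      .negSucc 107, .ofNat 198, .ofNat 0, .ofNat 1, .ofNat 0, .ofNat 0, .ofNat 0, .ofNat 0])]),
      (true, []), (false, [([.ofNat 1, .ofNat 0, .ofNat 1, .ofNat 1, .ofNat 1, .ofNat 1, .ofNat 1,
      .ofNat 1], [.negSucc 0, .negSucc 0, .ofNat 1, .ofNat 0, .ofNat 0, .ofNat 0, .ofNat 0,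
      .ofNat 0, .ofNat 0])]), (true, [])]⟩,
    ⟨[(0, 5), (2, 1)], [(false, [([.ofNat 1728], [.ofNat 16848, .negSucc 111023, .ofNat 22680,
      .negSucc 2687, .ofNat 324, .negSucc 59, .ofNat 13, .ofNat 2664, .ofNat 4296])]), (false,
      [([.ofNat 19332, .negSucc 1403], [.negSucc 47519, .negSucc 20951, .ofNat 50040, .ofNat 36,
      .ofNat 408, .ofNat 4, .ofNat 23, .ofNat 252, .ofNat 0])]), (false, [([.ofNat 252,
      .negSucc 971, .ofNat 324], [.ofNat 2844, .ofNat 648, .negSucc 2843, .negSucc 31,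
      .negSucc 21, .negSucc 1, .negSucc 0, .ofNat 0, .ofNat 0])]), (false, [([.ofNat 9, .ofNat 9,
      .ofNat 27, .ofNat 9], [.negSucc 17, .ofNat 18, .ofNat 18, .ofNat 1, .ofNat 0, .ofNat 0,
      .ofNat 0, .ofNat 0, .ofNat 0])]), (false, [([.ofNat 54, .ofNat 198, .ofNat 270, .ofNat 378,
      .ofNat 306], [.ofNat 0, .ofNat 180, .ofNat 0, .ofNat 0, .negSucc 1, .negSucc 0, .ofNat 0,
      .ofNat 0, .ofNat 0])]), (false, [([.ofNat 36, .ofNat 54, .ofNat 54, .ofNat 36, .ofNat 108,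
      .ofNat 0], [.negSucc 197, .negSucc 107, .ofNat 198, .ofNat 0, .ofNat 1, .ofNat 0, .ofNat 0,
      .ofNat 0, .ofNat 0])]), (true, []), (false, [([.ofNat 1, .ofNat 0, .ofNat 1, .ofNat 1,
      .ofNat 1, .ofNat 1, .ofNat 1, .ofNat 1], [.negSucc 0, .negSucc 0, .ofNat 1, .ofNat 0,
      .ofNat 0, .ofNat 0, .ofNat 0, .ofNat 0, .ofNat 0])]), (true, [])]⟩]

lemma E02_ok : E02.all okE = true := by
  simp only [E02, List.all_cons, List.all_nil, Bool.and_self,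
    e02_0_ok, e02_1_ok, e02_2_ok, e02_3_ok, e02_4_ok, e02_5_ok, e02_6_ok, e02_7_ok, e02_8_ok,
    e02_9_ok, e02_10_ok]

lemma Z02_ok : Z02.all okZ = true := by decide +kernel

lemma cov02 : (prods 2).all (fun a => cov E02 Z02 (([0, 2] : List (Fin 9)).zip a)) = true := by
  decide +kernel

theorem typ02 : Typ [0, 2] E02 Z02 := ⟨E02_ok, Z02_ok, cov02⟩

end Pool.Agent.K9
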