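import Pool.Agent.Lib_helper60.K9.T1

/-!
# A point of order nine, `d = 2`: the fibres at 0, 2, 4
-/

set_option autoImplicit false
set_option maxRecDepth 100000

namespace Pool.Agent.K9

/-- a fibre -/
def e024_0 : Cfg :=
    ⟨[(0, 1), (2, 1), (4, 1)], [(false, []), (false, [([.ofNat 9, .ofNat 9], [.ofNat 18, .negSucc 17,
      .ofNat 0, .ofNat 2, .ofNat 1, .ofNat 2, .ofNat 1, .ofNat 0])]), (false, [([.ofNat 9,
      .ofNat 18, .ofNat 9], [.ofNat 36, .negSucc 44, .ofNat 18, .ofNat 3, .ofNat 3, .ofNat 4,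
      .ofNat 0, .negSucc 0])]), (false, [([.ofNat 9, .negSucc 8, .negSucc 17, .ofNat 0],
      [.negSucc 35, .ofNat 36, .negSucc 17, .ofNat 0, .negSucc 2, .negSucc 1, .ofNat 0,
      .ofNat 0])]), (true, []), (false, [([.ofNat 2, .ofNat 0, .negSucc 4, .ofNat 5, .ofNat 6,
      .negSucc 1], [.ofNat 10, .negSucc 9, .ofNat 6, .ofNat 0, .ofNat 1, .ofNat 0, .ofNat 0,
      .ofNat 0])]), (true, []), (false, [([.ofNat 1, .ofNat 0, .ofNat 1, .ofNat 0, .ofNat 1,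
      .ofNat 1, .ofNat 1, .ofNat 1], [.negSucc 0, .negSucc 0, .negSucc 0, .ofNat 1, .ofNat 0,
      .ofNat 0, .ofNat 0, .ofNat 0])]), (true, [])]⟩

lemma e024_0_ok : okE e024_0 = true := by decide +kernel

/-- the fibres with solutions -/
def E024 : List Cfg := [
    e024_0]

/-- the fibres without solutions -/
def Z024 : List Cfg := [
    ⟨[(0, 1), (2, 1), (4, 2)], [(false, [([.ofNat 18], [.negSucc 17, .ofNat 72, .negSucc 44,
      .negSucc 10, .negSucc 3, .negSucc 3, .ofNat 5, .ofNat 4, .negSucc 0])]), (false,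
      [([.ofNat 9, .ofNat 9], [.ofNat 18, .negSucc 17, .ofNat 0, .ofNat 2, .ofNat 1, .ofNat 2,
      .ofNat 1, .ofNat 0, .ofNat 0])]), (false, [([.ofNat 9, .ofNat 18, .ofNat 9], [.ofNat 36,
      .negSucc 44, .ofNat 18, .ofNat 3, .ofNat 3, .ofNat 4, .ofNat 0, .negSucc 0, .ofNat 0])]),
      (false, [([.ofNat 9, .negSucc 8, .negSucc 17, .ofNat 0], [.negSucc 35, .ofNat 36,
      .negSucc 17, .ofNat 0, .negSucc 2, .negSucc 1, .ofNat 0, .ofNat 0, .ofNat 0])]), (true, []),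
      (false, [([.ofNat 2, .ofNat 0, .negSucc 4, .ofNat 5, .ofNat 6, .negSucc 1], [.ofNat 10,
      .negSucc 9, .ofNat 6, .ofNat 0, .ofNat 1, .ofNat 0, .ofNat 0, .ofNat 0, .ofNat 0])]), (true,
      []), (false, [([.ofNat 1, .ofNat 0, .ofNat 1, .ofNat 0, .ofNat 1, .ofNat 1, .ofNat 1,
      .ofNat 1], [.negSucc 0, .negSucc 0, .negSucc 0, .ofNat 1, .ofNat 0, .ofNat 0, .ofNat 0,
      .ofNat 0, .ofNat 0])]), (true, [])]⟩,
    ⟨[(0, 1), (2, 2), (4, 1)], [(false, [([.ofNat 9], [.negSucc 26, .negSucc 17, .ofNat 27, .ofNat 15,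
      .ofNat 0, .ofNat 1, .ofNat 1, .ofNat 0, .negSucc 1])]), (false, [([.ofNat 9, .ofNat 9],
      [.ofNat 18, .negSucc 17, .ofNat 0, .ofNat 2, .ofNat 1, .ofNat 2, .ofNat 0, .ofNat 1,
      .ofNat 0])]), (false, [([.ofNat 18, .ofNat 36, .ofNat 9], [.ofNat 99, .negSucc 71, .ofNat 9,
      .negSucc 8, .ofNat 6, .ofNat 7, .negSucc 0, .ofNat 0, .ofNat 0])]), (false, [([.ofNat 9,
      .negSucc 8, .negSucc 17, .ofNat 0], [.negSucc 35, .ofNat 36, .negSucc 17, .ofNat 0,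
      .negSucc 2, .negSucc 1, .ofNat 0, .ofNat 0, .ofNat 0])]), (true, []), (false, [([.ofNat 2,
      .ofNat 0, .negSucc 4, .ofNat 5, .ofNat 6, .negSucc 1], [.ofNat 10, .negSucc 9, .ofNat 6,
      .ofNat 0, .ofNat 1, .ofNat 0, .ofNat 0, .ofNat 0, .ofNat 0])]), (true, []), (false,
      [([.ofNat 1, .ofNat 0, .ofNat 1, .ofNat 0, .ofNat 1, .ofNat 1, .ofNat 1, .ofNat 1],
      [.negSucc 0, .negSucc 0, .negSucc 0, .ofNat 1, .ofNat 0, .ofNat 0, .ofNat 0, .ofNat 0,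
      .ofNat 0])]), (true, [])]⟩,
    ⟨[(0, 2), (2, 1), (4, 1)], [(false, [([.ofNat 18], [.ofNat 72, .negSucc 89, .ofNat 18, .negSucc 9,
      .negSucc 0, .ofNat 4, .ofNat 8, .ofNat 1, .negSucc 1])]), (false, [([.ofNat 9, .ofNat 9],
      [.ofNat 18, .negSucc 17, .ofNat 0, .ofNat 2, .ofNat 0, .ofNat 1, .ofNat 2, .ofNat 1,
      .ofNat 0])]), (false, [([.ofNat 18, .ofNat 45, .ofNat 9], [.ofNat 18, .negSucc 17,
      .ofNat 18, .ofNat 18, .ofNat 1, .ofNat 3, .ofNat 2, .ofNat 0, .ofNat 0])]), (false,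
      [([.ofNat 9, .ofNat 9, .ofNat 27, .ofNat 9], [.negSucc 17, .ofNat 18, .ofNat 0, .ofNat 18,
      .ofNat 1, .ofNat 0, .ofNat 0, .ofNat 0, .ofNat 0])]), (true, []), (false, [([.ofNat 2,
      .ofNat 0, .negSucc 4, .ofNat 5, .ofNat 6, .negSucc 1], [.ofNat 10, .negSucc 9, .ofNat 6,
      .ofNat 0, .ofNat 0, .ofNat 1, .ofNat 0, .ofNat 0, .ofNat 0])]), (true, []), (false,
      [([.ofNat 1, .ofNat 0, .ofNat 1, .ofNat 0, .ofNat 1, .ofNat 1, .ofNat 1, .ofNat 1],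
      [.negSucc 0, .negSucc 0, .negSucc 0, .ofNat 1, .ofNat 0, .ofNat 0, .ofNat 0, .ofNat 0,
      .ofNat 0])]), (true, [])]⟩]

lemma E024_ok : E024.all okE = true := by
  simp only [E024, List.all_cons, List.all_nil, Bool.and_self,
    e024_0_ok]

lemma Z024_ok : Z024.all okZ = true := by decide +kernel

lemma cov024 : (prods 3).all (fun a => cov E024 Z024 (([0, 2, 4] : List (Fin 9)).zip a)) = true := by
  decide +kernel

theorem typ024 : Typ [0, 2, 4] E024 Z024 := ⟨E024_ok, Z024_ok, cov024⟩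

end Pool.Agent.K9
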