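import Pool.Agent.Lib_helper60.K9.T1

/-!
# A point of order nine, `d = 2`: the fibres at 0, 2, 5
-/

set_option autoImplicit false
set_option maxRecDepth 100000

namespace Pool.Agent.K9

/-- a fibre -/
def e025_0 : Cfg :=
    ⟨[(0, 1), (2, 1), (5, 1)], [(false, []), (false, [([.ofNat 9, .ofNat 9], [.ofNat 9, .negSucc 17,
      .ofNat 0, .ofNat 3, .ofNat 1, .ofNat 2, .negSucc 0, .ofNat 0])]), (false, []), (true, []),
      (false, [([.ofNat 18, .ofNat 0, .negSucc 8, .negSucc 17, .ofNat 0], [.negSucc 35, .ofNat 36,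
      .negSucc 8, .ofNat 0, .negSucc 2, .negSucc 1, .ofNat 0, .ofNat 0])]), (false, [([.ofNat 2,
      .negSucc 5, .ofNat 0, .ofNat 5, .ofNat 6, .negSucc 1], [.ofNat 10, .negSucc 9, .ofNat 5,
      .ofNat 0, .ofNat 1, .ofNat 0, .ofNat 0, .ofNat 0])]), (true, []), (false, [([.ofNat 1,
      .ofNat 0, .ofNat 1, .ofNat 1, .ofNat 0, .ofNat 1, .ofNat 1, .ofNat 1], [.negSucc 0,
      .negSucc 0, .negSucc 0, .ofNat 1, .ofNat 0, .ofNat 0, .ofNat 0, .ofNat 0])]), (true, [])]⟩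

lemma e025_0_ok : okE e025_0 = true := by decide +kernel

/-- a fibre -/
def e025_1 : Cfg :=
    ⟨[(0, 1), (2, 1), (5, 2)], [(false, []), (false, [([.ofNat 9, .ofNat 9], [.ofNat 9, .negSucc 17,
      .ofNat 0, .ofNat 3, .ofNat 1, .ofNat 2, .negSucc 0, .ofNat 0, .ofNat 0])]), (false,
      [([.ofNat 27, .ofNat 27, .negSucc 8], [.negSucc 26, .ofNat 18, .ofNat 27, .negSucc 8,
      .ofNat 0, .negSucc 5, .ofNat 0, .ofNat 0, .negSucc 0])]), (true, []), (false, [([.ofNat 18,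
      .ofNat 0, .negSucc 8, .negSucc 17, .ofNat 0], [.negSucc 35, .ofNat 36, .negSucc 8, .ofNat 0,
      .negSucc 2, .negSucc 1, .ofNat 0, .ofNat 0, .ofNat 0])]), (false, [([.ofNat 2, .negSucc 5,
      .ofNat 0, .ofNat 5, .ofNat 6, .negSucc 1], [.ofNat 10, .negSucc 9, .ofNat 5, .ofNat 0,
      .ofNat 1, .ofNat 0, .ofNat 0, .ofNat 0, .ofNat 0])]), (true, []), (false, [([.ofNat 1,
      .ofNat 0, .ofNat 1, .ofNat 1, .ofNat 0, .ofNat 1, .ofNat 1, .ofNat 1], [.negSucc 0,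
      .negSucc 0, .negSucc 0, .ofNat 1, .ofNat 0, .ofNat 0, .ofNat 0, .ofNat 0, .ofNat 0])]),
      (true, [])]⟩

lemma e025_1_ok : okE e025_1 = true := by decide +kernel

/-- a fibre -/
def e025_2 : Cfg :=
    ⟨[(0, 1), (2, 2), (5, 1)], [(false, []), (false, [([.ofNat 9, .ofNat 9], [.ofNat 9, .negSucc 17,
      .ofNat 0, .ofNat 3, .ofNat 1, .ofNat 2, .ofNat 0, .negSucc 0, .ofNat 0])]), (false,
      [([.ofNat 27, .ofNat 54, .ofNat 18], [.ofNat 162, .negSucc 107, .negSucc 8, .negSucc 17,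
      .ofNat 9, .ofNat 12, .negSucc 1, .ofNat 0, .ofNat 0])]), (true, []), (false, [([.ofNat 18,
      .ofNat 0, .negSucc 8, .negSucc 17, .ofNat 0], [.negSucc 35, .ofNat 36, .negSucc 8, .ofNat 0,
      .negSucc 2, .negSucc 1, .ofNat 0, .ofNat 0, .ofNat 0])]), (false, [([.ofNat 2, .negSucc 5,
      .ofNat 0, .ofNat 5, .ofNat 6, .negSucc 1], [.ofNat 10, .negSucc 9, .ofNat 5, .ofNat 0,
      .ofNat 1, .ofNat 0, .ofNat 0, .ofNat 0, .ofNat 0])]), (true, []), (false, [([.ofNat 1,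
      .ofNat 0, .ofNat 1, .ofNat 1, .ofNat 0, .ofNat 1, .ofNat 1, .ofNat 1], [.negSucc 0,
      .negSucc 0, .negSucc 0, .ofNat 1, .ofNat 0, .ofNat 0, .ofNat 0, .ofNat 0, .ofNat 0])]),
      (true, [])]⟩

lemma e025_2_ok : okE e025_2 = true := by decide +kernel

/-- a fibre -/
def e025_3 : Cfg :=
    ⟨[(0, 1), (2, 2), (5, 2)], [(false, []), (false, [([.ofNat 9, .ofNat 9], [.ofNat 9, .negSucc 17,
      .ofNat 0, .ofNat 3, .ofNat 1, .ofNat 2, .ofNat 0, .negSucc 0, .ofNat 0, .ofNat 0])]),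
      (false, [([.ofNat 27, .ofNat 54, .ofNat 18], [.ofNat 162, .negSucc 107, .negSucc 8,
      .negSucc 17, .ofNat 9, .ofNat 12, .negSucc 1, .ofNat 0, .ofNat 0, .ofNat 0])]), (true, []),
      (false, [([.ofNat 18, .ofNat 0, .negSucc 8, .negSucc 17, .ofNat 0], [.negSucc 35, .ofNat 36,
      .negSucc 8, .ofNat 0, .negSucc 2, .negSucc 1, .ofNat 0, .ofNat 0, .ofNat 0, .ofNat 0])]),
      (false, [([.ofNat 2, .negSucc 5, .ofNat 0, .ofNat 5, .ofNat 6, .negSucc 1], [.ofNat 10,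
      .negSucc 9, .ofNat 5, .ofNat 0, .ofNat 1, .ofNat 0, .ofNat 0, .ofNat 0, .ofNat 0,
      .ofNat 0])]), (true, []), (false, [([.ofNat 1, .ofNat 0, .ofNat 1, .ofNat 1, .ofNat 0,
      .ofNat 1, .ofNat 1, .ofNat 1], [.negSucc 0, .negSucc 0, .negSucc 0, .ofNat 1, .ofNat 0,
      .ofNat 0, .ofNat 0, .ofNat 0, .ofNat 0, .ofNat 0])]), (true, [])]⟩

lemma e025_3_ok : okE e025_3 = true := by decide +kernel

/-- a fibre -/
def e025_4 : Cfg :=
    ⟨[(0, 2), (2, 1), (5, 1)], [(false, []), (false, [([.ofNat 9, .ofNat 9], [.ofNat 9, .negSucc 17,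
      .ofNat 0, .ofNat 3, .ofNat 0, .ofNat 1, .ofNat 2, .negSucc 0, .ofNat 0])]), (false,
      [([.ofNat 9, .ofNat 27, .ofNat 9], [.negSucc 17, .ofNat 18, .negSucc 8, .ofNat 18, .ofNat 1,
      .ofNat 0, .ofNat 0, .ofNat 0, .ofNat 0])]), (true, []), (false, [([.ofNat 18, .ofNat 0,
      .negSucc 8, .negSucc 17, .ofNat 0], [.negSucc 35, .ofNat 36, .negSucc 8, .ofNat 0, .ofNat 0,
      .negSucc 2, .negSucc 1, .ofNat 0, .ofNat 0])]), (false, [([.ofNat 2, .negSucc 5, .ofNat 0,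
      .ofNat 5, .ofNat 6, .negSucc 1], [.ofNat 10, .negSucc 9, .ofNat 5, .ofNat 0, .ofNat 0,
      .ofNat 1, .ofNat 0, .ofNat 0, .ofNat 0])]), (true, []), (false, [([.ofNat 1, .ofNat 0,
      .ofNat 1, .ofNat 1, .ofNat 0, .ofNat 1, .ofNat 1, .ofNat 1], [.negSucc 0, .negSucc 0,
      .negSucc 0, .ofNat 1, .ofNat 0, .ofNat 0, .ofNat 0, .ofNat 0, .ofNat 0])]), (true, [])]⟩

lemma e025_4_ok : okE e025_4 = true := by decide +kernel

/-- the fibres with solutions -/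
def E025 : List Cfg := [
    e025_0, e025_1, e025_2, e025_3, e025_4]

/-- the fibres without solutions -/
def Z025 : List Cfg := [
    ⟨[(0, 1), (2, 1), (5, 3)], [(false, [([.ofNat 144], [.ofNat 324, .negSucc 431, .ofNat 90,
      .negSucc 53, .ofNat 24, .ofNat 48, .negSucc 14, .ofNat 0, .ofNat 5, .negSucc 0])]), (false,
      [([.ofNat 9, .ofNat 9], [.ofNat 9, .negSucc 17, .ofNat 0, .ofNat 3, .ofNat 1, .ofNat 2,
      .negSucc 0, .ofNat 0, .ofNat 0, .ofNat 0])]), (false, [([.ofNat 27, .ofNat 27, .negSucc 8],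
      [.negSucc 26, .ofNat 18, .ofNat 27, .negSucc 8, .ofNat 0, .negSucc 5, .ofNat 0, .ofNat 0,
      .negSucc 0, .ofNat 0])]), (true, []), (false, [([.ofNat 18, .ofNat 0, .negSucc 8,
      .negSucc 17, .ofNat 0], [.negSucc 35, .ofNat 36, .negSucc 8, .ofNat 0, .negSucc 2,
      .negSucc 1, .ofNat 0, .ofNat 0, .ofNat 0, .ofNat 0])]), (false, [([.ofNat 2, .negSucc 5,
      .ofNat 0, .ofNat 5, .ofNat 6, .negSucc 1], [.ofNat 10, .negSucc 9, .ofNat 5, .ofNat 0,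
      .ofNat 1, .ofNat 0, .ofNat 0, .ofNat 0, .ofNat 0, .ofNat 0])]), (true, []), (false,
      [([.ofNat 1, .ofNat 0, .ofNat 1, .ofNat 1, .ofNat 0, .ofNat 1, .ofNat 1, .ofNat 1],
      [.negSucc 0, .negSucc 0, .negSucc 0, .ofNat 1, .ofNat 0, .ofNat 0, .ofNat 0, .ofNat 0,
      .ofNat 0, .ofNat 0])]), (true, [])]⟩,
    ⟨[(0, 1), (2, 3), (5, 1)], [(false, [([.ofNat 18], [.negSucc 485, .negSucc 89, .ofNat 54,
      .ofNat 288, .negSucc 11, .negSucc 23, .ofNat 8, .ofNat 1, .negSucc 5, .ofNat 0])]), (false,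
      [([.ofNat 54, .ofNat 36], [.ofNat 540, .negSucc 17, .negSucc 53, .negSucc 269, .ofNat 18,
      .ofNat 36, .negSucc 7, .negSucc 0, .ofNat 0, .ofNat 0])]), (false, [([.ofNat 27, .ofNat 54,
      .ofNat 18], [.ofNat 162, .negSucc 107, .negSucc 8, .negSucc 17, .ofNat 9, .ofNat 12,
      .negSucc 1, .ofNat 0, .ofNat 0, .ofNat 0])]), (true, []), (false, [([.ofNat 18, .ofNat 0,
      .negSucc 8, .negSucc 17, .ofNat 0], [.negSucc 35, .ofNat 36, .negSucc 8, .ofNat 0,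
      .negSucc 2, .negSucc 1, .ofNat 0, .ofNat 0, .ofNat 0, .ofNat 0])]), (false, [([.ofNat 2,
      .negSucc 5, .ofNat 0, .ofNat 5, .ofNat 6, .negSucc 1], [.ofNat 10, .negSucc 9, .ofNat 5,
      .ofNat 0, .ofNat 1, .ofNat 0, .ofNat 0, .ofNat 0, .ofNat 0, .ofNat 0])]), (true, []),
      (false, [([.ofNat 1, .ofNat 0, .ofNat 1, .ofNat 1, .ofNat 0, .ofNat 1, .ofNat 1, .ofNat 1],
      [.negSucc 0, .negSucc 0, .negSucc 0, .ofNat 1, .ofNat 0, .ofNat 0, .ofNat 0, .ofNat 0,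
      .ofNat 0, .ofNat 0])]), (true, [])]⟩,
    ⟨[(0, 2), (2, 1), (5, 2)], [(false, [([.ofNat 18], [.ofNat 81, .negSucc 143, .ofNat 54,
      .negSucc 44, .negSucc 2, .ofNat 6, .ofNat 6, .negSucc 5, .ofNat 0, .negSucc 0])]), (false,
      [([.ofNat 9, .ofNat 9], [.ofNat 9, .negSucc 17, .ofNat 0, .ofNat 3, .ofNat 0, .ofNat 1,
      .ofNat 2, .negSucc 0, .ofNat 0, .ofNat 0])]), (false, [([.ofNat 9, .ofNat 27, .ofNat 9],
      [.negSucc 17, .ofNat 18, .negSucc 8, .ofNat 18, .ofNat 1, .ofNat 0, .ofNat 0, .ofNat 0,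
      .ofNat 0, .ofNat 0])]), (true, []), (false, [([.ofNat 18, .ofNat 0, .negSucc 8, .negSucc 17,
      .ofNat 0], [.negSucc 35, .ofNat 36, .negSucc 8, .ofNat 0, .ofNat 0, .negSucc 2, .negSucc 1,
      .ofNat 0, .ofNat 0, .ofNat 0])]), (false, [([.ofNat 2, .negSucc 5, .ofNat 0, .ofNat 5,
      .ofNat 6, .negSucc 1], [.ofNat 10, .negSucc 9, .ofNat 5, .ofNat 0, .ofNat 0, .ofNat 1,
      .ofNat 0, .ofNat 0, .ofNat 0, .ofNat 0])]), (true, []), (false, [([.ofNat 1, .ofNat 0,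
      .ofNat 1, .ofNat 1, .ofNat 0, .ofNat 1, .ofNat 1, .ofNat 1], [.negSucc 0, .negSucc 0,
      .negSucc 0, .ofNat 1, .ofNat 0, .ofNat 0, .ofNat 0, .ofNat 0, .ofNat 0, .ofNat 0])]), (true,
      [])]⟩,
    ⟨[(0, 2), (2, 2), (5, 1)], [(false, [([.ofNat 18], [.ofNat 243, .negSucc 215, .ofNat 18,
      .negSucc 62, .negSucc 2, .ofNat 12, .ofNat 18, .negSucc 1, .negSucc 2, .ofNat 0])]), (false,
      [([.ofNat 27, .ofNat 9], [.negSucc 215, .ofNat 162, .negSucc 17, .ofNat 72, .ofNat 3,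
      .negSucc 8, .negSucc 11, .ofNat 2, .ofNat 0, .ofNat 0])]), (false, [([.ofNat 9, .ofNat 27,
      .ofNat 9], [.negSucc 17, .ofNat 18, .negSucc 8, .ofNat 18, .ofNat 1, .ofNat 0, .ofNat 0,
      .ofNat 0, .ofNat 0, .ofNat 0])]), (true, []), (false, [([.ofNat 18, .ofNat 0, .negSucc 8,
      .negSucc 17, .ofNat 0], [.negSucc 35, .ofNat 36, .negSucc 8, .ofNat 0, .ofNat 0, .negSucc 2,
      .negSucc 1, .ofNat 0, .ofNat 0, .ofNat 0])]), (false, [([.ofNat 2, .negSucc 5, .ofNat 0,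
      .ofNat 5, .ofNat 6, .negSucc 1], [.ofNat 10, .negSucc 9, .ofNat 5, .ofNat 0, .ofNat 0,
      .ofNat 1, .ofNat 0, .ofNat 0, .ofNat 0, .ofNat 0])]), (true, []), (false, [([.ofNat 1,
      .ofNat 0, .ofNat 1, .ofNat 1, .ofNat 0, .ofNat 1, .ofNat 1, .ofNat 1], [.negSucc 0,
      .negSucc 0, .negSucc 0, .ofNat 1, .ofNat 0, .ofNat 0, .ofNat 0, .ofNat 0, .ofNat 0,
      .ofNat 0])]), (true, [])]⟩,
    ⟨[(0, 3), (2, 1), (5, 1)], [(false, [([.ofNat 72], [.ofNat 81, .ofNat 144, .ofNat 36,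
      .negSucc 116, .ofNat 3, .negSucc 0, .ofNat 0, .ofNat 0, .negSucc 8, .ofNat 0])]), (false,
      [([.ofNat 81, .ofNat 9], [.ofNat 0, .negSucc 305, .negSucc 35, .ofNat 144, .negSucc 2,
      .ofNat 1, .ofNat 9, .ofNat 18, .ofNat 0, .ofNat 0])]), (false, [([.ofNat 9, .ofNat 27,
      .ofNat 9], [.negSucc 17, .ofNat 18, .negSucc 8, .ofNat 18, .ofNat 1, .ofNat 0, .ofNat 0,
      .ofNat 0, .ofNat 0, .ofNat 0])]), (true, []), (false, [([.ofNat 162, .ofNat 0, .negSucc 53,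
      .ofNat 0, .ofNat 36], [.negSucc 377, .ofNat 72, .negSucc 143, .ofNat 198, .ofNat 0,
      .ofNat 1, .negSucc 17, .ofNat 0, .ofNat 0, .ofNat 0])]), (false, [([.ofNat 36, .ofNat 54,
      .ofNat 0, .ofNat 36, .ofNat 108, .ofNat 0], [.negSucc 197, .negSucc 107, .negSucc 53,
      .ofNat 198, .ofNat 0, .ofNat 1, .ofNat 0, .ofNat 0, .ofNat 0, .ofNat 0])]), (true, []),
      (false, [([.ofNat 1, .ofNat 0, .ofNat 1, .ofNat 1, .ofNat 0, .ofNat 1, .ofNat 1, .ofNat 1],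
      [.negSucc 0, .negSucc 0, .negSucc 0, .ofNat 1, .ofNat 0, .ofNat 0, .ofNat 0, .ofNat 0,
      .ofNat 0, .ofNat 0])]), (true, [])]⟩]

lemma E025_ok : E025.all okE = true := by
  simp only [E025, List.all_cons, List.all_nil, Bool.and_self,
    e025_0_ok, e025_1_ok, e025_2_ok, e025_3_ok, e025_4_ok]

lemma Z025_ok : Z025.all okZ = true := by decide +kernel

lemma cov025 : (prods 3).all (fun a => cov E025 Z025 (([0, 2, 5] : List (Fin 9)).zip a)) = true := by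
  decide +kernel

theorem typ025 : Typ [0, 2, 5] E025 Z025 := ⟨E025_ok, Z025_ok, cov025⟩

end Pool.Agent.K9
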