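import Pool.Agent.Lib_helper60.K9.T1

/-!
# A point of order nine, `d = 2`: the fibres at 0, 2, 6
-/

set_option autoImplicit false
set_option maxRecDepth 100000

namespace Pool.Agent.K9

/-- a fibre -/
def e026_0 : Cfg :=
    ⟨[(0, 1), (2, 1), (6, 1)], [(false, []), (false, []), (true, []), (false, [([.ofNat 9, .ofNat 0,
      .ofNat 18, .ofNat 18], [.ofNat 18, .negSucc 35, .ofNat 9, .ofNat 6, .ofNat 3, .ofNat 4,
      .negSucc 1, .ofNat 0])]), (false, [([.ofNat 18, .ofNat 9, .ofNat 0, .negSucc 17, .ofNat 0],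
      [.negSucc 35, .ofNat 36, .ofNat 9, .ofNat 0, .negSucc 2, .negSucc 1, .ofNat 0, .ofNat 0])]),
      (false, [([.ofNat 2, .negSucc 5, .negSucc 4, .ofNat 0, .ofNat 6, .negSucc 1], [.ofNat 10,
      .negSucc 9, .negSucc 4, .ofNat 0, .ofNat 1, .ofNat 0, .ofNat 0, .ofNat 0])]), (true, []),
      (false, [([.ofNat 1, .ofNat 0, .ofNat 1, .ofNat 1, .ofNat 1, .ofNat 0, .ofNat 1, .ofNat 1],
      [.negSucc 0, .negSucc 0, .negSucc 0, .ofNat 1, .ofNat 0, .ofNat 0, .ofNat 0, .ofNat 0])]),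
      (true, [])]⟩

lemma e026_0_ok : okE e026_0 = true := by decide +kernel

/-- a fibre -/
def e026_1 : Cfg :=
    ⟨[(0, 1), (2, 1), (6, 2)], [(false, []), (false, [([.ofNat 18, .negSucc 17], [.ofNat 54,
      .negSucc 53, .negSucc 26, .ofNat 15, .ofNat 3, .ofNat 4, .ofNat 1, .ofNat 0, .ofNat 1])]),
      (true, []), (false, [([.ofNat 9, .ofNat 0, .ofNat 18, .ofNat 18], [.ofNat 18, .negSucc 35,
      .ofNat 9, .ofNat 6, .ofNat 3, .ofNat 4, .negSucc 1, .ofNat 0, .ofNat 0])]), (false,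
      [([.ofNat 18, .ofNat 9, .ofNat 0, .negSucc 17, .ofNat 0], [.negSucc 35, .ofNat 36, .ofNat 9,
      .ofNat 0, .negSucc 2, .negSucc 1, .ofNat 0, .ofNat 0, .ofNat 0])]), (false, [([.ofNat 2,
      .negSucc 5, .negSucc 4, .ofNat 0, .ofNat 6, .negSucc 1], [.ofNat 10, .negSucc 9, .negSucc 4,
      .ofNat 0, .ofNat 1, .ofNat 0, .ofNat 0, .ofNat 0, .ofNat 0])]), (true, []), (false,
      [([.ofNat 1, .ofNat 0, .ofNat 1, .ofNat 1, .ofNat 1, .ofNat 0, .ofNat 1, .ofNat 1],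
      [.negSucc 0, .negSucc 0, .negSucc 0, .ofNat 1, .ofNat 0, .ofNat 0, .ofNat 0, .ofNat 0,
      .ofNat 0])]), (true, [])]⟩

lemma e026_1_ok : okE e026_1 = true := by decide +kernel

/-- a fibre -/
def e026_2 : Cfg :=
    ⟨[(0, 1), (2, 2), (6, 1)], [(false, []), (false, [([.ofNat 18, .ofNat 0], [.ofNat 72, .negSucc 35,
      .negSucc 17, .negSucc 11, .ofNat 3, .ofNat 4, .negSucc 0, .ofNat 1, .ofNat 0])]), (true,
      []), (false, [([.ofNat 9, .ofNat 0, .ofNat 54, .ofNat 18], [.ofNat 162, .negSucc 107,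
      .negSucc 26, .negSucc 17, .ofNat 9, .ofNat 12, .negSucc 1, .ofNat 0, .ofNat 0])]), (false,
      [([.ofNat 18, .ofNat 9, .ofNat 0, .negSucc 17, .ofNat 0], [.negSucc 35, .ofNat 36, .ofNat 9,
      .ofNat 0, .negSucc 2, .negSucc 1, .ofNat 0, .ofNat 0, .ofNat 0])]), (false, [([.ofNat 2,
      .negSucc 5, .negSucc 4, .ofNat 0, .ofNat 6, .negSucc 1], [.ofNat 10, .negSucc 9, .negSucc 4,
      .ofNat 0, .ofNat 1, .ofNat 0, .ofNat 0, .ofNat 0, .ofNat 0])]), (true, []), (false,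
      [([.ofNat 1, .ofNat 0, .ofNat 1, .ofNat 1, .ofNat 1, .ofNat 0, .ofNat 1, .ofNat 1],
      [.negSucc 0, .negSucc 0, .negSucc 0, .ofNat 1, .ofNat 0, .ofNat 0, .ofNat 0, .ofNat 0,
      .ofNat 0])]), (true, [])]⟩

lemma e026_2_ok : okE e026_2 = true := by decide +kernel

/-- a fibre -/
def e026_3 : Cfg :=
    ⟨[(0, 2), (2, 1), (6, 1)], [(false, []), (false, [([.ofNat 9, .negSucc 8], [.negSucc 35,
      .ofNat 54, .negSucc 17, .ofNat 12, .ofNat 1, .negSucc 2, .negSucc 3, .ofNat 2, .ofNat 0])]),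
      (true, []), (false, [([.ofNat 9, .ofNat 0, .ofNat 27, .ofNat 9], [.negSucc 17, .ofNat 18,
      .negSucc 8, .ofNat 18, .ofNat 1, .ofNat 0, .ofNat 0, .ofNat 0, .ofNat 0])]), (false,
      [([.ofNat 18, .ofNat 9, .ofNat 0, .negSucc 17, .ofNat 0], [.negSucc 35, .ofNat 36, .ofNat 9,
      .ofNat 0, .ofNat 0, .negSucc 2, .negSucc 1, .ofNat 0, .ofNat 0])]), (false, [([.ofNat 2,
      .negSucc 5, .negSucc 4, .ofNat 0, .ofNat 6, .negSucc 1], [.ofNat 10, .negSucc 9, .negSucc 4,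
      .ofNat 0, .ofNat 0, .ofNat 1, .ofNat 0, .ofNat 0, .ofNat 0])]), (true, []), (false,
      [([.ofNat 1, .ofNat 0, .ofNat 1, .ofNat 1, .ofNat 1, .ofNat 0, .ofNat 1, .ofNat 1],
      [.negSucc 0, .negSucc 0, .negSucc 0, .ofNat 1, .ofNat 0, .ofNat 0, .ofNat 0, .ofNat 0,
      .ofNat 0])]), (true, [])]⟩

lemma e026_3_ok : okE e026_3 = true := by decide +kernel

/-- a fibre -/
def e026_4 : Cfg :=
    ⟨[(0, 2), (2, 1), (6, 2)], [(false, []), (false, [([.ofNat 9, .negSucc 8], [.negSucc 35,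
      .ofNat 54, .negSucc 17, .ofNat 12, .ofNat 1, .negSucc 2, .negSucc 3, .ofNat 2, .ofNat 0,
      .ofNat 0])]), (true, []), (false, [([.ofNat 9, .ofNat 0, .ofNat 27, .ofNat 9], [.negSucc 17,
      .ofNat 18, .negSucc 8, .ofNat 18, .ofNat 1, .ofNat 0, .ofNat 0, .ofNat 0, .ofNat 0,
      .ofNat 0])]), (false, [([.ofNat 18, .ofNat 9, .ofNat 0, .negSucc 17, .ofNat 0],
      [.negSucc 35, .ofNat 36, .ofNat 9, .ofNat 0, .ofNat 0, .negSucc 2, .negSucc 1, .ofNat 0,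
      .ofNat 0, .ofNat 0])]), (false, [([.ofNat 2, .negSucc 5, .negSucc 4, .ofNat 0, .ofNat 6,
      .negSucc 1], [.ofNat 10, .negSucc 9, .negSucc 4, .ofNat 0, .ofNat 0, .ofNat 1, .ofNat 0,
      .ofNat 0, .ofNat 0, .ofNat 0])]), (true, []), (false, [([.ofNat 1, .ofNat 0, .ofNat 1,
      .ofNat 1, .ofNat 1, .ofNat 0, .ofNat 1, .ofNat 1], [.negSucc 0, .negSucc 0, .negSucc 0,
      .ofNat 1, .ofNat 0, .ofNat 0, .ofNat 0, .ofNat 0, .ofNat 0, .ofNat 0])]), (true, [])]⟩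

lemma e026_4_ok : okE e026_4 = true := by decide +kernel

/-- the fibres with solutions -/
def E026 : List Cfg := [
    e026_0, e026_1, e026_2, e026_3, e026_4]

/-- the fibres without solutions -/
def Z026 : List Cfg := [
    ⟨[(0, 1), (2, 1), (6, 3)], [(false, [([.ofNat 432], [.negSucc 287, .ofNat 108, .ofNat 207,
      .ofNat 45, .ofNat 9, .ofNat 0, .negSucc 32, .ofNat 0, .negSucc 10, .ofNat 1])]), (false,
      [([.ofNat 18, .negSucc 17], [.ofNat 54, .negSucc 53, .negSucc 26, .ofNat 15, .ofNat 3,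
      .ofNat 4, .ofNat 1, .ofNat 0, .ofNat 1, .ofNat 0])]), (true, []), (false, [([.ofNat 9,
      .ofNat 0, .ofNat 18, .ofNat 18], [.ofNat 18, .negSucc 35, .ofNat 9, .ofNat 6, .ofNat 3,
      .ofNat 4, .negSucc 1, .ofNat 0, .ofNat 0, .ofNat 0])]), (false, [([.ofNat 18, .ofNat 9,
      .ofNat 0, .negSucc 17, .ofNat 0], [.negSucc 35, .ofNat 36, .ofNat 9, .ofNat 0, .negSucc 2,
      .negSucc 1, .ofNat 0, .ofNat 0, .ofNat 0, .ofNat 0])]), (false, [([.ofNat 2, .negSucc 5,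
      .negSucc 4, .ofNat 0, .ofNat 6, .negSucc 1], [.ofNat 10, .negSucc 9, .negSucc 4, .ofNat 0,
      .ofNat 1, .ofNat 0, .ofNat 0, .ofNat 0, .ofNat 0, .ofNat 0])]), (true, []), (false,
      [([.ofNat 1, .ofNat 0, .ofNat 1, .ofNat 1, .ofNat 1, .ofNat 0, .ofNat 1, .ofNat 1],
      [.negSucc 0, .negSucc 0, .negSucc 0, .ofNat 1, .ofNat 0, .ofNat 0, .ofNat 0, .ofNat 0,
      .ofNat 0, .ofNat 0])]), (true, [])]⟩,
    ⟨[(0, 1), (2, 2), (6, 2)], [(false, [([.ofNat 18], [.ofNat 18, .ofNat 18, .ofNat 9, .negSucc 26,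
      .ofNat 0, .ofNat 0, .negSucc 0, .ofNat 0, .ofNat 0, .negSucc 0])]), (false, [([.ofNat 18,
      .ofNat 0], [.ofNat 72, .negSucc 35, .negSucc 17, .negSucc 11, .ofNat 3, .ofNat 4,
      .negSucc 0, .ofNat 1, .ofNat 0, .ofNat 0])]), (true, []), (false, [([.ofNat 9, .ofNat 0,
      .ofNat 54, .ofNat 18], [.ofNat 162, .negSucc 107, .negSucc 26, .negSucc 17, .ofNat 9,
      .ofNat 12, .negSucc 1, .ofNat 0, .ofNat 0, .ofNat 0])]), (false, [([.ofNat 18, .ofNat 9,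
      .ofNat 0, .negSucc 17, .ofNat 0], [.negSucc 35, .ofNat 36, .ofNat 9, .ofNat 0, .negSucc 2,
      .negSucc 1, .ofNat 0, .ofNat 0, .ofNat 0, .ofNat 0])]), (false, [([.ofNat 2, .negSucc 5,
      .negSucc 4, .ofNat 0, .ofNat 6, .negSucc 1], [.ofNat 10, .negSucc 9, .negSucc 4, .ofNat 0,
      .ofNat 1, .ofNat 0, .ofNat 0, .ofNat 0, .ofNat 0, .ofNat 0])]), (true, []), (false,
      [([.ofNat 1, .ofNat 0, .ofNat 1, .ofNat 1, .ofNat 1, .ofNat 0, .ofNat 1, .ofNat 1],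
      [.negSucc 0, .negSucc 0, .negSucc 0, .ofNat 1, .ofNat 0, .ofNat 0, .ofNat 0, .ofNat 0,
      .ofNat 0, .ofNat 0])]), (true, [])]⟩,
    ⟨[(0, 1), (2, 3), (6, 1)], [(false, [([.ofNat 72], [.negSucc 647, .negSucc 89, .ofNat 108,
      .ofNat 342, .negSucc 8, .negSucc 23, .ofNat 11, .ofNat 1, .negSucc 14, .ofNat 0])]), (false,
      [([.ofNat 270, .ofNat 72], [.ofNat 432, .negSucc 629, .negSucc 161, .ofNat 162, .ofNat 36,
      .ofNat 36, .negSucc 3, .ofNat 1, .ofNat 0, .ofNat 0])]), (true, []), (false, [([.ofNat 9,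
      .ofNat 0, .ofNat 54, .ofNat 18], [.ofNat 162, .negSucc 107, .negSucc 26, .negSucc 17,
      .ofNat 9, .ofNat 12, .negSucc 1, .ofNat 0, .ofNat 0, .ofNat 0])]), (false, [([.ofNat 18,
      .ofNat 9, .ofNat 0, .negSucc 17, .ofNat 0], [.negSucc 35, .ofNat 36, .ofNat 9, .ofNat 0,
      .negSucc 2, .negSucc 1, .ofNat 0, .ofNat 0, .ofNat 0, .ofNat 0])]), (false, [([.ofNat 2,
      .negSucc 5, .negSucc 4, .ofNat 0, .ofNat 6, .negSucc 1], [.ofNat 10, .negSucc 9, .negSucc 4,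
      .ofNat 0, .ofNat 1, .ofNat 0, .ofNat 0, .ofNat 0, .ofNat 0, .ofNat 0])]), (true, []),
      (false, [([.ofNat 1, .ofNat 0, .ofNat 1, .ofNat 1, .ofNat 1, .ofNat 0, .ofNat 1, .ofNat 1],
      [.negSucc 0, .negSucc 0, .negSucc 0, .ofNat 1, .ofNat 0, .ofNat 0, .ofNat 0, .ofNat 0,
      .ofNat 0, .ofNat 0])]), (true, [])]⟩,
    ⟨[(0, 2), (2, 2), (6, 1)], [(false, [([.ofNat 18], [.ofNat 144, .negSucc 143, .ofNat 18,
      .negSucc 35, .negSucc 1, .ofNat 9, .ofNat 12, .negSucc 0, .negSucc 2, .ofNat 0])]), (false,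
      [([.ofNat 27, .ofNat 9], [.ofNat 180, .negSucc 125, .negSucc 17, .negSucc 35, .negSucc 0,
      .ofNat 9, .ofNat 12, .negSucc 1, .ofNat 0, .ofNat 0])]), (true, []), (false, [([.ofNat 9,
      .ofNat 0, .ofNat 27, .ofNat 9], [.negSucc 17, .ofNat 18, .negSucc 8, .ofNat 18, .ofNat 1,
      .ofNat 0, .ofNat 0, .ofNat 0, .ofNat 0, .ofNat 0])]), (false, [([.ofNat 18, .ofNat 9,
      .ofNat 0, .negSucc 17, .ofNat 0], [.negSucc 35, .ofNat 36, .ofNat 9, .ofNat 0, .ofNat 0,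
      .negSucc 2, .negSucc 1, .ofNat 0, .ofNat 0, .ofNat 0])]), (false, [([.ofNat 2, .negSucc 5,
      .negSucc 4, .ofNat 0, .ofNat 6, .negSucc 1], [.ofNat 10, .negSucc 9, .negSucc 4, .ofNat 0,
      .ofNat 0, .ofNat 1, .ofNat 0, .ofNat 0, .ofNat 0, .ofNat 0])]), (true, []), (false,
      [([.ofNat 1, .ofNat 0, .ofNat 1, .ofNat 1, .ofNat 1, .ofNat 0, .ofNat 1, .ofNat 1],
      [.negSucc 0, .negSucc 0, .negSucc 0, .ofNat 1, .ofNat 0, .ofNat 0, .ofNat 0, .ofNat 0,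
      .ofNat 0, .ofNat 0])]), (true, [])]⟩,
    ⟨[(0, 3), (2, 1), (6, 1)], [(false, [([.ofNat 54], [.ofNat 36, .ofNat 216, .ofNat 18,
      .negSucc 107, .ofNat 4, .negSucc 0, .ofNat 0, .negSucc 5, .negSucc 5, .ofNat 0])]), (false,
      [([.ofNat 27, .ofNat 27], [.negSucc 71, .ofNat 378, .negSucc 35, .negSucc 71, .ofNat 7,
      .negSucc 0, .negSucc 8, .negSucc 17, .ofNat 0, .ofNat 0])]), (true, []), (false,
      [([.ofNat 9, .ofNat 0, .ofNat 27, .ofNat 9], [.negSucc 17, .ofNat 18, .negSucc 8, .ofNat 18,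
      .ofNat 1, .ofNat 0, .ofNat 0, .ofNat 0, .ofNat 0, .ofNat 0])]), (false, [([.ofNat 162,
      .ofNat 144, .ofNat 0, .ofNat 0, .ofNat 36], [.negSucc 377, .ofNat 72, .ofNat 54, .ofNat 198,
      .ofNat 0, .ofNat 1, .negSucc 17, .ofNat 0, .ofNat 0, .ofNat 0])]), (false, [([.ofNat 36,
      .ofNat 54, .ofNat 54, .ofNat 0, .ofNat 108, .ofNat 0], [.negSucc 197, .negSucc 107,
      .negSucc 35, .ofNat 198, .ofNat 0, .ofNat 1, .ofNat 0, .ofNat 0, .ofNat 0, .ofNat 0])]),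
      (true, []), (false, [([.ofNat 1, .ofNat 0, .ofNat 1, .ofNat 1, .ofNat 1, .ofNat 0, .ofNat 1,
      .ofNat 1], [.negSucc 0, .negSucc 0, .negSucc 0, .ofNat 1, .ofNat 0, .ofNat 0, .ofNat 0,
      .ofNat 0, .ofNat 0, .ofNat 0])]), (true, [])]⟩]

lemma E026_ok : E026.all okE = true := by
  simp only [E026, List.all_cons, List.all_nil, Bool.and_self,
    e026_0_ok, e026_1_ok, e026_2_ok, e026_3_ok, e026_4_ok]

lemma Z026_ok : Z026.all okZ = true := by decide +kernel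

lemma cov026 : (prods 3).all (fun a => cov E026 Z026 (([0, 2, 6] : List (Fin 9)).zip a)) = true := by
  decide +kernel

theorem typ026 : Typ [0, 2, 6] E026 Z026 := ⟨E026_ok, Z026_ok, cov026⟩

end Pool.Agent.K9
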