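import Pool.Agent.Lib_helper60.K9.T1

/-!
# A point of order nine, `d = 2`: the fibres at 0, 3
-/

set_option autoImplicit false
set_option maxRecDepth 100000

namespace Pool.Agent.K9

/-- a fibre -/
def e03_0 : Cfg :=
    ⟨[(0, 1), (3, 1)], [(false, []), (false, []), (false, []), (false, []), (false, []), (true, []),
      (false, [([.ofNat 6, .ofNat 0, .ofNat 0, .negSucc 2, .ofNat 3, .ofNat 9, .ofNat 6],
      [.ofNat 6, .negSucc 11, .ofNat 3, .ofNat 1, .ofNat 0])]), (false, [([.ofNat 1, .ofNat 1,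
      .ofNat 0, .ofNat 1, .ofNat 1, .ofNat 1, .ofNat 1, .ofNat 1], [.negSucc 0, .negSucc 0,
      .ofNat 1, .ofNat 0, .ofNat 0])]), (true, [])]⟩

lemma e03_0_ok : okE e03_0 = true := by decide +kernel

/-- a fibre -/
def e03_1 : Cfg :=
    ⟨[(0, 1), (3, 2)], [(false, []), (false, []), (false, []), (false, []), (false, [([.ofNat 27,
      .ofNat 54, .ofNat 18, .ofNat 0, .ofNat 0], [.negSucc 35, .ofNat 27, .ofNat 0, .negSucc 2,
      .ofNat 0, .negSucc 0])]), (true, []), (false, [([.ofNat 6, .ofNat 0, .ofNat 0, .negSucc 2,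
      .ofNat 3, .ofNat 9, .ofNat 6], [.ofNat 6, .negSucc 11, .ofNat 3, .ofNat 1, .ofNat 0,
      .ofNat 0])]), (false, [([.ofNat 1, .ofNat 1, .ofNat 0, .ofNat 1, .ofNat 1, .ofNat 1,
      .ofNat 1, .ofNat 1], [.negSucc 0, .negSucc 0, .ofNat 1, .ofNat 0, .ofNat 0, .ofNat 0])]),
      (true, [])]⟩

lemma e03_1_ok : okE e03_1 = true := by decide +kernel

/-- a fibre -/
def e03_2 : Cfg :=
    ⟨[(0, 1), (3, 3)], [(false, []), (false, []), (false, []), (false, [([.ofNat 162, .ofNat 54,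
      .ofNat 108, .ofNat 54], [.ofNat 36, .negSucc 197, .ofNat 144, .ofNat 6, .ofNat 0,
      .negSucc 3, .ofNat 1])]), (false, [([.ofNat 27, .ofNat 54, .ofNat 18, .ofNat 0, .ofNat 0],
      [.negSucc 35, .ofNat 27, .ofNat 0, .negSucc 2, .ofNat 0, .negSucc 0, .ofNat 0])]), (true,
      []), (false, [([.ofNat 6, .ofNat 0, .ofNat 0, .negSucc 2, .ofNat 3, .ofNat 9, .ofNat 6],
      [.ofNat 6, .negSucc 11, .ofNat 3, .ofNat 1, .ofNat 0, .ofNat 0, .ofNat 0])]), (false,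
      [([.ofNat 1, .ofNat 1, .ofNat 0, .ofNat 1, .ofNat 1, .ofNat 1, .ofNat 1, .ofNat 1],
      [.negSucc 0, .negSucc 0, .ofNat 1, .ofNat 0, .ofNat 0, .ofNat 0, .ofNat 0])]), (true, [])]⟩

lemma e03_2_ok : okE e03_2 = true := by decide +kernel

/-- a fibre -/
def e03_3 : Cfg :=
    ⟨[(0, 1), (3, 4)], [(false, []), (false, []), (false, [([.ofNat 144, .ofNat 324, .ofNat 162],
      [.ofNat 360, .negSucc 809, .ofNat 486, .ofNat 36, .ofNat 0, .ofNat 10, .ofNat 3,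
      .ofNat 1])]), (false, [([.ofNat 162, .ofNat 54, .ofNat 108, .ofNat 54], [.ofNat 36,
      .negSucc 197, .ofNat 144, .ofNat 6, .ofNat 0, .negSucc 3, .ofNat 1, .ofNat 0])]), (false,
      [([.ofNat 27, .ofNat 54, .ofNat 18, .ofNat 0, .ofNat 0], [.negSucc 35, .ofNat 27, .ofNat 0,
      .negSucc 2, .ofNat 0, .negSucc 0, .ofNat 0, .ofNat 0])]), (true, []), (false, [([.ofNat 6,
      .ofNat 0, .ofNat 0, .negSucc 2, .ofNat 3, .ofNat 9, .ofNat 6], [.ofNat 6, .negSucc 11,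
      .ofNat 3, .ofNat 1, .ofNat 0, .ofNat 0, .ofNat 0, .ofNat 0])]), (false, [([.ofNat 1,
      .ofNat 1, .ofNat 0, .ofNat 1, .ofNat 1, .ofNat 1, .ofNat 1, .ofNat 1], [.negSucc 0,
      .negSucc 0, .ofNat 1, .ofNat 0, .ofNat 0, .ofNat 0, .ofNat 0, .ofNat 0])]), (true, [])]⟩

lemma e03_3_ok : okE e03_3 = true := by decide +kernel

/-- a fibre -/
def e03_4 : Cfg :=
    ⟨[(0, 1), (3, 5)], [(false, []), (false, [([.ofNat 324, .ofNat 0], [.ofNat 1008, .negSucc 2303,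
      .ofNat 1656, .ofNat 72, .ofNat 0, .ofNat 20, .ofNat 16, .ofNat 2, .ofNat 1])]), (false,
      [([.ofNat 144, .ofNat 324, .ofNat 162], [.ofNat 360, .negSucc 809, .ofNat 486, .ofNat 36,
      .ofNat 0, .ofNat 10, .ofNat 3, .ofNat 1, .ofNat 0])]), (false, [([.ofNat 162, .ofNat 54,
      .ofNat 108, .ofNat 54], [.ofNat 36, .negSucc 197, .ofNat 144, .ofNat 6, .ofNat 0,
      .negSucc 3, .ofNat 1, .ofNat 0, .ofNat 0])]), (false, [([.ofNat 27, .ofNat 54, .ofNat 18,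
      .ofNat 0, .ofNat 0], [.negSucc 35, .ofNat 27, .ofNat 0, .negSucc 2, .ofNat 0, .negSucc 0,
      .ofNat 0, .ofNat 0, .ofNat 0])]), (true, []), (false, [([.ofNat 6, .ofNat 0, .ofNat 0,
      .negSucc 2, .ofNat 3, .ofNat 9, .ofNat 6], [.ofNat 6, .negSucc 11, .ofNat 3, .ofNat 1,
      .ofNat 0, .ofNat 0, .ofNat 0, .ofNat 0, .ofNat 0])]), (false, [([.ofNat 1, .ofNat 1,
      .ofNat 0, .ofNat 1, .ofNat 1, .ofNat 1, .ofNat 1, .ofNat 1], [.negSucc 0, .negSucc 0,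
      .ofNat 1, .ofNat 0, .ofNat 0, .ofNat 0, .ofNat 0, .ofNat 0, .ofNat 0])]), (true, [])]⟩

lemma e03_4_ok : okE e03_4 = true := by decide +kernel

/-- a fibre -/
def e03_5 : Cfg :=
    ⟨[(0, 2), (3, 1)], [(false, []), (false, []), (false, [([.ofNat 18, .ofNat 54, .ofNat 27],
      [.ofNat 0, .negSucc 35, .ofNat 27, .ofNat 1, .ofNat 3, .ofNat 0])]), (false, []), (false,
      []), (true, []), (false, [([.ofNat 18, .ofNat 0, .ofNat 0, .negSucc 8, .negSucc 8,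
      .negSucc 26, .negSucc 8], [.ofNat 18, .ofNat 0, .negSucc 17, .negSucc 0, .ofNat 0,
      .ofNat 0])]), (false, [([.ofNat 1, .ofNat 1, .ofNat 0, .ofNat 1, .ofNat 1, .ofNat 1,
      .ofNat 1, .ofNat 1], [.negSucc 0, .negSucc 0, .ofNat 1, .ofNat 0, .ofNat 0, .ofNat 0])]),
      (true, [])]⟩

lemma e03_5_ok : okE e03_5 = true := by decide +kernel

/-- a fibre -/
def e03_6 : Cfg :=
    ⟨[(0, 2), (3, 2)], [(false, []), (false, []), (false, [([.ofNat 18, .ofNat 54, .ofNat 27],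
      [.ofNat 0, .negSucc 35, .ofNat 27, .ofNat 1, .ofNat 3, .ofNat 0, .ofNat 0])]), (false, []),
      (false, [([.ofNat 27, .ofNat 54, .ofNat 36, .ofNat 54, .ofNat 27], [.negSucc 35, .negSucc 8,
      .ofNat 27, .ofNat 1, .ofNat 0, .ofNat 0, .negSucc 0])]), (true, []), (false, [([.ofNat 18,
      .ofNat 0, .ofNat 0, .negSucc 8, .negSucc 8, .negSucc 26, .negSucc 8], [.ofNat 18, .ofNat 0,
      .negSucc 17, .negSucc 0, .ofNat 0, .ofNat 0, .ofNat 0])]), (false, [([.ofNat 1, .ofNat 1,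
      .ofNat 0, .ofNat 1, .ofNat 1, .ofNat 1, .ofNat 1, .ofNat 1], [.negSucc 0, .negSucc 0,
      .ofNat 1, .ofNat 0, .ofNat 0, .ofNat 0, .ofNat 0])]), (true, [])]⟩

lemma e03_6_ok : okE e03_6 = true := by decide +kernel

/-- a fibre -/
def e03_7 : Cfg :=
    ⟨[(0, 2), (3, 3)], [(false, []), (false, []), (false, [([.ofNat 18, .ofNat 54, .ofNat 27],
      [.ofNat 0, .negSucc 35, .ofNat 27, .ofNat 1, .ofNat 3, .ofNat 0, .ofNat 0, .ofNat 0])]),
      (false, [([.ofNat 162, .ofNat 18, .ofNat 0, .ofNat 0], [.ofNat 36, .negSucc 125, .ofNat 90,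
      .negSucc 1, .ofNat 0, .ofNat 0, .negSucc 3, .ofNat 1])]), (false, [([.ofNat 27, .ofNat 54,
      .ofNat 36, .ofNat 54, .ofNat 27], [.negSucc 35, .negSucc 8, .ofNat 27, .ofNat 1, .ofNat 0,
      .ofNat 0, .negSucc 0, .ofNat 0])]), (true, []), (false, [([.ofNat 18, .ofNat 0, .ofNat 0,
      .negSucc 8, .negSucc 8, .negSucc 26, .negSucc 8], [.ofNat 18, .ofNat 0, .negSucc 17,
      .negSucc 0, .ofNat 0, .ofNat 0, .ofNat 0, .ofNat 0])]), (false, [([.ofNat 1, .ofNat 1,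
      .ofNat 0, .ofNat 1, .ofNat 1, .ofNat 1, .ofNat 1, .ofNat 1], [.negSucc 0, .negSucc 0,
      .ofNat 1, .ofNat 0, .ofNat 0, .ofNat 0, .ofNat 0, .ofNat 0])]), (true, [])]⟩

lemma e03_7_ok : okE e03_7 = true := by decide +kernel

/-- a fibre -/
def e03_8 : Cfg :=
    ⟨[(0, 2), (3, 4)], [(false, []), (false, [([.ofNat 108, .ofNat 54], [.negSucc 359, .ofNat 522,
      .negSucc 269, .ofNat 8, .negSucc 11, .ofNat 0, .negSucc 9, .negSucc 2, .negSucc 0])]),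
      (false, [([.ofNat 18, .ofNat 54, .ofNat 27], [.ofNat 0, .negSucc 35, .ofNat 27, .ofNat 1,
      .ofNat 3, .ofNat 0, .ofNat 0, .ofNat 0, .ofNat 0])]), (false, [([.ofNat 162, .ofNat 18,
      .ofNat 0, .ofNat 0], [.ofNat 36, .negSucc 125, .ofNat 90, .negSucc 1, .ofNat 0, .ofNat 0,
      .negSucc 3, .ofNat 1, .ofNat 0])]), (false, [([.ofNat 27, .ofNat 54, .ofNat 36, .ofNat 54,
      .ofNat 27], [.negSucc 35, .negSucc 8, .ofNat 27, .ofNat 1, .ofNat 0, .ofNat 0, .negSucc 0,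
      .ofNat 0, .ofNat 0])]), (true, []), (false, [([.ofNat 18, .ofNat 0, .ofNat 0, .negSucc 8,
      .negSucc 8, .negSucc 26, .negSucc 8], [.ofNat 18, .ofNat 0, .negSucc 17, .negSucc 0,
      .ofNat 0, .ofNat 0, .ofNat 0, .ofNat 0, .ofNat 0])]), (false, [([.ofNat 1, .ofNat 1,
      .ofNat 0, .ofNat 1, .ofNat 1, .ofNat 1, .ofNat 1, .ofNat 1], [.negSucc 0, .negSucc 0,
      .ofNat 1, .ofNat 0, .ofNat 0, .ofNat 0, .ofNat 0, .ofNat 0, .ofNat 0])]), (true, [])]⟩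

lemma e03_8_ok : okE e03_8 = true := by decide +kernel

/-- a fibre -/
def e03_9 : Cfg :=
    ⟨[(0, 3), (3, 1)], [(false, []), (false, []), (false, [([.ofNat 18, .ofNat 54, .ofNat 27],
      [.ofNat 0, .negSucc 35, .ofNat 27, .ofNat 1, .ofNat 0, .ofNat 3, .ofNat 0])]), (false, []),
      (false, [([.ofNat 54, .ofNat 108, .ofNat 90, .ofNat 270, .ofNat 54], [.negSucc 305,
      .negSucc 35, .ofNat 306, .ofNat 6, .ofNat 1, .ofNat 0, .ofNat 0])]), (true, []), (false,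
      [([.ofNat 18, .ofNat 0, .ofNat 0, .negSucc 8, .negSucc 8, .negSucc 26, .negSucc 8],
      [.ofNat 18, .ofNat 0, .negSucc 17, .negSucc 0, .ofNat 0, .ofNat 0, .ofNat 0])]), (false,
      [([.ofNat 1, .ofNat 1, .ofNat 0, .ofNat 1, .ofNat 1, .ofNat 1, .ofNat 1, .ofNat 1],
      [.negSucc 0, .negSucc 0, .ofNat 1, .ofNat 0, .ofNat 0, .ofNat 0, .ofNat 0])]), (true, [])]⟩

lemma e03_9_ok : okE e03_9 = true := by decide +kernel

/-- a fibre -/
def e03_10 : Cfg :=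
    ⟨[(0, 3), (3, 2)], [(false, []), (false, [([.ofNat 108, .negSucc 26], [.negSucc 233, .ofNat 18,
      .ofNat 225, .ofNat 3, .ofNat 1, .negSucc 2, .ofNat 0, .ofNat 2])]), (false, [([.ofNat 18,
      .ofNat 54, .ofNat 27], [.ofNat 0, .negSucc 35, .ofNat 27, .ofNat 1, .ofNat 0, .ofNat 3,
      .ofNat 0, .ofNat 0])]), (false, []), (false, [([.ofNat 54, .ofNat 108, .ofNat 90,
      .ofNat 270, .ofNat 54], [.negSucc 305, .negSucc 35, .ofNat 306, .ofNat 6, .ofNat 1,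
      .ofNat 0, .ofNat 0, .ofNat 0])]), (true, []), (false, [([.ofNat 18, .ofNat 0, .ofNat 0,
      .negSucc 8, .negSucc 8, .negSucc 26, .negSucc 8], [.ofNat 18, .ofNat 0, .negSucc 17,
      .negSucc 0, .ofNat 0, .ofNat 0, .ofNat 0, .ofNat 0])]), (false, [([.ofNat 1, .ofNat 1,
      .ofNat 0, .ofNat 1, .ofNat 1, .ofNat 1, .ofNat 1, .ofNat 1], [.negSucc 0, .negSucc 0,
      .ofNat 1, .ofNat 0, .ofNat 0, .ofNat 0, .ofNat 0, .ofNat 0])]), (true, [])]⟩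

lemma e03_10_ok : okE e03_10 = true := by decide +kernel

/-- a fibre -/
def e03_11 : Cfg :=
    ⟨[(0, 3), (3, 3)], [(false, []), (false, [([.ofNat 108, .negSucc 26], [.negSucc 233, .ofNat 18,
      .ofNat 225, .ofNat 3, .ofNat 1, .negSucc 2, .ofNat 0, .ofNat 2, .ofNat 0])]), (false,
      [([.ofNat 18, .ofNat 54, .ofNat 27], [.ofNat 0, .negSucc 35, .ofNat 27, .ofNat 1, .ofNat 0,
      .ofNat 3, .ofNat 0, .ofNat 0, .ofNat 0])]), (false, [([.ofNat 162, .ofNat 54, .ofNat 324,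
      .ofNat 0], [.negSucc 431, .negSucc 161, .ofNat 594, .ofNat 6, .ofNat 2, .ofNat 0, .ofNat 0,
      .ofNat 0, .ofNat 1])]), (false, [([.ofNat 54, .ofNat 108, .ofNat 90, .ofNat 270, .ofNat 54],
      [.negSucc 305, .negSucc 35, .ofNat 306, .ofNat 6, .ofNat 1, .ofNat 0, .ofNat 0, .ofNat 0,
      .ofNat 0])]), (true, []), (false, [([.ofNat 18, .ofNat 0, .ofNat 0, .negSucc 8, .negSucc 8,
      .negSucc 26, .negSucc 8], [.ofNat 18, .ofNat 0, .negSucc 17, .negSucc 0, .ofNat 0, .ofNat 0,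
      .ofNat 0, .ofNat 0, .ofNat 0])]), (false, [([.ofNat 1, .ofNat 1, .ofNat 0, .ofNat 1,
      .ofNat 1, .ofNat 1, .ofNat 1, .ofNat 1], [.negSucc 0, .negSucc 0, .ofNat 1, .ofNat 0,
      .ofNat 0, .ofNat 0, .ofNat 0, .ofNat 0, .ofNat 0])]), (true, [])]⟩

lemma e03_11_ok : okE e03_11 = true := by decide +kernel

/-- a fibre -/
def e03_12 : Cfg :=
    ⟨[(0, 4), (3, 1)], [(false, []), (false, [([.ofNat 432, .negSucc 26], [.negSucc 485, .negSucc 215,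
      .ofNat 621, .ofNat 21, .ofNat 3, .ofNat 1, .ofNat 15, .ofNat 0])]), (false, [([.ofNat 90,
      .negSucc 161, .ofNat 162], [.ofNat 486, .ofNat 36, .negSucc 485, .negSucc 15, .negSucc 2,
      .negSucc 0, .ofNat 0, .ofNat 0])]), (false, []), (false, [([.ofNat 54, .ofNat 108,
      .ofNat 90, .ofNat 270, .ofNat 54], [.negSucc 305, .negSucc 35, .ofNat 306, .ofNat 6,
      .ofNat 1, .ofNat 0, .ofNat 0, .ofNat 0])]), (true, []), (false, [([.ofNat 18, .ofNat 0,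
      .ofNat 0, .negSucc 8, .negSucc 8, .negSucc 26, .negSucc 8], [.ofNat 18, .ofNat 0,
      .negSucc 17, .negSucc 0, .ofNat 0, .ofNat 0, .ofNat 0, .ofNat 0])]), (false, [([.ofNat 1,
      .ofNat 1, .ofNat 0, .ofNat 1, .ofNat 1, .ofNat 1, .ofNat 1, .ofNat 1], [.negSucc 0,
      .negSucc 0, .ofNat 1, .ofNat 0, .ofNat 0, .ofNat 0, .ofNat 0, .ofNat 0])]), (true, [])]⟩

lemma e03_12_ok : okE e03_12 = true := by decide +kernel

/-- a fibre -/
def e03_13 : Cfg :=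
    ⟨[(0, 4), (3, 2)], [(false, [([.ofNat 81], [.ofNat 450, .negSucc 287, .negSucc 278, .ofNat 9,
      .negSucc 0, .ofNat 1, .ofNat 27, .ofNat 0, .negSucc 7])]), (false, [([.ofNat 432,
      .negSucc 26], [.negSucc 485, .negSucc 215, .ofNat 621, .ofNat 21, .ofNat 3, .ofNat 1,
      .ofNat 15, .ofNat 0, .ofNat 0])]), (false, [([.ofNat 90, .negSucc 161, .ofNat 162],
      [.ofNat 486, .ofNat 36, .negSucc 485, .negSucc 15, .negSucc 2, .negSucc 0, .ofNat 0,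
      .ofNat 0, .ofNat 0])]), (false, []), (false, [([.ofNat 54, .ofNat 108, .ofNat 90,
      .ofNat 270, .ofNat 54], [.negSucc 305, .negSucc 35, .ofNat 306, .ofNat 6, .ofNat 1,
      .ofNat 0, .ofNat 0, .ofNat 0, .ofNat 0])]), (true, []), (false, [([.ofNat 18, .ofNat 0,
      .ofNat 0, .negSucc 8, .negSucc 8, .negSucc 26, .negSucc 8], [.ofNat 18, .ofNat 0,
      .negSucc 17, .negSucc 0, .ofNat 0, .ofNat 0, .ofNat 0, .ofNat 0, .ofNat 0])]), (false,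
      [([.ofNat 1, .ofNat 1, .ofNat 0, .ofNat 1, .ofNat 1, .ofNat 1, .ofNat 1, .ofNat 1],
      [.negSucc 0, .negSucc 0, .ofNat 1, .ofNat 0, .ofNat 0, .ofNat 0, .ofNat 0, .ofNat 0,
      .ofNat 0])]), (true, [])]⟩

lemma e03_13_ok : okE e03_13 = true := by decide +kernel

/-- a fibre -/
def e03_14 : Cfg :=
    ⟨[(0, 5), (3, 1)], [(false, []), (false, [([.ofNat 432, .negSucc 26], [.negSucc 485, .negSucc 215,
      .ofNat 621, .ofNat 21, .ofNat 3, .ofNat 1, .ofNat 0, .ofNat 15, .ofNat 0])]), (false,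
      [([.ofNat 90, .negSucc 161, .ofNat 162], [.ofNat 486, .ofNat 36, .negSucc 485, .negSucc 15,
      .negSucc 2, .negSucc 0, .ofNat 0, .ofNat 0, .ofNat 0])]), (false, [([.ofNat 324, .ofNat 252,
      .ofNat 1620, .ofNat 324], [.negSucc 2519, .ofNat 72, .ofNat 2520, .ofNat 36, .ofNat 16,
      .ofNat 0, .ofNat 1, .ofNat 0, .ofNat 0])]), (false, [([.ofNat 54, .ofNat 108, .ofNat 90,
      .ofNat 270, .ofNat 54], [.negSucc 305, .negSucc 35, .ofNat 306, .ofNat 6, .ofNat 1,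
      .ofNat 0, .ofNat 0, .ofNat 0, .ofNat 0])]), (true, []), (false, [([.ofNat 18, .ofNat 0,
      .ofNat 0, .negSucc 8, .negSucc 8, .negSucc 26, .negSucc 8], [.ofNat 18, .ofNat 0,
      .negSucc 17, .negSucc 0, .ofNat 0, .ofNat 0, .ofNat 0, .ofNat 0, .ofNat 0])]), (false,
      [([.ofNat 1, .ofNat 1, .ofNat 0, .ofNat 1, .ofNat 1, .ofNat 1, .ofNat 1, .ofNat 1],
      [.negSucc 0, .negSucc 0, .ofNat 1, .ofNat 0, .ofNat 0, .ofNat 0, .ofNat 0, .ofNat 0,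
      .ofNat 0])]), (true, [])]⟩

lemma e03_14_ok : okE e03_14 = true := by decide +kernel

/-- the fibres with solutions -/
def E03 : List Cfg := [
    e03_0, e03_1, e03_2, e03_3, e03_4, e03_5, e03_6, e03_7, e03_8, e03_9, e03_10, e03_11, e03_12,
    e03_13, e03_14]

/-- the fibres without solutions -/
def Z03 : List Cfg := [
    ⟨[(0, 1), (3, 6)], [(false, [([.ofNat 1620], [.negSucc 1439, .ofNat 10836, .negSucc 10835,
      .ofNat 0, .ofNat 0, .negSucc 475, .negSucc 117, .negSucc 49, .negSucc 6, .negSucc 2])]),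
      (false, [([.ofNat 324, .ofNat 0], [.ofNat 1008, .negSucc 2303, .ofNat 1656, .ofNat 72,
      .ofNat 0, .ofNat 20, .ofNat 16, .ofNat 2, .ofNat 1, .ofNat 0])]), (false, [([.ofNat 144,
      .ofNat 324, .ofNat 162], [.ofNat 360, .negSucc 809, .ofNat 486, .ofNat 36, .ofNat 0,
      .ofNat 10, .ofNat 3, .ofNat 1, .ofNat 0, .ofNat 0])]), (false, [([.ofNat 162, .ofNat 54,
      .ofNat 108, .ofNat 54], [.ofNat 36, .negSucc 197, .ofNat 144, .ofNat 6, .ofNat 0,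
      .negSucc 3, .ofNat 1, .ofNat 0, .ofNat 0, .ofNat 0])]), (false, [([.ofNat 27, .ofNat 54,
      .ofNat 18, .ofNat 0, .ofNat 0], [.negSucc 35, .ofNat 27, .ofNat 0, .negSucc 2, .ofNat 0,
      .negSucc 0, .ofNat 0, .ofNat 0, .ofNat 0, .ofNat 0])]), (true, []), (false, [([.ofNat 6,
      .ofNat 0, .ofNat 0, .negSucc 2, .ofNat 3, .ofNat 9, .ofNat 6], [.ofNat 6, .negSucc 11,
      .ofNat 3, .ofNat 1, .ofNat 0, .ofNat 0, .ofNat 0, .ofNat 0, .ofNat 0, .ofNat 0])]), (false,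
      [([.ofNat 1, .ofNat 1, .ofNat 0, .ofNat 1, .ofNat 1, .ofNat 1, .ofNat 1, .ofNat 1],
      [.negSucc 0, .negSucc 0, .ofNat 1, .ofNat 0, .ofNat 0, .ofNat 0, .ofNat 0, .ofNat 0,
      .ofNat 0, .ofNat 0])]), (true, [])]⟩,
    ⟨[(0, 2), (3, 5)], [(false, [([.ofNat 162], [.negSucc 2087, .ofNat 3870, .negSucc 2465, .ofNat 24,
      .negSucc 107, .ofNat 0, .negSucc 49, .negSucc 24, .negSucc 4, .negSucc 0])]), (false,
      [([.ofNat 108, .ofNat 54], [.negSucc 359, .ofNat 522, .negSucc 269, .ofNat 8, .negSucc 11,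
      .ofNat 0, .negSucc 9, .negSucc 2, .negSucc 0, .ofNat 0])]), (false, [([.ofNat 18, .ofNat 54,
      .ofNat 27], [.ofNat 0, .negSucc 35, .ofNat 27, .ofNat 1, .ofNat 3, .ofNat 0, .ofNat 0,
      .ofNat 0, .ofNat 0, .ofNat 0])]), (false, [([.ofNat 162, .ofNat 18, .ofNat 0, .ofNat 0],
      [.ofNat 36, .negSucc 125, .ofNat 90, .negSucc 1, .ofNat 0, .ofNat 0, .negSucc 3, .ofNat 1,
      .ofNat 0, .ofNat 0])]), (false, [([.ofNat 27, .ofNat 54, .ofNat 36, .ofNat 54, .ofNat 27],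
      [.negSucc 35, .negSucc 8, .ofNat 27, .ofNat 1, .ofNat 0, .ofNat 0, .negSucc 0, .ofNat 0,
      .ofNat 0, .ofNat 0])]), (true, []), (false, [([.ofNat 18, .ofNat 0, .ofNat 0, .negSucc 8,
      .negSucc 8, .negSucc 26, .negSucc 8], [.ofNat 18, .ofNat 0, .negSucc 17, .negSucc 0,
      .ofNat 0, .ofNat 0, .ofNat 0, .ofNat 0, .ofNat 0, .ofNat 0])]), (false, [([.ofNat 1,
      .ofNat 1, .ofNat 0, .ofNat 1, .ofNat 1, .ofNat 1, .ofNat 1, .ofNat 1], [.negSucc 0,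
      .negSucc 0, .ofNat 1, .ofNat 0, .ofNat 0, .ofNat 0, .ofNat 0, .ofNat 0, .ofNat 0,
      .ofNat 0])]), (true, [])]⟩,
    ⟨[(0, 3), (3, 4)], [(false, [([.ofNat 81], [.negSucc 125, .ofNat 504, .negSucc 494, .ofNat 5,
      .negSucc 0, .negSucc 8, .ofNat 0, .negSucc 11, .negSucc 2, .negSucc 0])]), (false,
      [([.ofNat 108, .negSucc 26], [.negSucc 233, .ofNat 18, .ofNat 225, .ofNat 3, .ofNat 1,
      .negSucc 2, .ofNat 0, .ofNat 2, .ofNat 0, .ofNat 0])]), (false, [([.ofNat 18, .ofNat 54,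
      .ofNat 27], [.ofNat 0, .negSucc 35, .ofNat 27, .ofNat 1, .ofNat 0, .ofNat 3, .ofNat 0,
      .ofNat 0, .ofNat 0, .ofNat 0])]), (false, [([.ofNat 162, .ofNat 54, .ofNat 324, .ofNat 0],
      [.negSucc 431, .negSucc 161, .ofNat 594, .ofNat 6, .ofNat 2, .ofNat 0, .ofNat 0, .ofNat 0,
      .ofNat 1, .ofNat 0])]), (false, [([.ofNat 54, .ofNat 108, .ofNat 90, .ofNat 270, .ofNat 54],
      [.negSucc 305, .negSucc 35, .ofNat 306, .ofNat 6, .ofNat 1, .ofNat 0, .ofNat 0, .ofNat 0,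
      .ofNat 0, .ofNat 0])]), (true, []), (false, [([.ofNat 18, .ofNat 0, .ofNat 0, .negSucc 8,
      .negSucc 8, .negSucc 26, .negSucc 8], [.ofNat 18, .ofNat 0, .negSucc 17, .negSucc 0,
      .ofNat 0, .ofNat 0, .ofNat 0, .ofNat 0, .ofNat 0, .ofNat 0])]), (false, [([.ofNat 1,
      .ofNat 1, .ofNat 0, .ofNat 1, .ofNat 1, .ofNat 1, .ofNat 1, .ofNat 1], [.negSucc 0,
      .negSucc 0, .ofNat 1, .ofNat 0, .ofNat 0, .ofNat 0, .ofNat 0, .ofNat 0, .ofNat 0,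
      .ofNat 0])]), (true, [])]⟩,
    ⟨[(0, 4), (3, 3)], [(false, [([.ofNat 81], [.ofNat 450, .negSucc 287, .negSucc 278, .ofNat 9,
      .negSucc 0, .ofNat 1, .ofNat 27, .ofNat 0, .negSucc 7, .ofNat 0])]), (false, [([.ofNat 432,
      .negSucc 26], [.negSucc 485, .negSucc 215, .ofNat 621, .ofNat 21, .ofNat 3, .ofNat 1,
      .ofNat 15, .ofNat 0, .ofNat 0, .ofNat 0])]), (false, [([.ofNat 90, .negSucc 161,
      .ofNat 162], [.ofNat 486, .ofNat 36, .negSucc 485, .negSucc 15, .negSucc 2, .negSucc 0,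
      .ofNat 0, .ofNat 0, .ofNat 0, .ofNat 0])]), (false, [([.ofNat 162, .ofNat 54, .ofNat 324,
      .ofNat 0], [.negSucc 431, .negSucc 161, .ofNat 594, .ofNat 6, .ofNat 2, .ofNat 0, .ofNat 0,
      .ofNat 0, .ofNat 0, .ofNat 1])]), (false, [([.ofNat 54, .ofNat 108, .ofNat 90, .ofNat 270,
      .ofNat 54], [.negSucc 305, .negSucc 35, .ofNat 306, .ofNat 6, .ofNat 1, .ofNat 0, .ofNat 0,
      .ofNat 0, .ofNat 0, .ofNat 0])]), (true, []), (false, [([.ofNat 18, .ofNat 0, .ofNat 0,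
      .negSucc 8, .negSucc 8, .negSucc 26, .negSucc 8], [.ofNat 18, .ofNat 0, .negSucc 17,
      .negSucc 0, .ofNat 0, .ofNat 0, .ofNat 0, .ofNat 0, .ofNat 0, .ofNat 0])]), (false,
      [([.ofNat 1, .ofNat 1, .ofNat 0, .ofNat 1, .ofNat 1, .ofNat 1, .ofNat 1, .ofNat 1],
      [.negSucc 0, .negSucc 0, .ofNat 1, .ofNat 0, .ofNat 0, .ofNat 0, .ofNat 0, .ofNat 0,
      .ofNat 0, .ofNat 0])]), (true, [])]⟩,
    ⟨[(0, 5), (3, 2)], [(false, [([.ofNat 81], [.ofNat 450, .negSucc 287, .negSucc 278, .ofNat 9,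
      .negSucc 0, .ofNat 1, .ofNat 0, .ofNat 27, .ofNat 0, .negSucc 7])]), (false, [([.ofNat 432,
      .negSucc 26], [.negSucc 485, .negSucc 215, .ofNat 621, .ofNat 21, .ofNat 3, .ofNat 1,
      .ofNat 0, .ofNat 15, .ofNat 0, .ofNat 0])]), (false, [([.ofNat 90, .negSucc 161,
      .ofNat 162], [.ofNat 486, .ofNat 36, .negSucc 485, .negSucc 15, .negSucc 2, .negSucc 0,
      .ofNat 0, .ofNat 0, .ofNat 0, .ofNat 0])]), (false, [([.ofNat 324, .ofNat 252, .ofNat 1620,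
      .ofNat 324], [.negSucc 2519, .ofNat 72, .ofNat 2520, .ofNat 36, .ofNat 16, .ofNat 0,
      .ofNat 1, .ofNat 0, .ofNat 0, .ofNat 0])]), (false, [([.ofNat 54, .ofNat 108, .ofNat 90,
      .ofNat 270, .ofNat 54], [.negSucc 305, .negSucc 35, .ofNat 306, .ofNat 6, .ofNat 1,
      .ofNat 0, .ofNat 0, .ofNat 0, .ofNat 0, .ofNat 0])]), (true, []), (false, [([.ofNat 18,
      .ofNat 0, .ofNat 0, .negSucc 8, .negSucc 8, .negSucc 26, .negSucc 8], [.ofNat 18, .ofNat 0,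
      .negSucc 17, .negSucc 0, .ofNat 0, .ofNat 0, .ofNat 0, .ofNat 0, .ofNat 0, .ofNat 0])]),
      (false, [([.ofNat 1, .ofNat 1, .ofNat 0, .ofNat 1, .ofNat 1, .ofNat 1, .ofNat 1, .ofNat 1],
      [.negSucc 0, .negSucc 0, .ofNat 1, .ofNat 0, .ofNat 0, .ofNat 0, .ofNat 0, .ofNat 0,
      .ofNat 0, .ofNat 0])]), (true, [])]⟩,
    ⟨[(0, 6), (3, 1)], [(false, [([.ofNat 810], [.negSucc 4571, .ofNat 1440, .ofNat 3762, .ofNat 82,
      .ofNat 46, .ofNat 10, .ofNat 4, .ofNat 1, .negSucc 89, .ofNat 0])]), (false, [([.ofNat 2592,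
      .ofNat 648], [.negSucc 7487, .ofNat 144, .ofNat 7488, .ofNat 208, .ofNat 64, .ofNat 16,
      .ofNat 4, .ofNat 1, .ofNat 0, .ofNat 0])]), (false, [([.ofNat 90, .negSucc 161, .ofNat 162],
      [.ofNat 486, .ofNat 36, .negSucc 485, .negSucc 15, .negSucc 2, .negSucc 0, .ofNat 0,
      .ofNat 0, .ofNat 0, .ofNat 0])]), (false, [([.ofNat 324, .ofNat 252, .ofNat 1620,
      .ofNat 324], [.negSucc 2519, .ofNat 72, .ofNat 2520, .ofNat 36, .ofNat 16, .ofNat 0,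
      .ofNat 1, .ofNat 0, .ofNat 0, .ofNat 0])]), (false, [([.ofNat 54, .ofNat 108, .ofNat 90,
      .ofNat 270, .ofNat 54], [.negSucc 305, .negSucc 35, .ofNat 306, .ofNat 6, .ofNat 1,
      .ofNat 0, .ofNat 0, .ofNat 0, .ofNat 0, .ofNat 0])]), (true, []), (false, [([.ofNat 18,
      .ofNat 0, .ofNat 0, .negSucc 8, .negSucc 8, .negSucc 26, .negSucc 8], [.ofNat 18, .ofNat 0,
      .negSucc 17, .negSucc 0, .ofNat 0, .ofNat 0, .ofNat 0, .ofNat 0, .ofNat 0, .ofNat 0])]),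
      (false, [([.ofNat 1, .ofNat 1, .ofNat 0, .ofNat 1, .ofNat 1, .ofNat 1, .ofNat 1, .ofNat 1],
      [.negSucc 0, .negSucc 0, .ofNat 1, .ofNat 0, .ofNat 0, .ofNat 0, .ofNat 0, .ofNat 0,
      .ofNat 0, .ofNat 0])]), (true, [])]⟩]

lemma E03_ok : E03.all okE = true := by
  simp only [E03, List.all_cons, List.all_nil, Bool.and_self,
    e03_0_ok, e03_1_ok, e03_2_ok, e03_3_ok, e03_4_ok, e03_5_ok, e03_6_ok, e03_7_ok, e03_8_ok,
    e03_9_ok, e03_10_ok, e03_11_ok, e03_12_ok, e03_13_ok, e03_14_ok]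

lemma Z03_ok : Z03.all okZ = true := by decide +kernel

lemma cov03 : (prods 2).all (fun a => cov E03 Z03 (([0, 3] : List (Fin 9)).zip a)) = true := by
  decide +kernel

theorem typ03 : Typ [0, 3] E03 Z03 := ⟨E03_ok, Z03_ok, cov03⟩

end Pool.Agent.K9
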