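import Pool.Agent.Lib_helper60.K9.T1

/-!
# A point of order nine, `d = 2`: the fibres at 0, 3, 6
-/

set_option autoImplicit false
set_option maxRecDepth 100000

namespace Pool.Agent.K9

/-- a fibre -/
def e036_0 : Cfg :=
    ⟨[(0, 1), (3, 1), (6, 1)], [(false, []), (false, []), (true, []), (false, []), (false,
      [([.ofNat 18, .ofNat 9, .ofNat 0, .ofNat 9, .ofNat 18], [.negSucc 17, .negSucc 17, .ofNat 9,
      .ofNat 9, .ofNat 1, .ofNat 0, .negSucc 1, .ofNat 0])]), (true, []), (false, [([.ofNat 6,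
      .ofNat 0, .ofNat 0, .negSucc 2, .ofNat 0, .ofNat 9, .ofNat 6], [.ofNat 6, .negSucc 11,
      .negSucc 2, .ofNat 3, .ofNat 1, .ofNat 0, .ofNat 0, .ofNat 0])]), (false, [([.ofNat 1,
      .ofNat 1, .ofNat 0, .ofNat 1, .ofNat 1, .ofNat 0, .ofNat 1, .ofNat 1], [.negSucc 0,
      .negSucc 0, .negSucc 0, .ofNat 1, .ofNat 0, .ofNat 0, .ofNat 0, .ofNat 0])]), (true, [])]⟩

lemma e036_0_ok : okE e036_0 = true := by decide +kernel

/-- a fibre -/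
def e036_1 : Cfg :=
    ⟨[(0, 1), (3, 1), (6, 2)], [(false, []), (false, [([.ofNat 27, .ofNat 54], [.negSucc 17,
      .negSucc 35, .ofNat 27, .ofNat 0, .ofNat 3, .ofNat 0, .negSucc 2, .ofNat 0, .negSucc 0])]),
      (true, []), (false, []), (false, [([.ofNat 18, .ofNat 9, .ofNat 0, .ofNat 9, .ofNat 18],
      [.negSucc 17, .negSucc 17, .ofNat 9, .ofNat 9, .ofNat 1, .ofNat 0, .negSucc 1, .ofNat 0,
      .ofNat 0])]), (true, []), (false, [([.ofNat 6, .ofNat 0, .ofNat 0, .negSucc 2, .ofNat 0,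
      .ofNat 9, .ofNat 6], [.ofNat 6, .negSucc 11, .negSucc 2, .ofNat 3, .ofNat 1, .ofNat 0,
      .ofNat 0, .ofNat 0, .ofNat 0])]), (false, [([.ofNat 1, .ofNat 1, .ofNat 0, .ofNat 1,
      .ofNat 1, .ofNat 0, .ofNat 1, .ofNat 1], [.negSucc 0, .negSucc 0, .negSucc 0, .ofNat 1,
      .ofNat 0, .ofNat 0, .ofNat 0, .ofNat 0, .ofNat 0])]), (true, [])]⟩

lemma e036_1_ok : okE e036_1 = true := by decide +kernel

/-- a fibre -/
def e036_2 : Cfg :=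
    ⟨[(0, 1), (3, 1), (6, 3)], [(false, []), (false, [([.ofNat 27, .ofNat 54], [.negSucc 17,
      .negSucc 35, .ofNat 27, .ofNat 0, .ofNat 3, .ofNat 0, .negSucc 2, .ofNat 0, .negSucc 0,
      .ofNat 0])]), (true, []), (false, [([.ofNat 81, .ofNat 0, .ofNat 81, .ofNat 0],
      [.negSucc 71, .negSucc 71, .ofNat 171, .negSucc 116, .ofNat 3, .ofNat 0, .negSucc 5,
      .ofNat 0, .ofNat 0, .negSucc 0])]), (false, [([.ofNat 18, .ofNat 9, .ofNat 0, .ofNat 9,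
      .ofNat 18], [.negSucc 17, .negSucc 17, .ofNat 9, .ofNat 9, .ofNat 1, .ofNat 0, .negSucc 1,
      .ofNat 0, .ofNat 0, .ofNat 0])]), (true, []), (false, [([.ofNat 6, .ofNat 0, .ofNat 0,
      .negSucc 2, .ofNat 0, .ofNat 9, .ofNat 6], [.ofNat 6, .negSucc 11, .negSucc 2, .ofNat 3,
      .ofNat 1, .ofNat 0, .ofNat 0, .ofNat 0, .ofNat 0, .ofNat 0])]), (false, [([.ofNat 1,
      .ofNat 1, .ofNat 0, .ofNat 1, .ofNat 1, .ofNat 0, .ofNat 1, .ofNat 1], [.negSucc 0,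
      .negSucc 0, .negSucc 0, .ofNat 1, .ofNat 0, .ofNat 0, .ofNat 0, .ofNat 0, .ofNat 0,
      .ofNat 0])]), (true, [])]⟩

lemma e036_2_ok : okE e036_2 = true := by decide +kernel

/-- a fibre -/
def e036_3 : Cfg :=
    ⟨[(0, 1), (3, 2), (6, 1)], [(false, []), (false, []), (true, []), (false, [([.ofNat 81, .ofNat 0,
      .negSucc 26, .negSucc 53], [.negSucc 17, .ofNat 108, .negSucc 62, .negSucc 26, .negSucc 8,
      .ofNat 0, .negSucc 1, .ofNat 6, .ofNat 0])]), (false, [([.ofNat 27, .ofNat 54, .ofNat 0,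
      .ofNat 0, .ofNat 0], [.negSucc 35, .ofNat 27, .negSucc 17, .ofNat 0, .negSucc 2, .ofNat 0,
      .negSucc 0, .ofNat 0, .ofNat 0])]), (true, []), (false, [([.ofNat 6, .ofNat 0, .ofNat 0,
      .negSucc 2, .ofNat 0, .ofNat 9, .ofNat 6], [.ofNat 6, .negSucc 11, .negSucc 2, .ofNat 3,
      .ofNat 1, .ofNat 0, .ofNat 0, .ofNat 0, .ofNat 0])]), (false, [([.ofNat 1, .ofNat 1,
      .ofNat 0, .ofNat 1, .ofNat 1, .ofNat 0, .ofNat 1, .ofNat 1], [.negSucc 0, .negSucc 0,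
      .negSucc 0, .ofNat 1, .ofNat 0, .ofNat 0, .ofNat 0, .ofNat 0, .ofNat 0])]), (true, [])]⟩

lemma e036_3_ok : okE e036_3 = true := by decide +kernel

/-- a fibre -/
def e036_4 : Cfg :=
    ⟨[(0, 1), (3, 2), (6, 2)], [(false, []), (false, [([.ofNat 27, .ofNat 54], [.negSucc 17,
      .negSucc 35, .ofNat 27, .ofNat 0, .ofNat 3, .ofNat 0, .ofNat 0, .negSucc 2, .ofNat 0,
      .negSucc 0])]), (true, []), (false, [([.ofNat 81, .ofNat 0, .negSucc 26, .negSucc 53],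
      [.negSucc 17, .ofNat 108, .negSucc 62, .negSucc 26, .negSucc 8, .ofNat 0, .negSucc 1,
      .ofNat 6, .ofNat 0, .ofNat 0])]), (false, [([.ofNat 27, .ofNat 54, .ofNat 0, .ofNat 0,
      .ofNat 0], [.negSucc 35, .ofNat 27, .negSucc 17, .ofNat 0, .negSucc 2, .ofNat 0, .negSucc 0,
      .ofNat 0, .ofNat 0, .ofNat 0])]), (true, []), (false, [([.ofNat 6, .ofNat 0, .ofNat 0,
      .negSucc 2, .ofNat 0, .ofNat 9, .ofNat 6], [.ofNat 6, .negSucc 11, .negSucc 2, .ofNat 3,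
      .ofNat 1, .ofNat 0, .ofNat 0, .ofNat 0, .ofNat 0, .ofNat 0])]), (false, [([.ofNat 1,
      .ofNat 1, .ofNat 0, .ofNat 1, .ofNat 1, .ofNat 0, .ofNat 1, .ofNat 1], [.negSucc 0,
      .negSucc 0, .negSucc 0, .ofNat 1, .ofNat 0, .ofNat 0, .ofNat 0, .ofNat 0, .ofNat 0,
      .ofNat 0])]), (true, [])]⟩

lemma e036_4_ok : okE e036_4 = true := by decide +kernel

/-- a fibre -/
def e036_5 : Cfg :=
    ⟨[(0, 1), (3, 3), (6, 1)], [(false, []), (false, [([.ofNat 162, .ofNat 162], [.ofNat 72,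
      .negSucc 413, .ofNat 72, .ofNat 198, .ofNat 24, .ofNat 0, .ofNat 0, .ofNat 1, .negSucc 11,
      .ofNat 0])]), (true, []), (false, [([.ofNat 162, .ofNat 0, .ofNat 108, .ofNat 54],
      [.ofNat 36, .negSucc 197, .negSucc 53, .ofNat 144, .ofNat 6, .ofNat 0, .negSucc 3, .ofNat 1,
      .ofNat 0, .ofNat 0])]), (false, [([.ofNat 27, .ofNat 54, .ofNat 0, .ofNat 0, .ofNat 0],
      [.negSucc 35, .ofNat 27, .negSucc 17, .ofNat 0, .negSucc 2, .ofNat 0, .negSucc 0, .ofNat 0,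
      .ofNat 0, .ofNat 0])]), (true, []), (false, [([.ofNat 6, .ofNat 0, .ofNat 0, .negSucc 2,
      .ofNat 0, .ofNat 9, .ofNat 6], [.ofNat 6, .negSucc 11, .negSucc 2, .ofNat 3, .ofNat 1,
      .ofNat 0, .ofNat 0, .ofNat 0, .ofNat 0, .ofNat 0])]), (false, [([.ofNat 1, .ofNat 1,
      .ofNat 0, .ofNat 1, .ofNat 1, .ofNat 0, .ofNat 1, .ofNat 1], [.negSucc 0, .negSucc 0,
      .negSucc 0, .ofNat 1, .ofNat 0, .ofNat 0, .ofNat 0, .ofNat 0, .ofNat 0, .ofNat 0])]), (true,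
      [])]⟩

lemma e036_5_ok : okE e036_5 = true := by decide +kernel

/-- a fibre -/
def e036_6 : Cfg :=
    ⟨[(0, 2), (3, 1), (6, 1)], [(false, []), (false, [([.ofNat 54, .ofNat 27], [.ofNat 0, .negSucc 35,
      .negSucc 17, .ofNat 27, .ofNat 1, .ofNat 3, .ofNat 0, .ofNat 0, .ofNat 0])]), (true, []),
      (false, []), (false, [([.ofNat 54, .ofNat 27, .ofNat 0, .negSucc 26, .ofNat 27],
      [.negSucc 53, .negSucc 17, .ofNat 45, .ofNat 0, .negSucc 0, .ofNat 0, .ofNat 0, .negSucc 5,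
      .ofNat 0])]), (true, []), (false, [([.ofNat 18, .ofNat 0, .ofNat 0, .negSucc 8, .ofNat 0,
      .negSucc 26, .negSucc 8], [.ofNat 18, .ofNat 0, .ofNat 9, .negSucc 17, .negSucc 0, .ofNat 0,
      .ofNat 0, .ofNat 0, .ofNat 0])]), (false, [([.ofNat 1, .ofNat 1, .ofNat 0, .ofNat 1,
      .ofNat 1, .ofNat 0, .ofNat 1, .ofNat 1], [.negSucc 0, .negSucc 0, .negSucc 0, .ofNat 1,
      .ofNat 0, .ofNat 0, .ofNat 0, .ofNat 0, .ofNat 0])]), (true, [])]⟩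

lemma e036_6_ok : okE e036_6 = true := by decide +kernel

/-- a fibre -/
def e036_7 : Cfg :=
    ⟨[(0, 2), (3, 1), (6, 2)], [(false, [([.ofNat 81], [.negSucc 35, .negSucc 35, .ofNat 72,
      .negSucc 26, .negSucc 0, .ofNat 3, .ofNat 0, .negSucc 5, .ofNat 0, .negSucc 1])]), (false,
      [([.ofNat 54, .ofNat 27], [.ofNat 0, .negSucc 35, .negSucc 17, .ofNat 27, .ofNat 1,
      .ofNat 3, .ofNat 0, .ofNat 0, .ofNat 0, .ofNat 0])]), (true, []), (false, []), (false,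
      [([.ofNat 54, .ofNat 27, .ofNat 0, .negSucc 26, .ofNat 27], [.negSucc 53, .negSucc 17,
      .ofNat 45, .ofNat 0, .negSucc 0, .ofNat 0, .ofNat 0, .negSucc 5, .ofNat 0, .ofNat 0])]),
      (true, []), (false, [([.ofNat 18, .ofNat 0, .ofNat 0, .negSucc 8, .ofNat 0, .negSucc 26,
      .negSucc 8], [.ofNat 18, .ofNat 0, .ofNat 9, .negSucc 17, .negSucc 0, .ofNat 0, .ofNat 0,
      .ofNat 0, .ofNat 0, .ofNat 0])]), (false, [([.ofNat 1, .ofNat 1, .ofNat 0, .ofNat 1,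
      .ofNat 1, .ofNat 0, .ofNat 1, .ofNat 1], [.negSucc 0, .negSucc 0, .negSucc 0, .ofNat 1,
      .ofNat 0, .ofNat 0, .ofNat 0, .ofNat 0, .ofNat 0, .ofNat 0])]), (true, [])]⟩

lemma e036_7_ok : okE e036_7 = true := by decide +kernel

/-- a fibre -/
def e036_8 : Cfg :=
    ⟨[(0, 2), (3, 2), (6, 1)], [(false, []), (false, [([.ofNat 54, .ofNat 27], [.ofNat 0, .negSucc 35,
      .negSucc 17, .ofNat 27, .ofNat 1, .ofNat 3, .ofNat 0, .ofNat 0, .ofNat 0, .ofNat 0])]),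
      (true, []), (false, [([.ofNat 81, .ofNat 0, .ofNat 135, .ofNat 27], [.negSucc 17, .ofNat 0,
      .negSucc 116, .ofNat 54, .ofNat 3, .ofNat 0, .ofNat 0, .negSucc 1, .ofNat 6, .ofNat 0])]),
      (false, [([.ofNat 27, .ofNat 54, .ofNat 0, .ofNat 54, .ofNat 27], [.negSucc 35, .negSucc 8,
      .negSucc 35, .ofNat 27, .ofNat 1, .ofNat 0, .ofNat 0, .negSucc 0, .ofNat 0, .ofNat 0])]),
      (true, []), (false, [([.ofNat 18, .ofNat 0, .ofNat 0, .negSucc 8, .ofNat 0, .negSucc 26,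
      .negSucc 8], [.ofNat 18, .ofNat 0, .ofNat 9, .negSucc 17, .negSucc 0, .ofNat 0, .ofNat 0,
      .ofNat 0, .ofNat 0, .ofNat 0])]), (false, [([.ofNat 1, .ofNat 1, .ofNat 0, .ofNat 1,
      .ofNat 1, .ofNat 0, .ofNat 1, .ofNat 1], [.negSucc 0, .negSucc 0, .negSucc 0, .ofNat 1,
      .ofNat 0, .ofNat 0, .ofNat 0, .ofNat 0, .ofNat 0, .ofNat 0])]), (true, [])]⟩

lemma e036_8_ok : okE e036_8 = true := by decide +kernel

/-- a fibre -/
def e036_9 : Cfg :=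
    ⟨[(0, 3), (3, 1), (6, 1)], [(false, []), (false, [([.ofNat 54, .ofNat 27], [.ofNat 0, .negSucc 35,
      .negSucc 17, .ofNat 27, .ofNat 1, .ofNat 0, .ofNat 3, .ofNat 0, .ofNat 0, .ofNat 0])]),
      (true, []), (false, [([.ofNat 81, .ofNat 0, .ofNat 297, .ofNat 27], [.negSucc 251,
      .negSucc 17, .negSucc 134, .ofNat 306, .ofNat 7, .ofNat 1, .ofNat 0, .ofNat 0, .ofNat 6,
      .ofNat 0])]), (false, [([.ofNat 54, .ofNat 108, .ofNat 0, .ofNat 270, .ofNat 54],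
      [.negSucc 305, .negSucc 35, .negSucc 89, .ofNat 306, .ofNat 6, .ofNat 1, .ofNat 0, .ofNat 0,
      .ofNat 0, .ofNat 0])]), (true, []), (false, [([.ofNat 18, .ofNat 0, .ofNat 0, .negSucc 8,
      .ofNat 0, .negSucc 26, .negSucc 8], [.ofNat 18, .ofNat 0, .ofNat 9, .negSucc 17, .negSucc 0,
      .ofNat 0, .ofNat 0, .ofNat 0, .ofNat 0, .ofNat 0])]), (false, [([.ofNat 1, .ofNat 1,
      .ofNat 0, .ofNat 1, .ofNat 1, .ofNat 0, .ofNat 1, .ofNat 1], [.negSucc 0, .negSucc 0,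
      .negSucc 0, .ofNat 1, .ofNat 0, .ofNat 0, .ofNat 0, .ofNat 0, .ofNat 0, .ofNat 0])]), (true,
      [])]⟩

lemma e036_9_ok : okE e036_9 = true := by decide +kernel

/-- the fibres with solutions -/
def E036 : List Cfg := [
    e036_0, e036_1, e036_2, e036_3, e036_4, e036_5, e036_6, e036_7, e036_8, e036_9]

/-- the fibres without solutions -/
def Z036 : List Cfg := [
    ⟨[(0, 1), (3, 1), (6, 4)], [(false, [([.ofNat 486], [.negSucc 17, .negSucc 251, .ofNat 216,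
      .negSucc 53, .ofNat 18, .ofNat 0, .negSucc 17, .ofNat 0, .negSucc 21, .ofNat 0,
      .negSucc 0])]), (false, [([.ofNat 27, .ofNat 54], [.negSucc 17, .negSucc 35, .ofNat 27,
      .ofNat 0, .ofNat 3, .ofNat 0, .negSucc 2, .ofNat 0, .negSucc 0, .ofNat 0, .ofNat 0])]),
      (true, []), (false, [([.ofNat 81, .ofNat 0, .ofNat 81, .ofNat 0], [.negSucc 71, .negSucc 71,
      .ofNat 171, .negSucc 116, .ofNat 3, .ofNat 0, .negSucc 5, .ofNat 0, .ofNat 0, .negSucc 0,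
      .ofNat 0])]), (false, [([.ofNat 18, .ofNat 9, .ofNat 0, .ofNat 9, .ofNat 18], [.negSucc 17,
      .negSucc 17, .ofNat 9, .ofNat 9, .ofNat 1, .ofNat 0, .negSucc 1, .ofNat 0, .ofNat 0,
      .ofNat 0, .ofNat 0])]), (true, []), (false, [([.ofNat 6, .ofNat 0, .ofNat 0, .negSucc 2,
      .ofNat 0, .ofNat 9, .ofNat 6], [.ofNat 6, .negSucc 11, .negSucc 2, .ofNat 3, .ofNat 1,
      .ofNat 0, .ofNat 0, .ofNat 0, .ofNat 0, .ofNat 0, .ofNat 0])]), (false, [([.ofNat 1,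
      .ofNat 1, .ofNat 0, .ofNat 1, .ofNat 1, .ofNat 0, .ofNat 1, .ofNat 1], [.negSucc 0,
      .negSucc 0, .negSucc 0, .ofNat 1, .ofNat 0, .ofNat 0, .ofNat 0, .ofNat 0, .ofNat 0,
      .ofNat 0, .ofNat 0])]), (true, [])]⟩,
    ⟨[(0, 1), (3, 2), (6, 3)], [(false, [([.ofNat 162], [.negSucc 17, .ofNat 36, .negSucc 125,
      .ofNat 90, .ofNat 0, .ofNat 0, .negSucc 1, .ofNat 0, .ofNat 0, .negSucc 3, .ofNat 1])]),
      (false, [([.ofNat 27, .ofNat 54], [.negSucc 17, .negSucc 35, .ofNat 27, .ofNat 0, .ofNat 3,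
      .ofNat 0, .ofNat 0, .negSucc 2, .ofNat 0, .negSucc 0, .ofNat 0])]), (true, []), (false,
      [([.ofNat 81, .ofNat 0, .negSucc 26, .negSucc 53], [.negSucc 17, .ofNat 108, .negSucc 62,
      .negSucc 26, .negSucc 8, .ofNat 0, .negSucc 1, .ofNat 6, .ofNat 0, .ofNat 0, .ofNat 0])]),
      (false, [([.ofNat 27, .ofNat 54, .ofNat 0, .ofNat 0, .ofNat 0], [.negSucc 35, .ofNat 27,
      .negSucc 17, .ofNat 0, .negSucc 2, .ofNat 0, .negSucc 0, .ofNat 0, .ofNat 0, .ofNat 0,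
      .ofNat 0])]), (true, []), (false, [([.ofNat 6, .ofNat 0, .ofNat 0, .negSucc 2, .ofNat 0,
      .ofNat 9, .ofNat 6], [.ofNat 6, .negSucc 11, .negSucc 2, .ofNat 3, .ofNat 1, .ofNat 0,
      .ofNat 0, .ofNat 0, .ofNat 0, .ofNat 0, .ofNat 0])]), (false, [([.ofNat 1, .ofNat 1,
      .ofNat 0, .ofNat 1, .ofNat 1, .ofNat 0, .ofNat 1, .ofNat 1], [.negSucc 0, .negSucc 0,
      .negSucc 0, .ofNat 1, .ofNat 0, .ofNat 0, .ofNat 0, .ofNat 0, .ofNat 0, .ofNat 0,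
      .ofNat 0])]), (true, [])]⟩,
    ⟨[(0, 1), (3, 3), (6, 2)], [(false, [([.ofNat 162], [.negSucc 179, .ofNat 198, .ofNat 90,
      .negSucc 197, .negSucc 5, .ofNat 0, .ofNat 0, .negSucc 0, .negSucc 5, .ofNat 0,
      .negSucc 5])]), (false, [([.ofNat 162, .ofNat 162], [.ofNat 72, .negSucc 413, .ofNat 72,
      .ofNat 198, .ofNat 24, .ofNat 0, .ofNat 0, .ofNat 1, .negSucc 11, .ofNat 0, .ofNat 0])]),
      (true, []), (false, [([.ofNat 162, .ofNat 0, .ofNat 108, .ofNat 54], [.ofNat 36,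
      .negSucc 197, .negSucc 53, .ofNat 144, .ofNat 6, .ofNat 0, .negSucc 3, .ofNat 1, .ofNat 0,
      .ofNat 0, .ofNat 0])]), (false, [([.ofNat 27, .ofNat 54, .ofNat 0, .ofNat 0, .ofNat 0],
      [.negSucc 35, .ofNat 27, .negSucc 17, .ofNat 0, .negSucc 2, .ofNat 0, .negSucc 0, .ofNat 0,
      .ofNat 0, .ofNat 0, .ofNat 0])]), (true, []), (false, [([.ofNat 6, .ofNat 0, .ofNat 0,
      .negSucc 2, .ofNat 0, .ofNat 9, .ofNat 6], [.ofNat 6, .negSucc 11, .negSucc 2, .ofNat 3,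
      .ofNat 1, .ofNat 0, .ofNat 0, .ofNat 0, .ofNat 0, .ofNat 0, .ofNat 0])]), (false,
      [([.ofNat 1, .ofNat 1, .ofNat 0, .ofNat 1, .ofNat 1, .ofNat 0, .ofNat 1, .ofNat 1],
      [.negSucc 0, .negSucc 0, .negSucc 0, .ofNat 1, .ofNat 0, .ofNat 0, .ofNat 0, .ofNat 0,
      .ofNat 0, .ofNat 0, .ofNat 0])]), (true, [])]⟩,
    ⟨[(0, 1), (3, 4), (6, 1)], [(false, [([.ofNat 162], [.negSucc 215, .negSucc 17, .ofNat 288,
      .negSucc 89, .ofNat 12, .ofNat 0, .negSucc 9, .negSucc 0, .negSucc 0, .negSucc 23,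
      .ofNat 0])]), (false, [([.ofNat 324, .ofNat 162], [.ofNat 360, .negSucc 809, .negSucc 143,
      .ofNat 486, .ofNat 36, .ofNat 0, .ofNat 10, .ofNat 3, .ofNat 1, .ofNat 0, .ofNat 0])]),
      (true, []), (false, [([.ofNat 162, .ofNat 0, .ofNat 108, .ofNat 54], [.ofNat 36,
      .negSucc 197, .negSucc 53, .ofNat 144, .ofNat 6, .ofNat 0, .negSucc 3, .ofNat 1, .ofNat 0,
      .ofNat 0, .ofNat 0])]), (false, [([.ofNat 27, .ofNat 54, .ofNat 0, .ofNat 0, .ofNat 0],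
      [.negSucc 35, .ofNat 27, .negSucc 17, .ofNat 0, .negSucc 2, .ofNat 0, .negSucc 0, .ofNat 0,
      .ofNat 0, .ofNat 0, .ofNat 0])]), (true, []), (false, [([.ofNat 6, .ofNat 0, .ofNat 0,
      .negSucc 2, .ofNat 0, .ofNat 9, .ofNat 6], [.ofNat 6, .negSucc 11, .negSucc 2, .ofNat 3,
      .ofNat 1, .ofNat 0, .ofNat 0, .ofNat 0, .ofNat 0, .ofNat 0, .ofNat 0])]), (false,
      [([.ofNat 1, .ofNat 1, .ofNat 0, .ofNat 1, .ofNat 1, .ofNat 0, .ofNat 1, .ofNat 1],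
      [.negSucc 0, .negSucc 0, .negSucc 0, .ofNat 1, .ofNat 0, .ofNat 0, .ofNat 0, .ofNat 0,
      .ofNat 0, .ofNat 0, .ofNat 0])]), (true, [])]⟩,
    ⟨[(0, 2), (3, 1), (6, 3)], [(false, [([.ofNat 81], [.negSucc 35, .negSucc 35, .ofNat 72,
      .negSucc 26, .negSucc 0, .ofNat 3, .ofNat 0, .negSucc 5, .ofNat 0, .negSucc 1, .ofNat 0])]),
      (false, [([.ofNat 54, .ofNat 27], [.ofNat 0, .negSucc 35, .negSucc 17, .ofNat 27, .ofNat 1,
      .ofNat 3, .ofNat 0, .ofNat 0, .ofNat 0, .ofNat 0, .ofNat 0])]), (true, []), (false,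
      [([.ofNat 81, .ofNat 0, .ofNat 27, .negSucc 26], [.negSucc 71, .negSucc 35, .ofNat 189,
      .negSucc 143, .negSucc 0, .ofNat 0, .ofNat 0, .negSucc 5, .ofNat 0, .ofNat 0,
      .negSucc 0])]), (false, [([.ofNat 54, .ofNat 27, .ofNat 0, .negSucc 26, .ofNat 27],
      [.negSucc 53, .negSucc 17, .ofNat 45, .ofNat 0, .negSucc 0, .ofNat 0, .ofNat 0, .negSucc 5,
      .ofNat 0, .ofNat 0, .ofNat 0])]), (true, []), (false, [([.ofNat 18, .ofNat 0, .ofNat 0,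
      .negSucc 8, .ofNat 0, .negSucc 26, .negSucc 8], [.ofNat 18, .ofNat 0, .ofNat 9, .negSucc 17,
      .negSucc 0, .ofNat 0, .ofNat 0, .ofNat 0, .ofNat 0, .ofNat 0, .ofNat 0])]), (false,
      [([.ofNat 1, .ofNat 1, .ofNat 0, .ofNat 1, .ofNat 1, .ofNat 0, .ofNat 1, .ofNat 1],
      [.negSucc 0, .negSucc 0, .negSucc 0, .ofNat 1, .ofNat 0, .ofNat 0, .ofNat 0, .ofNat 0,
      .ofNat 0, .ofNat 0, .ofNat 0])]), (true, [])]⟩,
    ⟨[(0, 2), (3, 2), (6, 2)], [(false, [([.ofNat 81], [.negSucc 35, .negSucc 35, .ofNat 72,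
      .negSucc 26, .negSucc 0, .ofNat 3, .ofNat 0, .ofNat 0, .negSucc 5, .ofNat 0, .negSucc 1])]),
      (false, [([.ofNat 54, .ofNat 27], [.ofNat 0, .negSucc 35, .negSucc 17, .ofNat 27, .ofNat 1,
      .ofNat 3, .ofNat 0, .ofNat 0, .ofNat 0, .ofNat 0, .ofNat 0])]), (true, []), (false,
      [([.ofNat 81, .ofNat 0, .ofNat 135, .ofNat 27], [.negSucc 17, .ofNat 0, .negSucc 116,
      .ofNat 54, .ofNat 3, .ofNat 0, .ofNat 0, .negSucc 1, .ofNat 6, .ofNat 0, .ofNat 0])]),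
      (false, [([.ofNat 27, .ofNat 54, .ofNat 0, .ofNat 54, .ofNat 27], [.negSucc 35, .negSucc 8,
      .negSucc 35, .ofNat 27, .ofNat 1, .ofNat 0, .ofNat 0, .negSucc 0, .ofNat 0, .ofNat 0,
      .ofNat 0])]), (true, []), (false, [([.ofNat 18, .ofNat 0, .ofNat 0, .negSucc 8, .ofNat 0,
      .negSucc 26, .negSucc 8], [.ofNat 18, .ofNat 0, .ofNat 9, .negSucc 17, .negSucc 0, .ofNat 0,
      .ofNat 0, .ofNat 0, .ofNat 0, .ofNat 0, .ofNat 0])]), (false, [([.ofNat 1, .ofNat 1,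
      .ofNat 0, .ofNat 1, .ofNat 1, .ofNat 0, .ofNat 1, .ofNat 1], [.negSucc 0, .negSucc 0,
      .negSucc 0, .ofNat 1, .ofNat 0, .ofNat 0, .ofNat 0, .ofNat 0, .ofNat 0, .ofNat 0,
      .ofNat 0])]), (true, [])]⟩,
    ⟨[(0, 2), (3, 3), (6, 1)], [(false, [([.ofNat 81], [.ofNat 72, .negSucc 305, .ofNat 126,
      .ofNat 117, .negSucc 2, .ofNat 15, .ofNat 0, .ofNat 0, .ofNat 1, .negSucc 11, .ofNat 0])]),
      (false, [([.ofNat 54, .ofNat 27], [.ofNat 0, .negSucc 35, .negSucc 17, .ofNat 27, .ofNat 1,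
      .ofNat 3, .ofNat 0, .ofNat 0, .ofNat 0, .ofNat 0, .ofNat 0])]), (true, []), (false,
      [([.ofNat 162, .ofNat 0, .ofNat 0, .ofNat 0], [.ofNat 36, .negSucc 125, .negSucc 17,
      .ofNat 90, .negSucc 1, .ofNat 0, .ofNat 0, .negSucc 3, .ofNat 1, .ofNat 0, .ofNat 0])]),
      (false, [([.ofNat 27, .ofNat 54, .ofNat 0, .ofNat 54, .ofNat 27], [.negSucc 35, .negSucc 8,
      .negSucc 35, .ofNat 27, .ofNat 1, .ofNat 0, .ofNat 0, .negSucc 0, .ofNat 0, .ofNat 0,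
      .ofNat 0])]), (true, []), (false, [([.ofNat 18, .ofNat 0, .ofNat 0, .negSucc 8, .ofNat 0,
      .negSucc 26, .negSucc 8], [.ofNat 18, .ofNat 0, .ofNat 9, .negSucc 17, .negSucc 0, .ofNat 0,
      .ofNat 0, .ofNat 0, .ofNat 0, .ofNat 0, .ofNat 0])]), (false, [([.ofNat 1, .ofNat 1,
      .ofNat 0, .ofNat 1, .ofNat 1, .ofNat 0, .ofNat 1, .ofNat 1], [.negSucc 0, .negSucc 0,
      .negSucc 0, .ofNat 1, .ofNat 0, .ofNat 0, .ofNat 0, .ofNat 0, .ofNat 0, .ofNat 0,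
      .ofNat 0])]), (true, [])]⟩,
    ⟨[(0, 3), (3, 1), (6, 2)], [(false, [([.ofNat 81], [.negSucc 35, .negSucc 35, .ofNat 72,
      .negSucc 26, .negSucc 0, .ofNat 0, .ofNat 3, .ofNat 0, .negSucc 5, .ofNat 0, .negSucc 1])]),
      (false, [([.ofNat 54, .ofNat 27], [.ofNat 0, .negSucc 35, .negSucc 17, .ofNat 27, .ofNat 1,
      .ofNat 0, .ofNat 3, .ofNat 0, .ofNat 0, .ofNat 0, .ofNat 0])]), (true, []), (false,
      [([.ofNat 81, .ofNat 0, .ofNat 297, .ofNat 27], [.negSucc 251, .negSucc 17, .negSucc 134,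
      .ofNat 306, .ofNat 7, .ofNat 1, .ofNat 0, .ofNat 0, .ofNat 6, .ofNat 0, .ofNat 0])]),
      (false, [([.ofNat 54, .ofNat 108, .ofNat 0, .ofNat 270, .ofNat 54], [.negSucc 305,
      .negSucc 35, .negSucc 89, .ofNat 306, .ofNat 6, .ofNat 1, .ofNat 0, .ofNat 0, .ofNat 0,
      .ofNat 0, .ofNat 0])]), (true, []), (false, [([.ofNat 18, .ofNat 0, .ofNat 0, .negSucc 8,
      .ofNat 0, .negSucc 26, .negSucc 8], [.ofNat 18, .ofNat 0, .ofNat 9, .negSucc 17, .negSucc 0,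
      .ofNat 0, .ofNat 0, .ofNat 0, .ofNat 0, .ofNat 0, .ofNat 0])]), (false, [([.ofNat 1,
      .ofNat 1, .ofNat 0, .ofNat 1, .ofNat 1, .ofNat 0, .ofNat 1, .ofNat 1], [.negSucc 0,
      .negSucc 0, .negSucc 0, .ofNat 1, .ofNat 0, .ofNat 0, .ofNat 0, .ofNat 0, .ofNat 0,
      .ofNat 0, .ofNat 0])]), (true, [])]⟩,
    ⟨[(0, 3), (3, 2), (6, 1)], [(false, [([.ofNat 81], [.ofNat 234, .negSucc 89, .negSucc 35,
      .negSucc 170, .negSucc 0, .negSucc 0, .ofNat 9, .ofNat 0, .negSucc 1, .ofNat 0,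
      .ofNat 0])]), (false, [([.ofNat 54, .ofNat 27], [.ofNat 0, .negSucc 35, .negSucc 17,
      .ofNat 27, .ofNat 1, .ofNat 0, .ofNat 3, .ofNat 0, .ofNat 0, .ofNat 0, .ofNat 0])]), (true,
      []), (false, [([.ofNat 81, .ofNat 0, .ofNat 297, .ofNat 27], [.negSucc 251, .negSucc 17,
      .negSucc 134, .ofNat 306, .ofNat 7, .ofNat 1, .ofNat 0, .ofNat 0, .ofNat 0, .ofNat 6,
      .ofNat 0])]), (false, [([.ofNat 54, .ofNat 108, .ofNat 0, .ofNat 270, .ofNat 54],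
      [.negSucc 305, .negSucc 35, .negSucc 89, .ofNat 306, .ofNat 6, .ofNat 1, .ofNat 0, .ofNat 0,
      .ofNat 0, .ofNat 0, .ofNat 0])]), (true, []), (false, [([.ofNat 18, .ofNat 0, .ofNat 0,
      .negSucc 8, .ofNat 0, .negSucc 26, .negSucc 8], [.ofNat 18, .ofNat 0, .ofNat 9, .negSucc 17,
      .negSucc 0, .ofNat 0, .ofNat 0, .ofNat 0, .ofNat 0, .ofNat 0, .ofNat 0])]), (false,
      [([.ofNat 1, .ofNat 1, .ofNat 0, .ofNat 1, .ofNat 1, .ofNat 0, .ofNat 1, .ofNat 1],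
      [.negSucc 0, .negSucc 0, .negSucc 0, .ofNat 1, .ofNat 0, .ofNat 0, .ofNat 0, .ofNat 0,
      .ofNat 0, .ofNat 0, .ofNat 0])]), (true, [])]⟩,
    ⟨[(0, 4), (3, 1), (6, 1)], [(false, [([.ofNat 243], [.ofNat 486, .negSucc 71, .negSucc 143,
      .negSucc 404, .negSucc 12, .negSucc 2, .negSucc 0, .ofNat 9, .ofNat 0, .ofNat 0,
      .ofNat 0])]), (false, [([.ofNat 162, .negSucc 161], [.negSucc 485, .negSucc 35, .ofNat 90,
      .ofNat 486, .ofNat 16, .ofNat 3, .ofNat 1, .ofNat 0, .ofNat 0, .ofNat 0, .ofNat 0])]),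
      (true, []), (false, [([.ofNat 81, .ofNat 0, .ofNat 297, .ofNat 27], [.negSucc 251,
      .negSucc 17, .negSucc 134, .ofNat 306, .ofNat 7, .ofNat 1, .ofNat 0, .ofNat 0, .ofNat 0,
      .ofNat 6, .ofNat 0])]), (false, [([.ofNat 54, .ofNat 108, .ofNat 0, .ofNat 270, .ofNat 54],
      [.negSucc 305, .negSucc 35, .negSucc 89, .ofNat 306, .ofNat 6, .ofNat 1, .ofNat 0, .ofNat 0,
      .ofNat 0, .ofNat 0, .ofNat 0])]), (true, []), (false, [([.ofNat 18, .ofNat 0, .ofNat 0,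
      .negSucc 8, .ofNat 0, .negSucc 26, .negSucc 8], [.ofNat 18, .ofNat 0, .ofNat 9, .negSucc 17,
      .negSucc 0, .ofNat 0, .ofNat 0, .ofNat 0, .ofNat 0, .ofNat 0, .ofNat 0])]), (false,
      [([.ofNat 1, .ofNat 1, .ofNat 0, .ofNat 1, .ofNat 1, .ofNat 0, .ofNat 1, .ofNat 1],
      [.negSucc 0, .negSucc 0, .negSucc 0, .ofNat 1, .ofNat 0, .ofNat 0, .ofNat 0, .ofNat 0,
      .ofNat 0, .ofNat 0, .ofNat 0])]), (true, [])]⟩]

lemma E036_ok : E036.all okE = true := by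
  simp only [E036, List.all_cons, List.all_nil, Bool.and_self,
    e036_0_ok, e036_1_ok, e036_2_ok, e036_3_ok, e036_4_ok, e036_5_ok, e036_6_ok, e036_7_ok, e036_8_ok,
    e036_9_ok]

lemma Z036_ok : Z036.all okZ = true := by decide +kernel

lemma cov036 : (prods 3).all (fun a => cov E036 Z036 (([0, 3, 6] : List (Fin 9)).zip a)) = true := by
  decide +kernel

theorem typ036 : Typ [0, 3, 6] E036 Z036 := ⟨E036_ok, Z036_ok, cov036⟩

end Pool.Agent.K9
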