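import Pool.Agent.Lib_helper60.K9.T1

/-!
# A point of order nine, `d = 2`: the fibres at 0, 4
-/

set_option autoImplicit false
set_option maxRecDepth 100000

namespace Pool.Agent.K9

/-- a fibre -/
def e04_0 : Cfg :=
    ⟨[(0, 1), (4, 1)], [(false, []), (false, []), (false, []), (false, [([.ofNat 9, .ofNat 9,
      .negSucc 8, .negSucc 8], [.negSucc 17, .ofNat 18, .ofNat 0, .negSucc 2, .negSucc 1])]),
      (true, []), (false, []), (false, [([.ofNat 2, .ofNat 4, .ofNat 0, .negSucc 0, .ofNat 1,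
      .ofNat 3, .ofNat 5], [.ofNat 2, .negSucc 5, .ofNat 2, .ofNat 1, .ofNat 0])]), (false,
      [([.ofNat 1, .ofNat 1, .ofNat 1, .ofNat 0, .ofNat 1, .ofNat 1, .ofNat 1, .ofNat 1],
      [.negSucc 0, .negSucc 0, .ofNat 1, .ofNat 0, .ofNat 0])]), (true, [])]⟩

lemma e04_0_ok : okE e04_0 = true := by decide +kernel

/-- a fibre -/
def e04_1 : Cfg :=
    ⟨[(0, 1), (4, 2)], [(false, []), (false, []), (false, []), (false, [([.ofNat 9, .ofNat 9,
      .negSucc 8, .negSucc 8], [.negSucc 17, .ofNat 18, .ofNat 0, .negSucc 2, .negSucc 1,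
      .ofNat 0])]), (true, []), (false, [([.ofNat 36, .ofNat 0, .ofNat 0, .ofNat 36, .ofNat 36,
      .ofNat 54], [.ofNat 18, .negSucc 44, .ofNat 9, .ofNat 9, .ofNat 0, .negSucc 0])]), (false,
      [([.ofNat 2, .ofNat 4, .ofNat 0, .negSucc 0, .ofNat 1, .ofNat 3, .ofNat 5], [.ofNat 2,
      .negSucc 5, .ofNat 2, .ofNat 1, .ofNat 0, .ofNat 0])]), (false, [([.ofNat 1, .ofNat 1,
      .ofNat 1, .ofNat 0, .ofNat 1, .ofNat 1, .ofNat 1, .ofNat 1], [.negSucc 0, .negSucc 0,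
      .ofNat 1, .ofNat 0, .ofNat 0, .ofNat 0])]), (true, [])]⟩

lemma e04_1_ok : okE e04_1 = true := by decide +kernel

/-- a fibre -/
def e04_2 : Cfg :=
    ⟨[(0, 1), (4, 3)], [(false, []), (false, []), (false, [([.ofNat 216, .ofNat 72, .ofNat 108],
      [.ofNat 0, .negSucc 170, .ofNat 135, .ofNat 9, .ofNat 0, .negSucc 4, .ofNat 1])]), (false,
      [([.ofNat 9, .ofNat 9, .negSucc 8, .negSucc 8], [.negSucc 17, .ofNat 18, .ofNat 0,
      .negSucc 2, .negSucc 1, .ofNat 0, .ofNat 0])]), (true, []), (false, [([.ofNat 36, .ofNat 0,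
      .ofNat 0, .ofNat 36, .ofNat 36, .ofNat 54], [.ofNat 18, .negSucc 44, .ofNat 9, .ofNat 9,
      .ofNat 0, .negSucc 0, .ofNat 0])]), (false, [([.ofNat 2, .ofNat 4, .ofNat 0, .negSucc 0,
      .ofNat 1, .ofNat 3, .ofNat 5], [.ofNat 2, .negSucc 5, .ofNat 2, .ofNat 1, .ofNat 0,
      .ofNat 0, .ofNat 0])]), (false, [([.ofNat 1, .ofNat 1, .ofNat 1, .ofNat 0, .ofNat 1,
      .ofNat 1, .ofNat 1, .ofNat 1], [.negSucc 0, .negSucc 0, .ofNat 1, .ofNat 0, .ofNat 0,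
      .ofNat 0, .ofNat 0])]), (true, [])]⟩

lemma e04_2_ok : okE e04_2 = true := by decide +kernel

/-- a fibre -/
def e04_3 : Cfg :=
    ⟨[(0, 1), (4, 4)], [(false, []), (false, [([.ofNat 864, .ofNat 756], [.ofNat 756, .negSucc 1430,
      .ofNat 531, .ofNat 153, .ofNat 96, .ofNat 15, .ofNat 3, .ofNat 2])]), (false, [([.ofNat 216,
      .ofNat 72, .ofNat 108], [.ofNat 0, .negSucc 170, .ofNat 135, .ofNat 9, .ofNat 0, .negSucc 4,
      .ofNat 1, .ofNat 0])]), (false, [([.ofNat 9, .ofNat 9, .negSucc 8, .negSucc 8],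
      [.negSucc 17, .ofNat 18, .ofNat 0, .negSucc 2, .negSucc 1, .ofNat 0, .ofNat 0, .ofNat 0])]),
      (true, []), (false, [([.ofNat 36, .ofNat 0, .ofNat 0, .ofNat 36, .ofNat 36, .ofNat 54],
      [.ofNat 18, .negSucc 44, .ofNat 9, .ofNat 9, .ofNat 0, .negSucc 0, .ofNat 0, .ofNat 0])]),
      (false, [([.ofNat 2, .ofNat 4, .ofNat 0, .negSucc 0, .ofNat 1, .ofNat 3, .ofNat 5],
      [.ofNat 2, .negSucc 5, .ofNat 2, .ofNat 1, .ofNat 0, .ofNat 0, .ofNat 0, .ofNat 0])]),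
      (false, [([.ofNat 1, .ofNat 1, .ofNat 1, .ofNat 0, .ofNat 1, .ofNat 1, .ofNat 1, .ofNat 1],
      [.negSucc 0, .negSucc 0, .ofNat 1, .ofNat 0, .ofNat 0, .ofNat 0, .ofNat 0, .ofNat 0])]),
      (true, [])]⟩

lemma e04_3_ok : okE e04_3 = true := by decide +kernel

/-- a fibre -/
def e04_4 : Cfg :=
    ⟨[(0, 2), (4, 1)], [(false, []), (false, []), (false, []), (false, [([.ofNat 9, .ofNat 9,
      .negSucc 8, .negSucc 8], [.negSucc 17, .ofNat 18, .ofNat 0, .ofNat 0, .negSucc 2,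
      .negSucc 1])]), (true, []), (false, [([.ofNat 36, .ofNat 0, .ofNat 0, .ofNat 18, .ofNat 54,
      .ofNat 54], [.ofNat 0, .negSucc 53, .ofNat 36, .ofNat 1, .ofNat 9, .ofNat 0])]), (false,
      [([.ofNat 18, .ofNat 0, .ofNat 0, .negSucc 8, .negSucc 8, .negSucc 26, .negSucc 8],
      [.ofNat 18, .ofNat 0, .negSucc 17, .negSucc 0, .ofNat 0, .ofNat 0])]), (false, [([.ofNat 1,
      .ofNat 1, .ofNat 1, .ofNat 0, .ofNat 1, .ofNat 1, .ofNat 1, .ofNat 1], [.negSucc 0,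
      .negSucc 0, .ofNat 1, .ofNat 0, .ofNat 0, .ofNat 0])]), (true, [])]⟩

lemma e04_4_ok : okE e04_4 = true := by decide +kernel

/-- a fibre -/
def e04_5 : Cfg :=
    ⟨[(0, 2), (4, 2)], [(false, []), (false, []), (false, [([.ofNat 18, .negSucc 17, .ofNat 0],
      [.ofNat 18, .ofNat 9, .negSucc 26, .negSucc 0, .ofNat 0, .ofNat 0, .negSucc 0])]), (false,
      [([.ofNat 9, .ofNat 9, .negSucc 8, .negSucc 8], [.negSucc 17, .ofNat 18, .ofNat 0, .ofNat 0,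
      .negSucc 2, .negSucc 1, .ofNat 0])]), (true, []), (false, [([.ofNat 36, .ofNat 0, .ofNat 0,
      .ofNat 18, .ofNat 54, .ofNat 54], [.ofNat 0, .negSucc 53, .ofNat 36, .ofNat 1, .ofNat 9,
      .ofNat 0, .ofNat 0])]), (false, [([.ofNat 18, .ofNat 0, .ofNat 0, .negSucc 8, .negSucc 8,
      .negSucc 26, .negSucc 8], [.ofNat 18, .ofNat 0, .negSucc 17, .negSucc 0, .ofNat 0, .ofNat 0,
      .ofNat 0])]), (false, [([.ofNat 1, .ofNat 1, .ofNat 1, .ofNat 0, .ofNat 1, .ofNat 1,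
      .ofNat 1, .ofNat 1], [.negSucc 0, .negSucc 0, .ofNat 1, .ofNat 0, .ofNat 0, .ofNat 0,
      .ofNat 0])]), (true, [])]⟩

lemma e04_5_ok : okE e04_5 = true := by decide +kernel

/-- a fibre -/
def e04_6 : Cfg :=
    ⟨[(0, 2), (4, 3)], [(false, []), (false, [([.ofNat 288, .ofNat 108], [.negSucc 215, .negSucc 278,
      .ofNat 459, .ofNat 12, .ofNat 9, .ofNat 0, .ofNat 7, .ofNat 1])]), (false, [([.ofNat 18,
      .negSucc 17, .ofNat 0], [.ofNat 18, .ofNat 9, .negSucc 26, .negSucc 0, .ofNat 0, .ofNat 0,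
      .negSucc 0, .ofNat 0])]), (false, [([.ofNat 9, .ofNat 9, .negSucc 8, .negSucc 8],
      [.negSucc 17, .ofNat 18, .ofNat 0, .ofNat 0, .negSucc 2, .negSucc 1, .ofNat 0, .ofNat 0])]),
      (true, []), (false, [([.ofNat 36, .ofNat 0, .ofNat 0, .ofNat 18, .ofNat 54, .ofNat 54],
      [.ofNat 0, .negSucc 53, .ofNat 36, .ofNat 1, .ofNat 9, .ofNat 0, .ofNat 0, .ofNat 0])]),
      (false, [([.ofNat 18, .ofNat 0, .ofNat 0, .negSucc 8, .negSucc 8, .negSucc 26, .negSucc 8],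
      [.ofNat 18, .ofNat 0, .negSucc 17, .negSucc 0, .ofNat 0, .ofNat 0, .ofNat 0, .ofNat 0])]),
      (false, [([.ofNat 1, .ofNat 1, .ofNat 1, .ofNat 0, .ofNat 1, .ofNat 1, .ofNat 1, .ofNat 1],
      [.negSucc 0, .negSucc 0, .ofNat 1, .ofNat 0, .ofNat 0, .ofNat 0, .ofNat 0, .ofNat 0])]),
      (true, [])]⟩

lemma e04_6_ok : okE e04_6 = true := by decide +kernel

/-- a fibre -/
def e04_7 : Cfg :=
    ⟨[(0, 3), (4, 1)], [(false, []), (false, []), (false, [([.ofNat 36, .negSucc 323, .negSucc 107],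
      [.ofNat 90, .ofNat 216, .negSucc 269, .negSucc 4, .negSucc 0, .negSucc 26, .negSucc 23])]),
      (false, [([.ofNat 108, .ofNat 72, .ofNat 216, .ofNat 0], [.negSucc 305, .ofNat 0,
      .ofNat 270, .ofNat 5, .ofNat 1, .negSucc 8, .ofNat 0])]), (true, []), (false, [([.ofNat 36,
      .ofNat 0, .ofNat 108, .ofNat 90, .ofNat 270, .ofNat 54], [.negSucc 305, .negSucc 53,
      .ofNat 306, .ofNat 6, .ofNat 1, .ofNat 0, .ofNat 0])]), (false, [([.ofNat 18, .ofNat 0,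
      .ofNat 0, .negSucc 8, .negSucc 8, .negSucc 26, .negSucc 8], [.ofNat 18, .ofNat 0,
      .negSucc 17, .negSucc 0, .ofNat 0, .ofNat 0, .ofNat 0])]), (false, [([.ofNat 1, .ofNat 1,
      .ofNat 1, .ofNat 0, .ofNat 1, .ofNat 1, .ofNat 1, .ofNat 1], [.negSucc 0, .negSucc 0,
      .ofNat 1, .ofNat 0, .ofNat 0, .ofNat 0, .ofNat 0])]), (true, [])]⟩

lemma e04_7_ok : okE e04_7 = true := by decide +kernel

/-- a fibre -/
def e04_8 : Cfg :=
    ⟨[(0, 3), (4, 2)], [(false, []), (false, [([.ofNat 288, .ofNat 108], [.negSucc 53, .negSucc 197,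
      .ofNat 216, .ofNat 3, .ofNat 1, .ofNat 27, .ofNat 24, .negSucc 1])]), (false, [([.ofNat 36,
      .negSucc 323, .negSucc 107], [.ofNat 90, .ofNat 216, .negSucc 269, .negSucc 4, .negSucc 0,
      .negSucc 26, .negSucc 23, .ofNat 0])]), (false, [([.ofNat 108, .ofNat 72, .ofNat 216,
      .ofNat 0], [.negSucc 305, .ofNat 0, .ofNat 270, .ofNat 5, .ofNat 1, .negSucc 8, .ofNat 0,
      .ofNat 0])]), (true, []), (false, [([.ofNat 36, .ofNat 0, .ofNat 108, .ofNat 90, .ofNat 270,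
      .ofNat 54], [.negSucc 305, .negSucc 53, .ofNat 306, .ofNat 6, .ofNat 1, .ofNat 0, .ofNat 0,
      .ofNat 0])]), (false, [([.ofNat 18, .ofNat 0, .ofNat 0, .negSucc 8, .negSucc 8, .negSucc 26,
      .negSucc 8], [.ofNat 18, .ofNat 0, .negSucc 17, .negSucc 0, .ofNat 0, .ofNat 0, .ofNat 0,
      .ofNat 0])]), (false, [([.ofNat 1, .ofNat 1, .ofNat 1, .ofNat 0, .ofNat 1, .ofNat 1,
      .ofNat 1, .ofNat 1], [.negSucc 0, .negSucc 0, .ofNat 1, .ofNat 0, .ofNat 0, .ofNat 0,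
      .ofNat 0, .ofNat 0])]), (true, [])]⟩

lemma e04_8_ok : okE e04_8 = true := by decide +kernel

/-- a fibre -/
def e04_9 : Cfg :=
    ⟨[(0, 3), (4, 3)], [(false, []), (false, [([.ofNat 288, .ofNat 108], [.negSucc 53, .negSucc 197,
      .ofNat 216, .ofNat 3, .ofNat 1, .ofNat 27, .ofNat 24, .negSucc 1, .ofNat 0])]), (false,
      [([.ofNat 36, .negSucc 323, .negSucc 107], [.ofNat 90, .ofNat 216, .negSucc 269, .negSucc 4,
      .negSucc 0, .negSucc 26, .negSucc 23, .ofNat 0, .ofNat 0])]), (false, [([.ofNat 108,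
      .ofNat 72, .ofNat 216, .ofNat 0], [.negSucc 305, .ofNat 0, .ofNat 270, .ofNat 5, .ofNat 1,
      .negSucc 8, .ofNat 0, .ofNat 0, .ofNat 0])]), (true, []), (false, [([.ofNat 36, .ofNat 0,
      .ofNat 108, .ofNat 90, .ofNat 270, .ofNat 54], [.negSucc 305, .negSucc 53, .ofNat 306,
      .ofNat 6, .ofNat 1, .ofNat 0, .ofNat 0, .ofNat 0, .ofNat 0])]), (false, [([.ofNat 18,
      .ofNat 0, .ofNat 0, .negSucc 8, .negSucc 8, .negSucc 26, .negSucc 8], [.ofNat 18, .ofNat 0,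
      .negSucc 17, .negSucc 0, .ofNat 0, .ofNat 0, .ofNat 0, .ofNat 0, .ofNat 0])]), (false,
      [([.ofNat 1, .ofNat 1, .ofNat 1, .ofNat 0, .ofNat 1, .ofNat 1, .ofNat 1, .ofNat 1],
      [.negSucc 0, .negSucc 0, .ofNat 1, .ofNat 0, .ofNat 0, .ofNat 0, .ofNat 0, .ofNat 0,
      .ofNat 0])]), (true, [])]⟩

lemma e04_9_ok : okE e04_9 = true := by decide +kernel

/-- a fibre -/
def e04_10 : Cfg :=
    ⟨[(0, 4), (4, 1)], [(false, []), (false, [([.ofNat 864, .ofNat 540], [.ofNat 216, .negSucc 701,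
      .ofNat 360, .ofNat 0, .ofNat 0, .negSucc 0, .ofNat 90, .ofNat 72])]), (false, [([.ofNat 108,
      .negSucc 107, .ofNat 216], [.ofNat 486, .negSucc 53, .negSucc 449, .negSucc 14, .negSucc 2,
      .negSucc 0, .ofNat 9, .ofNat 0])]), (false, [([.ofNat 108, .ofNat 180, .ofNat 108,
      .ofNat 216], [.ofNat 180, .negSucc 53, .negSucc 179, .negSucc 9, .negSucc 1, .negSucc 0,
      .ofNat 0, .ofNat 0])]), (true, []), (false, [([.ofNat 36, .ofNat 0, .ofNat 108, .ofNat 90,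
      .ofNat 270, .ofNat 54], [.negSucc 305, .negSucc 53, .ofNat 306, .ofNat 6, .ofNat 1,
      .ofNat 0, .ofNat 0, .ofNat 0])]), (false, [([.ofNat 18, .ofNat 0, .ofNat 0, .negSucc 8,
      .negSucc 8, .negSucc 26, .negSucc 8], [.ofNat 18, .ofNat 0, .negSucc 17, .negSucc 0,
      .ofNat 0, .ofNat 0, .ofNat 0, .ofNat 0])]), (false, [([.ofNat 1, .ofNat 1, .ofNat 1,
      .ofNat 0, .ofNat 1, .ofNat 1, .ofNat 1, .ofNat 1], [.negSucc 0, .negSucc 0, .ofNat 1,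
      .ofNat 0, .ofNat 0, .ofNat 0, .ofNat 0, .ofNat 0])]), (true, [])]⟩

lemma e04_10_ok : okE e04_10 = true := by decide +kernel

/-- the fibres with solutions -/
def E04 : List Cfg := [
    e04_0, e04_1, e04_2, e04_3, e04_4, e04_5, e04_6, e04_7, e04_8, e04_9, e04_10]

/-- the fibres without solutions -/
def Z04 : List Cfg := [
    ⟨[(0, 1), (4, 5)], [(false, [([.ofNat 432], [.negSucc 1511, .ofNat 2565, .negSucc 1736,
      .negSucc 62, .negSucc 191, .ofNat 39, .negSucc 26, .ofNat 2, .negSucc 2])]), (false,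
      [([.ofNat 864, .ofNat 756], [.ofNat 756, .negSucc 1430, .ofNat 531, .ofNat 153, .ofNat 96,
      .ofNat 15, .ofNat 3, .ofNat 2, .ofNat 0])]), (false, [([.ofNat 216, .ofNat 72, .ofNat 108],
      [.ofNat 0, .negSucc 170, .ofNat 135, .ofNat 9, .ofNat 0, .negSucc 4, .ofNat 1, .ofNat 0,
      .ofNat 0])]), (false, [([.ofNat 9, .ofNat 9, .negSucc 8, .negSucc 8], [.negSucc 17,
      .ofNat 18, .ofNat 0, .negSucc 2, .negSucc 1, .ofNat 0, .ofNat 0, .ofNat 0, .ofNat 0])]),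
      (true, []), (false, [([.ofNat 36, .ofNat 0, .ofNat 0, .ofNat 36, .ofNat 36, .ofNat 54],
      [.ofNat 18, .negSucc 44, .ofNat 9, .ofNat 9, .ofNat 0, .negSucc 0, .ofNat 0, .ofNat 0,
      .ofNat 0])]), (false, [([.ofNat 2, .ofNat 4, .ofNat 0, .negSucc 0, .ofNat 1, .ofNat 3,
      .ofNat 5], [.ofNat 2, .negSucc 5, .ofNat 2, .ofNat 1, .ofNat 0, .ofNat 0, .ofNat 0,
      .ofNat 0, .ofNat 0])]), (false, [([.ofNat 1, .ofNat 1, .ofNat 1, .ofNat 0, .ofNat 1,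
      .ofNat 1, .ofNat 1, .ofNat 1], [.negSucc 0, .negSucc 0, .ofNat 1, .ofNat 0, .ofNat 0,
      .ofNat 0, .ofNat 0, .ofNat 0, .ofNat 0])]), (true, [])]⟩,
    ⟨[(0, 2), (4, 4)], [(false, [([.ofNat 216], [.ofNat 702, .negSucc 296, .negSucc 422, .negSucc 17,
      .ofNat 63, .ofNat 48, .negSucc 2, .ofNat 0, .ofNat 1])]), (false, [([.ofNat 288,
      .ofNat 108], [.negSucc 215, .negSucc 278, .ofNat 459, .ofNat 12, .ofNat 9, .ofNat 0,
      .ofNat 7, .ofNat 1, .ofNat 0])]), (false, [([.ofNat 18, .negSucc 17, .ofNat 0], [.ofNat 18,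
      .ofNat 9, .negSucc 26, .negSucc 0, .ofNat 0, .ofNat 0, .negSucc 0, .ofNat 0, .ofNat 0])]),
      (false, [([.ofNat 9, .ofNat 9, .negSucc 8, .negSucc 8], [.negSucc 17, .ofNat 18, .ofNat 0,
      .ofNat 0, .negSucc 2, .negSucc 1, .ofNat 0, .ofNat 0, .ofNat 0])]), (true, []), (false,
      [([.ofNat 36, .ofNat 0, .ofNat 0, .ofNat 18, .ofNat 54, .ofNat 54], [.ofNat 0, .negSucc 53,
      .ofNat 36, .ofNat 1, .ofNat 9, .ofNat 0, .ofNat 0, .ofNat 0, .ofNat 0])]), (false,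
      [([.ofNat 18, .ofNat 0, .ofNat 0, .negSucc 8, .negSucc 8, .negSucc 26, .negSucc 8],
      [.ofNat 18, .ofNat 0, .negSucc 17, .negSucc 0, .ofNat 0, .ofNat 0, .ofNat 0, .ofNat 0,
      .ofNat 0])]), (false, [([.ofNat 1, .ofNat 1, .ofNat 1, .ofNat 0, .ofNat 1, .ofNat 1,
      .ofNat 1, .ofNat 1], [.negSucc 0, .negSucc 0, .ofNat 1, .ofNat 0, .ofNat 0, .ofNat 0,
      .ofNat 0, .ofNat 0, .ofNat 0])]), (true, [])]⟩,
    ⟨[(0, 4), (4, 2)], [(false, [([.ofNat 216], [.ofNat 378, .negSucc 107, .negSucc 287, .negSucc 8,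
      .negSucc 2, .negSucc 0, .ofNat 9, .ofNat 0, .ofNat 6])]), (false, [([.ofNat 864,
      .ofNat 540], [.ofNat 216, .negSucc 701, .ofNat 360, .ofNat 0, .ofNat 0, .negSucc 0,
      .ofNat 90, .ofNat 72, .ofNat 0])]), (false, [([.ofNat 108, .negSucc 107, .ofNat 216],
      [.ofNat 486, .negSucc 53, .negSucc 449, .negSucc 14, .negSucc 2, .negSucc 0, .ofNat 9,
      .ofNat 0, .ofNat 0])]), (false, [([.ofNat 108, .ofNat 180, .ofNat 108, .ofNat 216],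
      [.ofNat 180, .negSucc 53, .negSucc 179, .negSucc 9, .negSucc 1, .negSucc 0, .ofNat 0,
      .ofNat 0, .ofNat 0])]), (true, []), (false, [([.ofNat 36, .ofNat 0, .ofNat 108, .ofNat 90,
      .ofNat 270, .ofNat 54], [.negSucc 305, .negSucc 53, .ofNat 306, .ofNat 6, .ofNat 1,
      .ofNat 0, .ofNat 0, .ofNat 0, .ofNat 0])]), (false, [([.ofNat 18, .ofNat 0, .ofNat 0,
      .negSucc 8, .negSucc 8, .negSucc 26, .negSucc 8], [.ofNat 18, .ofNat 0, .negSucc 17,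
      .negSucc 0, .ofNat 0, .ofNat 0, .ofNat 0, .ofNat 0, .ofNat 0])]), (false, [([.ofNat 1,
      .ofNat 1, .ofNat 1, .ofNat 0, .ofNat 1, .ofNat 1, .ofNat 1, .ofNat 1], [.negSucc 0,
      .negSucc 0, .ofNat 1, .ofNat 0, .ofNat 0, .ofNat 0, .ofNat 0, .ofNat 0, .ofNat 0])]), (true,
      [])]⟩,
    ⟨[(0, 5), (4, 1)], [(false, [([.ofNat 432], [.ofNat 2214, .negSucc 863, .negSucc 1601,
      .negSucc 32, .negSucc 14, .negSucc 1, .negSucc 0, .ofNat 81, .ofNat 96])]), (false,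
      [([.ofNat 3456, .ofNat 864], [.negSucc 5777, .negSucc 215, .ofNat 6246, .ofNat 99,
      .ofNat 45, .ofNat 2, .ofNat 3, .ofNat 117, .ofNat 0])]), (false, [([.ofNat 468,
      .negSucc 1619, .ofNat 648], [.ofNat 4032, .negSucc 161, .negSucc 4031, .negSucc 97,
      .negSucc 27, .negSucc 4, .negSucc 0, .ofNat 0, .ofNat 0])]), (false, [([.ofNat 108,
      .ofNat 180, .ofNat 108, .ofNat 216], [.ofNat 180, .negSucc 53, .negSucc 179, .negSucc 9,
      .negSucc 1, .negSucc 0, .ofNat 0, .ofNat 0, .ofNat 0])]), (true, []), (false, [([.ofNat 36,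
      .ofNat 0, .ofNat 108, .ofNat 90, .ofNat 270, .ofNat 54], [.negSucc 305, .negSucc 53,
      .ofNat 306, .ofNat 6, .ofNat 1, .ofNat 0, .ofNat 0, .ofNat 0, .ofNat 0])]), (false,
      [([.ofNat 18, .ofNat 0, .ofNat 0, .negSucc 8, .negSucc 8, .negSucc 26, .negSucc 8],
      [.ofNat 18, .ofNat 0, .negSucc 17, .negSucc 0, .ofNat 0, .ofNat 0, .ofNat 0, .ofNat 0,
      .ofNat 0])]), (false, [([.ofNat 1, .ofNat 1, .ofNat 1, .ofNat 0, .ofNat 1, .ofNat 1,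
      .ofNat 1, .ofNat 1], [.negSucc 0, .negSucc 0, .ofNat 1, .ofNat 0, .ofNat 0, .ofNat 0,
      .ofNat 0, .ofNat 0, .ofNat 0])]), (true, [])]⟩]

lemma E04_ok : E04.all okE = true := by
  simp only [E04, List.all_cons, List.all_nil, Bool.and_self,
    e04_0_ok, e04_1_ok, e04_2_ok, e04_3_ok, e04_4_ok, e04_5_ok, e04_6_ok, e04_7_ok, e04_8_ok,
    e04_9_ok, e04_10_ok]

lemma Z04_ok : Z04.all okZ = true := by decide +kernel

lemma cov04 : (prods 2).all (fun a => cov E04 Z04 (([0, 4] : List (Fin 9)).zip a)) = true := by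
  decide +kernel

theorem typ04 : Typ [0, 4] E04 Z04 := ⟨E04_ok, Z04_ok, cov04⟩

end Pool.Agent.K9
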