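import Pool.Agent.Lib_helper60.K9.C

/-!
# A point of order nine, `d = 2`: monomials and their divisors
-/

set_option autoImplicit false
set_option linter.unusedSectionVars false
set_option linter.unusedSimpArgs false
set_option linter.unusedVariables false

namespace Pool.Agent.K9

open Polynomial WeierstrassCurve.Affine WithZero
open Pool.Agent.TN Pool.Agent.K7

/-- nine times the inverse of the matrix of the orders -/
def Bi : Fin 8 → Fin 9 → ℤ := 
  ![![0, 0, 0, 0, 0, 0, 0, 0, 9],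
    ![0, -2, 5, 3, 1, -1, -3, 4, 2],
    ![0, -2, -4, 3, 1, -1, 6, 4, 2],
    ![0, -2, -4, -6, 1, 8, 6, 4, 2],
    ![0, 2, -5, -3, -1, 1, 3, 5, -2],
    ![0, 2, 4, -3, -1, 1, 3, -4, -2],
    ![0, 2, 4, 6, -1, 1, -6, -4, -2],
    ![0, 1, 2, 3, 4, -4, -3, -2, -1]]

/-- a monomial is determined by its divisor -/
lemma Dn_inj {n n' : Fin 8 → ℤ} (h : ∀ i, Dn n i = Dn n' i) : n = n' := by
  have key : ∀ j l : Fin 8, ∑ c, Bi j c * oU l c = if j = l then 9 else 0 := by decide +kernel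
  have h1 : ∀ (n : Fin 8 → ℤ) (j : Fin 8), ∑ c, Bi j c * Dn n c = 9 * n j := by
    intro n j
    unfold Dn
    have : ∑ c, Bi j c * ∑ l, n l * oU l c = ∑ l, n l * ∑ c, Bi j c * oU l c := by
      rw [show (∑ c, Bi j c * ∑ l, n l * oU l c) = ∑ c, ∑ l, n l * (Bi j c * oU l c) from
        Finset.sum_congr rfl fun c _ => by
          rw [Finset.mul_sum]; exact Finset.sum_congr rfl fun l _ => by ring, Finset.sum_comm]
      exact Finset.sum_congr rfl fun l _ => (Finset.mul_sum _ _ _).symm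
    rw [this]
    simp only [key, mul_ite, mul_zero, Finset.sum_ite_eq, Finset.mem_univ, if_true]
    ring
  funext j
  have e1 := h1 n j
  have e2 := h1 n' j
  simp only [h] at e1
  omega

/-- a section of `NN` -/
def se : Fin 8 → Fin 9 → ℤ :=
  ![![1, 0, 0, 0, 0, 0, 0, 0, 0], ![2, 1, 0, 0, 0, 0, 0, 0, 1], ![2, 1, 0, -1, -1, -1, -1, 0, 1],
    ![2, 1, 0, -1, -2, -2, -1, 0, 1], ![2, 1, 0, 0, 0, 0, 0, 0, 0], ![3, 2, 1, 0, 0, 0, 0, 0, 1],
    ![3, 2, 1, 0, -1, -1, -1, 0, 1], ![3, 2, 1, 0, -1, -2, -1, 0, 1]]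

/-- exponents of the `X i` -/
def SE (n : Fin 8 → ℤ) (i : Fin 9) : ℤ := ∑ j, n j * se j i

lemma NN_SE (n : Fin 8 → ℤ) : NN (SE n) = n := by
  have key : ∀ j l : Fin 8, ∑ i, se j i * ex i l = if j = l then 1 else 0 := by decide +kernel
  funext l
  unfold NN SE
  have h1 : ∑ i, (∑ j, n j * se j i) * ex i l = ∑ j, n j * ∑ i, se j i * ex i l := by
    rw [show (∑ i, (∑ j, n j * se j i) * ex i l) = ∑ i, ∑ j, n j * (se j i * ex i l) from
      Finset.sum_congr rfl fun i _ => by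
        rw [Finset.sum_mul]; exact Finset.sum_congr rfl fun j _ => by ring, Finset.sum_comm]
    exact Finset.sum_congr rfl fun j _ => (Finset.mul_sum _ _ _).symm
  rw [h1]
  simp only [key, mul_ite, mul_one, mul_zero, Finset.sum_ite_eq', Finset.mem_univ, if_true]

lemma sum9 {M : Type*} [AddCommMonoid M] (f : Fin 9 → M) :
    ∑ i, f i = f 0 + f 1 + f 2 + f 3 + f 4 + f 5 + f 6 + f 7 + f 8 := by
  rw [Fin.sum_univ_castSucc, Fin.sum_univ_eight]
  rfl

lemma sum_OO (e : Fin 9 → ℤ) : ∑ s, OO e s = 0 := by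
  rw [sum9]
  show (e 1 + e 8 - 2 * e 0) + (e 2 + e 0 - 2 * e 1) + (e 3 + e 1 - 2 * e 2) +
    (e 4 + e 2 - 2 * e 3) + (e 5 + e 3 - 2 * e 4) + (e 6 + e 4 - 2 * e 5) +
    (e 7 + e 5 - 2 * e 6) + (e 8 + e 6 - 2 * e 7) + (e 0 + e 7 - 2 * e 8) = 0
  ring

lemma wt_OO (e : Fin 9 → ℤ) : ∑ s : Fin 9, (s.val : ℤ) * OO e s = 9 * (e 0 - e 8) := by
  rw [sum9]
  show (0 : ℤ) * (e 1 + e 8 - 2 * e 0) + 1 * (e 2 + e 0 - 2 * e 1) + 2 * (e 3 + e 1 - 2 * e 2) +
    3 * (e 4 + e 2 - 2 * e 3) + 4 * (e 5 + e 3 - 2 * e 4) + 5 * (e 6 + e 4 - 2 * e 5) +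
    6 * (e 7 + e 5 - 2 * e 6) + 7 * (e 8 + e 6 - 2 * e 7) + 8 * (e 0 + e 7 - 2 * e 8) =
    9 * (e 0 - e 8)
  ring

section

variable {k : Type*} [Field k] {F : Type*} [Field F] [Algebra k F] {x y : F}

/-- monomials in the basis are monomials in the `X i` -/
lemma M9_eq [CharZero k] (h : Gen (12 : k) 4 x y) (n : Fin 8 → ℤ) :
    M9 x y n = algebraMap k F (∏ i, lam k i ^ SE n i)⁻¹ * mon x y (SE n) := by
  have h1 : (∏ i, lam k i ^ SE n i) ≠ 0 :=
    Finset.prod_ne_zero_iff.mpr fun i _ => zpow_ne_zero _ (lam_ne i)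
  rw [mon_eq h, NN_SE, ← mul_assoc, ← map_mul, inv_mul_cancel₀ h1, map_one, one_mul]

lemma mon_const (h : Gen (12 : k) 4 x y) {e : Fin 9 → ℤ}
    (he : ∀ s, OO e s = 0) : mon x y e = algebraMap k F (∏ i, lam k i ^ e i) := by
  have hN : NN e = 0 := Dn_inj fun i => by
    rw [Dn_NN, he]
    simp [Dn]
  rw [mon_eq h, hN]
  simp [M9]

lemma mon_ne [CharZero k] (h : Gen (12 : k) 4 x y) (e : Fin 9 → ℤ) : mon x y e ≠ 0 :=
  Finset.prod_ne_zero_iff.mpr fun i _ => zpow_ne_zero _ (XF_ne h i)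

lemma mon_neg (x y : F) (e : Fin 9 → ℤ) : mon x y (fun i => - e i) = (mon x y e)⁻¹ := by
  unfold mon
  rw [← Finset.prod_inv_distrib]
  exact Finset.prod_congr rfl fun i _ => zpow_neg _ _

lemma mon_sub [CharZero k] (h : Gen (12 : k) 4 x y) (e e' : Fin 9 → ℤ) :
    mon x y (fun i => e' i - e i) = mon x y e' / mon x y e := by
  unfold mon
  rw [← Finset.prod_div_distrib]
  exact Finset.prod_congr rfl fun i _ => zpow_sub₀ (XF_ne h i) _ _

/-- the orders of a constant vanish -/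
lemma OO_const [CharZero k] (h : Gen (12 : k) 4 x y)
    {e : Fin 9 → ℤ} {s : k} (hs : mon x y e = algebraMap k F s) (σ : Fin 9) : OO e σ = 0 := by
  obtain ⟨x', y', h', hx⟩ := exists_shift h σ
  rw [mon_shift σ hx e, mon_eq h', ← io_mo h', ← io_c h', ← io_c h', ← map_mul] at hs
  have e2 := io_inj h' hs
  set e' : Fin 9 → ℤ := fun i => e (i + σ) with he'
  have l0 : (∏ i, lam k i ^ e' i) ≠ 0 :=
    Finset.prod_ne_zero_iff.mpr fun i _ => zpow_ne_zero _ (lam_ne i)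
  have l1 := (LC_c (W := W9 k) l0).mul (LC_mo (NN e'))
  have s0 : s ≠ 0 := by
    rintro rfl
    rw [map_zero] at e2
    exact l1.ne e2
  have v1 := l1.v_eq
  rw [e2, (LC_c (W := W9 k) s0).v_eq] at v1
  have v2 := exp_injective v1
  have v3 := Dn_at e σ
  rw [← he'] at v3
  omega

/-- a monomial is constant only if its exponents vanish -/
lemma M9_const [CharZero k] (h : Gen (12 : k) 4 x y)
    {n : Fin 8 → ℤ} {s : k} (hs : M9 x y n = algebraMap k F s) : n = 0 := by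
  have l0 : (∏ i, lam k i ^ SE n i) ≠ 0 :=
    Finset.prod_ne_zero_iff.mpr fun i _ => zpow_ne_zero _ (lam_ne i)
  have h1 : mon x y (SE n) = algebraMap k F ((∏ i, lam k i ^ SE n i) * s) := by
    rw [map_mul, ← hs, M9_eq h, ← mul_assoc, ← map_mul, mul_inv_cancel₀ l0, map_one,
      one_mul]
  have h2 := OO_const h h1
  have h3 : NN (SE n) = 0 := Dn_inj fun i => by
    rw [Dn_NN, h2]
    simp [Dn]
  rwa [NN_SE] at h3

lemma M9_ne (h : Gen (12 : k) 4 x y) (n : Fin 8 → ℤ) : M9 x y n ≠ 0 :=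
  Finset.prod_ne_zero_iff.mpr fun j _ => zpow_ne_zero _ (uF_ne h j)

lemma M9_sub (h : Gen (12 : k) 4 x y) (n n' : Fin 8 → ℤ) :
    M9 x y (n - n') = M9 x y n / M9 x y n' := by
  unfold M9
  rw [← Finset.prod_div_distrib]
  exact Finset.prod_congr rfl fun j _ => by rw [Pi.sub_apply, zpow_sub₀ (uF_ne h j)]

/-- the coefficients are determined by the exponents -/
lemma M9_uniq [CharZero k] (h : Gen (12 : k) 4 x y)
    {n n' : Fin 8 → ℤ} (hn : n ≠ 0) {a a' b b' : k}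
    (h1 : algebraMap k F a * M9 x y n + algebraMap k F a' * M9 x y n' = 1)
    (h2 : algebraMap k F b * M9 x y n + algebraMap k F b' * M9 x y n' = 1) : a = b := by
  have m1 := M9_ne h n
  have m2 := M9_ne h n'
  by_contra hab
  have hab' : a - b ≠ 0 := sub_ne_zero.mpr hab
  have hk : algebraMap k F (a - b) ≠ 0 := (_root_.map_ne_zero _).mpr hab'
  have e1 : algebraMap k F (a - b) * M9 x y n = algebraMap k F (b' - a') * M9 x y n' := by
    rw [map_sub, map_sub]
    linear_combination h1 - h2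
  have e2 : M9 x y (n - n') = algebraMap k F ((b' - a') / (a - b)) := by
    rw [M9_sub h, map_div₀, div_eq_div_iff m2 hk, mul_comm, e1]
  have e3 := M9_const h e2
  have e4 : n = n' := sub_eq_zero.mp e3
  subst e4
  rw [← add_mul, ← map_add] at h1
  have e5 : a + a' ≠ 0 := by
    intro h'
    rw [h', map_zero, zero_mul] at h1
    exact zero_ne_one h1
  apply hn
  apply M9_const h (s := (a + a')⁻¹)
  rw [map_inv₀]
  exact eq_inv_of_mul_eq_one_right h1

/-- `2` and `3` are multiplicatively independent -/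
lemma two_three [CharZero k] {a b : ℤ} (h : (2 : k) ^ a * 3 ^ b = 1) : a = 0 ∧ b = 0 := by
  have h2 : (((2 : ℚ) ^ a * 3 ^ b : ℚ) : k) = ((1 : ℚ) : k) := by
    push_cast
    exact h
  have h3 : (2 : ℚ) ^ a * 3 ^ b = 1 := by exact_mod_cast h2
  have p2 : Fact (Nat.Prime 2) := ⟨Nat.prime_two⟩
  have p3 : Fact (Nat.Prime 3) := ⟨Nat.prime_three⟩
  have z2 : (2 : ℚ) ^ a ≠ 0 := zpow_ne_zero _ (by norm_num)
  have z3 : (3 : ℚ) ^ b ≠ 0 := zpow_ne_zero _ (by norm_num)
  constructor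
  · have h4 := congrArg (padicValRat 2) h3
    rw [padicValRat.mul z2 z3, padicValRat.zpow, padicValRat.zpow,
      padicValRat.one] at h4
    have e2 : padicValRat 2 (2 : ℚ) = 1 := padicValRat.self (by norm_num)
    have e3 : padicValRat 2 (3 : ℚ) = 0 := by
      have : ((3 : ℚ)) = ((3 : ℕ) : ℚ) := by norm_num
      rw [this, padicValRat.of_nat, padicValNat.eq_zero_of_not_dvd (by norm_num)]
      rfl
    rw [e2, e3] at h4
    omega
  · have h4 := congrArg (padicValRat 3) h3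
    rw [padicValRat.mul z2 z3, padicValRat.zpow, padicValRat.zpow,
      padicValRat.one] at h4
    have e2 : padicValRat 3 (3 : ℚ) = 1 := padicValRat.self (by norm_num)
    have e3 : padicValRat 3 (2 : ℚ) = 0 := by
      have : ((2 : ℚ)) = ((2 : ℕ) : ℚ) := by norm_num
      rw [this, padicValRat.of_nat, padicValNat.eq_zero_of_not_dvd (by norm_num)]
      rfl
    rw [e2, e3] at h4
    omega

end

end Pool.Agent.K9
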