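import Pool.Agent.Lib_helper60.K9.D

/-!
# A point of order nine, `d = 2`: the linear forms in the divisor
-/

set_option autoImplicit false
set_option linter.unusedSectionVars false
set_option linter.unusedSimpArgs false
set_option linter.unusedVariables false

namespace Pool.Agent.K9

open Polynomial WeierstrassCurve.Affine WithZero
open Pool.Agent.TN Pool.Agent.K7

/-- the coefficients in terms of the divisor -/
def kap : Fin 9 → Fin 9 → ℤ := 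
  ![![0, 0, 0, 0, 0, 0, 0, 0, 31104],
    ![0, 5184, 0, 0, -2592, -2592, -7776, -2592, -12960],
    ![0, -2592, 0, 0, 0, 0, 0, 0, -2592],
    ![0, -2592, -864, -1296, 0, 432, 1296, 1296, 1080],
    ![0, 1296, 216, 648, 432, 432, 648, 216, 1296],
    ![0, 396, 360, 324, 234, 90, 54, -198, 90],
    ![0, -198, -90, -162, -144, -144, -162, -90, -198],
    ![0, -18, -36, -18, -18, -9, -9, 9, -9],
    ![0, 9, 9, 9, 9, 9, 9, 9, 9]]

/-- the linear forms -/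
def kz (m s : Fin 9) (D : Fin 9 → ℤ) : ℤ := ∑ c, kap m c * D (c + s)

lemma OO_sum (f : Fin 9 → ℤ) (e : Fin 9 → ℤ) :
    ∑ c, f c * OO e c = ∑ i, e i * (f (i - 1) + f (i + 1) - 2 * f i) := by
  have h2 : ∑ c, f c * OO e c = ∑ c, f c * e (c + 1) + ∑ c, f c * e (c - 1) -
      ∑ c, f c * (2 * e c) := by
    unfold OO
    rw [← Finset.sum_add_distrib, ← Finset.sum_sub_distrib]
    exact Finset.sum_congr rfl fun c _ => by ring
  have h3 : ∑ c, f c * e (c + 1) = ∑ i, e i * f (i - 1) := by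
    rw [← Equiv.sum_comp (Equiv.addRight (1 : Fin 9)) (fun i => e i * f (i - 1))]
    refine Finset.sum_congr rfl fun c _ => ?_
    show _ = e (c + 1) * f (c + 1 - 1)
    rw [add_sub_cancel_right, mul_comm]
  have h4 : ∑ c, f c * e (c - 1) = ∑ i, e i * f (i + 1) := by
    rw [← Equiv.sum_comp (Equiv.subRight (1 : Fin 9)) (fun i => e i * f (i + 1))]
    refine Finset.sum_congr rfl fun c _ => ?_
    show _ = e (c - 1) * f (c - 1 + 1)
    rw [sub_add_cancel, mul_comm]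
  rw [h2, h3, h4, ← Finset.sum_add_distrib, ← Finset.sum_sub_distrib]
  exact Finset.sum_congr rfl fun i _ => by ring

lemma kz_eq (m : Fin 9) (e : Fin 9 → ℤ) :
    9 * ∑ j, NN e j * rz j m = ∑ c, kap m c * OO e c := by
  have key : ∀ m i : Fin 9, 9 * ∑ j, ex i j * rz j m =
      kap m (i - 1) + kap m (i + 1) - 2 * kap m i := by decide +kernel
  have h1 : 9 * ∑ j, NN e j * rz j m = ∑ i, e i * (9 * ∑ j, ex i j * rz j m) := by
    unfold NN
    rw [Finset.mul_sum]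
    rw [show (∑ j, 9 * ((∑ i, e i * ex i j) * rz j m)) =
      ∑ j, ∑ i, e i * (9 * (ex i j * rz j m)) from Finset.sum_congr rfl fun j _ => by
        rw [Finset.sum_mul, Finset.mul_sum]
        exact Finset.sum_congr rfl fun i _ => by ring, Finset.sum_comm]
    refine Finset.sum_congr rfl fun i _ => ?_
    rw [Finset.mul_sum, Finset.mul_sum]
  rw [h1, OO_sum]
  simp only [key]

/-- `g'/g` vanishes to order `a - 1` at `-sP` -/
def VanAt (D : Fin 9 → ℤ) (s : Fin 9) (a : ℤ) : Prop := ∀ m : Fin 9, 9 - a < ordm m → kz m s D = 0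

lemma lt_ordm : ∀ M m : Fin 9, ordm M < ordm m → M < m := by decide

lemma ordm_nn : ∀ M : Fin 9, (0 : ℤ) ≤ ordm M := by decide

section

variable {k : Type*} [Field k] {F : Type*} [Field F] [Algebra k F] {x y : F}

lemma van2 [CharZero k] (h : Gen (12 : k) 4 x y) {c₀ c₁ : k} (h0 : c₀ ≠ 0) (h1 : c₁ ≠ 0)
    {e e' : Fin 9 → ℤ}
    (hu : algebraMap k F c₀ * mon x y e + algebraMap k F c₁ * mon x y e' = 1) (s : Fin 9)
    (hs : 1 ≤ OO e s) (hs' : OO e' s = 0) : OO e s ≤ 9 ∧ VanAt (OO e') s (OO e s) := by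
  obtain ⟨M, hM, hv⟩ := van9 h h0 h1 hu s hs hs'
  have hM0 := ordm_nn M
  refine ⟨by omega, fun m hm => ?_⟩
  have hlt : M < m := by
    rw [← hM] at hm
    exact lt_ordm M m (by omega)
  have h2 := hv m hlt
  unfold RR at h2
  rw [Finset.sum_apply] at h2
  simp only [Pi.smul_apply, smul_eq_mul, rr] at h2
  have h3 : ∑ j, (NN fun i => e' (i + s)) j * rz j m = 0 := by
    have : ((∑ j, (NN fun i => e' (i + s)) j * rz j m : ℤ) : k) = 0 := by
      push_cast; exact h2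
    exact_mod_cast this
  have h4 := kz_eq m (fun i => e' (i + s))
  rw [h3, mul_zero] at h4
  unfold kz
  rw [h4]
  refine Finset.sum_congr rfl fun c _ => ?_
  rw [OO_shift]

end

/-! ### values -/

/-- the exponent of `2` in the leading coefficient -/
def S2 (e : Fin 9 → ℤ) (s : Fin 9) : ℤ := 2 * (e (1 + s) + e (2 + s) + e (7 + s) + e (8 + s)) +
  2 * (e (3 + s) + e (6 + s)) + (e (4 + s) + e (5 + s))

/-- the exponent of `3` in the leading coefficient -/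
def S3 (e : Fin 9 → ℤ) (s : Fin 9) : ℤ := e (1 + s) + e (2 + s) + e (7 + s) + e (8 + s) +
  (e (4 + s) + e (5 + s))

/-- exponents of `2` -/
def nu2 : Fin 9 → ℤ := ![0, -7, -10, -9, -4, -4, -9, -10, -7]

/-- exponents of `3` -/
def nu3 : Fin 9 → ℤ := ![0, -3, -3, 0, -3, -3, 0, -3, -3]

lemma nu_L0 (e : Fin 9 → ℤ) : 9 * S2 e 0 = ∑ c, nu2 c * OO e c + 14 * ∑ i, e i ∧
    9 * S3 e 0 = ∑ c, nu3 c * OO e c + 6 * ∑ i, e i := by
  have k2 : ∀ i : Fin 9, nu2 (i - 1) + nu2 (i + 1) - 2 * nu2 i =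
      (![-14, 4, 4, 4, -5, -5, 4, 4, 4] : Fin 9 → ℤ) i := by decide +kernel
  have k3 : ∀ i : Fin 9, nu3 (i - 1) + nu3 (i + 1) - 2 * nu3 i =
      (![-6, 3, 3, -6, 3, 3, -6, 3, 3] : Fin 9 → ℤ) i := by decide +kernel
  rw [OO_sum, OO_sum]
  simp only [k2, k3]
  rw [sum9, sum9, sum9]
  unfold S2 S3
  simp only [add_zero]
  constructor
  · show _ = e 0 * -14 + e 1 * 4 + e 2 * 4 + e 3 * 4 + e 4 * -5 + e 5 * -5 + e 6 * 4 + e 7 * 4 +
      e 8 * 4 + _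
    ring
  · show _ = e 0 * -6 + e 1 * 3 + e 2 * 3 + e 3 * -6 + e 4 * 3 + e 5 * 3 + e 6 * -6 + e 7 * 3 +
      e 8 * 3 + _
    ring

lemma S_shift (e : Fin 9 → ℤ) (s : Fin 9) : S2 (fun i => e (i + s)) 0 = S2 e s ∧
    S3 (fun i => e (i + s)) 0 = S3 e s := by
  unfold S2 S3
  simp

lemma nu_L (e : Fin 9 → ℤ) (s : Fin 9) :
    9 * S2 e s = ∑ c, nu2 (c - s) * OO e c + 14 * ∑ i, e i ∧
    9 * S3 e s = ∑ c, nu3 (c - s) * OO e c + 6 * ∑ i, e i := by
  have key : ∀ nu : Fin 9 → ℤ, ∑ c, nu c * OO (fun i => e (i + s)) c =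
      ∑ c, nu (c - s) * OO e c := by
    intro nu
    rw [← Equiv.sum_comp (Equiv.addRight s) (fun c => nu (c - s) * OO e c)]
    refine Finset.sum_congr rfl fun c _ => ?_
    show nu c * OO (fun i => e (i + s)) c = nu (c + s - s) * OO e (c + s)
    rw [add_sub_cancel_right, OO_shift]
  have hs : ∑ i, e (i + s) = ∑ i, e i := Equiv.sum_comp (Equiv.addRight s) e
  obtain ⟨h2, h3⟩ := nu_L0 (fun i => e (i + s))
  rw [(S_shift e s).1, key, hs] at h2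
  rw [(S_shift e s).2, key, hs] at h3
  exact ⟨h2, h3⟩

section

variable {k : Type*} [Field k] {F : Type*} [Field F] [Algebra k F] {x y : F}

lemma prod_lam [CharZero k] (e : Fin 9 → ℤ) (s : Fin 9) :
    (∏ i, lam k i ^ e (i + s)) ^ 2 = (2 : k) ^ (2 * S2 e s) * 3 ^ (2 * S3 e s) := by
  have h2 : (2 : k) ≠ 0 := two_ne_zero
  have h3 : (3 : k) ≠ 0 := three_ne_zero
  have e1 : ∏ i, lam k i ^ e (i + s) = lam k 0 ^ e (0 + s) * lam k 1 ^ e (1 + s) *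
      lam k 2 ^ e (2 + s) * lam k 3 ^ e (3 + s) * lam k 4 ^ e (4 + s) * lam k 5 ^ e (5 + s) *
      lam k 6 ^ e (6 + s) * lam k 7 ^ e (7 + s) * lam k 8 ^ e (8 + s) := by
    rw [Fin.prod_univ_castSucc, Fin.prod_univ_eight]
    rfl
  have c12 : (2 : k) ^ (2 : ℤ) * 3 = 12 := by norm_num
  have c4 : (2 : k) ^ (2 : ℤ) = 4 := by norm_num
  have c6 : (2 : k) * 3 = 6 := by norm_num
  have l0 : lam k 0 = 1 := by unfold lam lz; simp
  have l1 : lam k 1 = 2 ^ (2 : ℤ) * 3 := by rw [c12]; exact Int.cast_ofNat 12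
  have l2 : lam k 2 = 2 ^ (2 : ℤ) * 3 := by rw [c12]; exact Int.cast_ofNat 12
  have l3 : lam k 3 = 2 ^ (2 : ℤ) := by rw [c4]; exact Int.cast_ofNat 4
  have l4 : lam k 4 = 2 * 3 := by rw [c6]; exact Int.cast_ofNat 6
  have l5 : lam k 5 = 2 * 3 := by rw [c6]; exact Int.cast_ofNat 6
  have l6 : lam k 6 = 2 ^ (2 : ℤ) := by rw [c4]; exact Int.cast_ofNat 4
  have l7 : lam k 7 = 2 ^ (2 : ℤ) * 3 := by rw [c12]; exact Int.cast_ofNat 12
  have l8 : lam k 8 = (-1) * (2 ^ (2 : ℤ) * 3) := by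
    rw [c12]
    show (((-12 : ℤ)) : k) = _
    push_cast; ring
  rw [e1, l0, l1, l2, l3, l4, l5, l6, l7, l8, one_zpow, one_mul]
  simp only [mul_zpow, ← zpow_mul]
  have h4 : ((-1 : k) ^ e (8 + s)) ^ 2 = 1 := by
    rw [← zpow_natCast, ← zpow_mul, mul_comm, zpow_mul]; norm_num
  have e2 : (2 : k) ^ (2 * e (1 + s)) * 3 ^ e (1 + s) * (2 ^ (2 * e (2 + s)) * 3 ^ e (2 + s)) *
      2 ^ (2 * e (3 + s)) * (2 ^ e (4 + s) * 3 ^ e (4 + s)) * (2 ^ e (5 + s) * 3 ^ e (5 + s)) *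
      2 ^ (2 * e (6 + s)) * (2 ^ (2 * e (7 + s)) * 3 ^ e (7 + s)) *
      ((-1) ^ e (8 + s) * (2 ^ (2 * e (8 + s)) * 3 ^ e (8 + s))) =
      (-1) ^ e (8 + s) * (2 ^ S2 e s * 3 ^ S3 e s) := by
    unfold S2 S3
    rw [show 2 * (e (1 + s) + e (2 + s) + e (7 + s) + e (8 + s)) + 2 * (e (3 + s) + e (6 + s)) +
      (e (4 + s) + e (5 + s)) = 2 * e (1 + s) + 2 * e (2 + s) + 2 * e (7 + s) + 2 * e (8 + s) +
      2 * e (3 + s) + 2 * e (6 + s) + e (4 + s) + e (5 + s) by ring,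
      show e (1 + s) + e (2 + s) + e (7 + s) + e (8 + s) + (e (4 + s) + e (5 + s)) =
      e (1 + s) + e (2 + s) + e (7 + s) + e (8 + s) + e (4 + s) + e (5 + s) by ring]
    simp only [zpow_add₀ h2, zpow_add₀ h3]
    ring
  rw [e2, mul_pow, h4, one_mul, mul_pow, ← zpow_natCast, ← zpow_natCast, ← zpow_mul, ← zpow_mul]
  congr 2 <;> push_cast <;> ring

lemma Lc_eq [CharZero k] {c : k} {e : Fin 9 → ℤ} {s s' : Fin 9} (h : Lc c e s = 1)
    (h' : Lc c e s' = 1) : S2 e s = S2 e s' ∧ S3 e s = S3 e s' := by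
  have hc : c ≠ 0 := by
    rintro rfl
    unfold Lc at h
    rw [zero_mul] at h
    exact zero_ne_one h
  have h2 : (∏ i, lam k i ^ e (i + s)) = ∏ i, lam k i ^ e (i + s') :=
    mul_left_cancel₀ hc (h.trans h'.symm)
  have h3 := congrArg (fun z => z ^ 2) h2
  simp only [prod_lam] at h3
  have n2 : (2 : k) ≠ 0 := two_ne_zero
  have n3 : (3 : k) ≠ 0 := three_ne_zero
  have h4 : (2 : k) ^ (2 * S2 e s - 2 * S2 e s') * 3 ^ (2 * S3 e s - 2 * S3 e s') = 1 := by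
    have m2 := zpow_ne_zero (2 * S2 e s') n2
    have m3 := zpow_ne_zero (2 * S3 e s') n3
    rw [zpow_sub₀ n2, zpow_sub₀ n3, div_mul_div_comm, h3, div_self (mul_ne_zero m2 m3)]
  have h5 := two_three h4
  omega

/-- the conditions on the divisors of `f`, `1 - f` -/
structure Shp (D D' : Fin 9 → ℤ) : Prop where
  alt : ∀ s, (D s = 0 ∧ D' s = 0) ∨ (1 ≤ D s ∧ D' s = 0) ∨ (D s = 0 ∧ 1 ≤ D' s) ∨
    (D s = D' s ∧ D s ≤ -1)
  s0 : ∑ s, D s = 0
  s1 : ∑ s, D' s = 0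
  w0 : (∑ s : Fin 9, (s.val : ℤ) * D s) % 9 = 0
  w1 : (∑ s : Fin 9, (s.val : ℤ) * D' s) % 9 = 0
  van : ∀ s, 1 ≤ D s → D s ≤ 9 ∧ VanAt D' s (D s)
  lv : ∀ s s', 1 ≤ D s → 1 ≤ D s' → ∑ c, nu2 (c - s) * D' c = ∑ c, nu2 (c - s') * D' c ∧
    ∑ c, nu3 (c - s) * D' c = ∑ c, nu3 (c - s') * D' c
  ne : ∃ s, D' s ≠ 0

lemma shp [CharZero k] (h : Gen (12 : k) 4 x y) {c₀ c₁ : k} (h0 : c₀ ≠ 0)
    (h1 : c₁ ≠ 0) {e e' : Fin 9 → ℤ}
    (hu : algebraMap k F c₀ * mon x y e + algebraMap k F c₁ * mon x y e' = 1)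
    (he' : ∃ s, OO e' s ≠ 0) : Shp (OO e) (OO e') := by
  have B := bound9 h h0 h1 hu
  have L : ∀ s, 1 ≤ OO e s → Lc c₁ e' s = 1 := by
    intro s hs
    rcases B s with h | ⟨_, _, h⟩ | h | h
    · omega
    · exact h
    · omega
    · omega
  refine ⟨?_, sum_OO e, sum_OO e', ?_, ?_, ?_, ?_, he'⟩
  · intro s
    rcases B s with h | ⟨h, h', _⟩ | ⟨h, h'⟩ | ⟨h, h'⟩
    · exact Or.inl h
    · exact Or.inr (Or.inl ⟨h, h'⟩)
    · exact Or.inr (Or.inr (Or.inl ⟨h, h'⟩))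
    · exact Or.inr (Or.inr (Or.inr ⟨h, h'⟩))
  · rw [wt_OO]; omega
  · rw [wt_OO]; omega
  · intro s hs
    have hs' : OO e' s = 0 := by
      rcases B s with h | ⟨h, h', _⟩ | ⟨h, h'⟩ | ⟨h, h'⟩ <;> omega
    exact van2 h h0 h1 hu s hs hs'
  · intro s s' hs hs'
    have h2 := Lc_eq (L s hs) (L s' hs')
    have h3 := nu_L e' s
    have h4 := nu_L e' s'
    constructor
    · linarith [h2.1, h3.1, h4.1]
    · linarith [h2.2, h3.2, h4.2]

end

end Pool.Agent.K9
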