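import Pool.Agent.Lib_helper60.K9.T1
import Pool.Agent.Lib_helper60.K9.E

/-!
# A point of order nine, `d = 2`: soundness of the checks
-/

set_option autoImplicit false
set_option linter.unusedSectionVars false
set_option linter.unusedSimpArgs false
set_option linter.unusedVariables false

namespace Pool.Agent.K9

/-- the list of values -/
def tl (D : Fin 9 → ℤ) : List ℤ := [D 0, D 1, D 2, D 3, D 4, D 5, D 6, D 7, D 8]

lemma tl_len (D : Fin 9 → ℤ) : (tl D).length = 9 := rfl

lemma tl_getD (D : Fin 9 → ℤ) (s : Fin 9) : (tl D).getD s.val 0 = D s := by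
  fin_cases s <;> rfl

lemma tl_inj {D D' : Fin 9 → ℤ} (h : tl D = tl D') (s : Fin 9) : D s = D' s := by
  rw [← tl_getD D, h, tl_getD]

lemma dot_tl (f D : Fin 9 → ℤ) : dot (tl f) (tl D) = ∑ c, f c * D c := by
  rw [sum9]
  show f 0 * D 0 + (f 1 * D 1 + (f 2 * D 2 + (f 3 * D 3 + (f 4 * D 4 + (f 5 * D 5 +
    (f 6 * D 6 + (f 7 * D 7 + (f 8 * D 8 + 0)))))))) = _
  ring

lemma pos_tl (D : Fin 9 → ℤ) : pos (tl D) = ∑ s, (D s).toNat := by
  rw [sum9]
  show (D 0).toNat + ((D 1).toNat + ((D 2).toNat + ((D 3).toNat + ((D 4).toNat + ((D 5).toNat +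
    ((D 6).toNat + ((D 7).toNat + ((D 8).toNat + 0)))))))) = _
  ring

lemma neg_tl (D : Fin 9 → ℤ) : neg (tl D) = ∑ s, (-(D s)).toNat := by
  rw [sum9]
  show (-(D 0)).toNat + ((-(D 1)).toNat + ((-(D 2)).toNat + ((-(D 3)).toNat + ((-(D 4)).toNat +
    ((-(D 5)).toNat + ((-(D 6)).toNat + ((-(D 7)).toNat + ((-(D 8)).toNat + 0)))))))) = _
  ring

/-- the row of a linear form -/
def rowOf (s m : Fin 9) : List ℤ := tl (fun c => kap m (c - s))

lemma kz_row (m s : Fin 9) (D : Fin 9 → ℤ) : kz m s D = dot (rowOf s m) (tl D) := by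
  unfold rowOf
  rw [dot_tl]
  unfold kz
  rw [← Equiv.sum_comp (Equiv.addRight s) (fun c => kap m (c - s) * D c)]
  refine Finset.sum_congr rfl fun c _ => ?_
  show _ = kap m (c + s - s) * D (c + s)
  rw [add_sub_cancel_right]

lemma RW_eq : ∀ s : Fin 9, RWL.getD s.val [] =
    ([7, 6, 5, 4, 3, 2, 1] : List (Fin 9)).map (rowOf s) := by decide +kernel

lemma VW_eq : ∀ s : Fin 9, VWL.getD s.val [] = if s = 0 then [] else
    [tl (fun c => nu2 (c - s) - nu2 c), tl (fun c => nu3 (c - s) - nu3 c)] := by decide +kernel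

lemma un_eq (s : Fin 9) : un s = tl (fun i => if i = s then 1 else 0) := by
  fin_cases s <;> rfl

lemma ord_take : ∀ a : Fin 10, ∀ m ∈ ([7, 6, 5, 4, 3, 2, 1] : List (Fin 9)).take (a.val - 1),
    (9 : ℤ) - (a.val : ℤ) < ordm m := by decide +kernel

lemma rows_zero {D D' : Fin 9 → ℤ} (H : Shp D D') {pts : List (Fin 9 × ℕ)}
    (hp : ∀ p ∈ pts, 1 ≤ p.2 ∧ (p.2 : ℤ) ≤ D p.1) (h0 : 1 ≤ D 0) :
    ∀ r ∈ rowsC pts, dot r (tl D') = 0 := by
  intro r hr
  unfold rowsC at hr
  rw [List.mem_append, List.mem_map, List.mem_cons, List.mem_flatMap] at hr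
  rcases hr with ⟨p, hp', rfl⟩ | rfl | ⟨p, hp', hr⟩
  · rw [un_eq, dot_tl]
    simp only [ite_mul, one_mul, zero_mul, Finset.sum_ite_eq', Finset.mem_univ, if_true]
    have h1 := hp p hp'
    rcases H.alt p.1 with h | h | h | h <;> omega
  · have := H.s1
    rw [sum9] at this
    show 1 * D' 0 + (1 * D' 1 + (1 * D' 2 + (1 * D' 3 + (1 * D' 4 + (1 * D' 5 +
      (1 * D' 6 + (1 * D' 7 + (1 * D' 8 + 0)))))))) = 0
    linarith
  · have h1 := hp p hp'
    rw [List.mem_append] at hr
    rcases hr with hr | hr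
    · rw [VW_eq] at hr
      split at hr
      · exact absurd hr (by simp)
      · have h2 := H.lv 0 p.1 h0 (by omega)
        simp only [sub_zero] at h2
        rw [List.mem_cons, List.mem_singleton] at hr
        rcases hr with rfl | rfl
        · rw [dot_tl]
          simp only [sub_mul, Finset.sum_sub_distrib, h2.1, sub_self]
        · rw [dot_tl]
          simp only [sub_mul, Finset.sum_sub_distrib, h2.2, sub_self]
    · rw [RW_eq, ← List.map_take, List.mem_map] at hr
      obtain ⟨m, hm, rfl⟩ := hr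
      rw [← kz_row]
      have h2 := H.van p.1 (by omega)
      have h3 := ord_take ⟨p.2, by omega⟩ m hm
      exact h2.2 m (by simp only at h3; omega)

lemma lev_of {w : List ℤ} {pts : List (Fin 9 × ℕ)} {rows : List (List ℤ)}
    (hw : ∀ p ∈ pts, w.getD p.1.val 0 = 0) (hr : ∀ r ∈ rows, dot r w = 0)
    (lv : List (Bool × List (List ℤ × List ℤ))) (h : lvok pts rows lv = true) :
    Lev w (lv.map (fun b => (b.1, b.2.map Prod.fst))) := by
  induction lv with
  | nil => trivial
  | cons b ms ih =>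
    obtain ⟨b, rs⟩ := b
    unfold lvok at h
    rw [Bool.and_eq_true, Bool.and_eq_true, List.all_eq_true] at h
    obtain ⟨h1, h2, h3⟩ := h
    refine ⟨fun hb => ?_, ?_, ih h3⟩
    · rw [List.length_map]
      have hb' : b = true := hb
      rw [hb'] at h1
      simp only [Bool.not_true, Bool.false_or, List.any_eq_true, beq_iff_eq] at h1
      obtain ⟨p, hp, hp'⟩ := h1
      rw [← hp']
      exact hw p hp
    · intro r hr'
      rw [List.length_map]
      rw [List.mem_map] at hr'
      obtain ⟨q, hq, rfl⟩ := hr'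
      have := h2 q hq
      rw [beq_iff_eq] at this
      rw [this]
      exact dot_lcomb _ _ _ hr

lemma dot_zero (r l : List ℤ) (h : ∀ x ∈ l, x = 0) : dot r l = 0 := by
  induction r generalizing l with
  | nil => simp [dot]
  | cons a r ih =>
    cases l with
    | nil => simp [dot]
    | cons x l =>
      show a * x + dot r l = 0
      rw [h x (by simp), ih l (fun y hy => h y (by simp [hy]))]
      ring

lemma zero_of_lev (w : List ℤ) (ms : List (Bool × List (List ℤ))) (hl : ms.length ≤ w.length)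
    (h : Lev w ms) (hz : zall ms = true) (h0 : ∀ x ∈ w.drop ms.length, x = 0) :
    ∀ x ∈ w, x = 0 := by
  induction ms with
  | nil => simpa using h0
  | cons b ms ih =>
    obtain ⟨b, rs⟩ := b
    obtain ⟨h1, h2, h3⟩ := h
    unfold zall at hz
    rw [Bool.and_eq_true, Bool.or_eq_true] at hz
    rw [List.length_cons] at hl h0
    have hlt : ms.length < w.length := by omega
    refine ih (by omega) h3 hz.2 ?_
    have e2 : w.drop ms.length = w[ms.length] :: w.drop (ms.length + 1) :=
      List.drop_eq_getElem_cons hlt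
    have key : w[ms.length] = 0 := by
      rcases hz.1 with hb | hr
      · have := h1 hb
        rwa [List.getD_eq_getElem _ _ hlt] at this
      · rw [List.any_eq_true] at hr
        obtain ⟨r, hr, ha⟩ := hr
        have h4 := h2 r hr
        rw [← dot_drop, e2] at h4
        cases r with
        | nil => simp at ha
        | cons a r =>
          have h5 : a * w[ms.length] + dot r (w.drop (ms.length + 1)) = 0 := h4
          rw [dot_zero r _ h0, add_zero] at h5
          simp only [List.headD_cons, Bool.not_eq_true', beq_eq_false_iff_ne, ne_eq] at ha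
          exact (mul_eq_zero.mp h5).resolve_left ha
    intro x hx
    rw [e2, List.mem_cons] at hx
    rcases hx with rfl | hx
    · exact key
    · exact h0 x hx

lemma mkD_tl (f D D' : Fin 9 → ℤ) (h : ∀ s, (if D' s < 0 then D' s else f s) = D s) :
    mkD (tl f) (tl D') = tl D := by
  show [if D' 0 < 0 then D' 0 else f 0, if D' 1 < 0 then D' 1 else f 1,
    if D' 2 < 0 then D' 2 else f 2, if D' 3 < 0 then D' 3 else f 3,
    if D' 4 < 0 then D' 4 else f 4, if D' 5 < 0 then D' 5 else f 5,
    if D' 6 < 0 then D' 6 else f 6, if D' 7 < 0 then D' 7 else f 7,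
    if D' 8 < 0 then D' 8 else f 8] = _
  simp only [h]
  rfl

lemma wtc_of {D : Fin 9 → ℤ} (h : (∑ s : Fin 9, (s.val : ℤ) * D s) % 9 = 0) :
    wtc (tl D) = true := by
  rw [← dot_tl (fun s : Fin 9 => (s.val : ℤ)) D] at h
  unfold wtc
  rw [beq_iff_eq]
  exact h

lemma fz_eq {D : Fin 9 → ℤ} {pts : List (Fin 9 × ℕ)} (hp : ∀ p ∈ pts, 1 ≤ p.2 ∧ (p.2 : ℤ) = D p.1)
    (hA : ∀ s, 1 ≤ D s → ∃ p ∈ pts, p.1 = s) :
    fz pts = tl (fun s => if 1 ≤ D s then D s else 0) := by
  have key : ∀ s : Fin 9, (match pts.find? (fun p => p.1 == s) with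
      | some p => Int.ofNat p.2
      | none => (0 : ℤ)) = if 1 ≤ D s then D s else 0 := by
    intro s
    split
    · rename_i p hf
      have h1 := List.mem_of_find?_eq_some hf
      have h2 := List.find?_some hf
      rw [beq_iff_eq] at h2
      obtain ⟨h3, h4⟩ := hp p h1
      rw [← h2, if_pos (by omega), ← h4]
      rfl
    · rename_i hf
      rw [List.find?_eq_none] at hf
      rw [if_neg]
      intro h1
      obtain ⟨p, hp1, hp2⟩ := hA s h1
      exact hf p hp1 (by rw [hp2]; simp)
  unfold fz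
  exact (List.map_congr_left fun s _ => key s).trans rfl

/-- the positive and negative parts of the divisor of `1 - f` -/
lemma parts {D D' : Fin 9 → ℤ} (H : Shp D D') :
    pos (tl D') = pos (tl fun s => if 1 ≤ D s then D s else 0) ∧
    neg (tl D') = pos (tl fun s => if 1 ≤ D s then D s else 0) := by
  have key : ∀ s, ((D' s).toNat : ℤ) = D' s - D s + (if 1 ≤ D s then D s else 0) ∧
      ((-(D' s)).toNat : ℤ) = - D s + (if 1 ≤ D s then D s else 0) ∧
      (((if 1 ≤ D s then D s else 0).toNat : ℕ) : ℤ) = (if 1 ≤ D s then D s else 0) := by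
    intro s
    rcases H.alt s with ⟨h1, h2⟩ | ⟨h1, h2⟩ | ⟨h1, h2⟩ | ⟨h1, h2⟩
    · rw [h1, h2]; simp
    · rw [if_pos h1, h2]; simp; omega
    · rw [h1, if_neg (by norm_num)]; omega
    · rw [if_neg (by omega)]; omega
  have e0 := H.s0
  have e1 := H.s1
  rw [pos_tl, neg_tl, pos_tl]
  constructor
  · zify
    simp only [(key _).1, (key _).2.2, Finset.sum_add_distrib, Finset.sum_sub_distrib, e0, e1]
    ring
  · zify
    simp only [(key _).2.1, (key _).2.2, Finset.sum_add_distrib, Finset.sum_neg_distrib, e0]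
    ring

/-- **a fibre with solutions** -/
theorem okE_sound {D D' : Fin 9 → ℤ} (H : Shp D D') {c : Cfg} (hc : okE c = true)
    (hp : ∀ p ∈ c.pts, 1 ≤ p.2 ∧ (p.2 : ℤ) = D p.1) (h0 : 1 ≤ D 0)
    (hA : ∀ s, 1 ≤ D s → ∃ p ∈ c.pts, p.1 = s) : lk 9 (tl D) (tl D') = true := by
  unfold okE at hc
  rw [Bool.and_eq_true, Bool.and_eq_true, beq_iff_eq] at hc
  obtain ⟨hl, hv, he⟩ := hc
  have hz : ∀ p ∈ c.pts, (tl D').getD p.1.val 0 = 0 := by
    intro p hp'
    rw [tl_getD]
    have h1 := hp p hp'
    rcases H.alt p.1 with h | h | h | h <;> omega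
  have hr := rows_zero H (fun p hp' => ⟨(hp p hp').1, (hp p hp').2.le⟩) h0
  have L := lev_of hz hr c.lv hv
  have hf := fz_eq hp hA
  obtain ⟨p1, p2⟩ := parts H
  rw [← hf] at p1 p2
  have key := X10.enS_all he (w := tl D') (by unfold lvE; rw [List.length_map, hl]; rfl) L p1 p2
  have hm := mkD_tl (fun s => if 1 ≤ D s then D s else 0) D D' (by
    intro s
    show (if D' s < 0 then D' s else if 1 ≤ D s then D s else 0) = D s
    rcases H.alt s with ⟨h1, h2⟩ | ⟨h1, h2⟩ | ⟨h1, h2⟩ | ⟨h1, h2⟩
    · rw [if_neg (by omega), if_neg (by omega), h1]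
    · rw [if_neg (by omega), if_pos h1]
    · rw [if_neg (by omega), if_neg (by omega), h1]
    · rw [if_pos (by omega), h1])
  unfold chkE at key
  rw [hf, hm, wtc_of H.w1, wtc_of H.w0] at key
  simpa using key

/-- **a fibre without solutions** -/
theorem okZ_sound {D D' : Fin 9 → ℤ} (H : Shp D D') {c : Cfg} (hc : okZ c = true)
    (hp : ∀ p ∈ c.pts, 1 ≤ p.2 ∧ (p.2 : ℤ) ≤ D p.1) (h0 : 1 ≤ D 0) : False := by
  unfold okZ at hc
  rw [Bool.and_eq_true, Bool.and_eq_true, beq_iff_eq] at hc
  obtain ⟨hl, hv, he⟩ := hc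
  have hz : ∀ p ∈ c.pts, (tl D').getD p.1.val 0 = 0 := by
    intro p hp'
    rw [tl_getD]
    have h1 := hp p hp'
    rcases H.alt p.1 with h | h | h | h <;> omega
  have hr := rows_zero H hp h0
  have L := lev_of hz hr c.lv hv
  have len : (c.lv.map (fun b => (b.1, b.2.map Prod.fst))).length = 9 := by
    rw [List.length_map, hl]
  have key := zero_of_lev (tl D') _ (by rw [len]; rfl) L he (by
    intro x hx
    rw [len] at hx
    exact absurd hx (by simp [tl]))
  obtain ⟨s, hs⟩ := H.ne
  apply hs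
  apply key
  fin_cases s <;> simp [tl]

lemma mem_prods (k : ℕ) : ∀ l : List ℕ, l.length = k → (∀ x ∈ l, 1 ≤ x ∧ x ≤ 9) →
    l ∈ prods k := by
  induction k with
  | zero =>
    intro l hl _
    rw [List.length_eq_zero_iff] at hl
    subst hl
    simp [prods]
  | succ k ih =>
    intro l hl h
    cases l with
    | nil => simp at hl
    | cons a l =>
      rw [List.length_cons] at hl
      unfold prods
      rw [List.mem_flatMap]
      refine ⟨a, ?_, ?_⟩
      · obtain ⟨h1, h2⟩ := h a (by simp)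
        simp only [List.mem_cons, List.not_mem_nil, or_false]
        omega
      · rw [List.mem_map]
        exact ⟨l, ih l (by omega) (fun x hx => h x (by simp [hx])), rfl⟩

lemma leP_spec {l m : List (Fin 9 × ℕ)} (h : leP l m = true) :
    ∀ p ∈ l, ∃ q ∈ m, p.1 = q.1 ∧ p.2 ≤ q.2 := by
  induction l generalizing m with
  | nil => intro p hp; exact absurd hp (by simp)
  | cons a l ih =>
    cases m with
    | nil => unfold leP at h; exact absurd h (by simp)
    | cons b m =>
      unfold leP at h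
      rw [Bool.and_eq_true, Bool.and_eq_true, beq_iff_eq, decide_eq_true_eq] at h
      obtain ⟨h1, h2, h3⟩ := h
      intro p hp
      rw [List.mem_cons] at hp
      rcases hp with rfl | hp
      · exact ⟨b, by simp, h1, h2⟩
      · obtain ⟨q, hq, h4⟩ := ih h3 p hp
        exact ⟨q, by simp [hq], h4⟩

/-- `okZ` needs positive multiplicities -/
def posP (Z : List Cfg) : Bool := Z.all (fun c => c.pts.all (fun p => decide (1 ≤ p.2)))

/-- **one type of fibre** -/
theorem typ_sound {T : List (Fin 9)} {E Z : List Cfg} (hT : Typ T E Z) (hZ : posP Z = true)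
    {D D' : Fin 9 → ℤ} (H : Shp D D') (h0 : 1 ≤ D 0) (hA : ∀ s, 1 ≤ D s ↔ s ∈ T) :
    lk 9 (tl D) (tl D') = true := by
  set a : List ℕ := T.map (fun s => (D s).toNat) with ha
  have hmem : a ∈ prods T.length := by
    refine mem_prods _ a (by rw [ha, List.length_map]) ?_
    intro x hx
    rw [ha, List.mem_map] at hx
    obtain ⟨s, hs, rfl⟩ := hx
    have h1 := (hA s).mpr hs
    have h2 := (H.van s h1).1
    omega
  have hc := List.all_eq_true.mp hT.cov a hmem
  have hz : T.zip a = T.map (fun s => (s, (D s).toNat)) := by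
    rw [ha]
    have : ∀ T : List (Fin 9), T.zip (T.map (fun s => (D s).toNat)) =
        T.map (fun s => (s, (D s).toNat)) := by
      intro T
      induction T with
      | nil => rfl
      | cons t T ih => rw [List.map_cons, List.map_cons, List.zip_cons_cons, ih]
    exact this T
  rw [hz] at hc
  unfold cov at hc
  rw [Bool.or_eq_true, List.any_eq_true, List.any_eq_true] at hc
  rcases hc with ⟨c, hc, he⟩ | ⟨c, hc, he⟩
  · rw [beq_iff_eq] at he
    refine okE_sound H (List.all_eq_true.mp hT.okE c hc) ?_ h0 ?_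
    · intro p hp
      rw [he, List.mem_map] at hp
      obtain ⟨s, hs, rfl⟩ := hp
      have h1 := (hA s).mpr hs
      constructor
      · show 1 ≤ (D s).toNat; omega
      · show (((D s).toNat : ℕ) : ℤ) = D s; omega
    · intro s hs
      rw [he]
      exact ⟨(s, (D s).toNat), List.mem_map.mpr ⟨s, (hA s).mp hs, rfl⟩, rfl⟩
  · exfalso
    refine okZ_sound H (List.all_eq_true.mp hT.okZ c hc) ?_ h0
    intro p hp
    obtain ⟨q, hq, h1, h2⟩ := leP_spec he p hp
    rw [List.mem_map] at hq
    obtain ⟨s, hs, rfl⟩ := hq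
    have h3 := (hA s).mpr hs
    have h4 := List.all_eq_true.mp (List.all_eq_true.mp hZ c hc) p hp
    rw [decide_eq_true_eq] at h4
    refine ⟨h4, ?_⟩
    simp only at h1 h2
    rw [h1]
    omega

end Pool.Agent.K9
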