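import Pool.Agent.Lib_helper60.K9.T2
import Pool.Agent.Lib_helper60.K9.C0
import Pool.Agent.Lib_helper60.K9.C01
import Pool.Agent.Lib_helper60.K9.C02
import Pool.Agent.Lib_helper60.K9.C03
import Pool.Agent.Lib_helper60.K9.C04
import Pool.Agent.Lib_helper60.K9.C012
import Pool.Agent.Lib_helper60.K9.C013
import Pool.Agent.Lib_helper60.K9.C014
import Pool.Agent.Lib_helper60.K9.C015
import Pool.Agent.Lib_helper60.K9.C016
import Pool.Agent.Lib_helper60.K9.C017
import Pool.Agent.Lib_helper60.K9.C024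
import Pool.Agent.Lib_helper60.K9.C025
import Pool.Agent.Lib_helper60.K9.C026
import Pool.Agent.Lib_helper60.K9.C036

/-!
# A point of order nine, `d = 2`: the divisors of a solution are in the table
-/

set_option autoImplicit false
set_option linter.unusedSectionVars false
set_option linter.unusedSimpArgs false
set_option linter.unusedVariables false

namespace Pool.Agent.K9

open Polynomial WeierstrassCurve.Affine WithZero
open Pool.Agent.TN

/-- the types of fibres with at most three points -/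
def TT : List (List (Fin 9)) := [[0], [0, 1], [0, 2], [0, 3], [0, 4], [0, 1, 2], [0, 1, 3],
  [0, 1, 4], [0, 1, 5], [0, 1, 6], [0, 1, 7], [0, 2, 4], [0, 2, 5], [0, 2, 6], [0, 3, 6]]

lemma all_typ : ∀ T ∈ TT, ∃ E Z, Typ T E Z ∧ posP Z = true := by
  intro T hT
  simp only [TT, List.mem_cons, List.not_mem_nil, or_false] at hT
  rcases hT with rfl | rfl | rfl | rfl | rfl | rfl | rfl | rfl | rfl | rfl | rfl | rfl | rfl |
    rfl | rfl
  · exact ⟨_, _, typ0, by decide +kernel⟩
  · exact ⟨_, _, typ01, by decide +kernel⟩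
  · exact ⟨_, _, typ02, by decide +kernel⟩
  · exact ⟨_, _, typ03, by decide +kernel⟩
  · exact ⟨_, _, typ04, by decide +kernel⟩
  · exact ⟨_, _, typ012, by decide +kernel⟩
  · exact ⟨_, _, typ013, by decide +kernel⟩
  · exact ⟨_, _, typ014, by decide +kernel⟩
  · exact ⟨_, _, typ015, by decide +kernel⟩
  · exact ⟨_, _, typ016, by decide +kernel⟩
  · exact ⟨_, _, typ017, by decide +kernel⟩
  · exact ⟨_, _, typ024, by decide +kernel⟩
  · exact ⟨_, _, typ025, by decide +kernel⟩
  · exact ⟨_, _, typ026, by decide +kernel⟩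
  · exact ⟨_, _, typ036, by decide +kernel⟩

lemma zero_mem : ∀ T ∈ TT, (0 : Fin 9) ∈ T := by decide +kernel

lemma small : ∀ b c : Fin 9, ∃ T ∈ TT, ∃ σ : Fin 9,
    ∀ s, (s + σ = 0 ∨ s + σ = b ∨ s + σ = c) ↔ s ∈ T := by decide +kernel

lemma rot_tl (D : Fin 9 → ℤ) : rot (tl D) = tl (fun i => D (i + 1)) := rfl

lemma rot_iter (j : ℕ) : ∀ D : Fin 9 → ℤ,
    rot^[j] (tl D) = tl (fun i => D (i + j • (1 : Fin 9))) := by
  induction j with
  | zero => intro D; simp
  | succ j ih =>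
    intro D
    rw [Function.iterate_succ_apply, rot_tl, ih]
    congr 1
    funext i
    congr 1
    rw [succ_nsmul, add_assoc]

lemma val_smul : ∀ s : Fin 9, s.val • (1 : Fin 9) = s := by decide

section

variable {k : Type*} [Field k] {F : Type*} [Field F] [Algebra k F] {x y : F}

/-- **the divisors are in the table** if `f` has at most three zeros -/
theorem t9_look [CharZero k] (h : Gen (12 : k) 4 x y) {c₀ c₁ : k} (h0 : c₀ ≠ 0)
    (h1 : c₁ ≠ 0) {e e' : Fin 9 → ℤ}
    (hu : algebraMap k F c₀ * mon x y e + algebraMap k F c₁ * mon x y e' = 1)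
    (he' : ∃ s, OO e' s ≠ 0) {a b c : Fin 9} (ha : 1 ≤ OO e a) (hb : 1 ≤ OO e b)
    (hc : 1 ≤ OO e c) (hA : ∀ s, 1 ≤ OO e s → s = a ∨ s = b ∨ s = c) :
    look (tl (OO e)) (tl (OO e')) = true := by
  obtain ⟨T, hT, σ, hσ⟩ := small (b - a) (c - a)
  obtain ⟨E, Z, typ, hZ⟩ := all_typ T hT
  set τ : Fin 9 := σ + a with hτ
  obtain ⟨x', y', h', hs⟩ := exists_shift h τ
  rw [mon_shift τ hs e, mon_shift τ hs e'] at hu
  have H := shp h' h0 h1 hu (by
    obtain ⟨s, hs⟩ := he'
    refine ⟨s - τ, ?_⟩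
    rw [OO_shift, sub_add_cancel]
    exact hs)
  have kA : ∀ s, 1 ≤ OO (fun i => e (i + τ)) s ↔ s ∈ T := by
    intro s
    rw [OO_shift, ← hσ s]
    have e1 : s + τ = a ↔ s + σ = 0 := by
      rw [hτ, ← add_assoc, add_eq_right]
    have e2 : s + τ = b ↔ s + σ = b - a := by
      rw [hτ, ← add_assoc, eq_sub_iff_add_eq]
    have e3 : s + τ = c ↔ s + σ = c - a := by
      rw [hτ, ← add_assoc, eq_sub_iff_add_eq]
    rw [← e1, ← e2, ← e3]
    constructor
    · exact hA _
    · rintro (h2 | h2 | h2)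
      · rw [h2]; exact ha
      · rw [h2]; exact hb
      · rw [h2]; exact hc
  have key := typ_sound typ hZ H ((kA 0).mpr (zero_mem T hT)) kA
  have k2 := lk_spec 9 key (-τ).val (-τ).isLt
  rw [rot_iter, rot_iter, val_smul] at k2
  have k3 : ∀ e : Fin 9 → ℤ, (fun i => OO (fun i => e (i + τ)) (i + -τ)) = OO e := by
    intro e
    funext i
    rw [OO_shift, neg_add_cancel_right]
  rw [k3, k3] at k2
  exact k2

/-- one of three disjoint sets of residues has at most three elements -/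
lemma small3 (P Q R : Fin 9 → Prop) (hP : ∃ s, P s) (hQ : ∃ s, Q s) (hR : ∃ s, R s)
    (h1 : ∀ s, ¬ (P s ∧ Q s)) (h2 : ∀ s, ¬ (P s ∧ R s)) (h3 : ∀ s, ¬ (Q s ∧ R s)) :
    (∃ a b c, P a ∧ P b ∧ P c ∧ ∀ s, P s → s = a ∨ s = b ∨ s = c) ∨
    (∃ a b c, Q a ∧ Q b ∧ Q c ∧ ∀ s, Q s → s = a ∨ s = b ∨ s = c) ∨
    ∃ a b c, R a ∧ R b ∧ R c ∧ ∀ s, R s → s = a ∨ s = b ∨ s = c := by
  classical
  have three : ∀ P : Fin 9 → Prop, (∃ s, P s) → (Finset.univ.filter P).card ≤ 3 →
      ∃ a b c, P a ∧ P b ∧ P c ∧ ∀ s, P s → s = a ∨ s = b ∨ s = c := by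
    intro P hP hc
    obtain ⟨a, ha⟩ := hP
    by_cases hb : ∃ b, P b ∧ b ≠ a
    · obtain ⟨b, hb, hba⟩ := hb
      by_cases hd : ∃ c, P c ∧ c ≠ a ∧ c ≠ b
      · obtain ⟨c, hc', hca, hcb⟩ := hd
        refine ⟨a, b, c, ha, hb, hc', fun s hs => ?_⟩
        by_contra hne
        push Not at hne
        have h4 : ({a, b, c, s} : Finset (Fin 9)) ⊆ Finset.univ.filter P := by
          intro z hz
          simp only [Finset.mem_insert, Finset.mem_singleton] at hz
          rcases hz with rfl | rfl | rfl | rfl <;> simp [*]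
        have h5 := Finset.card_le_card h4
        have h6 : ({a, b, c, s} : Finset (Fin 9)).card = 4 := by
          rw [Finset.card_insert_of_notMem, Finset.card_eq_three.mpr
            ⟨b, c, s, Ne.symm hcb, Ne.symm hne.2.1, Ne.symm hne.2.2, rfl⟩]
          simp only [Finset.mem_insert, Finset.mem_singleton, not_or]
          exact ⟨Ne.symm hba, Ne.symm hca, Ne.symm hne.1⟩
        omega
      · push Not at hd
        refine ⟨a, b, b, ha, hb, hb, fun s hs => ?_⟩
        by_cases hsa : s = a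
        · exact Or.inl hsa
        · exact Or.inr (Or.inl (hd s hs hsa))
    · push Not at hb
      exact ⟨a, a, a, ha, ha, ha, fun s hs => Or.inl (hb s hs)⟩
  by_contra hcon
  push Not at hcon
  obtain ⟨c1, c2, c3⟩ := hcon
  have d1 : 4 ≤ (Finset.univ.filter P).card := by
    by_contra hc
    obtain ⟨a, b, c, ha, hb, hc', h⟩ := three P hP (by omega)
    obtain ⟨s, hs, q1, q2, q3⟩ := c1 a b c ha hb hc'
    rcases h s hs with h | h | h
    · exact q1 h
    · exact q2 h
    · exact q3 h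
  have d2 : 4 ≤ (Finset.univ.filter Q).card := by
    by_contra hc
    obtain ⟨a, b, c, ha, hb, hc', h⟩ := three Q hQ (by omega)
    obtain ⟨s, hs, q1, q2, q3⟩ := c2 a b c ha hb hc'
    rcases h s hs with h | h | h
    · exact q1 h
    · exact q2 h
    · exact q3 h
  have d3 : 4 ≤ (Finset.univ.filter R).card := by
    by_contra hc
    obtain ⟨a, b, c, ha, hb, hc', h⟩ := three R hR (by omega)
    obtain ⟨s, hs, q1, q2, q3⟩ := c3 a b c ha hb hc'
    rcases h s hs with h | h | h
    · exact q1 h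
    · exact q2 h
    · exact q3 h
  have e1 : Disjoint (Finset.univ.filter P) (Finset.univ.filter Q) := by
    rw [Finset.disjoint_filter]; exact fun s _ hs hs' => h1 s ⟨hs, hs'⟩
  have e2 : Disjoint (Finset.univ.filter P ∪ Finset.univ.filter Q) (Finset.univ.filter R) := by
    rw [Finset.disjoint_union_left, Finset.disjoint_filter, Finset.disjoint_filter]
    exact ⟨fun s _ hs hs' => h2 s ⟨hs, hs'⟩, fun s _ hs hs' => h3 s ⟨hs, hs'⟩⟩
  have e3 := Finset.card_le_univ ((Finset.univ.filter P ∪ Finset.univ.filter Q) ∪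
    Finset.univ.filter R)
  rw [Finset.card_union_of_disjoint e2, Finset.card_union_of_disjoint e1] at e3
  simp only [Fintype.card_fin] at e3
  omega

lemma ex_pos {D : Fin 9 → ℤ} (hs : ∑ s, D s = 0) (h : ∃ s, D s ≠ 0) : ∃ s, 1 ≤ D s := by
  by_contra hc
  push Not at hc
  obtain ⟨s, hs'⟩ := h
  have h2 : ∑ s, D s < 0 := by
    refine Finset.sum_neg' (fun i _ => by have := hc i; omega) ⟨s, Finset.mem_univ _, ?_⟩
    have := hc s
    omega
  omega

lemma ex_neg {D : Fin 9 → ℤ} (hs : ∑ s, D s = 0) (h : ∃ s, D s ≠ 0) : ∃ s, D s ≤ -1 := by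
  obtain ⟨s, h2⟩ := ex_pos (D := fun s => - D s) (by rw [Finset.sum_neg_distrib, hs, neg_zero])
    (by obtain ⟨s, hs⟩ := h; exact ⟨s, neg_ne_zero.mpr hs⟩)
  exact ⟨s, by omega⟩

end

end Pool.Agent.K9
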